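import Pool.Agent.H44.IC.PropDefs

/-!
# Completeness and orthonormality of the irreducible characters of a finite group

(character theory over ℂ, for functions G → ℂ)
-/

set_option linter.unusedSectionVars false

open scoped ComplexConjugate ComplexOrder MonoidAlgebra
noncomputable section
universe u
namespace Pool.Agent.H44.IC

open Representation


theorem trace_inv_eq_conj {G : Type*} [Group G] [Fintype G] {V : Type*} [AddCommGroup V] [Module ℂ V]
    [FiniteDimensional ℂ V] (ρ : Representation ℂ G V) (g : G) :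
    ρ.character g⁻¹ = conj (ρ.character g) := by
  classical
  let b := Module.finBasis ℂ V
  let A : G → Matrix (Fin (Module.finrank ℂ V)) (Fin (Module.finrank ℂ V)) ℂ :=
    fun h => LinearMap.toMatrix b b (ρ h)
  have hmul : ∀ x y, A (x * y) = A x * A y := by
    intro x y
    simp only [A, map_mul, LinearMap.toMatrix_mul]
  have hone : A 1 = 1 := by simp [A]
  let P := ∑ h, (A h).conjTranspose * (A h)
  have hP : (A g).conjTranspose * P * A g = P := by
    simp only [P, Finset.mul_sum, Finset.sum_mul]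
    refine Fintype.sum_equiv (Equiv.mulRight g) _ _ ?_
    intro h
    simp only [Equiv.coe_mulRight, hmul, Matrix.conjTranspose_mul]
    simp only [Matrix.mul_assoc]
  have hpd : P.PosDef := by
    have h1 : P = (A 1).conjTranspose * A 1 + ∑ h ∈ Finset.univ.erase 1, (A h).conjTranspose * (A h) := by
      exact (Finset.add_sum_erase _ (fun h => (A h).conjTranspose * (A h)) (Finset.mem_univ (1 : G))).symm
    rw [h1, hone]
    refine Matrix.PosDef.add_posSemidef ?_ ?_
    · simpa using (Matrix.PosDef.one : (1 : Matrix (Fin (Module.finrank ℂ V)) (Fin (Module.finrank ℂ V)) ℂ).PosDef)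
    · refine Matrix.posSemidef_sum _ ?_
      intro h _
      exact Matrix.posSemidef_conjTranspose_mul_self _
  have hu : IsUnit P := hpd.isUnit
  obtain ⟨U, hU⟩ := hu
  have h2 : A g * A g⁻¹ = 1 := by rw [← hmul, mul_inv_cancel, hone]
  have h3 : (A g).conjTranspose * P = P * A g⁻¹ := by
    calc (A g).conjTranspose * P = (A g).conjTranspose * P * (A g * A g⁻¹) := by rw [h2, mul_one]
      _ = ((A g).conjTranspose * P * A g) * A g⁻¹ := by simp only [Matrix.mul_assoc]
      _ = P * A g⁻¹ := by rw [hP]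
  have h4 : A g⁻¹ = (↑U⁻¹ : Matrix _ _ ℂ) * (A g).conjTranspose * (U : Matrix _ _ ℂ) := by
    rw [mul_assoc, hU, h3, ← hU, Units.inv_mul_cancel_left]
  have h5 : ρ.character g⁻¹ = (A g⁻¹).trace := LinearMap.trace_eq_matrix_trace ℂ b (ρ g⁻¹)
  have h6 : ρ.character g = (A g).trace := LinearMap.trace_eq_matrix_trace ℂ b (ρ g)
  rw [h5, h6, h4, Matrix.trace_units_conj', Matrix.trace_conjTranspose]
  rfl




/-- For an irreducible representation, the central element attached to a function orthogonal to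
the character acts as zero. -/
theorem op_eq_zero {G : Type*} [Group G] [Fintype G] {V : Type*} [AddCommGroup V] [Module ℂ V]
    [FiniteDimensional ℂ V] (ρ : Representation ℂ G V) [hρ : ρ.IsIrreducible] (f : G → ℂ)
    (hf : IsClassFn f) (h : ∑ g, f g * ρ.character g⁻¹ = 0) :
    ∑ g, f g • ρ g⁻¹ = 0 := by
  classical
  let T : V →ₗ[ℂ] V := ∑ g, f g • ρ g⁻¹
  have hT : ∀ (x : G) (v : V), T (ρ x v) = ρ x (T v) := by
    intro x v
    simp only [T, LinearMap.sum_apply, LinearMap.smul_apply, map_sum, map_smul]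
    refine Fintype.sum_equiv (MulAut.conj x⁻¹).toEquiv _ _ ?_
    intro g
    have h1 : f (MulAut.conj x⁻¹ g) = f g := by
      rw [MulAut.conj_apply]; exact hf x⁻¹ g
    change f g • (ρ g⁻¹) ((ρ x) v) = f (MulAut.conj x⁻¹ g) • (ρ x) ((ρ (MulAut.conj x⁻¹ g)⁻¹) v)
    rw [h1, ← Module.End.mul_apply, ← Module.End.mul_apply, ← map_mul, ← map_mul]
    congr 3
    rw [MulAut.conj_apply]; group
  let TI : IntertwiningMap ρ ρ := LinearMap.intertwiningMap_of_isIntertwiningMap ρ ρ T hT
  obtain ⟨c, hc⟩ := (Representation.IsIrreducible.algebraMap_intertwiningMap_bijective_of_isAlgClosed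
    (ρ := ρ)).2 TI
  have hc' : T = c • LinearMap.id := by
    have := congrArg IntertwiningMap.toLinearMap hc
    exact this.symm
  have htr : LinearMap.trace ℂ V T = 0 := by
    rw [← h]
    simp only [T, map_sum, map_smul, smul_eq_mul]
    rfl
  have hne : Nontrivial V := by
    by_contra hcon
    rw [not_nontrivial_iff_subsingleton] at hcon
    obtain ⟨a, b, hab⟩ := hρ.toNontrivial
    apply hab
    apply Subrepresentation.toSubmodule_injective
    exact Subsingleton.elim _ _
  have hpos : 0 < Module.finrank ℂ V := Module.finrank_pos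
  rw [hc', map_smul, LinearMap.trace_id, smul_eq_mul, mul_eq_zero] at htr
  rcases htr with h0 | h0
  · change T = 0
    rw [hc', h0, zero_smul]
  · exfalso
    have : Module.finrank ℂ V = 0 := by exact_mod_cast h0
    omega







set_option backward.isDefEq.respectTransparency false in
theorem complete_aux {G : Type u} [Group G] [Fintype G] (f : G → ℂ) (hf : IsClassFn f)
    (h : ∀ χ : G → ℂ, IsIrrChar G χ → ip f χ = 0)
    (N : Submodule (MonoidAlgebra ℂ G) (MonoidAlgebra ℂ G)) (hN : IsSimpleModule (MonoidAlgebra ℂ G) N) (v : N) :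
    (∑ g, MonoidAlgebra.single g⁻¹ (f g)) • v = 0 := by
  classical
  have hirr := (isSimpleModule_iff_irreducible_ofModule (k := ℂ) (G := G) N).1 hN
  have hfd : FiniteDimensional ℂ (RestrictScalars ℂ (MonoidAlgebra ℂ G) N) := by
    let φ : RestrictScalars ℂ (MonoidAlgebra ℂ G) N →ₗ[ℂ] MonoidAlgebra ℂ G :=
      { toFun := fun x => ((RestrictScalars.addEquiv ℂ (MonoidAlgebra ℂ G) N x : N) : MonoidAlgebra ℂ G)
        map_add' := fun x y => by simp
        map_smul' := fun c x => by
          simp [RestrictScalars.addEquiv_map_smul, Algebra.smul_def] }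
    refine Module.Finite.of_injective φ ?_
    intro x y hxy
    apply (RestrictScalars.addEquiv ℂ (MonoidAlgebra ℂ G) N).injective
    exact Subtype.ext hxy
  set ρ : Representation ℂ G (RestrictScalars ℂ (MonoidAlgebra ℂ G) N) := ofModule N with hρ
  have h1 : ip f ρ.character = 0 := h _ ⟨_, _, _, hfd, ρ, hirr, rfl⟩
  have h2 : ∑ g, f g * ρ.character g⁻¹ = 0 := by
    unfold ip at h1
    rcases mul_eq_zero.1 h1 with h0 | h0
    · exfalso
      have : (Fintype.card G : ℂ) = 0 := inv_eq_zero.1 h0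
      have : Fintype.card G = 0 := by exact_mod_cast this
      exact Fintype.card_ne_zero this
    · rw [← h0]
      exact Finset.sum_congr rfl fun g _ => by rw [trace_inv_eq_conj]
  have h3 := op_eq_zero ρ f hf h2
  have h4 := LinearMap.congr_fun h3 ((RestrictScalars.addEquiv ℂ (MonoidAlgebra ℂ G) N).symm v)
  simp only [LinearMap.sum_apply, LinearMap.smul_apply, LinearMap.zero_apply] at h4
  have h5 : ∀ g : G, f g • (ρ g⁻¹) ((RestrictScalars.addEquiv ℂ (MonoidAlgebra ℂ G) N).symm v)
      = (RestrictScalars.addEquiv ℂ (MonoidAlgebra ℂ G) N).symm (MonoidAlgebra.single g⁻¹ (f g) • v) := by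
    intro g
    have h6 : MonoidAlgebra.single g⁻¹ (f g) = algebraMap ℂ (MonoidAlgebra ℂ G) (f g) * MonoidAlgebra.single g⁻¹ 1 := by
      simp
    rw [h6, mul_smul]
    apply (RestrictScalars.addEquiv ℂ (MonoidAlgebra ℂ G) N).injective
    rw [AddEquiv.apply_symm_apply, RestrictScalars.addEquiv_map_smul]
    congr 1
  simp only [h5] at h4
  rw [← map_sum] at h4
  rw [Finset.sum_smul]
  have h7 := (RestrictScalars.addEquiv ℂ (MonoidAlgebra ℂ G) N).symm.injective (h4.trans (map_zero _).symm)
  exact h7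

theorem irr_complete {G : Type u} [Group G] [Fintype G] (f : G → ℂ) (hf : IsClassFn f)
    (h : ∀ χ : G → ℂ, IsIrrChar G χ → ip f χ = 0) : f = 0 := by
  classical
  let a : MonoidAlgebra ℂ G := ∑ g, MonoidAlgebra.single g⁻¹ (f g)
  have hcomm : ∀ x : MonoidAlgebra ℂ G, x * a = a * x := by
    intro x
    induction x using MonoidAlgebra.induction_on with
    | of y =>
      simp only [a, Finset.mul_sum, Finset.sum_mul, MonoidAlgebra.of_apply, MonoidAlgebra.single_mul_single, one_mul, mul_one]
      refine Fintype.sum_equiv (MulAut.conj y).toEquiv _ _ ?_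
      intro g
      change MonoidAlgebra.single (y * g⁻¹) (f g) = MonoidAlgebra.single ((MulAut.conj y g)⁻¹ * y) (f (MulAut.conj y g))
      rw [MulAut.conj_apply, hf]
      congr 1
      group
    | add x y hx hy => rw [add_mul, mul_add, hx, hy]
    | smul r x hx => rw [smul_mul_assoc, mul_smul_comm, hx]
  let K : Submodule (MonoidAlgebra ℂ G) (MonoidAlgebra ℂ G) := LinearMap.ker (LinearMap.toSpanSingleton (MonoidAlgebra ℂ G) (MonoidAlgebra ℂ G) a)
  have hK : (⊤ : Submodule (MonoidAlgebra ℂ G) (MonoidAlgebra ℂ G)) ≤ K := by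
    rw [← IsSemisimpleModule.sSup_simples_eq_top (MonoidAlgebra ℂ G) (MonoidAlgebra ℂ G)]
    apply sSup_le
    intro N hN v hv
    have := complete_aux f hf h N hN ⟨v, hv⟩
    have h1 : a * v = 0 := by
      have := congrArg Subtype.val this
      simpa using this
    rw [LinearMap.mem_ker, LinearMap.toSpanSingleton_apply, smul_eq_mul, hcomm, h1]
  have h1 : (1 : MonoidAlgebra ℂ G) ∈ K := hK trivial
  rw [LinearMap.mem_ker, LinearMap.toSpanSingleton_apply, one_smul] at h1
  funext g
  have h2 : a.coeff g⁻¹ = f g := by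
    simp only [a, MonoidAlgebra.coeff_sum, Finsupp.finsetSum_apply]
    rw [Finset.sum_eq_single g]
    · simp
    · intro b _ hb
      rw [MonoidAlgebra.coeff_single, Finsupp.single_apply, if_neg]
      intro h; exact hb (inv_injective h)
    · intro h; exact absurd (Finset.mem_univ g) h
  rw [← h2, h1]; rfl




theorem conj_unit_eq_inv {C : Type*} [Group C] [Finite C] (l : C →* ℂˣ) (x : C) :
    conj ((l x : ℂˣ) : ℂ) = (((l x)⁻¹ : ℂˣ) : ℂ) := by
  have h1 : ((l x : ℂˣ) : ℂ) ^ Nat.card C = 1 := by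
    rw [← Units.val_pow_eq_pow_val, ← map_pow, pow_card_eq_one', map_one, Units.val_one]
  have h2 : ‖((l x : ℂˣ) : ℂ)‖ = 1 :=
    Complex.norm_eq_one_of_pow_eq_one h1 Nat.card_pos.ne'
  rw [Units.val_inv_eq_inv_val, Complex.inv_eq_conj h2]

/-- Multiplicities of linear characters of subgroups in characters are natural numbers. -/
theorem mult_nat {G : Type*} [Group G] [Fintype G] {V : Type*} [AddCommGroup V] [Module ℂ V]
    [FiniteDimensional ℂ V] (ρ : Representation ℂ G V) (C : Subgroup G) [Fintype C] (l : C →* ℂˣ) :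
    ∃ m : ℕ, (Nat.card C : ℂ)⁻¹ * ∑ x : C, ρ.character (x : G) * conj ((l x : ℂˣ) : ℂ) = m := by
  classical
  let τ : Representation ℂ C V :=
    { toFun := fun x => ((((l x)⁻¹ : ℂˣ) : ℂ)) • ρ (x : G)
      map_one' := by simp
      map_mul' := fun x y => by
        simp only [map_mul, mul_inv, Subgroup.coe_mul, Units.val_mul]
        rw [smul_mul_smul_comm] }
  have hcard : (Nat.card C : ℂ) ≠ 0 := by exact_mod_cast Nat.card_pos.ne'
  let _ : Invertible (Nat.card C : ℂ) := invertibleOfNonzero hcard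
  refine ⟨Module.finrank ℂ (invariants τ), ?_⟩
  rw [← card_inv_mul_sum_char_eq_finrank τ]
  congr 1
  refine Finset.sum_congr rfl fun x _ => ?_
  rw [conj_unit_eq_inv]
  simp only [character, τ, MonoidHom.coe_mk, OneHom.coe_mk, map_smul, smul_eq_mul]
  rw [mul_comm]


theorem indChar_isClassFn {G : Type*} [Group G] [Fintype G] (C : Subgroup G) (l : C →* ℂˣ) :
    IsClassFn (indChar C l) := by
  classical
  intro y g
  unfold indChar
  congr 1
  refine Fintype.sum_equiv (Equiv.mulLeft y⁻¹) _ _ ?_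
  intro x
  have h1 : x⁻¹ * (y * g * y⁻¹) * x = ((Equiv.mulLeft y⁻¹) x)⁻¹ * g * ((Equiv.mulLeft y⁻¹) x) := by
    rw [Equiv.coe_mulLeft]; group
  simp only [h1]

open Classical in
theorem frobenius {G : Type*} [Group G] [Fintype G] (f : G → ℂ) (hf : IsClassFn f)
    (C : Subgroup G) (l : C →* ℂˣ) :
    ip f (indChar C l) = (Nat.card C : ℂ)⁻¹ * ∑ x : C, f (x : G) * conj ((l x : ℂˣ) : ℂ) := by
  classical
  let L : G → ℂ := fun g => if h : g ∈ C then ((l ⟨g, h⟩ : ℂˣ) : ℂ) else 0
  have h1 : ∀ g, indChar C l g = (Nat.card C : ℂ)⁻¹ * ∑ x : G, L (x⁻¹ * g * x) := fun g => rfl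
  have h2 : ∀ x : G, ∑ g, f g * conj (L (x⁻¹ * g * x)) = ∑ g, f g * conj (L g) := by
    intro x
    refine Fintype.sum_equiv (MulAut.conj x⁻¹).toEquiv _ _ ?_
    intro g
    have h3 : (MulAut.conj x⁻¹).toEquiv g = x⁻¹ * g * x := by
      change MulAut.conj x⁻¹ g = _
      rw [MulAut.conj_apply, inv_inv]
    rw [h3]
    congr 1
    have := hf x⁻¹ g
    rw [inv_inv] at this
    exact this.symm
  have h4 : ∑ g, f g * conj (L g) = ∑ x : C, f (x : G) * conj ((l x : ℂˣ) : ℂ) := by
    have h5 : ∑ g, f g * conj (L g) = ∑ g ∈ Finset.univ.filter (· ∈ C), f g * conj (L g) := by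
      rw [Finset.sum_filter]
      refine Finset.sum_congr rfl fun g _ => ?_
      by_cases hg : g ∈ C
      · rw [if_pos hg]
      · rw [if_neg hg]; simp only [L, dif_neg hg, map_zero, mul_zero]
    rw [h5]
    symm
    refine Finset.sum_bij (fun x _ => (x : G)) ?_ ?_ ?_ ?_
    · intro x _; simp
    · intro x _ y _ h; exact Subtype.ext h
    · intro g hg; exact ⟨⟨g, (Finset.mem_filter.1 hg).2⟩, Finset.mem_univ _, rfl⟩
    · intro x _
      simp only [L, dif_pos x.2]
  have hG : (Fintype.card G : ℂ) ≠ 0 := by exact_mod_cast Fintype.card_ne_zero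
  unfold ip
  simp only [h1, map_mul, map_sum, map_inv₀, Complex.conj_natCast]
  calc (Fintype.card G : ℂ)⁻¹ * ∑ g, f g * ((Nat.card C : ℂ)⁻¹ * ∑ x, conj (L (x⁻¹ * g * x)))
      = (Fintype.card G : ℂ)⁻¹ * ((Nat.card C : ℂ)⁻¹ * ∑ x : G, ∑ g, f g * conj (L (x⁻¹ * g * x))) := by
        congr 1
        rw [Finset.sum_comm, Finset.mul_sum]
        refine Finset.sum_congr rfl fun g _ => ?_
        rw [Finset.mul_sum, Finset.mul_sum, Finset.mul_sum]
        refine Finset.sum_congr rfl fun x _ => ?_
        ring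
    _ = (Nat.card C : ℂ)⁻¹ * ∑ g, f g * conj (L g) := by
        simp only [h2, Finset.sum_const, Finset.card_univ, nsmul_eq_mul]
        field_simp
    _ = _ := by rw [h4]




/-- sums over a cyclic subgroup -/
theorem sum_zpowers {G : Type*} [Group G] [Fintype G] (c : G) [Fintype (Subgroup.zpowers c)]
    (F : Subgroup.zpowers c → ℂ) :
    ∑ x, F x = ∑ j ∈ Finset.range (orderOf c), F ⟨c ^ j, Subgroup.npow_mem_zpowers c j⟩ := by
  rw [← Fin.sum_univ_eq_sum_range (fun j => F ⟨c ^ j, Subgroup.npow_mem_zpowers c j⟩) (orderOf c)]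
  symm
  refine Fintype.sum_equiv (finEquivZPowers (isOfFinOrder_of_finite c)) _ _ ?_
  intro j
  rfl

open Classical in
theorem coef_eq_sum {G : Type*} [Group G] [Fintype G] (f : G → ℂ) (c : G)
    (l : Subgroup.zpowers c →* ℂˣ) :
    (Nat.card (Subgroup.zpowers c) : ℂ)⁻¹ * ∑ x : Subgroup.zpowers c, f (x : G) * conj ((l x : ℂˣ) : ℂ)
      = coef f c (conj ((l ⟨c, Subgroup.mem_zpowers c⟩ : ℂˣ) : ℂ)) := by
  rw [sum_zpowers, Nat.card_zpowers]
  unfold coef
  congr 1
  refine Finset.sum_congr rfl fun j _ => ?_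
  congr 1
  rw [← map_pow, ← Units.val_pow_eq_pow_val, ← map_pow]
  rfl







section ipLemmas
variable {G : Type*} [Group G] [Fintype G]

theorem ip_add_left (f g h : G → ℂ) : ip (f + g) h = ip f h + ip g h := by
  unfold ip
  rw [← mul_add, ← Finset.sum_add_distrib]
  congr 1
  refine Finset.sum_congr rfl fun x _ => ?_
  rw [Pi.add_apply, add_mul]

theorem ip_smul_left (c : ℂ) (f h : G → ℂ) : ip (c • f) h = c * ip f h := by
  unfold ip
  simp only [Pi.smul_apply, smul_eq_mul, mul_assoc, ← Finset.mul_sum]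
  ring

theorem ip_zero_left (h : G → ℂ) : ip 0 h = 0 := by
  unfold ip; simp

theorem ip_neg_left (f h : G → ℂ) : ip (-f) h = - ip f h := by
  have := ip_smul_left (-1) f h
  simpa using this

theorem ip_sub_left (f g h : G → ℂ) : ip (f - g) h = ip f h - ip g h := by
  rw [sub_eq_add_neg, ip_add_left, ip_neg_left, sub_eq_add_neg]

theorem ip_conj (f h : G → ℂ) : conj (ip f h) = ip h f := by
  unfold ip
  simp only [map_mul, map_sum, map_inv₀, Complex.conj_natCast, Complex.conj_conj]
  congr 1
  refine Finset.sum_congr rfl fun x _ => ?_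
  rw [mul_comm]

theorem ip_add_right (f g h : G → ℂ) : ip h (f + g) = ip h f + ip h g := by
  rw [← ip_conj, ip_add_left, map_add, ip_conj, ip_conj]

theorem ip_neg_right (f h : G → ℂ) : ip h (-f) = - ip h f := by
  rw [← ip_conj, ip_neg_left, map_neg, ip_conj]

theorem ip_zero_right (h : G → ℂ) : ip h 0 = 0 := by
  rw [← ip_conj, ip_zero_left, map_zero]

theorem ip_smul_right (c : ℂ) (f h : G → ℂ) : ip h (c • f) = conj c * ip h f := by
  rw [← ip_conj, ip_smul_left, map_mul, ip_conj]

theorem ip_sum_left {ι : Type*} (s : Finset ι) (F : ι → G → ℂ) (h : G → ℂ) :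
    ip (∑ i ∈ s, F i) h = ∑ i ∈ s, ip (F i) h := by
  classical
  induction s using Finset.induction_on with
  | empty => simp [ip_zero_left]
  | insert a s ha ih => rw [Finset.sum_insert ha, Finset.sum_insert ha, ip_add_left, ih]

theorem ip_sum_right {ι : Type*} (s : Finset ι) (F : ι → G → ℂ) (h : G → ℂ) :
    ip h (∑ i ∈ s, F i) = ∑ i ∈ s, ip h (F i) := by
  classical
  induction s using Finset.induction_on with
  | empty => simp [ip_zero_right]
  | insert a s ha ih => rw [Finset.sum_insert ha, Finset.sum_insert ha, ip_add_right, ih]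

theorem isClassFn_sum {ι : Type*} (s : Finset ι) (F : ι → G → ℂ) (h : ∀ i ∈ s, IsClassFn (F i)) :
    IsClassFn (∑ i ∈ s, F i) := by
  intro x g
  simp only [Finset.sum_apply]
  exact Finset.sum_congr rfl fun i hi => h i hi x g

theorem isClassFn_smul (c : ℂ) (f : G → ℂ) (h : IsClassFn f) : IsClassFn (c • f) := by
  intro x g
  rw [Pi.smul_apply, Pi.smul_apply, h x g]

theorem isClassFn_sub (f g : G → ℂ) (h : IsClassFn f) (h' : IsClassFn g) : IsClassFn (f - g) := by
  intro x y
  rw [Pi.sub_apply, Pi.sub_apply, h x y, h' x y]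

theorem isClassFn_one : IsClassFn (1 : G → ℂ) := fun _ _ => rfl

end ipLemmas

section irr
variable {G : Type u} [Group G] [Fintype G]

theorem IsIrrChar.isClassFn {χ : G → ℂ} (h : IsIrrChar G χ) : IsClassFn χ := by
  obtain ⟨V, _, _, _, ρ, _, rfl⟩ := h
  intro x g
  exact char_conj ρ g x

open Classical in
theorem irr_orthonormal {χ ψ : G → ℂ} (hχ : IsIrrChar G χ) (hψ : IsIrrChar G ψ) :
    ip χ ψ = if χ = ψ then 1 else 0 := by
  obtain ⟨V, iV1, iV2, iV3, ρ, hρ, rfl⟩ := hχ
  obtain ⟨W, iW1, iW2, iW3, σ, hσ, rfl⟩ := hψ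
  have hcard : (Nat.card G : ℂ) ≠ 0 := by exact_mod_cast Nat.card_pos.ne'
  have hinv : Invertible (Nat.card G : ℂ) := invertibleOfNonzero hcard
  have key : ip ρ.character σ.character = if Nonempty (Equiv σ ρ) then 1 else 0 := by
    rw [← char_orthonormal ρ σ]
    unfold ip
    rw [Nat.card_eq_fintype_card]
    congr 1
    refine Finset.sum_congr rfl fun x _ => ?_
    rw [trace_inv_eq_conj]
  have key1 : ip ρ.character ρ.character = 1 := by
    have h0 := char_orthonormal ρ ρ
    rw [if_pos ⟨Representation.Equiv.refl ρ⟩] at h0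
    rw [← h0]
    unfold ip
    rw [Nat.card_eq_fintype_card]
    congr 1
    refine Finset.sum_congr rfl fun x _ => ?_
    rw [trace_inv_eq_conj]
  by_cases hn : Nonempty (Equiv σ ρ)
  · rw [key, if_pos hn]
    obtain ⟨φ⟩ := hn
    rw [if_pos (char_iso φ).symm]
  · rw [if_neg]
    · rw [key, if_neg hn]
    · intro heq
      rw [← heq, key1, if_neg hn] at key
      exact one_ne_zero key

variable (G) in
theorem irr_finite : Finite {χ : G → ℂ // IsIrrChar G χ} := by
  classical
  have hli : LinearIndependent ℂ (fun χ : {χ : G → ℂ // IsIrrChar G χ} => (χ : G → ℂ)) := by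
    rw [linearIndependent_iff']
    intro s g hg i hi
    have h1 := congrArg (fun f => ip f (i : G → ℂ)) hg
    simp only [ip_zero_left] at h1
    rw [ip_sum_left] at h1
    simp only [ip_smul_left] at h1
    rw [Finset.sum_eq_single i] at h1
    · rw [irr_orthonormal i.2 i.2, if_pos rfl, mul_one] at h1
      exact h1
    · intro b _ hb
      rw [irr_orthonormal b.2 i.2, if_neg, mul_zero]
      intro h; exact hb (Subtype.ext h)
    · intro h; exact absurd hi h
  exact hli.finite

theorem irr_expand [Fintype {χ : G → ℂ // IsIrrChar G χ}] (f : G → ℂ) (hf : IsClassFn f) :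
    f = ∑ χ : {χ : G → ℂ // IsIrrChar G χ}, ip f χ.1 • χ.1 := by
  classical
  rw [← sub_eq_zero]
  apply irr_complete
  · apply isClassFn_sub _ _ hf
    apply isClassFn_sum
    intro χ _
    exact isClassFn_smul _ _ χ.2.isClassFn
  · intro ψ hψ
    rw [ip_sub_left, ip_sum_left]
    simp only [ip_smul_left]
    rw [Finset.sum_eq_single (⟨ψ, hψ⟩ : {χ : G → ℂ // IsIrrChar G χ})]
    · rw [irr_orthonormal hψ hψ, if_pos rfl, mul_one, sub_self]
    · intro b _ hb
      rw [irr_orthonormal b.2 hψ, if_neg, mul_zero]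
      intro h; exact hb (Subtype.ext h)
    · intro h; exact absurd (Finset.mem_univ _) h

theorem ip_expand [Fintype {χ : G → ℂ // IsIrrChar G χ}] (f g : G → ℂ) (hg : IsClassFn g) :
    ip f g = ∑ χ : {χ : G → ℂ // IsIrrChar G χ}, ip f χ.1 * conj (ip g χ.1) := by
  conv_lhs => rw [irr_expand g hg]
  rw [ip_sum_right]
  refine Finset.sum_congr rfl fun χ _ => ?_
  rw [ip_smul_right, mul_comm]

end irr


end Pool.Agent.H44.IC
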