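import Pool.Agent.H44.IC.NecSelf

/-! Counting conjugates of generators. -/

open scoped ComplexConjugate
noncomputable section
namespace Pool.Agent.H44.IC

variable {G : Type*} [Group G] [Fintype G]

omit [Fintype G] in
theorem zpowers_conj (x z : G) : Subgroup.zpowers (x * z * x⁻¹)
    = (Subgroup.zpowers z).map (MulAut.conj x).toMonoidHom := by
  rw [MonoidHom.map_zpowers]; rfl

open Classical in
theorem sum_Xset (u : G) (H : G → ℂ) (hH : IsClassFn H) :
    (Nat.card (Subgroup.normalizer (Subgroup.zpowers u : Set G)) : ℂ) * ∑ y ∈ Xset u, H y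
      = (Fintype.card G : ℂ) * ∑ d ∈ Finset.univ.filter
        (fun d : G => Subgroup.zpowers d = Subgroup.zpowers u), H d := by
  set N := Subgroup.normalizer (Subgroup.zpowers u : Set G) with hN
  have h1 : ∀ y ∈ Xset u, ((Finset.univ.filter
      (fun a : G => Subgroup.zpowers (a * y * a⁻¹) = Subgroup.zpowers u)).card : ℂ)
      = (Nat.card N : ℂ) := by
    intro y hy
    obtain ⟨a₀, ha₀⟩ := mem_Xset.1 hy
    congr 1
    rw [Nat.card_eq_fintype_card, Fintype.card_subtype]
    refine Finset.card_nbij' (fun a => a * a₀⁻¹) (fun n => n * a₀) ?_ ?_ ?_ ?_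
    · intro a ha
      simp only [Finset.coe_filter, Finset.mem_univ, true_and, Set.mem_ofPred_eq] at ha ⊢
      rw [hN, Subgroup.mem_normalizer_iff_map_conj_eq]
      show (Subgroup.zpowers u).map (MulAut.conj (a * a₀⁻¹)).toMonoidHom = Subgroup.zpowers u
      rw [← zpowers_conj, ← ha]
      have h2 : Subgroup.zpowers (a * a₀⁻¹ * u * (a * a₀⁻¹)⁻¹)
          = Subgroup.zpowers (a * a₀⁻¹ * (a₀ * y * a₀⁻¹) * (a * a₀⁻¹)⁻¹) := by
        rw [zpowers_conj, zpowers_conj (a * a₀⁻¹) (a₀ * y * a₀⁻¹), ha₀]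
      rw [h2]
      congr 1
      group
    · intro n hn
      simp only [Finset.coe_filter, Finset.mem_univ, true_and, Set.mem_ofPred_eq] at hn ⊢
      rw [hN, Subgroup.mem_normalizer_iff_map_conj_eq] at hn
      have h2 : n * a₀ * y * (n * a₀)⁻¹ = n * (a₀ * y * a₀⁻¹) * n⁻¹ := by group
      rw [h2, zpowers_conj, ha₀]
      exact hn
    · intro a _; simp
    · intro a _; simp
  have h2 : (Nat.card N : ℂ) * ∑ y ∈ Xset u, H y
      = ∑ y : G, ∑ a : G, if Subgroup.zpowers (a * y * a⁻¹) = Subgroup.zpowers u then H y else 0 := by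
    rw [Finset.mul_sum]
    have h3 : ∀ y ∈ Xset u, (Nat.card N : ℂ) * H y
        = ∑ a : G, if Subgroup.zpowers (a * y * a⁻¹) = Subgroup.zpowers u then H y else 0 := by
      intro y hy
      rw [← h1 y hy, ← Finset.sum_filter, Finset.sum_const, nsmul_eq_mul]
    rw [Finset.sum_congr rfl h3]
    apply Finset.sum_subset (Finset.subset_univ _)
    intro y _ hy
    apply Finset.sum_eq_zero
    intro a _
    rw [if_neg]
    intro h
    exact hy (mem_Xset.2 ⟨a, h⟩)
  rw [h2, Finset.sum_comm]
  have h3 : ∀ a : G, (∑ y : G, if Subgroup.zpowers (a * y * a⁻¹) = Subgroup.zpowers u then H y else 0)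
      = ∑ d ∈ Finset.univ.filter (fun d : G => Subgroup.zpowers d = Subgroup.zpowers u), H d := by
    intro a
    rw [Finset.sum_filter]
    symm
    rw [← Equiv.sum_comp (MulAut.conj a).toEquiv]
    apply Finset.sum_congr rfl
    intro y _
    have h4 : (MulAut.conj a).toEquiv y = a * y * a⁻¹ := rfl
    rw [h4, hH]
  rw [Finset.sum_congr rfl (fun a _ => h3 a), Finset.sum_const, nsmul_eq_mul, Finset.card_univ]

open Classical in
theorem card_generators (u : G) : (Finset.univ.filter
    (fun d : G => Subgroup.zpowers d = Subgroup.zpowers u)).card = Nat.totient (orderOf u) := by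
  have h1 := IsCyclic.card_orderOf_eq_totient (α := Subgroup.zpowers u) (d := orderOf u)
    (by rw [Fintype.card_zpowers])
  rw [← h1]
  refine Finset.card_nbij' (fun d => if h : d ∈ Subgroup.zpowers u then ⟨d, h⟩ else 1)
    (fun d => (d : G)) ?_ ?_ ?_ ?_
  · intro d hd
    simp only [Finset.coe_filter, Finset.mem_univ, true_and, Set.mem_ofPred_eq] at hd ⊢
    have h : d ∈ Subgroup.zpowers u := by rw [← hd]; exact Subgroup.mem_zpowers d
    rw [dif_pos h, ← Subgroup.orderOf_coe]
    show orderOf d = orderOf u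
    rw [← Nat.card_zpowers, hd, Nat.card_zpowers]
  · intro d hd
    simp only [Finset.coe_filter, Finset.mem_univ, true_and, Set.mem_ofPred_eq] at hd ⊢
    rw [← Subgroup.orderOf_coe] at hd
    apply Subgroup.eq_of_le_of_card_ge
    · rw [Subgroup.zpowers_le]; exact d.2
    · rw [Nat.card_zpowers, Nat.card_zpowers, hd]
  · intro d hd
    simp only [Finset.coe_filter, Finset.mem_univ, true_and, Set.mem_ofPred_eq] at hd
    have h : d ∈ Subgroup.zpowers u := by rw [← hd]; exact Subgroup.mem_zpowers d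
    simp only [dif_pos h]
  · intro d hd
    simp

theorem card_Xset_mul (u : G) : (Xset u).card *
    Nat.card (Subgroup.normalizer (Subgroup.zpowers u : Set G))
      = Fintype.card G * Nat.totient (orderOf u) := by
  classical
  have h := sum_Xset u (fun _ => (1 : ℂ)) (fun x g => rfl)
  rw [Finset.sum_const, Finset.sum_const, nsmul_eq_mul, nsmul_eq_mul, mul_one, mul_one,
    card_generators] at h
  have h2 : (((Xset u).card * Nat.card (Subgroup.normalizer (Subgroup.zpowers u : Set G)) : ℕ) : ℂ)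
      = ((Fintype.card G * Nat.totient (orderOf u) : ℕ) : ℂ) := by
    rw [Nat.cast_mul, Nat.cast_mul, ← h, mul_comm]
  exact_mod_cast h2

/-- rational elements: `Xset u` is the conjugacy class -/
theorem card_Xset_rational {p : ℕ} [hp : Fact p.Prime] {u : G} {k : ℕ} (huo : orderOf u = p ^ k)
    (hk : k ≠ 0) (hrat : ∀ j : ℕ, j.Coprime p → IsConj u (u ^ j)) :
    (Xset u).card * Nat.card (Subgroup.centralizer ({u} : Set G)) = Fintype.card G := by
  classical
  rw [← card_conj_mul u]
  congr 2
  ext y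
  rw [mem_Xset, Finset.mem_filter]
  constructor
  · rintro ⟨x, hx⟩
    refine ⟨Finset.mem_univ _, ?_⟩
    have h1 : x * y * x⁻¹ ∈ Subgroup.zpowers u := by rw [← hx]; exact Subgroup.mem_zpowers _
    rw [mem_zpowers_iff_mem_range_orderOf, Finset.mem_image] at h1
    obtain ⟨j, hj, hj2⟩ := h1
    have hcop : j.Coprime p := by
      rw [Nat.coprime_comm, Nat.Prime.coprime_iff_not_dvd hp.out]
      intro hd
      have h2 : orderOf (x * y * x⁻¹) = p ^ k := by
        rw [← huo, ← Nat.card_zpowers, hx, Nat.card_zpowers]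
      rw [← hj2, orderOf_pow, huo] at h2
      have h3 : 1 < (p ^ k).gcd j := by
        have : p ∣ (p ^ k).gcd j := Nat.dvd_gcd (dvd_pow_self p hk) hd
        exact lt_of_lt_of_le hp.out.one_lt (Nat.le_of_dvd (Nat.gcd_pos_of_pos_left _
          (pow_pos hp.out.pos k)) this)
      have h4 := Nat.div_lt_self (pow_pos hp.out.pos k) h3
      omega
    have h5 : IsConj y (u ^ j) := by rw [hj2]; exact isConj_iff.2 ⟨x, rfl⟩
    exact (hrat j hcop).trans h5.symm
  · rintro ⟨_, h⟩
    obtain ⟨x, hx⟩ := isConj_iff.1 h.symm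
    exact ⟨x, by rw [hx]⟩

end Pool.Agent.H44.IC
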