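import Pool.Agent.H44.IC.Transfer

/-! Functions on cyclic groups: `p`-integral combinations of characters. -/

open scoped ComplexConjugate
noncomputable section
namespace Pool.Agent.H44.IC

/-- average of powers of a root of unity -/
theorem avg_root {n : ℕ} (hn : n ≠ 0) {w : ℂ} (hw : w ^ n = 1) :
    (n : ℂ)⁻¹ * ∑ j ∈ Finset.range n, w ^ j = if w = 1 then 1 else 0 := by
  have hn' : (n : ℂ) ≠ 0 := by exact_mod_cast hn
  split_ifs with h
  · subst h; simp [hn']
  · rw [geom_sum_eq h, hw]; simp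

theorem sum_root {n : ℕ} {w : ℂ} (hw : w ^ n = 1) :
    ∑ j ∈ Finset.range n, w ^ j = if w = 1 then (n : ℂ) else 0 := by
  split_ifs with h
  · subst h; simp
  · rw [geom_sum_eq h, hw]; simp

variable {p : ℕ} [hp : Fact p.Prime]

theorem avg_root_mem {n : ℕ} (hn : n ≠ 0) {w : ℂ} (hw : w ^ n = 1) :
    (n : ℂ)⁻¹ * ∑ j ∈ Finset.range n, w ^ j ∈ Op p := by
  rw [avg_root hn hw]
  split_ifs
  · exact one_mem _
  · exact zero_mem _

variable (p) in
/-- `p`-integral combinations of the sequences `j ↦ w ^ j`, `w ^ m = 1`. -/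
def CycSpan (m : ℕ) : Submodule (Op p) (ℕ → ℂ) :=
  Submodule.span (Op p) {φ | ∃ w : ℂ, w ^ m = 1 ∧ φ = fun j => w ^ j}

theorem CycSpan.mul {m : ℕ} {φ ψ : ℕ → ℂ} (h1 : φ ∈ CycSpan p m) (h2 : ψ ∈ CycSpan p m) :
    φ * ψ ∈ CycSpan p m := by
  unfold CycSpan at *
  induction h1 using Submodule.span_induction with
  | mem x hx =>
    obtain ⟨w, hw, rfl⟩ := hx
    induction h2 using Submodule.span_induction with
    | mem y hy =>
      obtain ⟨w', hw', rfl⟩ := hy
      apply Submodule.subset_span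
      refine ⟨w * w', by rw [mul_pow, hw, hw', mul_one], ?_⟩
      ext j; simp [mul_pow]
    | zero => rw [mul_zero]; exact zero_mem _
    | add a b _ _ ha hb => rw [mul_add]; exact add_mem ha hb
    | smul a b _ hb => rw [mul_smul_comm]; exact Submodule.smul_mem _ _ hb
  | zero => rw [zero_mul]; exact zero_mem _
  | add a b _ _ ha hb => rw [add_mul]; exact add_mem ha hb
  | smul a b _ hb => rw [smul_mul_assoc]; exact Submodule.smul_mem _ _ hb

theorem CycSpan.conj {m : ℕ} {φ : ℕ → ℂ} (h : φ ∈ CycSpan p m) :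
    (fun j => conj (φ j)) ∈ CycSpan p m := by
  unfold CycSpan at *
  induction h using Submodule.span_induction with
  | mem x hx =>
    obtain ⟨w, hw, rfl⟩ := hx
    apply Submodule.subset_span
    refine ⟨(starRingEnd ℂ) w, by rw [← map_pow, hw, map_one], ?_⟩
    ext j; simp
  | zero => simp only [Pi.zero_apply, map_zero]; exact zero_mem _
  | add a b _ _ ha hb =>
    simp only [Pi.add_apply, map_add]
    exact add_mem ha hb
  | smul a b _ hb =>
    have : (fun j => (starRingEnd ℂ) ((a • b) j))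
        = (⟨(starRingEnd ℂ) a.1, Op.conj_mem a.2⟩ : Op p) • (fun j => (starRingEnd ℂ) (b j)) := by
      ext j
      simp [Subring.smul_def]
    rw [this]
    exact Submodule.smul_mem _ _ hb

/-- averages along arithmetic progressions -/
theorem CycSpan.avg_mem {m : ℕ} {φ : ℕ → ℂ} (h : φ ∈ CycSpan p m) {n : ℕ} (hn : n ≠ 0)
    (a b : ℕ) (hm : m ∣ b * n) (hm0 : m ≠ 0) :
    (n : ℂ)⁻¹ * ∑ j ∈ Finset.range n, φ (a + b * j) ∈ Op p := by
  unfold CycSpan at h
  induction h using Submodule.span_induction with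
  | mem x hx =>
    obtain ⟨w, hw, rfl⟩ := hx
    have e : ∀ j, w ^ (a + b * j) = w ^ a * (w ^ b) ^ j := by
      intro j; rw [pow_add, pow_mul]
    simp only [e]
    rw [← Finset.mul_sum]
    have h1 : (w ^ b) ^ n = 1 := by
      obtain ⟨k, hk⟩ := hm
      rw [← pow_mul, hk, pow_mul, hw, one_pow]
    have h2 := avg_root_mem (p := p) hn h1
    have h3 : (n : ℂ)⁻¹ * (w ^ a * ∑ i ∈ Finset.range n, (w ^ b) ^ i)
        = w ^ a * ((n : ℂ)⁻¹ * ∑ i ∈ Finset.range n, (w ^ b) ^ i) := by ring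
    rw [h3]
    exact mul_mem (pow_mem (Op.root_mem hm0 hw) a) h2
  | zero => simp
  | add x y _ _ hx hy =>
    simp only [Pi.add_apply]
    rw [Finset.sum_add_distrib, mul_add]
    exact add_mem hx hy
  | smul a x _ hx =>
    simp only [Pi.smul_apply, Subring.smul_def, smul_eq_mul]
    rw [← Finset.mul_sum]
    have h3 : ∀ S : ℂ, (n : ℂ)⁻¹ * ((a : ℂ) * S) = a * ((n : ℂ)⁻¹ * S) := by intro S; ring
    rw [h3]
    exact mul_mem a.2 hx

/-- values are `p`-integral -/
theorem CycSpan.apply_mem {m : ℕ} {φ : ℕ → ℂ} (h : φ ∈ CycSpan p m) (hm0 : m ≠ 0) (a : ℕ) :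
    φ a ∈ Op p := by
  have := CycSpan.avg_mem h one_ne_zero a m (by rw [mul_one]) hm0
  simpa using this

variable {G : Type*} [Group G]

/-- Fourier inversion on a cyclic group -/
theorem fourier_inv (f : G → ℂ) (c : G) (hc : orderOf c ≠ 0) (j : ℕ) :
    f (c ^ j) = ∑ a ∈ Finset.range (orderOf c),
      coef f c (Complex.exp (2 * Real.pi * Complex.I / orderOf c) ^ a) *
        (Complex.exp (2 * Real.pi * Complex.I / orderOf c) ^ (orderOf c - a)) ^ j := by
  set m := orderOf c with hm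
  have hm0 : (m : ℂ) ≠ 0 := by exact_mod_cast hc
  have hζ := Complex.isPrimitiveRoot_exp m hc
  set ζ := Complex.exp (2 * Real.pi * Complex.I / m) with hζdef
  have hζ0 : ζ ≠ 0 := hζ.ne_zero hc
  unfold coef
  have e1 : ∀ a ∈ Finset.range m, ((m : ℂ)⁻¹ * ∑ i ∈ Finset.range m, f (c ^ i) * (ζ ^ a) ^ i)
      * (ζ ^ (m - a)) ^ j = (m : ℂ)⁻¹ * ∑ i ∈ Finset.range m, f (c ^ i) * ((ζ ^ i * (ζ⁻¹) ^ j) ^ a) := by
    intro a ha
    rw [Finset.mem_range] at ha
    have h1 : ζ ^ (m - a) = (ζ⁻¹) ^ a := by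
      have h2 : ζ ^ (m - a) * ζ ^ a = 1 := by
        rw [← pow_add, Nat.sub_add_cancel ha.le, hζ.pow_eq_one]
      rw [inv_pow]
      exact eq_inv_of_mul_eq_one_left h2
    rw [h1, mul_assoc, Finset.sum_mul]
    congr 1
    apply Finset.sum_congr rfl
    intro i _
    rw [mul_assoc]
    congr 1
    rw [mul_pow, ← pow_mul, ← pow_mul, ← pow_mul, ← pow_mul, mul_comm a i, mul_comm a j]
  rw [← hm]
  rw [Finset.sum_congr rfl e1, ← Finset.mul_sum, Finset.sum_comm]
  have e2 : ∀ i ∈ Finset.range m, (∑ a ∈ Finset.range m, f (c ^ i) * ((ζ ^ i * (ζ⁻¹) ^ j) ^ a))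
      = if i = j % m then f (c ^ j) * m else 0 := by
    intro i hi
    rw [Finset.mem_range] at hi
    rw [← Finset.mul_sum]
    have h1 : (ζ ^ i * (ζ⁻¹) ^ j) ^ m = 1 := by
      rw [mul_pow, ← pow_mul, ← pow_mul, mul_comm i m, mul_comm j m, pow_mul, pow_mul,
        hζ.pow_eq_one, inv_pow, hζ.pow_eq_one]; simp
    rw [sum_root h1]
    have h2 : (ζ ^ i * (ζ⁻¹) ^ j = 1) ↔ i = j % m := by
      rw [inv_pow, mul_inv_eq_one₀ (pow_ne_zero _ hζ0)]
      constructor
      · intro h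
        have h3 : ζ ^ i = ζ ^ (j % m) := by
          rw [h]
          conv_lhs => rw [← Nat.mod_add_div j m, pow_add, pow_mul, hζ.pow_eq_one, one_pow, mul_one]
        exact hζ.pow_inj hi (Nat.mod_lt _ (Nat.pos_of_ne_zero hc)) h3
      · intro h
        rw [h]
        conv_rhs => rw [← Nat.mod_add_div j m, pow_add, pow_mul, hζ.pow_eq_one, one_pow, mul_one]
    by_cases h : i = j % m
    · rw [if_pos (h2.2 h), if_pos h]
      congr 2
      rw [h, hm, pow_mod_orderOf]
    · rw [if_neg (fun h3 => h (h2.1 h3)), if_neg h, mul_zero]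
  rw [Finset.sum_congr rfl e2, Finset.sum_ite_eq', if_pos]
  · field_simp
  · rw [Finset.mem_range]
    exact Nat.mod_lt _ (Nat.pos_of_ne_zero hc)

/-- the restriction of a function in `Rhat` to a cyclic group lies in the span -/
theorem Rhat.cycSpan [Fintype G] {f : G → ℂ} (hf : Rhat p f) (c : G) :
    (fun j => f (c ^ j)) ∈ CycSpan p (orderOf c) := by
  have hc : orderOf c ≠ 0 := (orderOf_pos c).ne'
  set m := orderOf c with hm
  have hζ := Complex.isPrimitiveRoot_exp m hc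
  set ζ := Complex.exp (2 * Real.pi * Complex.I / m) with hζdef
  have e : (fun j => f (c ^ j)) = ∑ a ∈ Finset.range m,
      (⟨coef f c (ζ ^ a), hf.2 c (ζ ^ a) (by
        rw [← pow_mul, mul_comm, pow_mul, ← hm, hζ.pow_eq_one, one_pow])⟩ : Op p) •
        (fun j => (ζ ^ (m - a)) ^ j) := by
    ext j
    rw [fourier_inv f c hc j]
    simp [Finset.sum_apply, Subring.smul_def, ← hm, ← hζdef]
  rw [e]
  apply Submodule.sum_mem
  intro a ha
  apply Submodule.smul_mem
  apply Submodule.subset_span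
  exact ⟨ζ ^ (m - a), by rw [← pow_mul, mul_comm, pow_mul, hζ.pow_eq_one, one_pow], rfl⟩

/-- converse -/
theorem coef_mem_of_cycSpan [Fintype G] {f : G → ℂ} {c : G}
    (h : (fun j => f (c ^ j)) ∈ CycSpan p (orderOf c)) {w : ℂ} (hw : w ^ orderOf c = 1) :
    coef f c w ∈ Op p := by
  have hc : orderOf c ≠ 0 := (orderOf_pos c).ne'
  have h1 : (fun j => w ^ j) ∈ CycSpan p (orderOf c) := Submodule.subset_span ⟨w, hw, rfl⟩
  have h2 := CycSpan.avg_mem (CycSpan.mul h h1) hc 0 1 (by simp) hc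
  unfold coef
  simpa using h2

theorem Rhat.of_cycSpan [Fintype G] {f : G → ℂ} (hf : IsClassFn f)
    (h : ∀ c : G, (fun j => f (c ^ j)) ∈ CycSpan p (orderOf c)) : Rhat p f :=
  ⟨hf, fun c _ hw => coef_mem_of_cycSpan (h c) hw⟩

theorem Rhat.mul_conj [Fintype G] {f g : G → ℂ} (hf : Rhat p f) (hg : Rhat p g) :
    Rhat p (fun x => f x * conj (g x)) := by
  apply Rhat.of_cycSpan
  · intro x y
    show f (x * y * x⁻¹) * conj (g (x * y * x⁻¹)) = f y * conj (g y)
    rw [hf.1, hg.1]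
  · intro c
    exact CycSpan.mul (hf.cycSpan c) (CycSpan.conj (hg.cycSpan c))

theorem Rhat.apply_mem [Fintype G] {f : G → ℂ} (hf : Rhat p f) (x : G) : f x ∈ Op p := by
  have := CycSpan.apply_mem (hf.cycSpan x) (orderOf_pos x).ne' 1
  simpa using this

theorem Rhat.one [Fintype G] : Rhat p (1 : G → ℂ) := by
  apply Rhat.of_cycSpan
  · intro x y; rfl
  · intro c
    apply Submodule.subset_span
    exact ⟨1, by simp, by ext; simp⟩

end Pool.Agent.H44.IC
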