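import Pool.Agent.H44.IC.Cyc

/-! Decomposition of sums over the group according to `p'`-parts. -/

open scoped ComplexConjugate
noncomputable section
namespace Pool.Agent.H44.IC

variable {G : Type*} [Group G] [Fintype G] {p : ℕ} [hp : Fact p.Prime]

theorem pEl_iff_pow {u : G} : PEl p u ↔ u ^ p ^ ((Fintype.card G).factorization p) = 1 := by
  constructor
  · rintro ⟨n, hn⟩
    have h1 : orderOf u ∣ p ^ n := orderOf_dvd_of_pow_eq_one hn
    obtain ⟨k, hk, hk2⟩ := (Nat.dvd_prime_pow hp.out).1 h1
    have h2 : orderOf u ∣ Fintype.card G := orderOf_dvd_card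
    rw [hk2] at h2
    have h3 : k ≤ (Fintype.card G).factorization p :=
      (hp.out.pow_dvd_iff_le_factorization Fintype.card_ne_zero).1 h2
    rw [← orderOf_dvd_iff_pow_eq_one, hk2]
    exact pow_dvd_pow p h3
  · intro h; exact ⟨_, h⟩

omit [Fintype G] in
theorem pEl_iff_orderOf {u : G} : PEl p u ↔ ∃ n, orderOf u = p ^ n := by
  constructor
  · rintro ⟨n, hn⟩
    have h1 : orderOf u ∣ p ^ n := orderOf_dvd_of_pow_eq_one hn
    obtain ⟨k, hk, hk2⟩ := (Nat.dvd_prime_pow hp.out).1 h1
    exact ⟨k, hk2⟩
  · rintro ⟨n, hn⟩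
    exact ⟨n, by rw [← hn]; exact pow_orderOf_eq_one u⟩

theorem p'El_iff_pow {x : G} : ¬ p ∣ orderOf x ↔
    x ^ (Fintype.card G / p ^ ((Fintype.card G).factorization p)) = 1 := by
  have hcard : p ^ ((Fintype.card G).factorization p) *
      (Fintype.card G / p ^ ((Fintype.card G).factorization p)) = Fintype.card G :=
    Nat.ordProj_mul_ordCompl_eq_self _ p
  constructor
  · intro h
    rw [← orderOf_dvd_iff_pow_eq_one]
    have h1 : orderOf x ∣ Fintype.card G := orderOf_dvd_card
    rw [← hcard] at h1
    apply Nat.Coprime.dvd_of_dvd_mul_left _ h1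
    apply Nat.Coprime.pow_right
    exact ((Nat.Prime.coprime_iff_not_dvd hp.out).2 h).symm
  · intro h hd
    rw [← orderOf_dvd_iff_pow_eq_one] at h
    exact Nat.not_dvd_ordCompl hp.out Fintype.card_ne_zero (dvd_trans hd h)

variable (G p) in
/-- exponents for the `p'`-part and the `p`-part -/
theorem exists_exponents : ∃ k l : ℕ,
    (k ≡ 1 [MOD Fintype.card G / p ^ ((Fintype.card G).factorization p)]) ∧
    (p ^ ((Fintype.card G).factorization p) ∣ k) ∧
    (l ≡ 1 [MOD p ^ ((Fintype.card G).factorization p)]) ∧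
    (Fintype.card G / p ^ ((Fintype.card G).factorization p) ∣ l) ∧
    (k + l ≡ 1 [MOD Fintype.card G]) := by
  set M := Fintype.card G / p ^ ((Fintype.card G).factorization p) with hM
  set q := p ^ ((Fintype.card G).factorization p) with hq
  have hcard : q * M = Fintype.card G := Nat.ordProj_mul_ordCompl_eq_self _ p
  have hcop : Nat.Coprime M q := by
    apply Nat.Coprime.pow_right
    exact ((Nat.Prime.coprime_iff_not_dvd hp.out).2
      (Nat.not_dvd_ordCompl hp.out Fintype.card_ne_zero)).symm
  obtain ⟨k, hk1, hk2⟩ := Nat.chineseRemainder hcop 1 0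
  obtain ⟨l, hl1, hl2⟩ := Nat.chineseRemainder hcop 0 1
  refine ⟨k, l, hk1, ?_, hl2, ?_, ?_⟩
  · exact (Nat.modEq_zero_iff_dvd).1 hk2
  · exact (Nat.modEq_zero_iff_dvd).1 hl1
  · rw [← hcard, mul_comm]
    rw [← Nat.modEq_and_modEq_iff_modEq_mul hcop]
    exact ⟨by simpa using hk1.add hl1, by simpa using hk2.add hl2⟩

omit [Fintype G] in
theorem pow_modEq {x : G} {a b n : ℕ} (hx : x ^ n = 1) (h : a ≡ b [MOD n]) : x ^ a = x ^ b := by
  rw [pow_eq_pow_iff_modEq]
  exact h.of_dvd (orderOf_dvd_of_pow_eq_one hx)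

variable (G) in
open Classical in
/-- the set of `p'`-elements -/
def p'Els (p : ℕ) : Finset G := Finset.univ.filter (fun x => ¬ p ∣ orderOf x)

omit hp in
theorem mem_p'Els {x : G} : x ∈ p'Els G p ↔ ¬ p ∣ orderOf x := by
  classical
  simp [p'Els]

open Classical in
/-- sum over the `p`-section of `x` -/
def Psi (p : ℕ) (F : G → ℂ) (x : G) : ℂ :=
  ∑ u ∈ (pEls G p).filter (fun u => u * x = x * u), F (x * u)

theorem pow_eq_one_of_card_dvd (y : G) {n : ℕ} (h : Fintype.card G ∣ n) : y ^ n = 1 := by
  obtain ⟨t, rfl⟩ := h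
  rw [pow_mul, pow_card_eq_one, one_pow]

theorem sum_eq_sum_Psi (F : G → ℂ) : ∑ y, F y = ∑ x ∈ p'Els G p, Psi p F x := by
  classical
  obtain ⟨k, l, hk1, hk2, hl1, hl2, hkl⟩ := exists_exponents G p
  have hcard : p ^ ((Fintype.card G).factorization p) *
      (Fintype.card G / p ^ ((Fintype.card G).factorization p)) = Fintype.card G :=
    Nat.ordProj_mul_ordCompl_eq_self _ p
  have hkl' : ∀ y : G, y ^ k * y ^ l = y := by
    intro y
    rw [← pow_add]
    conv_rhs => rw [← pow_one y]
    exact pow_modEq (pow_card_eq_one) hkl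
  unfold Psi
  rw [Finset.sum_sigma']
  symm
  refine Finset.sum_nbij' (fun z => z.1 * z.2) (fun y => ⟨y ^ k, y ^ l⟩) ?_ ?_ ?_ ?_ ?_
  · intro z _; exact Finset.mem_univ _
  · intro y _
    rw [Finset.mem_sigma, mem_p'Els, Finset.mem_filter, mem_pEls]
    refine ⟨?_, ?_, ?_⟩
    · rw [p'El_iff_pow, ← pow_mul]
      apply pow_eq_one_of_card_dvd
      conv_lhs => rw [← hcard]
      exact Nat.mul_dvd_mul hk2 (dvd_refl _)
    · rw [pEl_iff_pow, ← pow_mul]
      apply pow_eq_one_of_card_dvd
      conv_lhs => rw [← hcard, mul_comm]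
      exact Nat.mul_dvd_mul hl2 (dvd_refl _)
    · show y ^ l * y ^ k = y ^ k * y ^ l
      rw [← pow_add, ← pow_add, add_comm]
  · rintro ⟨x, u⟩ hz
    rw [Finset.mem_sigma, mem_p'Els, Finset.mem_filter, mem_pEls] at hz
    obtain ⟨h1, h2, h3⟩ := hz
    simp only at h1 h2 h3
    rw [p'El_iff_pow] at h1
    rw [pEl_iff_pow] at h2
    have hc : Commute x u := h3.symm
    have e1 : (x * u) ^ k = x := by
      rw [hc.mul_pow]
      have h4 : x ^ k = x := by
        conv_rhs => rw [← pow_one x]
        exact pow_modEq h1 hk1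
      have h5 : u ^ k = 1 := by
        obtain ⟨t, ht⟩ := hk2
        rw [ht, pow_mul, h2, one_pow]
      rw [h4, h5, mul_one]
    have e2 : (x * u) ^ l = u := by
      rw [hc.mul_pow]
      have h4 : u ^ l = u := by
        conv_rhs => rw [← pow_one u]
        exact pow_modEq h2 hl1
      have h5 : x ^ l = 1 := by
        obtain ⟨t, ht⟩ := hl2
        rw [ht, pow_mul, h1, one_pow]
      rw [h4, h5, one_mul]
    simp only
    rw [e1, e2]
  · intro y _
    exact hkl' y
  · intro z _; rfl

omit hp in
theorem Psi_one (F : G → ℂ) : Psi p F 1 = ∑ u ∈ pEls G p, F u := by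
  classical
  unfold Psi
  simp

omit hp in
theorem Psi_conj (F : G → ℂ) (hF : IsClassFn F) (x y : G) : Psi p F (x * y * x⁻¹) = Psi p F y := by
  classical
  unfold Psi
  symm
  refine Finset.sum_nbij' (fun u => x * u * x⁻¹) (fun u => x⁻¹ * u * x) ?_ ?_ ?_ ?_ ?_
  · intro u hu
    rw [Finset.mem_filter, mem_pEls] at hu ⊢
    refine ⟨hu.1.conj x, ?_⟩
    have := congrArg (fun z => x * z * x⁻¹) hu.2
    rw [show x * u * x⁻¹ * (x * y * x⁻¹) = x * (u * y) * x⁻¹ by group, this]
    group
  · intro u hu
    rw [Finset.mem_filter, mem_pEls] at hu ⊢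
    refine ⟨by simpa using hu.1.conj x⁻¹, ?_⟩
    have := congrArg (fun z => x⁻¹ * z * x) hu.2
    rw [show x⁻¹ * u * x * y = x⁻¹ * (u * (x * y * x⁻¹)) * x by group, this]
    group
  · intro u _; group
  · intro u _; group
  · intro u _
    rw [← hF x (y * u)]
    congr 1
    group

omit hp in
open Classical in
/-- `Psi` as a normalized sum over the `p`-elements of the centralizer -/
theorem ell_centralizer (F : G → ℂ) (x : G) :
    ell p (fun u : Subgroup.centralizer ({x} : Set G) => F (x * u)) =
      Psi p F x / (Nat.card (Subgroup.centralizer ({x} : Set G)) : ℂ) := by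
  classical
  unfold ell Psi
  rw [← Nat.card_eq_fintype_card, div_eq_inv_mul]
  congr 1
  refine Finset.sum_nbij' (fun u => (u : G)) (fun u => if h : u ∈ Subgroup.centralizer ({x} : Set G)
    then ⟨u, h⟩ else 1) ?_ ?_ ?_ ?_ ?_
  · intro u hu
    rw [mem_pEls] at hu
    rw [Finset.mem_filter, mem_pEls]
    constructor
    · obtain ⟨n, hn⟩ := hu
      exact ⟨n, by simpa using congrArg Subtype.val hn⟩
    · have := u.2
      rw [Subgroup.mem_centralizer_iff] at this
      exact (this x rfl).symm
  · intro u hu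
    rw [Finset.mem_filter, mem_pEls] at hu
    have h : u ∈ Subgroup.centralizer ({x} : Set G) := by
      rw [Subgroup.mem_centralizer_iff]
      intro y hy
      rw [Set.mem_singleton_iff] at hy
      rw [hy]; exact hu.2.symm
    simp only [h, dif_pos]
    rw [mem_pEls]
    obtain ⟨n, hn⟩ := hu.1
    exact ⟨n, Subtype.ext (by simpa using hn)⟩
  · intro u _
    simp
  · intro u hu
    rw [Finset.mem_filter, mem_pEls] at hu
    have h : u ∈ Subgroup.centralizer ({x} : Set G) := by
      rw [Subgroup.mem_centralizer_iff]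
      intro y hy
      rw [Set.mem_singleton_iff] at hy
      rw [hy]; exact hu.2.symm
    simp only [h, dif_pos]
  · intro u _; rfl

open Classical in
/-- If the local contributions at nontrivial `p'`-elements are `p`-integral then the full average
agrees with the normalized sum over `p`-elements modulo `p`-integers. -/
theorem avg_sub_ell_mem (F : G → ℂ) (hF : IsClassFn F)
    (h : ∀ x : G, x ≠ 1 → ¬ p ∣ orderOf x →
      ell p (fun u : Subgroup.centralizer ({x} : Set G) => F (x * u)) ∈ Op p) :
    (Fintype.card G : ℂ)⁻¹ * ∑ y, F y - ell p F ∈ Op p := by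
  classical
  have h1 : (1 : G) ∈ p'Els G p := by
    rw [mem_p'Els, orderOf_one]
    exact hp.out.one_lt.ne' ∘ fun h => Nat.dvd_one.1 h
  rw [sum_eq_sum_Psi (p := p) F, ← Finset.add_sum_erase _ _ h1, Psi_one, mul_add, ell,
    add_sub_cancel_left]
  apply conj_average (Op p).toAddSubgroup ((p'Els G p).erase 1)
  · intro x u hu
    rw [Finset.mem_erase, mem_p'Els] at hu ⊢
    refine ⟨?_, ?_⟩
    · intro h2; apply hu.1
      rwa [mul_inv_eq_one, mul_eq_left] at h2
    · have : orderOf (x * u * x⁻¹) = orderOf u := by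
        have := orderOf_injective (MulAut.conj x).toMonoidHom (MulAut.conj x).injective u
        simpa using this
      rw [this]; exact hu.2
  · intro x u _
    exact Psi_conj F hF x u
  · intro u hu
    rw [Finset.mem_erase, mem_p'Els] at hu
    rw [← ell_centralizer]
    exact h u hu.1 hu.2

open Classical in
/-- local contribution at `x` when the `p`-subgroups of the centralizer are cyclic -/
theorem ell_centralizer_mem {f g : G → ℂ} (hf : Rhat p f) (hg : Rhat p g) (x : G)
    (hx : ¬ p ∣ orderOf x)
    (hcyc : ∀ K : Subgroup (Subgroup.centralizer ({x} : Set G)), IsPGroup p K → IsCyclic K) :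
    ell p (fun u : Subgroup.centralizer ({x} : Set G) => f (x * u) * conj (g (x * u))) ∈ Op p := by
  classical
  have hcomm : ∀ u : Subgroup.centralizer ({x} : Set G), x * (u : G) = u * x := by
    intro u
    have := u.2
    rw [Subgroup.mem_centralizer_iff] at this
    exact this x rfl
  have hFf := hf.mul_conj hg
  apply transfer
  · intro a b
    have e : x * ((a * b * a⁻¹ : Subgroup.centralizer ({x} : Set G)) : G)
        = (a : G) * (x * b) * (a : G)⁻¹ := by
      push_cast
      rw [← mul_assoc, ← mul_assoc, hcomm a, mul_assoc (a : G) x]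
    simp only [e]
    rw [hf.1, hg.1]
  · intro u _
    exact mul_mem (hf.apply_mem _) (Op.conj_mem (hg.apply_mem _))
  · intro K hK
    obtain ⟨v, hv⟩ := (hcyc K hK).exists_generator
    -- the generator, as an element of the centralizer
    have hKv : K = Subgroup.zpowers (v : Subgroup.centralizer ({x} : Set G)) := by
      ext y
      constructor
      · intro hy
        obtain ⟨n, hn⟩ := hv ⟨y, hy⟩
        exact ⟨n, by simpa using congrArg Subtype.val hn⟩
      · rintro ⟨n, rfl⟩
        exact K.zpow_mem v.2 n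
    set w : G := ((v : Subgroup.centralizer ({x} : Set G)) : G) with hw
    have how : orderOf (v : Subgroup.centralizer ({x} : Set G)) = orderOf w := by
      rw [hw]; exact (Subgroup.orderOf_coe _).symm
    have hxw : Commute x w := hcomm v
    have hwp : ∃ s, orderOf w = p ^ s := by
      obtain ⟨s, hs⟩ := hK v
      rw [← pEl_iff_orderOf]
      refine ⟨s, ?_⟩
      have := congrArg (fun z : K => ((z : Subgroup.centralizer ({x} : Set G)) : G)) hs
      simpa [hw] using this
    obtain ⟨s, hs⟩ := hwp
    have hcop : Nat.Coprime (orderOf x) (orderOf w) := by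
      rw [hs]
      apply Nat.Coprime.pow_right
      exact ((Nat.Prime.coprime_iff_not_dvd hp.out).2 hx).symm
    set c := x * w with hc
    obtain ⟨α, hα1, hα2⟩ := Nat.chineseRemainder hcop 1 0
    obtain ⟨β, hβ1, hβ2⟩ := Nat.chineseRemainder hcop 0 1
    have hcα : c ^ α = x := by
      rw [hc, hxw.mul_pow]
      have h1 : x ^ α = x ^ 1 := pow_eq_pow_iff_modEq.2 hα1
      have h2 : w ^ α = w ^ 0 := pow_eq_pow_iff_modEq.2 hα2
      rw [h1, h2]; simp
    have hcβ : c ^ β = w := by
      rw [hc, hxw.mul_pow]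
      have h1 : x ^ β = x ^ 0 := pow_eq_pow_iff_modEq.2 hβ1
      have h2 : w ^ β = w ^ 1 := pow_eq_pow_iff_modEq.2 hβ2
      rw [h1, h2]; simp
    have hφ := hFf.cycSpan c
    have key := CycSpan.avg_mem hφ (n := orderOf w) (orderOf_pos w).ne' α β (by
      rw [orderOf_dvd_iff_pow_eq_one, pow_mul, hcβ, pow_orderOf_eq_one]) (orderOf_pos c).ne'
    have e1 : avgOn K (fun u : Subgroup.centralizer ({x} : Set G) => f (x * u) * conj (g (x * u)))
        = ((orderOf w : ℕ) : ℂ)⁻¹ * ∑ j ∈ Finset.range (orderOf w),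
          (fun j => f (c ^ j) * conj (g (c ^ j))) (α + β * j) := by
      unfold avgOn
      have h1 : Nat.card K = orderOf w := by
        rw [hKv, Nat.card_zpowers, how]
      rw [h1]
      congr 1
      rw [← Finset.sum_filter]
      have h2 : Finset.univ.filter (fun u => u ∈ K)
          = Finset.image (fun i => (v : Subgroup.centralizer ({x} : Set G)) ^ i)
            (Finset.range (orderOf w)) := by
        rw [← how]
        ext y
        simp only [Finset.mem_filter, Finset.mem_univ, true_and, Finset.mem_image, Finset.mem_range]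
        have h3 : y ∈ K ↔ y ∈ Subgroup.zpowers (v : Subgroup.centralizer ({x} : Set G)) :=
          ⟨fun h => hKv ▸ h, fun h => hKv.symm ▸ h⟩
        rw [h3, mem_zpowers_iff_mem_range_orderOf, Finset.mem_image]
        simp only [Finset.mem_range]
      rw [h2, Finset.sum_image]
      · apply Finset.sum_congr rfl
        intro j _
        simp only
        rw [pow_add, pow_mul, hcα, hcβ]
        simp [hw]
      · intro a ha b hb hab
        rw [Finset.mem_coe, Finset.mem_range] at ha hb
        exact pow_injOn_Iio_orderOf (by rw [Set.mem_Iio, how]; exact ha)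
          (by rw [Set.mem_Iio, how]; exact hb) hab
    rw [e1]
    exact key

end Pool.Agent.H44.IC
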