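import Mathlib

/-!
# Property (IC): basic definitions and the ring of `p`-integral complex numbers
-/

open scoped ComplexConjugate

noncomputable section

namespace Pool.Agent.H44.IC

/-- The ring of `p`-integral complex numbers: `z` with `m z` an algebraic integer for some
natural `m` prime to `p`. -/
def Op (p : ℕ) [hp : Fact p.Prime] : Subring ℂ where
  carrier := {z | ∃ m : ℕ, ¬ p ∣ m ∧ IsIntegral ℤ ((m : ℂ) * z)}
  mul_mem' := by
    rintro a b ⟨m, hm, ha⟩ ⟨n, hn, hb⟩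
    refine ⟨m * n, fun h => ?_, ?_⟩
    · rcases (hp.out.dvd_mul).1 h with h | h
      · exact hm h
      · exact hn h
    · have h1 := ha.mul hb
      have h2 : (((m * n : ℕ) : ℂ) * (a * b)) = (m : ℂ) * a * ((n : ℂ) * b) := by
        push_cast; ring
      rw [h2]; exact h1
  one_mem' := ⟨1, hp.out.one_lt.ne' ∘ fun h => Nat.dvd_one.1 h, by simpa using isIntegral_one⟩
  add_mem' := by
    rintro a b ⟨m, hm, ha⟩ ⟨n, hn, hb⟩
    refine ⟨m * n, fun h => ?_, ?_⟩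
    · rcases (hp.out.dvd_mul).1 h with h | h
      · exact hm h
      · exact hn h
    · have hnn : ∀ k : ℕ, IsIntegral ℤ (k : ℂ) := fun k => by
        simpa using (isIntegral_algebraMap (R := ℤ) (A := ℂ) (x := (k : ℤ)))
      have h1 : IsIntegral ℤ ((n : ℂ) * ((m : ℂ) * a)) := (hnn n).mul ha
      have h2 : IsIntegral ℤ ((m : ℂ) * ((n : ℂ) * b)) := (hnn m).mul hb
      have h3 : (((m * n : ℕ) : ℂ) * (a + b)) = (n : ℂ) * ((m : ℂ) * a) + (m : ℂ) * ((n : ℂ) * b) := by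
        push_cast; ring
      rw [h3]; exact h1.add h2
  zero_mem' := ⟨1, hp.out.one_lt.ne' ∘ fun h => Nat.dvd_one.1 h, by simpa using isIntegral_zero⟩
  neg_mem' := by
    rintro a ⟨m, hm, ha⟩
    refine ⟨m, hm, ?_⟩
    have h1 : ((m : ℂ) * (-a)) = -((m : ℂ) * a) := by ring
    rw [h1]; exact ha.neg

section Op

variable {p : ℕ} [hp : Fact p.Prime]

theorem mem_Op {z : ℂ} : z ∈ Op p ↔ ∃ m : ℕ, ¬ p ∣ m ∧ IsIntegral ℤ ((m : ℂ) * z) := Iff.rfl

theorem Op.of_isIntegral {z : ℂ} (h : IsIntegral ℤ z) : z ∈ Op p :=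
  ⟨1, hp.out.one_lt.ne' ∘ fun h => Nat.dvd_one.1 h, by simpa using h⟩

theorem Op.natCast_mem (n : ℕ) : (n : ℂ) ∈ Op p := _root_.natCast_mem _ n

theorem Op.intCast_mem (n : ℤ) : (n : ℂ) ∈ Op p := _root_.intCast_mem _ n

theorem Op.root_mem {w : ℂ} {n : ℕ} (hn : n ≠ 0) (h : w ^ n = 1) : w ∈ Op p := by
  apply Op.of_isIntegral
  exact IsIntegral.of_pow (Nat.pos_of_ne_zero hn) (by rw [h]; exact isIntegral_one)

theorem Op.inv_natCast_mem {n : ℕ} (h : ¬ p ∣ n) : ((n : ℂ))⁻¹ ∈ Op p := by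
  refine ⟨n, h, ?_⟩
  have hn : (n : ℂ) ≠ 0 := by
    intro h0
    apply h
    have : n = 0 := by exact_mod_cast h0
    rw [this]; exact dvd_zero p
  rw [mul_inv_cancel₀ hn]
  exact isIntegral_one

theorem Op.conj_mem {z : ℂ} (h : z ∈ Op p) : conj z ∈ Op p := by
  obtain ⟨m, hm, hz⟩ := h
  refine ⟨m, hm, ?_⟩
  have := hz.map (starRingEnd ℂ).toIntAlgHom
  simpa using this

theorem Op.conj_mem_iff {z : ℂ} : conj z ∈ Op p ↔ z ∈ Op p :=
  ⟨fun h => by simpa using Op.conj_mem h, Op.conj_mem⟩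

/-- A rational number `a / b` which is `p`-integral as a complex number: `p`-part of `b`
divides `a`. -/
theorem Op.dvd_of_div_mem {a : ℤ} {b : ℕ} (hb : b ≠ 0) (h : ((a : ℂ) / (b : ℂ)) ∈ Op p) {k : ℕ}
    (hk : p ^ k ∣ b) : (p : ℤ) ^ k ∣ a := by
  obtain ⟨m, hm, hz⟩ := h
  have h1 : ((m : ℂ) * ((a : ℂ) / (b : ℂ))) = algebraMap ℚ ℂ ((m : ℚ) * ((a : ℚ) / (b : ℚ))) := by
    simp
  rw [h1, isIntegral_algebraMap_iff (algebraMap ℚ ℂ).injective] at hz
  obtain ⟨c, hc⟩ := IsIntegrallyClosed.isIntegral_iff.1 hz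
  have hbq : (b : ℚ) ≠ 0 := by exact_mod_cast hb
  have h2 : (c : ℤ) * (b : ℤ) = (m : ℤ) * a := by
    have : (c : ℚ) * (b : ℚ) = (m : ℚ) * (a : ℚ) := by
      have h3 : (c : ℚ) = (m : ℚ) * ((a : ℚ) / (b : ℚ)) := by simpa using hc
      rw [h3]; field_simp
    exact_mod_cast this
  have h4 : ((p : ℤ) ^ k) ∣ (m : ℤ) * a := by
    rw [← h2]
    apply Dvd.dvd.mul_left
    exact_mod_cast hk
  refine IsCoprime.dvd_of_dvd_mul_left ?_ h4
  apply IsCoprime.pow_left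
  have : Nat.Coprime p m := (Nat.Prime.coprime_iff_not_dvd hp.out).2 hm
  exact Nat.isCoprime_iff_coprime.2 this

theorem Op.nat_dvd_of_div_mem {a b : ℕ} (hb : b ≠ 0) (h : ((a : ℂ) / (b : ℂ)) ∈ Op p) {k : ℕ}
    (hk : p ^ k ∣ b) : p ^ k ∣ a := by
  have := Op.dvd_of_div_mem (p := p) (a := (a : ℤ)) hb (by simpa using h) hk
  exact_mod_cast this

/-- If `p ^ k ∣ a` and `b = p ^ k * b'` with `b'` prime to `p` then `a / b` is `p`-integral. -/
theorem Op.div_mem {a : ℤ} {b k b' : ℕ} (hb : b = p ^ k * b') (hb' : ¬ p ∣ b')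
    (hk : (p : ℤ) ^ k ∣ a) : ((a : ℂ) / (b : ℂ)) ∈ Op p := by
  obtain ⟨c, rfl⟩ := hk
  have hp0 : (p : ℂ) ≠ 0 := by exact_mod_cast hp.out.ne_zero
  have hb0 : (b' : ℂ) ≠ 0 := by
    intro h0
    apply hb'
    have : b' = 0 := by exact_mod_cast h0
    rw [this]; exact dvd_zero p
  have : (((p : ℤ) ^ k * c : ℤ) : ℂ) / (b : ℂ) = (c : ℂ) * ((b' : ℂ))⁻¹ := by
    rw [hb]; push_cast; field_simp
  rw [this]
  exact mul_mem (Op.intCast_mem c) (Op.inv_natCast_mem hb')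

/-- general form: `b ≠ 0` and the full `p`-part of `b` divides `a`. -/
theorem Op.div_mem' {a : ℤ} {b : ℕ} (hb : b ≠ 0) (h : ((p : ℤ) ^ (b.factorization p)) ∣ a) :
    ((a : ℂ) / (b : ℂ)) ∈ Op p := by
  refine Op.div_mem (k := b.factorization p) (b' := b / p ^ (b.factorization p)) ?_ ?_ h
  · exact (Nat.ordProj_mul_ordCompl_eq_self b p).symm
  · exact Nat.not_dvd_ordCompl hp.out hb

theorem Op.nat_div_mem {a b : ℕ} (hb : b ≠ 0) (h : (p ^ (b.factorization p)) ∣ a) :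
    ((a : ℂ) / (b : ℂ)) ∈ Op p := by
  have := Op.div_mem' (p := p) (a := (a : ℤ)) hb (by exact_mod_cast h)
  simpa using this

end Op

variable {G : Type*} [Group G]

/-- class functions -/
def IsClassFn (f : G → ℂ) : Prop := ∀ x g : G, f (x * g * x⁻¹) = f g

variable [Fintype G]

/-- the usual inner product on complex functions on a finite group -/
def ip (f g : G → ℂ) : ℂ := (Fintype.card G : ℂ)⁻¹ * ∑ x, f x * conj (g x)

/-- multiplicity in `f` restricted to the cyclic group generated by `c` of the linear character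
`c ↦ w⁻¹` (`w` a root of unity of order dividing the order of `c`). -/
def coef (f : G → ℂ) (c : G) (w : ℂ) : ℂ :=
  (orderOf c : ℂ)⁻¹ * ∑ j ∈ Finset.range (orderOf c), f (c ^ j) * w ^ j

/-- class functions with `p`-integral multiplicities on all cyclic subgroups -/
def Rhat (p : ℕ) [Fact p.Prime] (f : G → ℂ) : Prop :=
  IsClassFn f ∧ ∀ (c : G) (w : ℂ), w ^ orderOf c = 1 → coef f c w ∈ Op p

/-- those which also have `p`-integral inner product with the trivial character -/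
def Sp (p : ℕ) [Fact p.Prime] (f : G → ℂ) : Prop := Rhat p f ∧ ip f 1 ∈ Op p

variable (G) in
/-- the self-duality criterion at `p` -/
def Spade (p : ℕ) [Fact p.Prime] : Prop :=
  ∀ f g : G → ℂ, Sp p f → Sp p g → ip f g ∈ Op p

/-- `x` is a `p`-element -/
def PEl (p : ℕ) (x : G) : Prop := ∃ n : ℕ, x ^ p ^ n = 1

end Pool.Agent.H44.IC
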