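import Pool.Agent.H44.IC.Chars

/-!
# Property (IC) is equivalent to the self-duality criterion at every prime
-/

open scoped ComplexConjugate
noncomputable section
universe u
namespace Pool.Agent.H44.IC

open Representation

section
variable {G : Type u} [Group G] [Fintype G]

/-- for a cyclic subgroup, the inner product with an induced linear character is a coefficient -/
theorem ip_indChar_zpowers (f : G → ℂ) (hf : IsClassFn f) (c : G)
    (l : Subgroup.zpowers c →* ℂˣ) :
    ip f (indChar (Subgroup.zpowers c) l)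
      = coef f c (conj ((l ⟨c, Subgroup.mem_zpowers c⟩ : ℂˣ) : ℂ)) := by
  classical
  rw [frobenius f hf, ← coef_eq_sum]

omit [Fintype G] in
theorem conj_gen_pow (c : G) (l : Subgroup.zpowers c →* ℂˣ) :
    (conj ((l ⟨c, Subgroup.mem_zpowers c⟩ : ℂˣ) : ℂ)) ^ orderOf c = 1 := by
  rw [← map_pow, ← Units.val_pow_eq_pow_val, ← map_pow]
  have : (⟨c, Subgroup.mem_zpowers c⟩ : Subgroup.zpowers c) ^ orderOf c = 1 := by
    apply Subtype.ext
    simp [pow_orderOf_eq_one]
  rw [this, map_one, Units.val_one, map_one]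

theorem exists_lin (c : G) (w : ℂ) (hw : w ^ orderOf c = 1) :
    ∃ l : Subgroup.zpowers c →* ℂˣ, conj ((l ⟨c, Subgroup.mem_zpowers c⟩ : ℂˣ) : ℂ) = w := by
  have hpos : orderOf c ≠ 0 := (orderOf_pos c).ne'
  have hw0 : conj w ≠ 0 := by
    intro h0
    have : w = 0 := by simpa using h0
    rw [this, zero_pow hpos] at hw
    exact zero_ne_one hw
  let W : ℂˣ := Units.mk0 (conj w) hw0
  have hW : W ^ orderOf c = 1 := by
    apply Units.ext
    rw [Units.val_pow_eq_pow_val, Units.val_mk0, ← map_pow, hw, map_one, Units.val_one]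
  let g : Subgroup.zpowers c := ⟨c, Subgroup.mem_zpowers c⟩
  have hg : ∀ x : Subgroup.zpowers c, x ∈ Subgroup.zpowers g := by
    rintro ⟨x, hx⟩
    obtain ⟨k, rfl⟩ := Subgroup.mem_zpowers_iff.1 hx
    exact Subgroup.mem_zpowers_iff.2 ⟨k, by apply Subtype.ext; simp [g]⟩
  have hord : orderOf W ∣ orderOf g := by
    apply orderOf_dvd_of_pow_eq_one
    rw [show orderOf g = orderOf c from Subgroup.orderOf_mk c _]
    exact hW
  refine ⟨monoidHomOfForallMemZpowers hg hord, ?_⟩
  rw [show (⟨c, Subgroup.mem_zpowers c⟩ : Subgroup.zpowers c) = g from rfl,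
    monoidHomOfForallMemZpowers_apply_gen]
  simp [W]

theorem irr_ip_indChar {χ : G → ℂ} (hχ : IsIrrChar G χ) (C : Subgroup G) (l : C →* ℂˣ) :
    ∃ m : ℕ, ip χ (indChar C l) = m := by
  classical
  rw [frobenius χ hχ.isClassFn]
  obtain ⟨V, _, _, _, ρ, _, rfl⟩ := hχ
  exact mult_nat ρ C l

theorem irr_ip_one {χ : G → ℂ} (hχ : IsIrrChar G χ) : ∃ m : ℕ, ip χ 1 = m := by
  classical
  obtain ⟨V, _, _, _, ρ, _, rfl⟩ := hχ
  have hcard : (Nat.card G : ℂ) ≠ 0 := by exact_mod_cast Nat.card_pos.ne'
  let _ : Invertible (Nat.card G : ℂ) := invertibleOfNonzero hcard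
  refine ⟨Module.finrank ℂ (invariants ρ), ?_⟩
  rw [← card_inv_mul_sum_char_eq_finrank ρ]
  unfold ip
  rw [Nat.card_eq_fintype_card]
  simp

theorem maximal_int (J : Ideal ℤ) (hJ : J.IsMaximal) :
    ∃ p : ℕ, p.Prime ∧ J = Ideal.span {(p : ℤ)} := by
  obtain ⟨a, ha⟩ := (IsPrincipalIdealRing.principal J).principal
  have ha' : J = Ideal.span {a} := ha
  have ha0 : a ≠ 0 := by
    rintro rfl
    rw [Ideal.span_singleton_eq_bot.2 rfl] at ha'
    rw [ha'] at hJ
    have : (Ideal.span {(2 : ℤ)} : Ideal ℤ) = ⊤ := by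
      rcases hJ.eq_of_le (J := Ideal.span {(2 : ℤ)}) (by
        rw [Ne, Ideal.span_singleton_eq_top]; decide) bot_le with h
      exfalso
      have h2 : (2 : ℤ) ∈ (⊥ : Ideal ℤ) := by rw [h]; exact Ideal.mem_span_singleton_self 2
      rw [Ideal.mem_bot] at h2
      norm_num at h2
    rw [Ideal.span_singleton_eq_top] at this
    exact absurd this (by decide)
  have hp : Prime a := by
    rw [← Ideal.span_singleton_prime ha0, ← ha']
    exact hJ.isPrime
  refine ⟨a.natAbs, Int.prime_iff_natAbs_prime.1 hp, ?_⟩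
  rw [ha', Int.span_natAbs]

end

theorem ic_iff_spade (G : Type u) [Group G] [Fintype G] :
    PropIC G ↔ ∀ (p : ℕ) [Fact p.Prime], Spade G p := by
  classical
  have hfin := irr_finite G
  have hft : Fintype {χ : G → ℂ // IsIrrChar G χ} := Fintype.ofFinite _
  constructor
  · intro hIC p hp f g hf hg
    have key : ∀ (f : G → ℂ), Sp p f → ∀ h ∈ AddSubgroup.closure
        ({1} ∪ {f : G → ℂ | ∃ (C : Subgroup G) (_ : IsCyclic C) (l : C →* ℂˣ), f = indChar C l}),
        ip f h ∈ Op p := by
      intro f hf h hh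
      induction hh using AddSubgroup.closure_induction with
      | mem x hx =>
        rcases hx with hx | ⟨C, hC, l, hx⟩
        · rw [Set.mem_singleton_iff] at hx
          rw [hx]; exact hf.2
        · obtain ⟨c, rfl⟩ := (Subgroup.isCyclic_iff_exists_zpowers_eq_top C).1 hC
          rw [hx, ip_indChar_zpowers f hf.1.1]
          exact hf.1.2 c _ (conj_gen_pow c l)
      | zero => rw [ip_zero_right]; exact zero_mem _
      | add x y _ _ hx hy => rw [ip_add_right]; exact add_mem hx hy
      | neg x _ hx => rw [ip_neg_right]; exact neg_mem hx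
    rw [ip_expand f g hg.1.1]
    apply sum_mem
    intro χ _
    exact mul_mem (key f hf _ (hIC χ.1 χ.2)) (Op.conj_mem (key g hg _ (hIC χ.1 χ.2)))
  · intro hS
    let L : AddSubgroup (G → ℂ) := AddSubgroup.closure
        ({1} ∪ {f : G → ℂ | ∃ (C : Subgroup G) (_ : IsCyclic C) (l : C →* ℂˣ), f = indChar C l})
    let Φ : ({χ : G → ℂ // IsIrrChar G χ} → ℤ) →+ (G → ℂ) :=
      { toFun := fun m => ∑ i, (m i : ℂ) • i.1
        map_zero' := by simp
        map_add' := fun m n => by
          rw [← Finset.sum_add_distrib]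
          refine Finset.sum_congr rfl fun i _ => ?_
          rw [Pi.add_apply, Int.cast_add, add_smul] }
    have hΦ : ∀ m, Φ m = ∑ i, (m i : ℂ) • i.1 := fun m => rfl
    let L0 : Submodule ℤ ({χ : G → ℂ // IsIrrChar G χ} → ℤ) := (AddSubgroup.comap Φ L).toIntSubmodule
    have hmemL0 : ∀ m, m ∈ L0 ↔ Φ m ∈ L := fun m => Iff.rfl
    -- elements with natural multiplicities come from integer vectors
    have hnat : ∀ h : G → ℂ, IsClassFn h → (∀ χ, IsIrrChar G χ → ∃ m : ℕ, ip χ h = m) →
        ∃ m, Φ m = h := by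
      intro h hc hm
      choose m hm using hm
      refine ⟨fun i => (m i.1 i.2 : ℤ), ?_⟩
      rw [hΦ]
      conv_rhs => rw [irr_expand h hc]
      refine Finset.sum_congr rfl fun i _ => ?_
      rw [← ip_conj, hm i.1 i.2]
      simp
    have hone : ∃ m, Φ m = 1 := hnat 1 isClassFn_one fun χ hχ => irr_ip_one hχ
    have hind : ∀ (C : Subgroup G) (l : C →* ℂˣ), ∃ m, Φ m = indChar C l := fun C l =>
      hnat _ (indChar_isClassFn C l) fun χ hχ => irr_ip_indChar hχ C l
    have hL0 : L0 = ⊤ := by
      by_contra hne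
      obtain ⟨M, hM, hLM⟩ := (eq_top_or_exists_le_coatom L0).resolve_left hne
      have hsimple : IsSimpleModule ℤ (({χ : G → ℂ // IsIrrChar G χ} → ℤ) ⧸ M) :=
        isSimpleModule_iff_isCoatom.2 hM
      obtain ⟨J, hJ, ⟨e⟩⟩ := isSimpleModule_iff_quot_maximal.1 hsimple
      obtain ⟨p, hp, hJp⟩ := maximal_int J hJ
      have hfp : Fact p.Prime := ⟨hp⟩
      let φ : ({χ : G → ℂ // IsIrrChar G χ} → ℤ) →ₗ[ℤ] ℤ ⧸ J := e.toLinearMap ∘ₗ M.mkQ
      have hφsurj : Function.Surjective φ := e.surjective.comp (Submodule.mkQ_surjective M)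
      have hφL : ∀ m ∈ L0, φ m = 0 := by
        intro m hm
        have : M.mkQ m = 0 := by
          rw [Submodule.mkQ_apply, Submodule.Quotient.mk_eq_zero]
          exact hLM hm
        change e (M.mkQ m) = 0
        rw [this, map_zero]
      have hmk : ∀ i, ∃ n : ℤ, Ideal.Quotient.mk J n = φ (Pi.single i 1) := fun i =>
        Ideal.Quotient.mk_surjective _
      choose n hn using hmk
      have hφ : ∀ m, φ m = Ideal.Quotient.mk J (∑ i, m i * n i) := by
        intro m
        have h1 : m = ∑ i, m i • (Pi.single i 1 : {χ : G → ℂ // IsIrrChar G χ} → ℤ) := by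
          funext j
          rw [Finset.sum_apply, Finset.sum_eq_single j]
          · simp
          · intro b _ hb
            rw [Pi.smul_apply, Pi.single_eq_of_ne (Ne.symm hb), smul_zero]
          · intro h; exact absurd (Finset.mem_univ _) h
        conv_lhs => rw [h1]
        rw [map_sum, map_sum]
        refine Finset.sum_congr rfl fun i _ => ?_
        rw [map_smul, ← hn i, map_mul]
        simp [zsmul_eq_mul]
      have hp0 : (p : ℂ) ≠ 0 := by exact_mod_cast hp.ne_zero
      let f : G → ℂ := (p : ℂ)⁻¹ • ∑ i : {χ : G → ℂ // IsIrrChar G χ}, (n i : ℂ) • i.1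
      have hfc : IsClassFn f := isClassFn_smul _ _
        (isClassFn_sum _ _ fun i _ => isClassFn_smul _ _ i.2.isClassFn)
      have hfi : ∀ i : {χ : G → ℂ // IsIrrChar G χ}, ip f i.1 = (n i : ℂ) / (p : ℂ) := by
        intro i
        rw [ip_smul_left, ip_sum_left, Finset.sum_eq_single i]
        · rw [ip_smul_left, irr_orthonormal i.2 i.2, if_pos rfl, mul_one, div_eq_inv_mul]
        · intro b _ hb
          rw [ip_smul_left, irr_orthonormal b.2 i.2, if_neg, mul_zero]
          intro h; exact hb (Subtype.ext h)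
        · intro h; exact absurd (Finset.mem_univ _) h
      have hfΦ : ∀ m ∈ L0, ip f (Φ m) ∈ Op p := by
        intro m hm
        have h0 := hφL m hm
        rw [hφ m, Ideal.Quotient.eq_zero_iff_mem, hJp, Ideal.mem_span_singleton] at h0
        obtain ⟨q, hq⟩ := h0
        have h1 : ip f (Φ m) = (q : ℂ) := by
          rw [hΦ, ip_sum_right]
          simp only [ip_smul_right, hfi, map_intCast]
          have h2 : (∑ i, (m i : ℂ) * (n i : ℂ)) = (p : ℂ) * q := by
            have := congrArg (fun z : ℤ => (z : ℂ)) hq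
            push_cast at this
            exact this
          calc ∑ i, (m i : ℂ) * ((n i : ℂ) / (p : ℂ)) = (∑ i, (m i : ℂ) * (n i : ℂ)) / p := by
                rw [Finset.sum_div]
                exact Finset.sum_congr rfl fun i _ => by ring
            _ = q := by rw [h2]; field_simp
        rw [h1]; exact Op.intCast_mem q
      have hSf : Sp p f := by
        refine ⟨⟨hfc, ?_⟩, ?_⟩
        · intro c w hw
          obtain ⟨l, hl⟩ := exists_lin c w hw
          rw [← hl, ← ip_indChar_zpowers f hfc]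
          obtain ⟨m, hm⟩ := hind (Subgroup.zpowers c) l
          rw [← hm]
          apply hfΦ
          rw [hmemL0, hm]
          apply AddSubgroup.subset_closure
          exact Or.inr ⟨_, inferInstance, l, rfl⟩
        · obtain ⟨m, hm⟩ := hone
          rw [← hm]
          apply hfΦ
          rw [hmemL0, hm]
          apply AddSubgroup.subset_closure
          exact Or.inl rfl
      have hSχ : ∀ χ, IsIrrChar G χ → Sp p χ := by
        intro χ hχ
        refine ⟨⟨hχ.isClassFn, ?_⟩, ?_⟩
        · intro c w hw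
          obtain ⟨l, hl⟩ := exists_lin c w hw
          rw [← hl, ← ip_indChar_zpowers χ hχ.isClassFn]
          obtain ⟨m, hm⟩ := irr_ip_indChar hχ (Subgroup.zpowers c) l
          rw [hm]; exact Op.natCast_mem m
        · obtain ⟨m, hm⟩ := irr_ip_one hχ
          rw [hm]; exact Op.natCast_mem m
      have hdvd : ∀ i, (p : ℤ) ∣ n i := by
        intro i
        have h1 := hS p f i.1 hSf (hSχ i.1 i.2)
        rw [hfi i] at h1
        have h2 := Op.dvd_of_div_mem (p := p) (a := n i) (b := p) (k := 1) hp.ne_zero h1 (by simp)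
        simpa using h2
      have hφ0 : ∀ m, φ m = 0 := by
        intro m
        rw [hφ m, Ideal.Quotient.eq_zero_iff_mem, hJp, Ideal.mem_span_singleton]
        exact Finset.dvd_sum fun i _ => Dvd.dvd.mul_left (hdvd i) _
      obtain ⟨m, hm⟩ := hφsurj (Ideal.Quotient.mk J 1)
      rw [hφ0 m, eq_comm, Ideal.Quotient.eq_zero_iff_mem] at hm
      exact hJ.ne_top ((Ideal.eq_top_iff_one J).2 hm)
    intro χ hχ
    have h1 : (Pi.single ⟨χ, hχ⟩ 1 : {χ : G → ℂ // IsIrrChar G χ} → ℤ) ∈ L0 := by
      rw [hL0]; trivial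
    rw [hmemL0, hΦ, Finset.sum_eq_single ⟨χ, hχ⟩] at h1
    · rw [Pi.single_eq_same, Int.cast_one, one_smul] at h1
      exact h1
    · intro b _ hb
      rw [Pi.single_eq_of_ne hb]; simp
    · intro h; exact absurd (Finset.mem_univ _) h

end Pool.Agent.H44.IC
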