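import Pool.Agent.H44.IC.NecIndB

open scoped ComplexConjugate commutatorElement
noncomputable section
namespace Pool.Agent.H44.IC

variable {G : Type*} [Group G] [Fintype G] {p : ℕ} [hp : Fact p.Prime]

/-- complex conjugate of a linear character -/
def cj {Q : Type*} [Group Q] (θ : Q →* ℂ) : Q →* ℂ :=
  ((starRingEnd ℂ : ℂ →+* ℂ) : ℂ →* ℂ).comp θ

theorem cj_apply {Q : Type*} [Group Q] (θ : Q →* ℂ) (x : Q) : cj θ x = conj (θ x) := rfl

/-- linear characters separate the commutator quotient -/
theorem exists_char {Q : Type*} [Group Q] [Finite Q] {x : Q} (hx : x ∉ commutator Q) :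
    ∃ θ : Q →* ℂˣ, θ x ≠ 1 := by
  have h1 : (Abelianization.of x) ≠ 1 := by
    intro h
    apply hx
    rw [← Abelianization.ker_of]
    exact h
  have : Finite (Abelianization Q) := Quotient.finite _
  obtain ⟨φ, hφ⟩ := CommGroup.exists_apply_ne_one_of_hasEnoughRootsOfUnity (Abelianization Q) ℂ h1
  exact ⟨φ.comp Abelianization.of, hφ⟩

theorem Kx_eq_top_iff (P : Subgroup G) (x : G) :
    Kx P P x = ⊤ ↔ Function.Surjective (phx P P x) := by
  have hc : Nat.card (⊤ : Subgroup P) = Nat.card P := Subgroup.card_top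
  constructor
  · intro h
    have hcard : Nat.card (Kx P P x) = Nat.card P := by rw [h, hc]
    exact ((Nat.bijective_iff_injective_and_card (phx P P x)).2
      ⟨phx_injective P P x, hcard⟩).2
  · intro h
    apply Subgroup.eq_top_of_card_eq
    exact Nat.card_congr (Equiv.ofBijective (phx P P x) ⟨phx_injective P P x, h⟩)

theorem index_eq_one_of_surjective {K Q : Type*} [Group K] [Group Q] {φ : K →* Q}
    (h : Function.Surjective φ) (N : Subgroup Q) : (φ.range ⊔ N).index = 1 := by
  rw [Subgroup.index_eq_one, eq_top_iff]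
  intro x _
  obtain ⟨y, rfl⟩ := h x
  exact Subgroup.mem_sup_left ⟨y, rfl⟩

theorem normal_of_commutator_le {Q : Type*} [Group Q] {N : Subgroup Q} (hN1 : commutator Q ≤ N) :
    N.Normal := by
  constructor
  intro n hn g
  have h1 : g * n * g⁻¹ = ⁅g, n⁆ * n := by rw [commutatorElement_def]; group
  rw [h1]
  exact N.mul_mem (hN1 (Subgroup.commutator_mem_commutator (Subgroup.mem_top _)
      (Subgroup.mem_top _))) hn

theorem nec_pow_comm (hsp : Spade G p) (P : Sylow p G) (hP : ¬ IsCyclic P) (x : P) :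
    x ^ p ∈ commutator P := by
  classical
  by_contra hx
  obtain ⟨θu, hθu⟩ := exists_char hx
  set θ : P →* ℂ := (Units.coeHom ℂ).comp θu with hθ
  have hθx : θ (x ^ p) ≠ 1 := by
    intro h
    apply hθu
    ext
    exact h
  set N : Subgroup P := frattini P with hN
  have hN1 : commutator P ≤ N := commutator_le_frattini P.2
  have hNn : N.Normal := normal_of_commutator_le hN1
  have h1 := spade_cons hsp P hP hN1 le_rfl (1 : P) θ
  have h2 : (Nat.card (P : Subgroup G) : ℂ)⁻¹ * ∑ a : (P : Subgroup G),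
      indf (P : Subgroup G) (psiN N 1) a * (cj θ) a ∈ pO p := by
    apply master_mem (P : Subgroup G) (P : Subgroup G) (pO p) (psiN_class hN1 1) (cj θ)
    intro y
    rw [sfun_eq]
    by_cases hs : Function.Surjective (phx (P : Subgroup G) (P : Subgroup G) y)
    · have h3 := coset_sum N (phx (P : Subgroup G) (P : Subgroup G) y)
        ((cj θ).comp (Kx (P : Subgroup G) (P : Subgroup G) y).subtype) 1 1 (by simp)
      rw [if_neg, mul_zero] at h3
      · have h4 : (Nat.card (Kx (P : Subgroup G) (P : Subgroup G) y) : ℂ)⁻¹ *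
            ∑ k : Kx (P : Subgroup G) (P : Subgroup G) y,
              psiN N 1 (phx (P : Subgroup G) (P : Subgroup G) y k) * (cj θ) k.1 = 0 := h3
        rw [h4]; exact zero_mem _
      · intro hcon
        have hK := (Kx_eq_top_iff (P : Subgroup G) y).2 hs
        have hxK : ∀ z : P, z ∈ Kx (P : Subgroup G) (P : Subgroup G) y := fun z => by
          rw [hK]; exact Subgroup.mem_top _
        have h5 := hcon (⟨x, hxK x⟩ ^ p) (by
          rw [map_pow]; exact pow_mem_frattini P.2 _)
        have h6 : conj (θ (x ^ p)) = 1 := h5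
        apply hθx
        have := congrArg (starRingEnd ℂ) h6
        simpa using this
    · exact coset_mem_pO P.2 N le_rfl (phx (P : Subgroup G) (P : Subgroup G) y) hs
        ((cj θ).comp (Kx (P : Subgroup G) (P : Subgroup G) y).subtype) 1
  have h3 : ((P : Subgroup G).index : ℂ) ∈ pO p := by
    have := sub_mem h2 h1
    have e : ∀ a b : ℂ, a - (a - b) = b := fun a b => by ring
    have h7 : (Nat.card (P : Subgroup G) : ℂ)⁻¹ * ∑ a : (P : Subgroup G),
      indf (P : Subgroup G) (psiN N 1) a * (cj θ) a = (Nat.card (P : Subgroup G) : ℂ)⁻¹ *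
        ∑ a : (P : Subgroup G), indf (P : Subgroup G) (psiN N 1) a * conj (θ a) := rfl
    rw [h7, e] at this
    exact this
  have h4 := div_mem_of_mem_pO h3
  have h5 := Op.nat_dvd_of_div_mem (p := p) hp.out.ne_zero h4 (k := 1) (by simp)
  rw [pow_one] at h5
  exact P.not_dvd_index h5

theorem one_sub_pow_mem {z : ℂ} (hz : z ∈ Op p) (h : (z - 1) / p ∈ Op p) (j : ℕ) :
    (1 - z ^ j) / p ∈ Op p := by
  have h1 : (1 - z ^ j) = - ((z - 1) * ∑ i ∈ Finset.range j, z ^ i) := by
    rw [mul_comm, geom_sum_mul]; ring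
  rw [h1]
  have h2 : - ((z - 1) * ∑ i ∈ Finset.range j, z ^ i) / (p : ℂ)
      = - (((z - 1) / p) * ∑ i ∈ Finset.range j, z ^ i) := by ring
  rw [h2]
  apply neg_mem
  apply mul_mem h
  exact Subring.sum_mem _ (fun i _ => pow_mem hz i)

theorem prim_contra (hp2 : p ≠ 2) {z : ℂ} (hz : z ^ p = 1) (hz1 : z ≠ 1)
    (h : (z - 1) / p ∈ Op p) : False := by
  have hp0 : (p : ℂ) ≠ 0 := by exact_mod_cast hp.out.ne_zero
  have hzO : z ∈ Op p := Op.root_mem hp.out.ne_zero hz
  have hprim : IsPrimitiveRoot z p := by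
    have h0 : orderOf z = p := orderOf_eq_prime hz hz1
    rw [← h0]
    exact IsPrimitiveRoot.orderOf z
  obtain ⟨n, hn⟩ : ∃ n, p = n + 1 := ⟨p - 1, by have := hp.out.pos; omega⟩
  have hprim' : IsPrimitiveRoot z (n + 1) := by rw [← hn]; exact hprim
  have h1 := hprim'.prod_one_sub_pow_eq_order
  have h2 : ∏ k ∈ Finset.range n, ((1 - z ^ (k + 1)) / (p : ℂ)) ∈ Op p :=
    Subring.prod_mem _ (fun k _ => one_sub_pow_mem hzO h (k + 1))
  rw [Finset.prod_div_distrib, h1, Finset.prod_const, Finset.card_range] at h2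
  have h3 : ((n : ℂ) + 1) = (p : ℂ) := by rw [hn]; push_cast; ring
  rw [h3] at h2
  have h4 : ((p : ℂ) / (p : ℂ) ^ n) = ((p : ℕ) : ℂ) / ((p ^ n : ℕ) : ℂ) := by push_cast; ring
  rw [h4] at h2
  have h5 := Op.nat_dvd_of_div_mem (p := p) (pow_ne_zero _ hp.out.ne_zero) h2 (k := n) dvd_rfl
  have h6 : n ≤ 1 := by
    by_contra hcon
    have h7 : p ^ n ≤ p := Nat.le_of_dvd hp.out.pos h5
    have h8 : p ^ 2 ≤ p ^ n := Nat.pow_le_pow_right hp.out.pos (by omega)
    have h9 := hp.out.two_le
    nlinarith
  have h7 := hp.out.two_le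
  omega

theorem nec_primlin (hp2 : p ≠ 2) (hsp : Spade G p) (P : Sylow p G) (hP : ¬ IsCyclic P) (v : P)
    (hv : v ^ p = 1) (hv' : v ∉ commutator P)
    (hN : ∀ φ : P ≃* P, φ v * v⁻¹ ∈ commutator P) : False := by
  classical
  have hp0 : (p : ℂ) ≠ 0 := by exact_mod_cast hp.out.ne_zero
  obtain ⟨θu, hθu⟩ := exists_char hv'
  set θ : P →* ℂ := (Units.coeHom ℂ).comp θu with hθ
  set ζ : ℂ := conj (θ v) with hζ
  have hζ1 : ζ ≠ 1 := by
    intro h
    apply hθu
    have := congrArg (starRingEnd ℂ) h
    rw [hζ] at this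
    have h9 : θ v = 1 := by simpa using this
    exact Units.ext h9
  have hζp : ζ ^ p = 1 := by
    rw [hζ, ← map_pow, ← map_pow, hv, map_one, map_one]
  apply prim_contra hp2 hζp hζ1
  set N : Subgroup P := commutator P with hNdef
  have hNn : N.Normal := normal_of_commutator_le le_rfl
  have hNf : N ≤ frattini P := commutator_le_frattini P.2
  have h1 := spade_cons hsp P hP (N := N) le_rfl hNf v θ
  set t : G → ℂ := fun x => sfun (P : Subgroup G) (P : Subgroup G) (psiN N v) (cj θ) x
    - (if Kx (P : Subgroup G) (P : Subgroup G) x = ⊤ then ζ else 0) with ht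
  have hKinv : ∀ (a b : P) (x : G), (Kx (P : Subgroup G) (P : Subgroup G) (a * x * (b : G)⁻¹) = ⊤)
      ↔ (Kx (P : Subgroup G) (P : Subgroup G) x = ⊤) := by
    intro a b x
    rw [← Subgroup.card_eq_iff_eq_top, ← Subgroup.card_eq_iff_eq_top]
    have := Kx_card_conj (P : Subgroup G) (P : Subgroup G) a b x
    rw [this]
  have htA : ∀ x, t x ∈ pO p := by
    intro x
    simp only [ht]
    by_cases hs : Function.Surjective (phx (P : Subgroup G) (P : Subgroup G) x)
    · have hK := (Kx_eq_top_iff (P : Subgroup G) x).2 hs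
      rw [if_pos hK]
      obtain ⟨k0, hk0⟩ := hs v
      have h3 := coset_sum N (phx (P : Subgroup G) (P : Subgroup G) x)
        ((cj θ).comp (Kx (P : Subgroup G) (P : Subgroup G) x).subtype) v k0
        (by rw [hk0]; simp)
      have hxK : ∀ z : P, z ∈ Kx (P : Subgroup G) (P : Subgroup G) x := fun z => by
          rw [hK]; exact Subgroup.mem_top _
      -- the automorphism of `P`
      let φ1 : Kx (P : Subgroup G) (P : Subgroup G) x ≃* P :=
        MulEquiv.ofBijective (phx (P : Subgroup G) (P : Subgroup G) x) ⟨phx_injective _ _ x, hs⟩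
      let φ2 : Kx (P : Subgroup G) (P : Subgroup G) x ≃* P :=
        MulEquiv.ofBijective (Kx (P : Subgroup G) (P : Subgroup G) x).subtype
          ⟨Subtype.val_injective, fun z => ⟨⟨z, hxK z⟩, rfl⟩⟩
      let α : P ≃* P := φ1.symm.trans φ2
      have hα : ∀ k : Kx (P : Subgroup G) (P : Subgroup G) x,
          α (phx (P : Subgroup G) (P : Subgroup G) x k) = k.1 := by
        intro k
        show φ2 (φ1.symm (φ1 k)) = k.1
        rw [MulEquiv.symm_apply_apply]
        rfl
      have hker : ∀ n ∈ commutator P, ∀ β : P →* ℂˣ, β n = 1 := fun n hn β =>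
        Abelianization.commutator_subset_ker β hn
      rw [if_pos, mul_one, index_eq_one_of_surjective hs] at h3
      · have h4 : (Nat.card (Kx (P : Subgroup G) (P : Subgroup G) x) : ℂ)⁻¹ *
            ∑ k : Kx (P : Subgroup G) (P : Subgroup G) x,
              psiN N v (phx (P : Subgroup G) (P : Subgroup G) x k) * (cj θ) k.1
            = ((1 : ℕ) : ℂ) * (cj θ) k0.1 := h3
        rw [sfun_eq, h4]
        have h5 : (cj θ) k0.1 = ζ := by
          rw [cj_apply, hζ]
          congr 1
          have h6 : θu (k0.1 * v⁻¹) = 1 := by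
            apply hker
            have := hN α
            rw [← hα k0, hk0]
            exact this
          have h7 : θu k0.1 = θu v := by
            rw [map_mul, map_inv] at h6
            exact mul_inv_eq_one.1 h6
          show ((θu k0.1 : ℂˣ) : ℂ) = ((θu v : ℂˣ) : ℂ)
          rw [h7]
        rw [h5]
        have : ((1 : ℕ) : ℂ) * ζ - ζ = 0 := by push_cast; ring
        rw [this]
        exact zero_mem _
      · intro m hm
        show conj (θ m.1) = 1
        have h6 : (θu.comp α.toMonoidHom) (phx (P : Subgroup G) (P : Subgroup G) x m) = 1 :=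
          hker _ hm _
        have h7 : θu m.1 = 1 := by
          have : (θu.comp α.toMonoidHom) (phx (P : Subgroup G) (P : Subgroup G) x m)
              = θu (α (phx (P : Subgroup G) (P : Subgroup G) x m)) := rfl
          rw [this, hα] at h6
          exact h6
        have h8 : θ m.1 = 1 := by
          show ((θu m.1 : ℂˣ) : ℂ) = 1
          rw [h7]; rfl
        rw [h8, map_one]
    · rw [if_neg (fun h => hs ((Kx_eq_top_iff (P : Subgroup G) x).1 h)), sub_zero, sfun_eq]
      exact coset_mem_pO P.2 N hNf (phx (P : Subgroup G) (P : Subgroup G) x) hs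
        ((cj θ).comp (Kx (P : Subgroup G) (P : Subgroup G) x).subtype) v
  have hψc : IsClassFn (psiN N v) := psiN_class le_rfl v
  have h2 := master_avg (P : Subgroup G) (P : Subgroup G) (pO p) t (fun a b x => by
    simp only [ht]
    rw [sfun_inv (P : Subgroup G) (P : Subgroup G) hψc (cj θ) a b x]
    by_cases h : Kx (P : Subgroup G) (P : Subgroup G) x = ⊤
    · rw [if_pos h, if_pos ((hKinv a b x).2 h)]
    · rw [if_neg h, if_neg (fun h' => h ((hKinv a b x).1 h'))]) htA
  have hmaster := master_sum (P : Subgroup G) (P : Subgroup G) (psiN N v) (cj θ)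
  have hP0 : (Nat.card (P : Subgroup G) : ℂ) ≠ 0 := by
    exact_mod_cast (Nat.card_pos (α := (P : Subgroup G))).ne'
  -- the number of `x` with full stabilizer
  have hKn : ∀ x : G, Kx (P : Subgroup G) (P : Subgroup G) x = ⊤ ↔
      x ∈ Subgroup.normalizer ((P : Subgroup G) : Set G) := by
    intro x
    constructor
    · intro h
      rw [Subgroup.mem_normalizer_iff]
      intro z
      constructor
      · intro hz
        obtain ⟨k, hk⟩ := (Kx_eq_top_iff (P : Subgroup G) x).1 h ⟨z, hz⟩
        have h3 := congrArg (fun y : P => (y : G)) hk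
        simp only [phx_apply] at h3
        have h4 : x * z * x⁻¹ = (k.1 : G) := by rw [← h3]; group
        rw [h4]
        exact k.1.2
      · intro hz
        have h3 : (⟨x * z * x⁻¹, hz⟩ : P) ∈ Kx (P : Subgroup G) (P : Subgroup G) x := by
          rw [h]; exact Subgroup.mem_top _
        have h4 := mem_Kx.1 h3
        have h5 : x⁻¹ * (x * z * x⁻¹) * x = z := by group
        rw [← h5]
        exact h4
    · intro h
      rw [eq_top_iff]
      intro z _
      rw [mem_Kx]
      have h3 := (Subgroup.mem_normalizer_iff'.1 h) 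
      have h4 := Subgroup.inv_mem _ h
      rw [Subgroup.mem_normalizer_iff] at h4
      have h5 := (h4 z).1 z.2
      simpa using h5
  set m : ℕ := (P : Subgroup G).relIndex (Subgroup.normalizer ((P : Subgroup G) : Set G)) with hm
  have hcount : ∑ x : G, ((Nat.card (Kx (P : Subgroup G) (P : Subgroup G) x) : ℂ)
      / ((Nat.card (P : Subgroup G) : ℂ) * (Nat.card (P : Subgroup G) : ℂ))) *
      (if Kx (P : Subgroup G) (P : Subgroup G) x = ⊤ then ζ else 0) = (m : ℂ) * ζ := by
    have e : ∀ x : G, ((Nat.card (Kx (P : Subgroup G) (P : Subgroup G) x) : ℂ)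
      / ((Nat.card (P : Subgroup G) : ℂ) * (Nat.card (P : Subgroup G) : ℂ))) *
      (if Kx (P : Subgroup G) (P : Subgroup G) x = ⊤ then ζ else 0)
      = if x ∈ Subgroup.normalizer ((P : Subgroup G) : Set G) then
        (Nat.card (P : Subgroup G) : ℂ)⁻¹ * ζ else 0 := by
      intro x
      by_cases h : Kx (P : Subgroup G) (P : Subgroup G) x = ⊤
      · rw [if_pos h, if_pos ((hKn x).1 h), h, Subgroup.card_top]
        field_simp
      · rw [if_neg h, if_neg (fun h' => h ((hKn x).2 h')), mul_zero]
    rw [Finset.sum_congr rfl (fun x _ => e x), ← Finset.sum_filter, Finset.sum_const,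
      nsmul_eq_mul]
    have h3 : (Finset.univ.filter (fun x => x ∈ Subgroup.normalizer
        ((P : Subgroup G) : Set G))).card
        = Nat.card (Subgroup.normalizer ((P : Subgroup G) : Set G)) := by
      rw [Nat.card_eq_fintype_card, Fintype.card_subtype]
    have h4 : m * Nat.card (P : Subgroup G)
        = Nat.card (Subgroup.normalizer ((P : Subgroup G) : Set G)) := by
      rw [hm]
      have := Subgroup.card_mul_index ((P : Subgroup G).subgroupOf
        (Subgroup.normalizer ((P : Subgroup G) : Set G)))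
      rw [← this, mul_comm]
      congr 1
      exact (Nat.card_congr (Subgroup.subgroupOfEquivOfLe Subgroup.le_normalizer).toEquiv).symm
    rw [h3, ← h4]
    push_cast
    field_simp
  have hidx : (P : Subgroup G).index = m * Nat.card (Sylow p G) := by
    rw [Sylow.card_eq_index_normalizer P, hm]
    exact (Subgroup.relIndex_mul_index (Subgroup.le_normalizer (H := (P : Subgroup G)))).symm
  have hmp : ¬ p ∣ m := by
    intro h
    apply P.not_dvd_index
    rw [hidx]
    exact dvd_mul_of_dvd_left h _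
  obtain ⟨k, hk⟩ : ∃ k : ℤ, (Nat.card (Sylow p G) : ℤ) = 1 + p * k := by
    have h3 := card_sylow_modEq_one p G
    have h4 := (Nat.modEq_iff_dvd.1 h3.symm)
    obtain ⟨k, hk⟩ := h4
    exact ⟨k, by push_cast at hk ⊢; linarith⟩
  -- conclusion
  have h5 : (m : ℂ) * (ζ - 1) ∈ pO p := by
    have e1 : (Nat.card (P : Subgroup G) : ℂ)⁻¹ * ∑ a : (P : Subgroup G),
        indf (P : Subgroup G) (psiN N v) a * (cj θ) a
        = (∑ x : G, ((Nat.card (Kx (P : Subgroup G) (P : Subgroup G) x) : ℂ)
          / ((Nat.card (P : Subgroup G) : ℂ) * (Nat.card (P : Subgroup G) : ℂ))) * t x)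
          + (m : ℂ) * ζ := by
      rw [hmaster, ← hcount, ← Finset.sum_add_distrib]
      apply Finset.sum_congr rfl
      intro x _
      simp only [ht]
      ring
    have e2 : (Nat.card (P : Subgroup G) : ℂ)⁻¹ * ∑ a : (P : Subgroup G),
        indf (P : Subgroup G) (psiN N v) a * conj (θ a)
        = (Nat.card (P : Subgroup G) : ℂ)⁻¹ * ∑ a : (P : Subgroup G),
        indf (P : Subgroup G) (psiN N v) a * (cj θ) a := rfl
    rw [e2, e1, hidx] at h1
    have h6 := sub_mem h1 h2
    have h7 : ((m : ℂ) * k : ℂ) ∈ Op p := mul_mem (Op.natCast_mem m) (Op.intCast_mem k)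
    have h8 : (p : ℂ) * ((m : ℂ) * k) ∈ pO p := mem_pO.2 ⟨_, h7, rfl⟩
    have h9 := add_mem h6 h8
    have hkC : (Nat.card (Sylow p G) : ℂ) = 1 + p * k := by exact_mod_cast hk
    convert h9 using 1
    push_cast
    rw [hkC]
    ring
  have h6 := div_mem_of_mem_pO h5
  have hm0 : (m : ℂ) ≠ 0 := by
    intro h0
    apply hmp
    have : m = 0 := by exact_mod_cast h0
    rw [this]; exact dvd_zero p
  have h7 := mul_mem (Op.inv_natCast_mem hmp) h6
  convert h7 using 1
  field_simp

end Pool.Agent.H44.IC
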