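import Pool.Agent.H44.IC.Decomp

/-! Sufficiency: Sylow subgroup of exponent `p`, rational, at most one exceptional class. -/

open scoped ComplexConjugate
noncomputable section
namespace Pool.Agent.H44.IC

variable {G : Type*} [Group G] [Fintype G] {p : ℕ} [hp : Fact p.Prime]

/-- every `p`-element is conjugate into a given Sylow subgroup -/
theorem PEl.exists_conj_mem (P : Sylow p G) {u : G} (hu : PEl p u) : ∃ x : G, x * u * x⁻¹ ∈ P := by
  have hK : IsPGroup p (Subgroup.zpowers u) := by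
    rintro ⟨y, k, rfl⟩
    obtain ⟨n, hn⟩ := hu
    refine ⟨n, ?_⟩
    ext
    have h1 : ((u ^ k) ^ p ^ n : G) = 1 := by
      rw [← zpow_natCast, ← zpow_mul, mul_comm, zpow_mul, zpow_natCast, hn, one_zpow]
    exact h1
  obtain ⟨Q, hQ⟩ := hK.exists_le_sylow
  obtain ⟨x, hx⟩ := MulAction.exists_smul_eq G Q P
  refine ⟨x, ?_⟩
  rw [← hx]
  have h1 : u ∈ Q := hQ (Subgroup.mem_zpowers u)
  have h2 : x * u * x⁻¹ ∈ ((x • Q : Sylow p G) : Subgroup G) := by
    rw [Sylow.coe_subgroup_smul]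
    exact Subgroup.smul_mem_pointwise_smul _ _ _ h1
  exact h2

omit hp in
theorem ell_add (F H : G → ℂ) : ell p (fun u => F u + H u) = ell p F + ell p H := by
  unfold ell
  rw [Finset.sum_add_distrib, mul_add]

omit hp in
theorem ell_mul_left (a : ℂ) (F : G → ℂ) : ell p (fun u => a * F u) = a * ell p F := by
  unfold ell
  rw [← Finset.mul_sum]; ring

omit hp in
theorem ell_congr {F H : G → ℂ} (h : ∀ u, PEl p u → F u = H u) : ell p F = ell p H := by
  unfold ell
  congr 1
  apply Finset.sum_congr rfl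
  intro u hu
  rw [mem_pEls] at hu
  exact h u hu

omit hp in
theorem ell_conj (F : G → ℂ) : ell p (fun u => conj (F u)) = conj (ell p F) := by
  unfold ell
  rw [map_mul, map_sum, map_inv₀, Complex.conj_natCast]

omit [Fintype G] in
theorem IsConj.classFn {f : G → ℂ} (hf : IsClassFn f) {u v : G} (h : IsConj u v) : f u = f v := by
  obtain ⟨x, hx⟩ := isConj_iff.1 h
  rw [← hx, hf]

theorem suff_exp (P : Sylow p G) (hexp : ∀ u ∈ P, u ^ p = 1)
    (hrat : ∀ u ∈ P, ∀ j : ℕ, j.Coprime p → IsConj u (u ^ j))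
    (hcl : ∀ u ∈ P, ∀ v ∈ P, u ≠ 1 → v ≠ 1 →
      p ^ 3 ∣ Nat.card (Subgroup.centralizer ({u} : Set G)) →
      p ^ 3 ∣ Nat.card (Subgroup.centralizer ({v} : Set G)) → IsConj u v)
    {f g : G → ℂ} (hf : Rhat p f) (hg : Rhat p g) (hlf : ell p f ∈ Op p) (hlg : ell p g ∈ Op p) :
    ell p (fun u => f u * conj (g u)) ∈ Op p := by
  classical
  have hp0 : (p : ℂ) ≠ 0 := by exact_mod_cast hp.out.ne_zero
  have hG0 : (Fintype.card G : ℂ) ≠ 0 := by exact_mod_cast (Fintype.card_pos (α := G)).ne'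
  -- facts for all p-elements
  have hexp' : ∀ u : G, PEl p u → u ^ p = 1 := by
    intro u hu
    obtain ⟨x, hx⟩ := hu.exists_conj_mem P
    have h1 := hexp _ hx
    rw [conj_pow, mul_inv_eq_one, mul_eq_left] at h1
    exact h1
  have hrat' : ∀ u : G, PEl p u → ∀ j : ℕ, j.Coprime p → IsConj u (u ^ j) := by
    intro u hu j hj
    obtain ⟨x, hx⟩ := hu.exists_conj_mem P
    have h1 := hrat _ hx j hj
    rw [conj_pow] at h1
    have h2 : IsConj u (x * u * x⁻¹) := isConj_iff.2 ⟨x, rfl⟩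
    have h3 : IsConj (u ^ j) (x * u ^ j * x⁻¹) := isConj_iff.2 ⟨x, rfl⟩
    exact h2.trans (h1.trans h3.symm)
  have hcl' : ∀ u v : G, PEl p u → PEl p v → u ≠ 1 → v ≠ 1 →
      p ^ 3 ∣ Nat.card (Subgroup.centralizer ({u} : Set G)) →
      p ^ 3 ∣ Nat.card (Subgroup.centralizer ({v} : Set G)) → IsConj u v := by
    intro u v hu hv hu1 hv1 h1 h2
    obtain ⟨x, hx⟩ := hu.exists_conj_mem P
    obtain ⟨y, hy⟩ := hv.exists_conj_mem P
    have h3 := hcl _ hx _ hy (by
        intro h; apply hu1; rwa [mul_inv_eq_one, mul_eq_left] at h) (by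
        intro h; apply hv1; rwa [mul_inv_eq_one, mul_eq_left] at h)
        (by rw [card_centralizer_conj]; exact h1) (by rw [card_centralizer_conj]; exact h2)
    have h4 : IsConj u (x * u * x⁻¹) := isConj_iff.2 ⟨x, rfl⟩
    have h5 : IsConj v (y * v * y⁻¹) := isConj_iff.2 ⟨y, rfl⟩
    exact h4.trans (h3.trans h5.symm)
  -- the divided differences
  have hdiv : ∀ f : G → ℂ, Rhat p f → ∀ u : G, PEl p u → (f 1 - f u) / p ∈ Op p := by
    intro f hf u hu
    by_cases hu1 : u = 1
    · rw [hu1]; simp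
    have hou : orderOf u = p := orderOf_eq_prime (hexp' u hu) hu1
    have hζ := Complex.isPrimitiveRoot_exp p hp.out.ne_zero
    set ζ := Complex.exp (2 * Real.pi * Complex.I / p) with hζdef
    have h1 := hf.2 u ζ (by rw [hou]; exact hζ.pow_eq_one)
    have h2 : coef f u ζ = (f 1 - f u) / p := by
      unfold coef
      rw [hou, div_eq_inv_mul]
      congr 1
      obtain ⟨q, hq⟩ : ∃ q, p = q + 1 := ⟨p - 1, (Nat.succ_pred_eq_of_pos hp.out.pos).symm⟩
      have h3 : ∀ j ∈ Finset.range q, f (u ^ (j + 1)) * ζ ^ (j + 1) = f u * ζ ^ (j + 1) := by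
        intro j hj
        rw [Finset.mem_range] at hj
        congr 1
        apply (IsConj.classFn hf.1 _).symm
        apply hrat' u hu
        rw [Nat.coprime_comm, Nat.Prime.coprime_iff_not_dvd hp.out]
        intro h4
        have := Nat.le_of_dvd (Nat.succ_pos j) h4
        omega
      have h5 : ∑ j ∈ Finset.range p, ζ ^ j = 0 := hζ.geom_sum_eq_zero hp.out.one_lt
      rw [hq, Finset.sum_range_succ'] at h5 ⊢
      rw [Finset.sum_congr rfl h3, ← Finset.mul_sum]
      simp only [pow_zero, mul_one] at h5 ⊢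
      linear_combination (f u) * h5
    rw [← h2]; exact h1
  have hAf := hdiv f hf
  have hAg := hdiv g hg
  set Af : G → ℂ := fun u => (f 1 - f u) / p with hAfdef
  set Ag : G → ℂ := fun u => (g 1 - g u) / p with hAgdef
  have hAf1 : Af 1 = 0 := by simp [hAfdef]
  have hAg1 : Ag 1 = 0 := by simp [hAgdef]
  have hAfc : IsClassFn Af := fun x u => by simp only [hAfdef]; rw [hf.1]
  have hAgc : IsClassFn Ag := fun x u => by simp only [hAgdef]; rw [hg.1]
  have hone : ell p (fun _ : G => (1 : ℂ)) ∈ Op p := frobenius_count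
  have hf1 : f 1 ∈ Op p := hf.apply_mem 1
  have hg1 : g 1 ∈ Op p := hg.apply_mem 1
  -- ell of p * Af
  have hlAf : ell p (fun u => (p : ℂ) * Af u) ∈ Op p := by
    have e : ell p (fun u => (p : ℂ) * Af u) = f 1 * ell p (fun _ : G => (1 : ℂ)) - ell p f := by
      have e1 : ell p (fun u => f 1 * (1 : ℂ) + (-1) * f u) = f 1 * ell p (fun _ : G => (1 : ℂ)) + (-1) * ell p f := by
        rw [ell_add, ell_mul_left, ell_mul_left]
      rw [sub_eq_add_neg, ← neg_one_mul, ← e1]
      apply ell_congr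
      intro u _
      simp only [hAfdef]
      field_simp
      ring
    rw [e]
    exact sub_mem (mul_mem hf1 hone) hlf
  have hlAg : ell p (fun u => (p : ℂ) * Ag u) ∈ Op p := by
    have e : ell p (fun u => (p : ℂ) * Ag u) = g 1 * ell p (fun _ : G => (1 : ℂ)) - ell p g := by
      have e1 : ell p (fun u => g 1 * (1 : ℂ) + (-1) * g u) = g 1 * ell p (fun _ : G => (1 : ℂ)) + (-1) * ell p g := by
        rw [ell_add, ell_mul_left, ell_mul_left]
      rw [sub_eq_add_neg, ← neg_one_mul, ← e1]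
      apply ell_congr
      intro u _
      simp only [hAgdef]
      field_simp
      ring
    rw [e]
    exact sub_mem (mul_mem hg1 hone) hlg
  -- splitting
  set Une := (pEls G p).filter (fun u => u ≠ 1 ∧
    ¬ p ^ 3 ∣ Nat.card (Subgroup.centralizer ({u} : Set G))) with hUne
  set Uex := (pEls G p).filter (fun u => u ≠ 1 ∧
    p ^ 3 ∣ Nat.card (Subgroup.centralizer ({u} : Set G))) with hUex
  have hsplit : ∀ F : G → ℂ, F 1 = 0 → ell p F = (Fintype.card G : ℂ)⁻¹ * ∑ u ∈ Une, F u
      + (Fintype.card G : ℂ)⁻¹ * ∑ u ∈ Uex, F u := by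
    intro F hF1
    unfold ell
    rw [← mul_add]
    congr 1
    rw [hUne, hUex, Finset.sum_filter, Finset.sum_filter, ← Finset.sum_add_distrib]
    apply Finset.sum_congr rfl
    intro u _
    by_cases h1 : u = 1
    · rw [h1, hF1]; simp
    · by_cases h2 : p ^ 3 ∣ Nat.card (Subgroup.centralizer ({u} : Set G))
      · rw [if_neg (fun h => h.2 h2), if_pos ⟨h1, h2⟩, zero_add]
      · rw [if_pos ⟨h1, h2⟩, if_neg (fun h => h2 h.2), add_zero]
  have hne : ∀ F : G → ℂ, IsClassFn F → (∀ u, PEl p u → F u ∈ Op p) →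
      (Fintype.card G : ℂ)⁻¹ * ∑ u ∈ Une, (p : ℂ) ^ 2 * F u ∈ Op p := by
    intro F hF hval
    apply conj_average (Op p).toAddSubgroup Une
    · intro x u hu
      rw [hUne, Finset.mem_filter, mem_pEls] at hu ⊢
      refine ⟨hu.1.conj x, ?_, ?_⟩
      · intro h; apply hu.2.1; rwa [mul_inv_eq_one, mul_eq_left] at h
      · rw [card_centralizer_conj]; exact hu.2.2
    · intro x u _
      rw [hF]
    · intro u hu
      rw [hUne, Finset.mem_filter, mem_pEls] at hu
      have h0 : Nat.card (Subgroup.centralizer ({u} : Set G)) ≠ 0 := Nat.card_pos.ne'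
      have h1 : ((p : ℂ) ^ 2 * F u) / (Nat.card (Subgroup.centralizer ({u} : Set G)) : ℂ)
          = F u * (((p ^ 2 : ℕ) : ℂ) / (Nat.card (Subgroup.centralizer ({u} : Set G)) : ℂ)) := by
        push_cast; ring
      show ((p : ℂ) ^ 2 * F u) / (Nat.card (Subgroup.centralizer ({u} : Set G)) : ℂ) ∈ Op p
      rw [h1]
      apply mul_mem (hval u hu.1)
      apply Op.nat_div_mem h0
      apply pow_dvd_pow
      by_contra hcon
      apply hu.2.2
      exact (hp.out.pow_dvd_iff_le_factorization h0).2 (by omega)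
  -- the exceptional class
  have hex : (Fintype.card G : ℂ)⁻¹ * ∑ u ∈ Uex, (p : ℂ) ^ 2 * (Af u * conj (Ag u)) ∈ Op p := by
    rcases Uex.eq_empty_or_nonempty with he | ⟨u₀, hu₀⟩
    · rw [he]; simp
    · have hu₀' := hu₀
      rw [hUex, Finset.mem_filter, mem_pEls] at hu₀'
      have hconst : ∀ u ∈ Uex, IsConj u u₀ := by
        intro u hu
        rw [hUex, Finset.mem_filter, mem_pEls] at hu
        exact hcl' u u₀ hu.1 hu₀'.1 hu.2.1 hu₀'.2.1 hu.2.2 hu₀'.2.2
      have h1 : (Fintype.card G : ℂ)⁻¹ * ∑ u ∈ Uex, (p : ℂ) ^ 2 * Af u ∈ Op p := by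
        have h2 := hsplit (fun u => (p : ℂ) ^ 2 * Af u) (by simp [hAf1])
        have h3 : ell p (fun u => (p : ℂ) ^ 2 * Af u) = p * ell p (fun u => (p : ℂ) * Af u) := by
          rw [← ell_mul_left]
          apply ell_congr
          intro u _
          ring
        rw [h3] at h2
        have h4 : (Fintype.card G : ℂ)⁻¹ * ∑ u ∈ Uex, (p : ℂ) ^ 2 * Af u
            = p * ell p (fun u => (p : ℂ) * Af u)
              - (Fintype.card G : ℂ)⁻¹ * ∑ u ∈ Une, (p : ℂ) ^ 2 * Af u := by
          rw [h2]; ring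
        rw [h4]
        exact sub_mem (mul_mem (Op.natCast_mem p) hlAf) (hne Af hAfc hAf)
      have h5 : (Fintype.card G : ℂ)⁻¹ * ∑ u ∈ Uex, (p : ℂ) ^ 2 * (Af u * conj (Ag u))
          = conj (Ag u₀) * ((Fintype.card G : ℂ)⁻¹ * ∑ u ∈ Uex, (p : ℂ) ^ 2 * Af u) := by
        rw [mul_left_comm]
        congr 1
        rw [Finset.mul_sum]
        apply Finset.sum_congr rfl
        intro u hu
        rw [IsConj.classFn hAgc (hconst u hu)]
        ring
      rw [h5]
      exact mul_mem (Op.conj_mem (hAg u₀ hu₀'.1)) h1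
  -- conclusion
  have hmain : ell p (fun u => (p : ℂ) ^ 2 * (Af u * conj (Ag u))) ∈ Op p := by
    rw [hsplit _ (by simp [hAf1])]
    apply add_mem _ hex
    apply hne (fun u => Af u * conj (Ag u))
    · intro x u
      show Af (x * u * x⁻¹) * conj (Ag (x * u * x⁻¹)) = Af u * conj (Ag u)
      rw [hAfc, hAgc]
    · intro u hu
      exact mul_mem (hAf u hu) (Op.conj_mem (hAg u hu))
  have e : ell p (fun u => f u * conj (g u)) =
      f 1 * conj (g 1) * ell p (fun _ : G => (1 : ℂ)) + (-(conj (g 1))) * ell p (fun u => (p : ℂ) * Af u)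
      + (-(f 1)) * conj (ell p (fun u => (p : ℂ) * Ag u))
      + ell p (fun u => (p : ℂ) ^ 2 * (Af u * conj (Ag u))) := by
    rw [← ell_conj, ← ell_mul_left, ← ell_mul_left, ← ell_mul_left, ← ell_add, ← ell_add, ← ell_add]
    apply ell_congr
    intro u _
    have h1 : f u = f 1 - p * Af u := by simp only [hAfdef]; field_simp; ring
    have h2 : g u = g 1 - p * Ag u := by simp only [hAgdef]; field_simp; ring
    rw [h1, h2]
    simp only [map_sub, map_mul, Complex.conj_natCast]
    ring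
  rw [e]
  refine add_mem (add_mem (add_mem ?_ ?_) ?_) hmain
  · exact mul_mem (mul_mem hf1 (Op.conj_mem hg1)) hone
  · exact mul_mem (neg_mem (Op.conj_mem hg1)) hlAf
  · exact mul_mem (neg_mem hf1) (Op.conj_mem hlAg)

end Pool.Agent.H44.IC
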