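import Pool.Agent.H44.IC.Taussky
import Pool.Agent.H44.IC.Cyc

/-! # Module S2P: the 2-group level -/

open scoped ComplexConjugate commutatorElement
noncomputable section
namespace Pool.Agent.H44.IC

/-- Structure of a noncyclic 2-group with `|P : P'| = 4`. -/
theorem two_struct {P : Type*} [Group P] [Fintype P] (h2 : IsPGroup 2 P)
    (h4 : (commutator P).index = 4) :
    ∃ (d x : P) (k q : ℕ), 0 < k ∧ orderOf d = 2 * k ∧ Fintype.card P = 2 * (2 * k) ∧
      x ∉ Subgroup.zpowers d ∧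
      (∀ y ∉ Subgroup.zpowers d, y * d * y⁻¹ = d ^ (q + 1)) ∧
      (∀ y ∉ Subgroup.zpowers d, y ^ 2 ∈ Subgroup.zpowers d) ∧
      Nat.gcd (2 * k) q = 2 ∧ 2 * k ∣ q * (q + 2) := by
  obtain ⟨D, hDc, hD2⟩ := two_group_cyclic_maximal P h2 h4
  obtain ⟨⟨d, hdD⟩, hgen⟩ := hDc.exists_generator
  have hD : D = Subgroup.zpowers d := by
    ext y
    constructor
    · intro hy
      obtain ⟨i, hi⟩ := Subgroup.mem_zpowers_iff.1 (hgen ⟨y, hy⟩)
      rw [Subgroup.mem_zpowers_iff]
      exact ⟨i, by simpa using congrArg Subtype.val hi⟩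
    · intro hy
      obtain ⟨i, rfl⟩ := Subgroup.mem_zpowers_iff.1 hy
      exact D.zpow_mem hdD i
  subst hD
  have hDn : (Subgroup.zpowers d).Normal := Subgroup.normal_of_index_eq_two hD2
  have hcard : Nat.card P = 2 * orderOf d := by
    have := (Subgroup.zpowers d).card_mul_index
    rw [Nat.card_zpowers, hD2] at this
    omega
  have hm0 : 0 < orderOf d := orderOf_pos d
  obtain ⟨x, hx⟩ : ∃ x, x ∉ Subgroup.zpowers d := by
    by_contra hcon
    push Not at hcon
    have : Subgroup.zpowers d = ⊤ := (Subgroup.eq_top_iff' _).2 hcon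
    rw [this, Subgroup.index_top] at hD2
    norm_num at hD2
  obtain ⟨q, hq⟩ : ∃ q : ℕ, x * d * x⁻¹ = d ^ (q + 1) := by
    have h1 := hDn.conj_mem d (Subgroup.mem_zpowers d) x
    rw [← (isOfFinOrder_of_finite d).mem_powers_iff_mem_zpowers] at h1
    obtain ⟨n, hn⟩ := h1
    refine ⟨n + orderOf d - 1, ?_⟩
    have : n + orderOf d - 1 + 1 = n + orderOf d := by omega
    rw [this, pow_add, pow_orderOf_eq_one, mul_one]
    exact hn.symm
  have hout : ∀ y ∉ Subgroup.zpowers d, y * d * y⁻¹ = d ^ (q + 1) := by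
    intro y hy
    have h1 : x⁻¹ * y ∈ Subgroup.zpowers d := by
      rw [Subgroup.mul_mem_iff_of_index_two hD2, inv_mem_iff]
      exact ⟨fun h => absurd h hx, fun h => absurd h hy⟩
    obtain ⟨i, hi⟩ := Subgroup.mem_zpowers_iff.1 h1
    have h3 : y = x * d ^ i := by rw [hi]; group
    rw [h3, ← hq]
    group
  have hsq : ∀ y ∉ Subgroup.zpowers d, y ^ 2 ∈ Subgroup.zpowers d := fun y _ =>
    Subgroup.sq_mem_of_index_two hD2 y
  -- conjugation of powers
  have hpow : ∀ y ∉ Subgroup.zpowers d, ∀ i : ℤ, y * d ^ i * y⁻¹ = (d ^ q) ^ i * d ^ i := by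
    intro y hy i
    have h1 : y * d ^ i * y⁻¹ = (y * d * y⁻¹) ^ i := (conj_zpow ..).symm
    rw [h1, hout y hy, pow_succ]
    exact ((Commute.refl d).pow_left q).mul_zpow i
  let K : Subgroup P := Subgroup.zpowers (d ^ q)
  have hKD : K ≤ Subgroup.zpowers d := by
    rw [Subgroup.zpowers_le]; exact Subgroup.pow_mem _ (Subgroup.mem_zpowers d) q
  have hKconj : ∀ a ∈ K, ∀ y : P, y * a * y⁻¹ ∈ K := by
    intro a ha y
    obtain ⟨i, rfl⟩ := Subgroup.mem_zpowers_iff.1 ha
    obtain ⟨n, hn⟩ := Subgroup.mem_zpowers_iff.1 (hDn.conj_mem d (Subgroup.mem_zpowers d) y)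
    have h1 : y * (d ^ q) ^ i * y⁻¹ = (d ^ q) ^ (n * i) := by
      have e1 : y * (d ^ q) ^ i * y⁻¹ = ((y * d * y⁻¹) ^ q) ^ i := by
        rw [conj_pow, conj_zpow]
      rw [e1, ← hn, ← zpow_natCast (d ^ n) q, ← zpow_natCast d q, ← zpow_mul, ← zpow_mul, ← zpow_mul]
      congr 1; ring
    rw [h1]
    exact Subgroup.zpow_mem _ (Subgroup.mem_zpowers _) _
  have hcommD : ∀ y ∉ Subgroup.zpowers d, ∀ a ∈ Subgroup.zpowers d, y * a * y⁻¹ * a⁻¹ ∈ K := by
    intro y hy a ha
    obtain ⟨i, rfl⟩ := Subgroup.mem_zpowers_iff.1 ha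
    rw [hpow y hy i, mul_assoc, mul_inv_cancel, mul_one]
    exact Subgroup.zpow_mem _ (Subgroup.mem_zpowers _) _
  have hcomm : commutator P = K := by
    apply le_antisymm
    · rw [commutator_def, Subgroup.commutator_le]
      intro u _ v _
      rw [commutatorElement_def]
      by_cases hu : u ∈ Subgroup.zpowers d
      · by_cases hv : v ∈ Subgroup.zpowers d
        · obtain ⟨i, rfl⟩ := Subgroup.mem_zpowers_iff.1 hu
          obtain ⟨j, rfl⟩ := Subgroup.mem_zpowers_iff.1 hv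
          have : d ^ i * d ^ j * (d ^ i)⁻¹ * (d ^ j)⁻¹ = 1 := by group
          rw [this]; exact K.one_mem
        · have h1 := K.inv_mem (hcommD v hv u hu)
          have : (v * u * v⁻¹ * u⁻¹)⁻¹ = u * v * u⁻¹ * v⁻¹ := by group
          rwa [this] at h1
      · by_cases hv : v ∈ Subgroup.zpowers d
        · exact hcommD u hu v hv
        · have h1 : u⁻¹ * v ∈ Subgroup.zpowers d := by
            rw [Subgroup.mul_mem_iff_of_index_two hD2, inv_mem_iff]
            exact ⟨fun h => absurd h hu, fun h => absurd h hv⟩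
          have h3 := hKconj _ (hcommD u hu _ h1) u
          have : u * (u * (u⁻¹ * v) * u⁻¹ * (u⁻¹ * v)⁻¹) * u⁻¹ = u * v * u⁻¹ * v⁻¹ := by group
          rwa [this] at h3
    · rw [Subgroup.zpowers_le]
      have h1 : ⁅x, d⁆ ∈ commutator P :=
        Subgroup.commutator_mem_commutator (Subgroup.mem_top _) (Subgroup.mem_top _)
      rw [commutatorElement_def, hq, pow_succ, mul_assoc, mul_inv_cancel, mul_one] at h1
      exact h1
  have hKcard : 2 * (orderOf d / Nat.gcd (orderOf d) q) = orderOf d := by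
    have h1 := (commutator P).card_mul_index
    rw [h4, hcomm, Nat.card_zpowers, orderOf_pow, hcard] at h1
    omega
  have hgcd : Nat.gcd (orderOf d) q = 2 := by
    have h1 : Nat.gcd (orderOf d) q * (orderOf d / Nat.gcd (orderOf d) q) = orderOf d :=
      Nat.mul_div_cancel' (Nat.gcd_dvd_left _ _)
    have h3 : 0 < orderOf d / Nat.gcd (orderOf d) q := by omega
    have h5 : Nat.gcd (orderOf d) q * (orderOf d / Nat.gcd (orderOf d) q)
        = 2 * (orderOf d / Nat.gcd (orderOf d) q) := by omega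
    exact Nat.eq_of_mul_eq_mul_right h3 h5
  obtain ⟨k, hk⟩ : 2 ∣ orderOf d := by rw [← hgcd]; exact Nat.gcd_dvd_left _ _
  refine ⟨d, x, k, q, by omega, hk, ?_, hx, hout, hsq, by rw [← hk]; exact hgcd, ?_⟩
  · rw [← Nat.card_eq_fintype_card, hcard, hk]
  · -- `x ^ 2` commutes with `d`
    obtain ⟨i, hi⟩ := Subgroup.mem_zpowers_iff.1 (hsq x hx)
    have h1 : x ^ 2 * d * (x ^ 2)⁻¹ = d := by rw [← hi]; group
    have h3 : x ^ 2 * d * (x ^ 2)⁻¹ = d ^ ((q + 1) * (q + 1)) := by
      have e1 : x ^ 2 * d * (x ^ 2)⁻¹ = x * (x * d * x⁻¹) * x⁻¹ := by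
        rw [pow_two, mul_inv_rev]; simp only [mul_assoc]
      have e2 : x * (d ^ (q + 1)) * x⁻¹ = (x * d * x⁻¹) ^ (q + 1) := (conj_pow ..).symm
      rw [e1, hq, e2, hq, ← pow_mul]
    rw [h1] at h3
    have h5 : d ^ (q * (q + 2)) = 1 := by
      have e3 : (q + 1) * (q + 1) = q * (q + 2) + 1 := by ring
      rw [e3, pow_succ] at h3
      exact (mul_eq_right.1 h3.symm)
    rw [← hk]
    exact orderOf_dvd_of_pow_eq_one h5

section
variable {P : Type*} [Group P] [Fintype P]

theorem class_mul {f : P → ℂ} (hf : IsClassFn f) {d y : P} {k q : ℕ} (hd : orderOf d = 2 * k)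
    (hg : Nat.gcd (2 * k) q = 2) (hy' : y⁻¹ * d * y = d ^ (q + 1)) (j : ℤ) :
    f (y * d ^ (2 * j)) = f y := by
  have h1 : ∀ i : ℤ, f (y * (d ^ q) ^ i) = f y := by
    intro i
    have e1 : y⁻¹ * d ^ i * y = (d ^ q) ^ i * d ^ i := by
      have h1 : y⁻¹ * d ^ i * y = (y⁻¹ * d * y) ^ i := by
        have := conj_zpow (i := i) (a := y⁻¹) (b := d)
        rw [inv_inv] at this
        exact this.symm
      rw [h1, hy', pow_succ]
      exact ((Commute.refl d).pow_left q).mul_zpow i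
    have e : d ^ i * y * (d ^ i)⁻¹ = y * (d ^ q) ^ i := by
      calc d ^ i * y * (d ^ i)⁻¹ = y * (y⁻¹ * d ^ i * y) * (d ^ i)⁻¹ := by group
        _ = y * (d ^ q) ^ i := by rw [e1]; group
    rw [← e]; exact hf _ _
  have h2 := Nat.gcd_eq_gcd_ab (2 * k) q
  rw [hg] at h2
  have h3 : d ^ (2 * j) = (d ^ q) ^ (Nat.gcdB (2 * k) q * j) := by
    have : (2 : ℤ) * j = ((2 * k : ℕ) : ℤ) * (Nat.gcdA (2 * k) q * j)
        + (q : ℤ) * (Nat.gcdB (2 * k) q * j) := by
      have := congrArg (· * j) h2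
      push_cast at this ⊢
      linarith
    rw [this, zpow_add, zpow_mul, zpow_natCast, ← hd, pow_orderOf_eq_one, one_zpow, one_mul,
      zpow_mul, zpow_natCast]
  rw [h3]; exact h1 _

theorem out_cong [Fact (Nat.Prime 2)] (h2 : IsPGroup 2 P) (hP : ¬ IsCyclic P) {f : P → ℂ}
    (hf : Rhat 2 f) {d : P} {k q : ℕ} (hk : 0 < k)
    (hd : orderOf d = 2 * k) (hcard : Fintype.card P = 2 * (2 * k))
    (hg : Nat.gcd (2 * k) q = 2)
    (hout : ∀ y ∉ Subgroup.zpowers d, y * d * y⁻¹ = d ^ (q + 1))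
    (hsq : ∀ y ∉ Subgroup.zpowers d, y ^ 2 ∈ Subgroup.zpowers d) {y : P}
    (hy : y ∉ Subgroup.zpowers d) : ∃ s ∈ Op 2, f y = f 1 + 2 * s := by
  have hf1 : f 1 ∈ Op 2 := hf.apply_mem 1
  obtain ⟨t, ht⟩ := Subgroup.mem_zpowers_iff.1 (hsq y hy)
  have hy1 : y ≠ 1 := fun h => hy (h ▸ Subgroup.one_mem _)
  -- `d ^ (2 t) = 1`
  have h2t : d ^ (2 * t) = 1 := by
    have e1 : y * d ^ t * y⁻¹ = (d ^ q) ^ t * d ^ t := by
      have h1 : y * d ^ t * y⁻¹ = (y * d * y⁻¹) ^ t := (conj_zpow ..).symm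
      rw [h1, hout y hy, pow_succ]
      exact ((Commute.refl d).pow_left q).mul_zpow t
    have e2 : y * d ^ t * y⁻¹ = d ^ t := by rw [ht]; group
    have e3 : (d ^ q) ^ t = 1 := by
      rw [e2] at e1
      exact mul_eq_right.1 e1.symm
    have h2' := Nat.gcd_eq_gcd_ab (2 * k) q
    rw [hg] at h2'
    have : (2 : ℤ) * t = ((2 * k : ℕ) : ℤ) * (Nat.gcdA (2 * k) q * t)
        + (q : ℤ) * t * (Nat.gcdB (2 * k) q) := by
      have := congrArg (· * t) h2'
      push_cast at this ⊢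
      linarith
    rw [this, zpow_add, zpow_mul, zpow_natCast, ← hd, pow_orderOf_eq_one, one_zpow, one_mul,
      zpow_mul, zpow_mul, zpow_natCast, e3, one_zpow]
  have hy4 : y ^ 4 = 1 := by
    have : y ^ 4 = (y ^ 2) ^ 2 := by rw [← pow_mul]
    rw [this, ← ht, ← zpow_natCast, ← zpow_mul, mul_comm]
    exact_mod_cast h2t
  by_cases hy2 : y ^ 2 = 1
  · have ho : orderOf y = 2 := orderOf_eq_prime hy2 hy1
    have h3 := hf.2 y 1 (one_pow _)
    unfold coef at h3
    rw [ho] at h3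
    simp only [Finset.sum_range_succ, Finset.sum_range_zero, pow_zero, pow_one, one_pow, mul_one,
      zero_add] at h3
    refine ⟨_, sub_mem h3 hf1, ?_⟩
    push_cast
    ring
  · have ho : orderOf y = 4 := by
      have := orderOf_eq_prime_pow (x := y) (p := 2) (n := 1) (by simpa using hy2) (by simpa using hy4)
      simpa using this
    -- `y ^ 3` is conjugate to `y`
    have hkt : (k : ℤ) ∣ t := by
      have h3 : ((2 * k : ℕ) : ℤ) ∣ 2 * t := by
        rw [← hd]; exact orderOf_dvd_iff_zpow_eq_one.2 h2t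
      push_cast at h3
      exact Int.dvd_of_mul_dvd_mul_left (by norm_num) h3
    have heven : ∃ u : ℤ, t = 2 * u := by
      rcases Nat.even_or_odd k with hke | hko
      · obtain ⟨v, hv⟩ := hke
        obtain ⟨u, hu⟩ := hkt
        refine ⟨v * u, ?_⟩
        rw [hu, hv]; push_cast; ring
      · exfalso
        apply hP
        obtain ⟨n, hn⟩ := IsPGroup.iff_card.1 h2
        rw [Nat.card_eq_fintype_card, hcard] at hn
        have hk1 : k = 1 := by
          have h5 : k ∣ 2 ^ n := ⟨4, by rw [← hn]; ring⟩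
          obtain ⟨i, -, hi⟩ := (Nat.dvd_prime_pow Nat.prime_two).1 h5
          rcases Nat.eq_zero_or_pos i with h0 | h0
          · rw [hi, h0, pow_zero]
          · exfalso
            have : 2 ∣ k := by rw [hi]; exact dvd_pow_self 2 h0.ne'
            exact (Nat.not_even_iff_odd.2 hko) (even_iff_two_dvd.2 this)
        apply isCyclic_of_orderOf_eq_card y
        rw [ho, Nat.card_eq_fintype_card, hcard, hk1]
    obtain ⟨u, hu⟩ := heven
    have hyinv : y⁻¹ ∉ Subgroup.zpowers d := fun h => hy (by simpa using Subgroup.inv_mem _ h)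
    have hfy3 : f (y ^ 3) = f y := by
      have e1 : y ^ 3 = y * d ^ (2 * u) := by
        rw [← hu, ht, ← pow_succ']
      rw [e1]
      refine class_mul hf.1 hd hg ?_ u
      have := hout _ hyinv
      rwa [inv_inv] at this
    have h3 := hf.2 y 1 (one_pow _)
    have h5 := hf.2 y Complex.I (by rw [ho]; exact Complex.I_pow_four)
    have h6 := add_mem h3 h5
    unfold coef at h6
    rw [ho] at h6
    simp only [Finset.sum_range_succ, Finset.sum_range_zero, pow_zero, pow_one, one_pow, mul_one,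
      zero_add, hfy3, Complex.I_sq, Complex.I_pow_three] at h6
    refine ⟨_, sub_mem h6 hf1, ?_⟩
    push_cast
    ring

theorem fix_iff {k q a : ℕ} (hk : 0 < k) (hg : Nat.gcd (2 * k) q = 2) (ha : a < 2 * k)
    (h : (q + 1) * a % (2 * k) = a) : a = 0 ∨ a = k := by
  have h1 : (2 * k) ∣ q * a := by
    have h3 : (q + 1) * a ≡ a [MOD 2 * k] := by
      unfold Nat.ModEq; rw [h, Nat.mod_eq_of_lt ha]
    have h5 : q * a + a ≡ 0 + a [MOD 2 * k] := by
      have : q * a + a = (q + 1) * a := by ring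
      rw [this, zero_add]; exact h3
    exact (Nat.modEq_zero_iff_dvd).1 (Nat.ModEq.add_right_cancel' a h5)
  have hcop : Nat.Coprime k (q / 2) := by
    have := Nat.coprime_div_gcd_div_gcd (m := 2 * k) (n := q) (by rw [hg]; norm_num)
    rw [hg] at this
    simpa using this
  have h2q : 2 ∣ q := by rw [← hg]; exact Nat.gcd_dvd_right _ _
  obtain ⟨v, hv⟩ := h2q
  have hv2 : q / 2 = v := by omega
  rw [hv2] at hcop
  have h3 : k ∣ v * a := by
    rw [hv, mul_assoc] at h1
    exact Nat.dvd_of_mul_dvd_mul_left (by norm_num) h1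
  have h5 : k ∣ a := hcop.dvd_of_dvd_mul_left h3
  obtain ⟨w, hw⟩ := h5
  have hw2 : w < 2 := by
    by_contra hcon
    push Not at hcon
    have : k * 2 ≤ k * w := Nat.mul_le_mul_left k hcon
    omega
  interval_cases w
  · left; omega
  · right; omega

theorem inv_mod {k q a : ℕ} (hq : 2 * k ∣ q * (q + 2)) (ha : a < 2 * k) :
    (q + 1) * ((q + 1) * a % (2 * k)) % (2 * k) = a := by
  have h1 : (q + 1) * ((q + 1) * a % (2 * k)) ≡ (q + 1) * ((q + 1) * a) [MOD 2 * k] :=
    (Nat.mod_modEq _ _).mul_left _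
  have h3 : (q + 1) * ((q + 1) * a) ≡ a [MOD 2 * k] := by
    have e : (q + 1) * ((q + 1) * a) = q * (q + 2) * a + a := by ring
    rw [e]
    have h5 : q * (q + 2) * a + a ≡ 0 + a [MOD 2 * k] :=
      Nat.ModEq.add_right a ((Nat.modEq_zero_iff_dvd).2 (Dvd.dvd.mul_right hq a))
    rwa [zero_add] at h5
  have h5 := h1.trans h3
  unfold Nat.ModEq at h5
  rw [h5, Nat.mod_eq_of_lt ha]

theorem pair_sum [Fact (Nat.Prime 2)] {k q : ℕ} (hk : 0 < k) (hg : Nat.gcd (2 * k) q = 2)
    (hq : 2 * k ∣ q * (q + 2)) (F : ℕ → ℂ) (hF : ∀ a, F a ∈ Op 2)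
    (hinv : ∀ a < 2 * k, F ((q + 1) * a % (2 * k)) = F a) :
    ∃ t ∈ Op 2, ∑ a ∈ Finset.range (2 * k), F a = F 0 + F k + 2 * t := by
  let A : AddSubgroup ℂ :=
    { carrier := {z | ∃ t ∈ Op 2, z = 2 * t}
      zero_mem' := ⟨0, zero_mem _, by simp⟩
      add_mem' := by
        rintro a b ⟨s, hs, rfl⟩ ⟨t, ht, rfl⟩
        exact ⟨s + t, add_mem hs ht, by ring⟩
      neg_mem' := by
        rintro a ⟨s, hs, rfl⟩
        exact ⟨-s, neg_mem hs, by ring⟩ }
  set S := (Finset.range (2 * k)).filter (fun a => ¬ (a = 0 ∨ a = k)) with hS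
  have hzero : ∑ a ∈ S, ((F a : ℂ) : ℂ ⧸ A) = 0 := by
    refine Finset.sum_involution (fun a _ => (q + 1) * a % (2 * k)) ?_ ?_ ?_ ?_
    · intro a ha
      rw [hS, Finset.mem_filter, Finset.mem_range] at ha
      rw [hinv a ha.1, ← QuotientAddGroup.mk_add, QuotientAddGroup.eq_zero_iff]
      exact ⟨F a, hF a, by ring⟩
    · intro a ha _ h
      rw [hS, Finset.mem_filter, Finset.mem_range] at ha
      exact ha.2 (fix_iff hk hg ha.1 h)
    · intro a ha
      rw [hS, Finset.mem_filter, Finset.mem_range] at ha ⊢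
      refine ⟨Nat.mod_lt _ (by omega), ?_⟩
      intro h
      apply ha.2
      have h1 := inv_mod hq ha.1
      rcases h with h | h
      · rw [h] at h1; left; simpa using h1.symm
      · rw [h] at h1
        right
        rw [← h1]
        have h2q : 2 ∣ q := by rw [← hg]; exact Nat.gcd_dvd_right _ _
        obtain ⟨v, hv⟩ := h2q
        have e : (q + 1) * k = k + 2 * k * v := by rw [hv]; ring
        rw [e, Nat.add_mul_mod_self_left, Nat.mod_eq_of_lt (by omega)]
    · intro a ha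
      rw [hS, Finset.mem_filter, Finset.mem_range] at ha
      exact inv_mod hq ha.1
  have hsum : ∑ a ∈ S, F a ∈ A := by
    rw [← QuotientAddGroup.eq_zero_iff, ← hzero]
    exact map_sum (QuotientAddGroup.mk' A) F S
  obtain ⟨t, ht, hteq⟩ := hsum
  refine ⟨t, ht, ?_⟩
  have h1 := Finset.sum_filter_add_sum_filter_not (Finset.range (2 * k)) (fun a => (a = 0 ∨ a = k)) F
  rw [← h1, ← hS, hteq]
  congr 1
  have h3 : (Finset.range (2 * k)).filter (fun a => (a = 0 ∨ a = k)) = {0, k} := by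
    ext a
    simp only [Finset.mem_filter, Finset.mem_range, Finset.mem_insert, Finset.mem_singleton]
    constructor
    · exact fun h => h.2
    · rintro (h | h)
      · exact ⟨by omega, Or.inl h⟩
      · exact ⟨by omega, Or.inr h⟩
  rw [h3, Finset.sum_pair hk.ne]

/-- a primitive root of unity of order `2 k` -/
def zt (k : ℕ) : ℂ := Complex.exp (2 * Real.pi * Complex.I / (2 * k : ℕ))

theorem zt_prim {k : ℕ} (hk : 0 < k) : IsPrimitiveRoot (zt k) (2 * k) :=
  Complex.isPrimitiveRoot_exp (2 * k) (by omega)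

/-- the coefficients of `f` on the powers of `d` -/
def Cf (f : P → ℂ) (d : P) (k a : ℕ) : ℂ := coef f d (zt k ^ a)

theorem Cf_inv {f : P → ℂ} (hf : IsClassFn f) {d x : P} {k q : ℕ} (hk : 0 < k)
    (hd : orderOf d = 2 * k) (hx : x * d * x⁻¹ = d ^ (q + 1)) (hq : 2 * k ∣ q * (q + 2)) (a : ℕ) :
    Cf f d k ((q + 1) * a % (2 * k)) = Cf f d k a := by
  have hζ := zt_prim hk
  unfold Cf coef
  rw [hd]
  congr 1
  have e1 : ∀ j, f (d ^ j) = f (d ^ ((q + 1) * j)) := by
    intro j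
    rw [← hf x (d ^ j), ← conj_pow, hx, ← pow_mul]
  have e2 : zt k ^ ((q + 1) * a % (2 * k)) = (zt k ^ a) ^ (q + 1) := by
    conv_rhs => rw [← pow_mul, mul_comm a, ← Nat.mod_add_div ((q + 1) * a) (2 * k), pow_add,
      pow_mul, hζ.pow_eq_one, one_pow, mul_one]
  have hmod : ∀ n : ℕ, f (d ^ n) * (zt k ^ a) ^ n
      = f (d ^ (n % (2 * k))) * (zt k ^ a) ^ (n % (2 * k)) := by
    intro n
    have h1 : (zt k ^ a) ^ (2 * k) = 1 := by
      rw [← pow_mul, mul_comm, pow_mul, hζ.pow_eq_one, one_pow]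
    have h2 : d ^ (2 * k) = 1 := by rw [← hd]; exact pow_orderOf_eq_one d
    conv_lhs => rw [← Nat.mod_add_div n (2 * k), pow_add, pow_add, pow_mul _ (2 * k),
      pow_mul _ (2 * k), h1, h2, one_pow, one_pow, mul_one, mul_one]
  refine Finset.sum_nbij' (fun j => (q + 1) * j % (2 * k)) (fun j => (q + 1) * j % (2 * k)) ?_ ?_ ?_
    ?_ ?_
  · intro j _; exact Finset.mem_range.2 (Nat.mod_lt _ (by omega))
  · intro j _; exact Finset.mem_range.2 (Nat.mod_lt _ (by omega))
  · intro j hj; exact inv_mod hq (Finset.mem_range.1 hj)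
  · intro j hj; exact inv_mod hq (Finset.mem_range.1 hj)
  · intro j _
    rw [← hmod ((q + 1) * j), e2, ← pow_mul, e1 j]

theorem sum_group {d x : P} {k : ℕ}
    (hd : orderOf d = 2 * k) (hcard : Fintype.card P = 2 * (2 * k))
    (hx : x ∉ Subgroup.zpowers d) (F : P → ℂ) :
    ∑ y, F y = ∑ j ∈ Finset.range (2 * k), F (d ^ j) + ∑ j ∈ Finset.range (2 * k), F (x * d ^ j) := by
  let e : Fin (2 * k) ⊕ Fin (2 * k) → P := Sum.elim (fun j => d ^ (j : ℕ)) (fun j => x * d ^ (j : ℕ))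
  have hinj : Function.Injective e := by
    have h0 : ∀ i j : Fin (2 * k), d ^ (i : ℕ) = d ^ (j : ℕ) → i = j := by
      intro i j h
      apply Fin.ext
      exact pow_injOn_Iio_orderOf (by rw [Set.mem_Iio, hd]; exact i.2)
        (by rw [Set.mem_Iio, hd]; exact j.2) h
    have h1 : ∀ i j : ℕ, d ^ i = x * d ^ j → False := by
      intro i j h
      apply hx
      have : x = d ^ i * (d ^ j)⁻¹ := by rw [h]; group
      rw [this]
      exact Subgroup.mul_mem _ (Subgroup.pow_mem _ (Subgroup.mem_zpowers d) _)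
        (Subgroup.inv_mem _ (Subgroup.pow_mem _ (Subgroup.mem_zpowers d) _))
    rintro (i | i) (j | j) h
    · exact congrArg _ (h0 i j h)
    · exact (h1 _ _ h).elim
    · exact (h1 _ _ h.symm).elim
    · exact congrArg _ (h0 i j (mul_left_cancel h))
  have hbij : Function.Bijective e := by
    rw [Fintype.bijective_iff_injective_and_card]
    refine ⟨hinj, ?_⟩
    rw [Fintype.card_sum, Fintype.card_fin, hcard]; ring
  rw [← hbij.sum_comp F, Fintype.sum_sum_type, ← Fin.sum_univ_eq_sum_range (fun j => F (d ^ j)),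
    ← Fin.sum_univ_eq_sum_range (fun j => F (x * d ^ j))]
  rfl

theorem sum_period_two (G : ℕ → ℂ) (hG : ∀ j, G (j + 2) = G j) (k : ℕ) :
    ∑ j ∈ Finset.range (2 * k), G j = k * (G 0 + G 1) := by
  have h2 : ∀ i, G (2 * i) = G 0 ∧ G (2 * i + 1) = G 1 := by
    intro i
    induction i with
    | zero => exact ⟨rfl, rfl⟩
    | succ i ih =>
      constructor
      · have : 2 * (i + 1) = 2 * i + 2 := by ring
        rw [this, hG, ih.1]
      · have : 2 * (i + 1) + 1 = 2 * i + 1 + 2 := by ring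
        rw [this, hG, ih.2]
  induction k with
  | zero => simp
  | succ k ih =>
    have : 2 * (k + 1) = 2 * k + 1 + 1 := by ring
    rw [this, Finset.sum_range_succ, Finset.sum_range_succ, ih, (h2 k).1, (h2 k).2]
    push_cast
    ring

theorem parseval (f g : P → ℂ) {d : P} {k : ℕ} (hk : 0 < k) (hd : orderOf d = 2 * k) :
    ∑ j ∈ Finset.range (2 * k), f (d ^ j) * conj (g (d ^ j))
      = (2 * k : ℕ) * ∑ a ∈ Finset.range (2 * k), Cf f d k a * conj (Cf g d k a) := by
  have hζ := zt_prim hk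
  have hk0 : ((2 * k : ℕ) : ℂ) ≠ 0 := by
    exact_mod_cast (by omega : 2 * k ≠ 0)
  have hfi : ∀ j, f (d ^ j) = ∑ a ∈ Finset.range (2 * k), Cf f d k a * (zt k ^ (2 * k - a)) ^ j := by
    intro j
    have := fourier_inv f d (by omega) j
    rw [hd] at this
    exact this
  have hconj : ∀ a ∈ Finset.range (2 * k), ∀ j, (zt k ^ (2 * k - a)) ^ j = conj ((zt k ^ a) ^ j) := by
    intro a ha j
    rw [Finset.mem_range] at ha
    have h1 : zt k ^ (2 * k - a) * zt k ^ a = 1 := by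
      rw [← pow_add, Nat.sub_add_cancel ha.le, hζ.pow_eq_one]
    have h2 : ‖zt k ^ a‖ = 1 := by
      rw [norm_pow, hζ.norm'_eq_one (by omega), one_pow]
    have h3 : conj (zt k ^ a) * zt k ^ a = 1 := by
      rw [mul_comm, Complex.mul_conj, Complex.normSq_eq_norm_sq, h2]; simp
    have h4 : zt k ^ a ≠ 0 := pow_ne_zero _ (hζ.ne_zero (by omega))
    have h5 : zt k ^ (2 * k - a) = conj (zt k ^ a) := mul_right_cancel₀ h4 (h1.trans h3.symm)
    rw [h5, map_pow (starRingEnd ℂ) (zt k ^ a) j]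
  calc ∑ j ∈ Finset.range (2 * k), f (d ^ j) * conj (g (d ^ j))
      = ∑ j ∈ Finset.range (2 * k), ∑ a ∈ Finset.range (2 * k),
          Cf f d k a * conj (g (d ^ j) * (zt k ^ a) ^ j) := by
        apply Finset.sum_congr rfl
        intro j _
        rw [hfi j, Finset.sum_mul]
        apply Finset.sum_congr rfl
        intro a ha
        rw [hconj a ha j, map_mul]; ring
    _ = ∑ a ∈ Finset.range (2 * k), Cf f d k a *
          conj (∑ j ∈ Finset.range (2 * k), g (d ^ j) * (zt k ^ a) ^ j) := by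
        rw [Finset.sum_comm]
        apply Finset.sum_congr rfl
        intro a _
        rw [map_sum, Finset.mul_sum]
    _ = _ := by
        rw [Finset.mul_sum]
        apply Finset.sum_congr rfl
        intro a _
        have : (∑ j ∈ Finset.range (2 * k), g (d ^ j) * (zt k ^ a) ^ j)
            = (2 * k : ℕ) * Cf g d k a := by
          unfold Cf coef
          rw [hd, ← mul_assoc, mul_inv_cancel₀ hk0, one_mul]
        rw [this, map_mul, Complex.conj_natCast]
        ring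

theorem ip_formula {f g : P → ℂ} (hf : IsClassFn f) (hg' : IsClassFn g) {d x : P} {k q : ℕ}
    (hk : 0 < k) (hd : orderOf d = 2 * k) (hcard : Fintype.card P = 2 * (2 * k))
    (hx : x ∉ Subgroup.zpowers d) (hg : Nat.gcd (2 * k) q = 2)
    (hout : ∀ y ∉ Subgroup.zpowers d, y * d * y⁻¹ = d ^ (q + 1)) :
    4 * ip f g = 2 * ∑ a ∈ Finset.range (2 * k), Cf f d k a * conj (Cf g d k a)
      + (f x * conj (g x) + f (x * d) * conj (g (x * d))) := by
  have hk0 : (k : ℂ) ≠ 0 := by exact_mod_cast hk.ne'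
  unfold ip
  rw [sum_group hd hcard hx, parseval f g hk hd, hcard]
  have hper : ∀ h : P → ℂ, IsClassFn h → ∀ j : ℕ, h (x * d ^ (j + 2)) = h (x * d ^ j) := by
    intro h hh j
    have hxj : x * d ^ j ∉ Subgroup.zpowers d := by
      intro hcon
      apply hx
      have h3 := Subgroup.mul_mem _ hcon
        (Subgroup.inv_mem _ (Subgroup.pow_mem _ (Subgroup.mem_zpowers d) j))
      rwa [mul_inv_cancel_right] at h3
    have hxj' : (x * d ^ j)⁻¹ ∉ Subgroup.zpowers d := fun h => hxj (by simpa using Subgroup.inv_mem _ h)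
    have h1 := class_mul hh hd hg (y := x * d ^ j) (by
      have := hout _ hxj'
      rwa [inv_inv] at this) 1
    rw [← h1, mul_assoc, mul_one, pow_add, ← zpow_natCast d 2]
    rfl
  rw [sum_period_two (fun j => f (x * d ^ j) * conj (g (x * d ^ j)))
    (fun j => by show f (x * d ^ (j + 2)) * conj (g (x * d ^ (j + 2))) = _; rw [hper f hf, hper g hg'])]
  simp only [pow_zero, mul_one, pow_one]
  push_cast
  field_simp
  ring

theorem Cf_one {d : P} {k : ℕ} (hk : 0 < k) (hd : orderOf d = 2 * k) {a : ℕ} (ha : a < 2 * k) :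
    Cf (1 : P → ℂ) d k a = if a = 0 then 1 else 0 := by
  have hζ := zt_prim hk
  unfold Cf coef
  rw [hd]
  simp only [Pi.one_apply, one_mul]
  rw [avg_root (by omega) (by rw [← pow_mul, mul_comm, pow_mul, hζ.pow_eq_one, one_pow])]
  have : zt k ^ a = 1 ↔ a = 0 := by
    constructor
    · intro h
      have h1 := (hζ.pow_eq_one_iff_dvd a).1 h
      exact Nat.eq_zero_of_dvd_of_lt h1 ha
    · rintro rfl; simp
  simp only [this]

theorem ip_one_formula {f : P → ℂ} (hf : IsClassFn f) {d x : P} {k q : ℕ}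
    (hk : 0 < k) (hd : orderOf d = 2 * k) (hcard : Fintype.card P = 2 * (2 * k))
    (hx : x ∉ Subgroup.zpowers d) (hg : Nat.gcd (2 * k) q = 2)
    (hout : ∀ y ∉ Subgroup.zpowers d, y * d * y⁻¹ = d ^ (q + 1)) :
    4 * ip f 1 = 2 * Cf f d k 0 + (f x + f (x * d)) := by
  rw [ip_formula hf (g := 1) (fun _ _ => rfl) hk hd hcard hx hg hout]
  congr 1
  · congr 1
    rw [Finset.sum_eq_single 0]
    · rw [Cf_one hk hd (by omega)]; simp
    · intro a ha ha0
      rw [Cf_one hk hd (Finset.mem_range.1 ha), if_neg ha0]; simp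
    · intro h
      exact absurd (Finset.mem_range.2 (by omega)) h
  · simp

theorem f_one_formula [Fact (Nat.Prime 2)] {f : P → ℂ} (hf : Rhat 2 f) {d x : P} {k q : ℕ}
    (hk : 0 < k) (hd : orderOf d = 2 * k) (hg : Nat.gcd (2 * k) q = 2)
    (hx : x * d * x⁻¹ = d ^ (q + 1)) (hq : 2 * k ∣ q * (q + 2)) :
    ∃ t ∈ Op 2, f 1 = Cf f d k 0 + Cf f d k k + 2 * t := by
  have hζ := zt_prim hk
  obtain ⟨t, ht, h⟩ := pair_sum hk hg hq (Cf f d k)
    (fun a => hf.2 d _ (by rw [hd, ← pow_mul, mul_comm, pow_mul, hζ.pow_eq_one, one_pow]))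
    (fun a _ => Cf_inv hf.1 hk hd hx hq a)
  refine ⟨t, ht, ?_⟩
  rw [← h]
  have := fourier_inv f d (by omega) 0
  rw [hd] at this
  simp only [pow_zero, mul_one] at this
  exact this

theorem ff_formula [Fact (Nat.Prime 2)] {f g : P → ℂ} (hf : Rhat 2 f) (hg' : Rhat 2 g)
    {d x : P} {k q : ℕ}
    (hk : 0 < k) (hd : orderOf d = 2 * k) (hg : Nat.gcd (2 * k) q = 2)
    (hx : x * d * x⁻¹ = d ^ (q + 1)) (hq : 2 * k ∣ q * (q + 2)) :
    ∃ t ∈ Op 2, ∑ a ∈ Finset.range (2 * k), Cf f d k a * conj (Cf g d k a)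
      = Cf f d k 0 * conj (Cf g d k 0) + Cf f d k k * conj (Cf g d k k) + 2 * t := by
  have hζ := zt_prim hk
  have hmem : ∀ (h : P → ℂ) (_ : Rhat 2 h) (a : ℕ), Cf h d k a ∈ Op 2 := fun h hh a =>
    hh.2 d _ (by rw [hd, ← pow_mul, mul_comm, pow_mul, hζ.pow_eq_one, one_pow])
  exact pair_sum hk hg hq (fun a => Cf f d k a * conj (Cf g d k a))
    (fun a => mul_mem (hmem f hf a) (Op.conj_mem (hmem g hg' a)))
    (fun a _ => by
      show Cf f d k _ * conj (Cf g d k _) = _
      rw [Cf_inv hf.1 hk hd hx hq a, Cf_inv hg'.1 hk hd hx hq a])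

end

theorem two_ip_one_mem {P : Type*} [Group P] [Fintype P] [Fact (Nat.Prime 2)] (h2 : IsPGroup 2 P)
    (hP : ¬ IsCyclic P) (h4 : (commutator P).index = 4) {f : P → ℂ} (hf : Rhat 2 f) :
    2 * ip f 1 ∈ Op 2 := by
  obtain ⟨d, x, k, q, hk, hd, hcard, hx, hout, hsq, hg, hq⟩ := two_struct h2 h4
  have hxd : x * d ∉ Subgroup.zpowers d := by
    intro hcon
    apply hx
    have h3 := Subgroup.mul_mem _ hcon (Subgroup.inv_mem _ (Subgroup.mem_zpowers d))
    rwa [mul_inv_cancel_right] at h3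
  have hζ := zt_prim hk
  have h1 := ip_one_formula hf.1 hk hd hcard hx hg hout
  obtain ⟨s, hs, hs'⟩ := out_cong h2 hP hf hk hd hcard hg hout hsq hx
  obtain ⟨t, ht, ht'⟩ := out_cong h2 hP hf hk hd hcard hg hout hsq hxd
  have hC : Cf f d k 0 ∈ Op 2 :=
    hf.2 d _ (by rw [hd, ← pow_mul, mul_comm, pow_mul, hζ.pow_eq_one, one_pow])
  have h3 : 2 * ip f 1 = Cf f d k 0 + f 1 + s + t := by
    have h5 : 4 * ip f 1 = 2 * (Cf f d k 0 + f 1 + s + t) := by
      rw [h1, hs', ht']; ring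
    linear_combination (1 / 2) * h5
  rw [h3]
  exact add_mem (add_mem (add_mem hC (hf.apply_mem 1)) hs) ht

theorem spade_two {P : Type*} [Group P] [Fintype P] [Fact (Nat.Prime 2)] (h2 : IsPGroup 2 P)
    (hP : ¬ IsCyclic P) (h4 : (commutator P).index = 4) : Spade P 2 := by
  obtain ⟨d, x, k, q, hk, hd, hcard, hx, hout, hsq, hg, hq⟩ := two_struct h2 h4
  have hxd : x * d ∉ Subgroup.zpowers d := by
    intro hcon
    apply hx
    have h3 := Subgroup.mul_mem _ hcon (Subgroup.inv_mem _ (Subgroup.mem_zpowers d))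
    rwa [mul_inv_cancel_right] at h3
  have hζ := zt_prim hk
  rintro f g ⟨hf, hf1⟩ ⟨hg', hg1⟩
  have hmem : ∀ (h : P → ℂ) (_ : Rhat 2 h) (a : ℕ), Cf h d k a ∈ Op 2 := fun h hh a =>
    hh.2 d _ (by rw [hd, ← pow_mul, mul_comm, pow_mul, hζ.pow_eq_one, one_pow])
  have ef := ip_one_formula hf.1 hk hd hcard hx hg hout
  have eg := ip_one_formula hg'.1 hk hd hcard hx hg hout
  have efg := ip_formula hf.1 hg'.1 hk hd hcard hx hg hout
  obtain ⟨t, ht, eS⟩ := ff_formula hf hg' hk hd hg (hout x hx) hq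
  obtain ⟨tf, htf, ef1⟩ := f_one_formula hf hk hd hg (hout x hx) hq
  obtain ⟨tg, htg, eg1⟩ := f_one_formula hg' hk hd hg (hout x hx) hq
  obtain ⟨sf, hsf, esf⟩ := out_cong h2 hP hf hk hd hcard hg hout hsq hx
  obtain ⟨sg, hsg, esg⟩ := out_cong h2 hP hg' hk hd hcard hg hout hsq hx
  set u := ip f 1
  set v := ip g 1
  set c1 := Cf f d k 0
  set cm := Cf f d k k
  set e1 := Cf g d k 0
  set em := Cf g d k k
  have hc1 : c1 ∈ Op 2 := hmem f hf 0
  have hcm : cm ∈ Op 2 := hmem f hf k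
  have he1 : e1 ∈ Op 2 := hmem g hg' 0
  have hem : em ∈ Op 2 := hmem g hg' k
  -- values
  have ha : f x = c1 + cm + 2 * (tf + sf) := by rw [esf, ef1]; ring
  have hb : f (x * d) = 4 * u - f x - 2 * c1 := by linear_combination -ef
  have ha' : g x = e1 + em + 2 * (tg + sg) := by rw [esg, eg1]; ring
  have hb' : g (x * d) = 4 * v - g x - 2 * e1 := by linear_combination -eg
  set w := tf + sf
  set w' := tg + sg
  have hw : w ∈ Op 2 := add_mem htf hsf
  have hw' : w' ∈ Op 2 := add_mem htg hsg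
  have hfx : f x ∈ Op 2 := hf.apply_mem x
  have hgx : conj (g x) ∈ Op 2 := Op.conj_mem (hg'.apply_mem x)
  have hu : u ∈ Op 2 := hf1
  have hv : conj v ∈ Op 2 := Op.conj_mem hg1
  have key : ip f g = t + c1 * conj e1 + 4 * (u * conj v) - u * (conj (g x) + 2 * conj e1)
      - conj v * (f x + 2 * c1) + 2 * (c1 * conj e1) + cm * conj em + c1 * conj em + cm * conj e1
      + conj w' * (c1 + cm) + w * (conj e1 + conj em) + 2 * (w * conj w') + w * conj e1
      + c1 * conj w' := by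
    have h4 : (4 : ℂ) ≠ 0 := by norm_num
    have hc2 : (starRingEnd ℂ) 2 = 2 := Complex.conj_ofNat 2
    have hc4 : (starRingEnd ℂ) 4 = 4 := Complex.conj_ofNat 4
    have hcg : conj (g (x * d)) = 4 * conj v - conj (g x) - 2 * conj e1 := by
      rw [hb', map_sub, map_sub, map_mul, map_mul, hc2, hc4]
    have hcgx : conj (g x) = conj e1 + conj em + 2 * conj w' := by
      rw [ha', map_add, map_add, map_mul, hc2]
    apply mul_left_cancel₀ h4
    rw [efg, eS, hb, hcg, hcgx, ha]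
    ring
  rw [key]
  have he1' := Op.conj_mem he1
  have hem' := Op.conj_mem hem
  have hw'' := Op.conj_mem hw'
  have h2m : (2 : ℂ) ∈ Op 2 := by
    have := Op.natCast_mem (p := 2) 2
    simpa using this
  have h4m : (4 : ℂ) ∈ Op 2 := by
    have := Op.natCast_mem (p := 2) 4
    simpa using this
  refine add_mem (add_mem (add_mem (add_mem (add_mem (add_mem (add_mem (add_mem (add_mem (sub_mem
    (sub_mem (add_mem (add_mem ht (mul_mem hc1 he1')) (mul_mem h4m (mul_mem hu hv)))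
    (mul_mem hu (add_mem hgx (mul_mem h2m he1'))))
    (mul_mem hv (add_mem hfx (mul_mem h2m hc1)))) (mul_mem h2m (mul_mem hc1 he1')))
    (mul_mem hcm hem')) (mul_mem hc1 hem')) (mul_mem hcm he1')) (mul_mem hw'' (add_mem hc1 hcm)))
    (mul_mem hw (add_mem he1' hem'))) (mul_mem h2m (mul_mem hw hw''))) (mul_mem hw he1'))
    (mul_mem hc1 hw'')

end Pool.Agent.H44.IC
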