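import Pool.Agent.H44.IC.NecSelf
import Pool.Agent.H44.IC.SuffExp
import Pool.Agent.H44.IC.SuffTwoP

/-! Sufficiency for `p = 2`: transfer from the Sylow subgroup to the group. -/

open scoped ComplexConjugate
noncomputable section
namespace Pool.Agent.H44.IC

theorem fixn_rhat {G : Type*} [Group G] [Fintype G] {p : ℕ} [Fact p.Prime] (P : Subgroup G) :
    Rhat p (fun g => (fixn P g : ℂ)) := by
  classical
  refine ⟨fun x g => by simp only [fixn_conj], fun c w hw => ?_⟩
  set m := orderOf c with hm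
  have hm0 : m ≠ 0 := (orderOf_pos c).ne'
  have hmC : (m : ℂ) ≠ 0 := by exact_mod_cast hm0
  let Γ := Subgroup.zpowers c
  have : Fintype (G ⧸ P) := Fintype.ofFinite _
  have hΓ : Nat.card Γ = m := Nat.card_zpowers c
  let s : G ⧸ P → ℂ := fun x => ((Nat.card (MulAction.stabilizer Γ x) : ℂ))⁻¹ *
    ∑ j ∈ Finset.range m, if c ^ j • x = x then w ^ j else 0
  have hsa : ∀ (a : Γ) (x : G ⧸ P), s (a • x) = s x := by
    intro a x
    have hca : ∀ j : ℕ, c ^ j • (a • x) = a • x ↔ c ^ j • x = x := by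
      intro j
      obtain ⟨k, hk⟩ := Subgroup.mem_zpowers_iff.1 a.2
      have h1 : (a • x : G ⧸ P) = c ^ k • x := by
        rw [hk]; rfl
      rw [h1, smul_smul, ← zpow_natCast, ← zpow_add, add_comm, zpow_add, mul_smul,
        smul_left_cancel_iff]
    have hcard : Nat.card (MulAction.stabilizer Γ (a • x)) = Nat.card (MulAction.stabilizer Γ x) := by
      rw [MulAction.stabilizer_smul_eq_stabilizer_map_conj]
      exact (Nat.card_congr (Subgroup.equivMapOfInjective _ _
        (MulAut.conj a).injective).toEquiv).symm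
    simp only [s, hcard, hca]
  have hsm : ∀ x, s x ∈ (Op p).toAddSubgroup := by
    intro x
    show s x ∈ Op p
    let t := Function.minimalPeriod (c • ·) x
    let q := Nat.card (MulAction.stabilizer Γ x)
    have hq0 : q ≠ 0 := Nat.card_pos.ne'
    have htq : t * q = m := by
      have h1 : t = Nat.card (MulAction.orbit Γ x) := by
        rw [Nat.card_eq_fintype_card]
        exact MulAction.minimalPeriod_eq_card (a := c) (b := x)
      rw [h1, ← hΓ, Nat.card_congr (MulAction.orbitEquivQuotientStabilizer Γ x)]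
      exact (Subgroup.card_eq_card_quotient_mul_card_subgroup _).symm
    have ht0 : t ≠ 0 := by
      intro h; rw [h, zero_mul] at htq; exact hm0 htq.symm
    have hper : ∀ j : ℕ, c ^ j • x = x ↔ t ∣ j := fun j =>
      MulAction.pow_smul_eq_iff_minimalPeriod_dvd (a := c) (b := x)
    have h1 : ∑ j ∈ Finset.range m, (if c ^ j • x = x then w ^ j else 0)
        = ∑ i ∈ Finset.range q, (w ^ t) ^ i := by
      rw [← htq, mul_comm t q, sum_range_mul_eq]
      apply Finset.sum_congr rfl
      intro i _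
      rw [Finset.sum_eq_single 0]
      · rw [if_pos ((hper _).2 (by simp)), zero_add, pow_mul]
      · intro j hj hj0
        rw [Finset.mem_range] at hj
        rw [if_neg]
        intro h
        rw [hper] at h
        have h3 : t ∣ j := (Nat.dvd_add_left (Dvd.intro i rfl)).1 h
        have := Nat.le_of_dvd (Nat.pos_of_ne_zero hj0) h3
        omega
      · intro h
        exfalso; apply h; rw [Finset.mem_range]; exact Nat.pos_of_ne_zero ht0
    simp only [s]
    rw [h1]
    exact avg_root_mem hq0 (by rw [← pow_mul, htq]; exact hw)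
  have h := orbit_average (Γ := Γ) (X := G ⧸ P) (Op p).toAddSubgroup s hsa hsm
  have e : ∑ x, ((Nat.card (MulAction.stabilizer Γ x) : ℂ) / (Nat.card Γ : ℂ)) * s x
      = coef (fun g => (fixn P g : ℂ)) c w := by
    have e1 : ∀ x : G ⧸ P, ((Nat.card (MulAction.stabilizer Γ x) : ℂ) / (Nat.card Γ : ℂ)) * s x
        = (m : ℂ)⁻¹ * ∑ j ∈ Finset.range m, if c ^ j • x = x then w ^ j else 0 := by
      intro x
      have h0 : (Nat.card (MulAction.stabilizer Γ x) : ℂ) ≠ 0 := by
        exact_mod_cast (Nat.card_pos (α := MulAction.stabilizer Γ x)).ne'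
      simp only [s]
      rw [hΓ]
      field_simp
    rw [Finset.sum_congr rfl (fun x _ => e1 x), ← Finset.mul_sum, Finset.sum_comm]
    unfold coef
    rw [← hm]
    congr 1
    apply Finset.sum_congr rfl
    intro j _
    rw [← Finset.sum_filter, Finset.sum_const, nsmul_eq_mul]
    congr 2
    rw [fixn, Nat.card_eq_fintype_card, ← Set.toFinset_card]
    congr 1
    ext x; simp
  rw [e] at h
  exact h

/-- restriction to a subgroup -/
theorem Rhat.restrict {G : Type*} [Group G] [Fintype G] {p : ℕ} [Fact p.Prime] (P : Subgroup G)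
    [Fintype P] {F : G → ℂ} (hF : Rhat p F) : Rhat p (fun x : P => F x) := by
  refine ⟨fun x g => ?_, fun c w hw => ?_⟩
  · show F ((x * g * x⁻¹ : P) : G) = F g
    push_cast
    exact hF.1 _ _
  · have h1 : orderOf c = orderOf (c : G) := (Subgroup.orderOf_coe c).symm
    have h2 := hF.2 (c : G) w (by rw [← h1]; exact hw)
    unfold coef at h2 ⊢
    rw [h1]
    simpa using h2

theorem avgOn_eq_ip {G : Type*} [Group G] [Fintype G] (P : Subgroup G) [Fintype P] (F : G → ℂ) :
    avgOn P F = ip (fun x : P => F x) 1 := by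
  classical
  unfold avgOn ip
  rw [← Nat.card_eq_fintype_card]
  congr 1
  rw [← Finset.sum_filter]
  simp only [Pi.one_apply, map_one, mul_one]
  rw [Finset.sum_subtype (p := fun g => g ∈ P)]
  intro x
  simp

theorem Rhat.pow_natCast {G : Type*} [Group G] [Fintype G] {p : ℕ} [Fact p.Prime] {b : G → ℕ}
    (hb : Rhat p (fun g => (b g : ℂ))) (N : ℕ) : Rhat p (fun g => (b g : ℂ) ^ N) := by
  induction N with
  | zero =>
    have : (fun g : G => (b g : ℂ) ^ 0) = 1 := by ext g; simp
    rw [this]; exact Rhat.one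
  | succ N ih =>
    have := Rhat.mul_conj ih hb
    have e : (fun x : G => (b x : ℂ) ^ N * conj (b x : ℂ)) = fun g => (b g : ℂ) ^ (N + 1) := by
      ext g
      rw [Complex.conj_natCast, pow_succ]
    rw [e] at this
    exact this

theorem ip_sub_mul_left {G : Type*} [Group G] [Fintype G] (f h g : G → ℂ) (a : ℂ) :
    ip (fun x => f x + a * h x) g = ip f g + a * ip h g := by
  unfold ip
  simp only [add_mul]
  rw [Finset.sum_add_distrib, mul_add]
  congr 1
  simp only [mul_assoc]
  rw [← Finset.mul_sum]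
  ring

theorem step_one {G : Type*} [Group G] [Fintype G] [Fact (Nat.Prime 2)] (P : Subgroup G) [Fintype P]
    (hPg : IsPGroup 2 P) (hidx : ¬ 2 ∣ P.index)
    (hP : ¬ IsCyclic P) (h4 : (commutator P).index = 4) (N : ℕ)
    (hN : ∀ F : G → ℂ, IsClassFn F → (∀ u, PEl 2 u → F u ∈ Op 2) →
      ell 2 F - avgOn P (fun g => F g * (fixn P g : ℂ) ^ N) ∈ Op 2)
    {F : G → ℂ} (hF : Rhat 2 F) :
    ell 2 F - ip (fun x : P => F x) 1 ∈ Op 2 := by
  classical
  have h1 := hN F hF.1 (fun u _ => hF.apply_mem u)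
  set rF : P → ℂ := fun x => F x with hrF
  have hrFR : Rhat 2 rF := hF.restrict P
  set B : P → ℂ := fun y => (fixn P (y : G) : ℂ) ^ N with hB
  have hBR : Rhat 2 B := by
    have := (fixn_rhat (p := 2) P).restrict P
    exact Rhat.pow_natCast (b := fun y : P => fixn P (y : G)) this N
  have hB1 : ip B 1 ∈ Op 2 := by
    have h2 := avg_fixn_pow (p := 2) P (fun _ => (1 : ℂ)) (fun x g => rfl) (by
      intro K _
      have : avgOn K (fun _ : G => (1 : ℂ)) = 1 := by
        unfold avgOn
        rw [← Finset.sum_filter, Finset.sum_const, nsmul_eq_mul, mul_one]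
        have h1 : ((Finset.univ.filter (fun g => g ∈ K)).card) = Nat.card K := by
          rw [Nat.card_eq_fintype_card, Fintype.card_subtype]
        rw [h1]
        have h0 : (Nat.card K : ℂ) ≠ 0 := by exact_mod_cast (Nat.card_pos (α := K)).ne'
        exact inv_mul_cancel₀ h0
      rw [this]
      exact one_mem _) N P hPg
    rw [avgOn_eq_ip] at h2
    simpa [hB] using h2
  have hBS : Sp 2 B := ⟨hBR, hB1⟩
  -- order of P
  obtain ⟨n, hn⟩ := hPg.exists_card_eq
  have hn0 : n ≠ 0 := by
    rintro rfl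
    apply hP
    rw [pow_zero] at hn
    have : Subsingleton P := (Nat.card_eq_one_iff_unique.1 hn).1
    exact isCyclic_of_subsingleton
  obtain ⟨k, rfl⟩ := Nat.exists_eq_succ_of_ne_zero hn0
  have hcardP : Fintype.card P = 2 ^ (k + 1) := by rw [← Nat.card_eq_fintype_card]; exact hn
  have hexp : ∀ c : P, PEl 2 c → c ^ 2 ^ k = 1 := by
    intro c _
    have h5 : orderOf c ∣ 2 ^ (k + 1) := by rw [← hn]; exact orderOf_dvd_natCard c
    obtain ⟨j, hj, hj'⟩ := (Nat.dvd_prime_pow Nat.prime_two).1 h5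
    rcases Nat.lt_or_ge j (k + 1) with h6 | h6
    · apply orderOf_dvd_iff_pow_eq_one.1
      rw [hj']
      exact pow_dvd_pow 2 (by omega)
    · exfalso
      apply hP
      have h7 : orderOf c = Nat.card P := by rw [hj', hn, le_antisymm hj h6]
      exact isCyclic_of_orderOf_eq_card c h7
  set h : P → ℂ := dl 2 k with hh
  have hhR : Rhat 2 h := dl_rhat hexp
  have hcC : (Fintype.card P : ℂ) = 2 * 2 ^ k := by
    rw [hcardP]; push_cast; ring
  have h2k : (2 : ℂ) ^ k ≠ 0 := pow_ne_zero _ two_ne_zero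
  have hip : ∀ g : P → ℂ, ip h g = conj (g 1) / 2 := by
    intro g
    unfold ip
    rw [Finset.sum_eq_single 1]
    · rw [hh]; unfold dl
      rw [if_pos rfl, hcC]
      push_cast
      field_simp
    · intro x _ hx
      rw [hh]; unfold dl
      rw [if_neg hx, zero_mul]
    · intro h; exact absurd (Finset.mem_univ _) h
  have hδ : 2 * ip rF 1 ∈ Op 2 := two_ip_one_mem hPg hP h4 hrFR
  set δ := 2 * ip rF 1 with hδd
  have hF'R : Rhat 2 (fun x => rF x + (-δ) * h x) := Rhat.add hrFR (Rhat.smul (neg_mem hδ) hhR)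
  have hF'S : Sp 2 (fun x => rF x + (-δ) * h x) := by
    refine ⟨hF'R, ?_⟩
    rw [ip_sub_mul_left, hip]
    have : ip rF 1 + -δ * (conj ((1 : P → ℂ) 1) / 2) = 0 := by
      rw [hδd]; simp only [Pi.one_apply, map_one]; ring
    rw [this]; exact zero_mem _
  have h7 := spade_two hPg hP h4 _ _ hF'S hBS
  rw [ip_sub_mul_left, hip] at h7
  have hBone : B 1 = ((P.index ^ N : ℕ) : ℂ) := by
    rw [hB]
    simp only [OneMemClass.coe_one, fixn_one]
    push_cast; ring
  rw [hBone, Complex.conj_natCast] at h7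
  have hodd : Odd (P.index ^ N) := by
    apply Odd.pow
    rw [← Nat.not_even_iff_odd, even_iff_two_dvd]
    exact hidx
  obtain ⟨r, hr⟩ := hodd
  have h8 : ip rF B - ip rF 1 ∈ Op 2 := by
    have e : ip rF B - ip rF 1 = (ip rF B + -δ * (((P.index ^ N : ℕ) : ℂ) / 2))
        + (r : ℂ) * δ := by
      rw [hr, hδd]; push_cast; ring
    rw [e]
    exact add_mem h7 (mul_mem (Op.natCast_mem r) hδ)
  have h9 : ip rF B = avgOn P (fun g => F g * (fixn P g : ℂ) ^ N) := by
    rw [avgOn_eq_ip]
    unfold ip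
    congr 1
    apply Finset.sum_congr rfl
    intro x _
    rw [hrF, hB]
    simp only [Pi.one_apply, map_one, mul_one, map_pow, Complex.conj_natCast]
  have := add_mem h1 h8
  rw [h9] at this
  have e : ell 2 F - avgOn P (fun g => F g * (fixn P g : ℂ) ^ N)
      + (avgOn P (fun g => F g * (fixn P g : ℂ) ^ N) - ip rF 1)
      = ell 2 F - ip rF 1 := by ring
  rw [e] at this
  exact this

theorem suff_two' {G : Type*} [Group G] [Fintype G] [Fact (Nat.Prime 2)] (P : Subgroup G)
    (hPg : IsPGroup 2 P) (hidx : ¬ 2 ∣ P.index)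
    (hP : ¬ IsCyclic P) (h4 : (commutator P).index = 4) (N : ℕ)
    (hN : ∀ F : G → ℂ, IsClassFn F → (∀ u, PEl 2 u → F u ∈ Op 2) →
      ell 2 F - avgOn P (fun g => F g * (fixn P g : ℂ) ^ N) ∈ Op 2)
    {f g : G → ℂ} (hf : Rhat 2 f) (hg : Rhat 2 g) (hlf : ell 2 f ∈ Op 2) (hlg : ell 2 g ∈ Op 2) :
    ell 2 (fun x => f x * conj (g x)) ∈ Op 2 := by
  classical
  have : Fintype P := Fintype.ofFinite _
  have hf1 : ip (fun x : P => f x) 1 ∈ Op 2 := by
    have := sub_mem hlf (step_one P hPg hidx hP h4 N hN hf)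
    simpa using this
  have hg1 : ip (fun x : P => g x) 1 ∈ Op 2 := by
    have := sub_mem hlg (step_one P hPg hidx hP h4 N hN hg)
    simpa using this
  have h1 := spade_two hPg hP h4 _ _ (⟨hf.restrict P, hf1⟩ : Sp 2 _)
    (⟨hg.restrict P, hg1⟩ : Sp 2 _)
  have h2 := step_one P hPg hidx hP h4 N hN (hf.mul_conj hg)
  have e : ip (fun x : P => f x) (fun x : P => g x)
      = ip (fun x : P => f (x : G) * conj (g (x : G))) 1 := by
    unfold ip
    congr 1
    apply Finset.sum_congr rfl
    intro x _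
    simp
  rw [e] at h1
  have := add_mem h2 h1
  simpa using this

theorem suff_two {G : Type*} [Group G] [Fintype G] [Fact (Nat.Prime 2)] (P : Sylow 2 G)
    (hP : ¬ IsCyclic P) (h4 : (commutator P).index = 4)
    {f g : G → ℂ} (hf : Rhat 2 f) (hg : Rhat 2 g) (hlf : ell 2 f ∈ Op 2) (hlg : ell 2 g ∈ Op 2) :
    ell 2 (fun x => f x * conj (g x)) ∈ Op 2 := by
  obtain ⟨N, hN⟩ := transfer_mod P
  exact suff_two' (P : Subgroup G) P.2 P.not_dvd_index hP h4 N hN hf hg hlf hlg

end Pool.Agent.H44.IC
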