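import Pool.Agent.H44.IC.Nec
import Pool.Agent.H44.IC.NecInd
import Pool.Agent.H44.IC.SuffTwoG
import Pool.Agent.H44.IC.Irr

/-! The characterisation of groups with property (IC). -/

open scoped ComplexConjugate
noncomputable section
universe u
namespace Pool.Agent.H44.IC

theorem spade_iff (G : Type*) [Group G] [Fintype G] (p : ℕ) [hp : Fact p.Prime] (P : Sylow p G) :
    Spade G p ↔ (IsCyclic P ∨
      ((∀ x : G, x ≠ 1 → ¬ p ∣ orderOf x →
          ∀ Q : Sylow p (Subgroup.centralizer ({x} : Set G)), IsCyclic Q) ∧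
        ((p = 2 ∧ (commutator P).index = 4) ∨
          ((∀ u ∈ P, u ^ p = 1) ∧
            (∀ u ∈ P, ∀ j : ℕ, j.Coprime p → IsConj u (u ^ j)) ∧
            (∀ u ∈ P, ∀ v ∈ P, u ≠ 1 → v ≠ 1 →
              p ^ 3 ∣ Nat.card (Subgroup.centralizer ({u} : Set G)) →
              p ^ 3 ∣ Nat.card (Subgroup.centralizer ({v} : Set G)) → IsConj u v))))) := by
  constructor
  · intro hS
    by_cases hP : IsCyclic P
    · exact Or.inl hP
    right
    have hnc : ∀ Q : Sylow p G, ¬ IsCyclic Q := by
      intro Q hQ
      apply hP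
      exact isCyclic_of_injective (Sylow.equiv P Q).toMonoidHom (Sylow.equiv P Q).injective
    refine ⟨?_, ?_⟩
    · intro x hx1 hx Q
      have h1 : IsPGroup p ((Q : Subgroup (Subgroup.centralizer ({x} : Set G))).map
          (Subgroup.centralizer ({x} : Set G)).subtype) := Q.2.map _
      have h2 := nec_a hS P hP x hx1 hx _ h1 (by
        rintro _ ⟨k, _, rfl⟩
        exact (Subgroup.mem_centralizer_singleton_iff.1 k.2))
      exact isCyclic_of_injective
        ((Q : Subgroup (Subgroup.centralizer ({x} : Set G))).equivMapOfInjective _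
          (Subgroup.subtype_injective _)).toMonoidHom
        ((Q : Subgroup (Subgroup.centralizer ({x} : Set G))).equivMapOfInjective _
          (Subgroup.subtype_injective _)).injective
    · obtain ⟨e, he1, hexp, hex⟩ := exists_exponent P hP
      rcases Nat.lt_or_ge 1 e with he | he
      · -- e ≥ 2
        by_cases hp2 : p = 2
        · subst hp2
          left
          exact ⟨rfl, nec_two hS hnc he hexp hex (fun P x => nec_pow_comm hS P (hnc P) x) P⟩
        · exfalso
          exact nec_odd hp2 hS P hP he hexp hex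
            (fun P v hv hv' hN => nec_primlin hp2 hS P (hnc P) v hv hv' hN)
      · -- e = 1
        right
        have he' : e = 1 := le_antisymm he he1
        subst he'
        exact nec_one hS P hP (fun c hc => by have := hexp c hc; rwa [pow_one] at this)
  · rintro (hP | ⟨hloc, h⟩)
    · exact spade_of_cyclic P hP
    · by_cases hP : IsCyclic P
      · exact spade_of_cyclic P hP
      · apply spade_of_ell hloc
        intro f g hf hg hlf hlg
        rcases h with ⟨h2, h4⟩ | ⟨hexp, hrat, hcl⟩
        · subst h2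
          exact suff_two P hP h4 hf hg hlf hlg
        · exact suff_exp P hexp hrat hcl hf hg hlf hlg

theorem ic_iff (G : Type u) [Group G] [Fintype G] :
    PropIC G ↔ ∀ (p : ℕ) [Fact p.Prime] (P : Sylow p G), IsCyclic P ∨
      ((∀ x : G, x ≠ 1 → ¬ p ∣ orderOf x →
          ∀ Q : Sylow p (Subgroup.centralizer ({x} : Set G)), IsCyclic Q) ∧
        ((p = 2 ∧ (commutator P).index = 4) ∨
          ((∀ u ∈ P, u ^ p = 1) ∧
            (∀ u ∈ P, ∀ j : ℕ, j.Coprime p → IsConj u (u ^ j)) ∧
            (∀ u ∈ P, ∀ v ∈ P, u ≠ 1 → v ≠ 1 →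
              p ^ 3 ∣ Nat.card (Subgroup.centralizer ({u} : Set G)) →
              p ^ 3 ∣ Nat.card (Subgroup.centralizer ({v} : Set G)) → IsConj u v)))) := by
  rw [ic_iff_spade]
  constructor
  · intro h p hp P
    exact (spade_iff G p P).1 (h p)
  · intro h p hp
    obtain ⟨P⟩ : Nonempty (Sylow p G) := inferInstance
    exact (spade_iff G p P).2 (h p P)

end Pool.Agent.H44.IC
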