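import Pool.Agent.H44.IC.NecRat

/-! Necessity: full rationality of generators of maximal cyclic `p`-subgroups, `p` odd. -/

open scoped ComplexConjugate
noncomputable section
namespace Pool.Agent.H44.IC

variable {G : Type*} [Group G] {p : ℕ} [hp : Fact p.Prime] [Fintype G]

omit hp [Fintype G] in
/-- a unit congruent to `1` mod `p ^ m` in `ZMod (p ^ (m+1))`, `m ≥ 1`, has `p`-th power one -/
theorem pow_eq_one_of_modEq {m s : ℕ} (hm : m ≠ 0) (hs : s ≡ 1 [MOD p ^ m]) :
    ((s : ZMod (p ^ (m + 1)))) ^ p = 1 := by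
  have h1 : (p : ℤ) ^ m ∣ (s : ℤ) - 1 := by
    have := (Nat.modEq_iff_dvd.1 hs.symm)
    push_cast at this
    exact this
  have h2 : (p : ℤ) ∣ ∑ i ∈ Finset.range p, (s : ℤ) ^ i := by
    have h3 : (p : ℤ) ∣ (s : ℤ) - 1 := dvd_trans (dvd_pow_self _ hm) h1
    have h4 : ∀ i, (s : ℤ) ^ i ≡ 1 [ZMOD p] := by
      intro i
      have : (s : ℤ) ≡ 1 [ZMOD p] := (Int.modEq_iff_dvd.2 h3).symm
      simpa using this.pow i
    have h5 : (∑ i ∈ Finset.range p, (s : ℤ) ^ i) ≡ ∑ i ∈ Finset.range p, 1 [ZMOD p] := by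
      apply Int.ModEq.sum
      intro i _; exact h4 i
    rw [Finset.sum_const, Finset.card_range, nsmul_eq_mul, mul_one] at h5
    have h6 : (∑ i ∈ Finset.range p, (s : ℤ) ^ i) ≡ 0 [ZMOD p] := by
      refine h5.trans ?_
      exact (Int.modEq_zero_iff_dvd).2 (dvd_refl _)
    exact (Int.modEq_zero_iff_dvd).1 h6
  have h3 : (p : ℤ) ^ (m + 1) ∣ (s : ℤ) ^ p - 1 := by
    rw [← mul_geom_sum, pow_succ]
    exact mul_dvd_mul h1 h2
  have h4 : (((s : ℤ) ^ p - 1 : ℤ) : ZMod (p ^ (m + 1))) = 0 := by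
    rw [ZMod.intCast_zmod_eq_zero_iff_dvd]
    exact_mod_cast h3
  push_cast at h4
  exact sub_eq_zero.1 h4

omit [Fintype G] in
theorem modEq_mul_p {x y m : ℕ} : x * p ≡ y * p [MOD p ^ (m + 1)] ↔ x ≡ y [MOD p ^ m] := by
  rw [pow_succ]
  exact ⟨fun h => Nat.ModEq.mul_right_cancel' hp.out.ne_zero h, fun h => Nat.ModEq.mul_right' p h⟩

theorem Rgrp_eq_top (hp2 : p ≠ 2) (hS : Spade G p) (P : Sylow p G) (hP : ¬ IsCyclic P)
    {u : G} (hu : MaxCyc p u) {k : ℕ} (huo : orderOf u = p ^ k) :
    ∀ m (hm : m ≠ 0) (hmk : m ≤ k), Rgrp u huo hm hmk = ⊤ := by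
  intro m
  induction m with
  | zero => intro hm; exact absurd rfl hm
  | succ m ih =>
    intro hm hmk
    by_contra hne
    obtain ⟨b, hb⟩ : ∃ b : (ZMod (p ^ (m + 1)))ˣ, b ∉ Rgrp u huo hm hmk := by
      by_contra hcon
      push Not at hcon
      apply hne
      rw [Subgroup.eq_top_iff']
      exact hcon
    have hbz : ((b : ZMod (p ^ (m + 1))).val : ZMod (p ^ (m + 1))) = b := ZMod.natCast_zmod_val _
    have hbp := not_dvd_of_unit hm hbz
    -- choose an exponent of the action congruent to b mod p ^ m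
    obtain ⟨s, hs1, hs2⟩ : ∃ s : ℕ, s ≡ (b : ZMod (p ^ (m + 1))).val [MOD p ^ m] ∧
        IsConj u (u ^ s) ∧ True := by
      by_cases hm0 : m = 0
      · subst hm0
        exact ⟨1, by rw [pow_zero]; exact Nat.modEq_one, by rw [pow_one], trivial⟩
      · have hcop : Nat.Coprime (b : ZMod (p ^ (m + 1))).val (p ^ m) := by
          apply Nat.Coprime.pow_right
          exact ((Nat.Prime.coprime_iff_not_dvd hp.out).2 hbp).symm
        have h1 : ZMod.unitOfCoprime _ hcop ∈ Rgrp u huo hm0 (by omega) := by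
          rw [ih hm0 (by omega)]; exact Subgroup.mem_top _
        obtain ⟨s, hs, hs2⟩ := h1
        refine ⟨s, ?_, hs2, trivial⟩
        rw [ZMod.coe_unitOfCoprime, ZMod.natCast_eq_natCast_iff] at hs
        exact hs
    have hsp : ¬ p ∣ s := by
      intro hd
      -- then u ^ s has smaller order than u
      have h1 : orderOf (u ^ s) = orderOf u := by
        obtain ⟨x, hx⟩ := isConj_iff.1 hs2.1
        rw [← hx]
        have := orderOf_injective (MulAut.conj x).toMonoidHom (MulAut.conj x).injective u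
        simpa using this
      rw [orderOf_pow, huo] at h1
      have h4 : 1 < (p ^ k).gcd s := by
        have : p ∣ (p ^ k).gcd s := Nat.dvd_gcd (dvd_pow_self p (by omega)) hd
        exact lt_of_lt_of_le hp.out.one_lt (Nat.le_of_dvd (Nat.gcd_pos_of_pos_left _
          (pow_pos hp.out.pos k)) this)
      have h5 := Nat.div_lt_self (pow_pos hp.out.pos k) h4
      omega
    have hscop : Nat.Coprime s (p ^ (m + 1)) := by
      apply Nat.Coprime.pow_right
      exact ((Nat.Prime.coprime_iff_not_dvd hp.out).2 hsp).symm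
    set a := ZMod.unitOfCoprime s hscop with ha
    have haR : a ∈ Rgrp u huo hm hmk := ⟨s, (ZMod.coe_unitOfCoprime _ _).symm, hs2.1⟩
    set j := b * a⁻¹ with hj
    have hjR : j ∉ Rgrp u huo hm hmk := by
      intro h
      apply hb
      have : b = j * a := by rw [hj]; simp
      rw [this]
      exact (Rgrp u huo hm hmk).mul_mem h haR
    -- j is congruent to 1 modulo p ^ m
    have hjp : (j : ZMod (p ^ (m + 1))) * p = p := by
      have h1 : (b : ZMod (p ^ (m + 1))) * p = (a : ZMod (p ^ (m + 1))) * p := by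
        rw [← hbz, ha, ZMod.coe_unitOfCoprime]
        have h2 : (((b : ZMod (p ^ (m + 1))).val * p : ℕ) : ZMod (p ^ (m + 1)))
            = ((s * p : ℕ) : ZMod (p ^ (m + 1))) := by
          rw [ZMod.natCast_eq_natCast_iff, modEq_mul_p]
          exact hs1.symm
        push_cast at h2
        rw [hbz] at h2 ⊢
        exact h2
      rw [hj, Units.val_mul]
      calc (b : ZMod (p ^ (m + 1))) * ((a⁻¹ : (ZMod (p ^ (m + 1)))ˣ) : ZMod (p ^ (m + 1))) * p
          = ((a⁻¹ : (ZMod (p ^ (m + 1)))ˣ) : ZMod (p ^ (m + 1))) * ((b : ZMod (p ^ (m + 1))) * p) := by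
            ring
        _ = ((a⁻¹ : (ZMod (p ^ (m + 1)))ˣ) : ZMod (p ^ (m + 1))) * a * p := by rw [h1]; ring
        _ = p := by rw [Units.inv_mul, one_mul]
    have hdiv := key_rat hp2 hS P hP hu huo hm hmk j hjp hjR
    obtain ⟨r, hr⟩ := exists_prime_orderOf_dvd_card' (G := Rgrp u huo hm hmk) p hdiv
    set r' : (ZMod (p ^ (m + 1)))ˣ := (r : (ZMod (p ^ (m + 1)))ˣ) with hr'
    have hr'o : orderOf r' = p := by rw [hr', Subgroup.orderOf_coe]; exact hr
    by_cases hm0 : m = 0
    · -- order of units of Z/p is p - 1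
      subst hm0
      have h1 : orderOf r' ∣ Fintype.card (ZMod (p ^ (0 + 1)))ˣ := orderOf_dvd_card
      rw [ZMod.card_units_eq_totient, hr'o, zero_add, pow_one, Nat.totient_prime hp.out] at h1
      have h2 := Nat.le_of_dvd (Nat.sub_pos_of_lt hp.out.one_lt) h1
      have h3 := hp.out.pos
      omega
    · have hjpow : j ^ p = 1 := by
        -- represent j by a natural number congruent to 1 mod p ^ m
        have hjz : ((j : ZMod (p ^ (m + 1))).val : ZMod (p ^ (m + 1))) = j := ZMod.natCast_zmod_val _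
        have h1 : (j : ZMod (p ^ (m + 1))).val ≡ 1 [MOD p ^ m] := by
          have h2 : (((j : ZMod (p ^ (m + 1))).val * p : ℕ) : ZMod (p ^ (m + 1)))
              = ((1 * p : ℕ) : ZMod (p ^ (m + 1))) := by
            push_cast
            rw [hjz, hjp, one_mul]
          rw [ZMod.natCast_eq_natCast_iff, modEq_mul_p] at h2
          exact h2
        have h3 := pow_eq_one_of_modEq hm0 h1
        rw [hjz] at h3
        ext
        push_cast
        exact h3
      have hcyc : IsCyclic (ZMod (p ^ (m + 1)))ˣ := ZMod.isCyclic_units_of_prime_pow p hp.out hp2 _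
      have hle := IsCyclic.card_pow_eq_one_le (α := (ZMod (p ^ (m + 1)))ˣ) (n := p) hp.out.pos
      classical
      have hsub : Finset.image (fun i => r' ^ i) (Finset.range (orderOf r'))
          ⊆ Finset.univ.filter (fun a : (ZMod (p ^ (m + 1)))ˣ => a ^ p = 1) := by
        intro x hx
        rw [Finset.mem_image] at hx
        obtain ⟨i, _, rfl⟩ := hx
        rw [Finset.mem_filter]
        refine ⟨Finset.mem_univ _, ?_⟩
        have h9 : r' ^ p = 1 := orderOf_dvd_iff_pow_eq_one.1 (by rw [hr'o])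
        rw [← pow_mul, mul_comm, pow_mul, h9, one_pow]
      have hcard : (Finset.image (fun i => r' ^ i) (Finset.range (orderOf r'))).card = p := by
        rw [Finset.card_image_of_injOn, Finset.card_range, hr'o]
        intro x hx y hy hxy
        rw [Finset.mem_coe, Finset.mem_range] at hx hy
        exact pow_injOn_Iio_orderOf hx hy hxy
      have heq := Finset.eq_of_subset_of_card_le hsub (by rw [hcard]; exact hle)
      have hjmem : j ∈ Finset.image (fun i => r' ^ i) (Finset.range (orderOf r')) := by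
        rw [heq, Finset.mem_filter]
        exact ⟨Finset.mem_univ _, hjpow⟩
      rw [Finset.mem_image] at hjmem
      obtain ⟨i, _, hi⟩ := hjmem
      apply hjR
      rw [← hi]
      exact (Rgrp u huo hm hmk).pow_mem r.2 i

/-- rationality -/
theorem nec_rational (hp2 : p ≠ 2) (hS : Spade G p) (P : Sylow p G) (hP : ¬ IsCyclic P)
    {u : G} (hu : MaxCyc p u) (j : ℕ) (hj : j.Coprime p) : IsConj u (u ^ j) := by
  obtain ⟨k, huo⟩ := pEl_iff_orderOf.1 hu.1
  by_cases hk : k = 0
  · subst hk
    rw [pow_zero, orderOf_eq_one_iff] at huo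
    rw [huo, one_pow]
  · have hcop : Nat.Coprime j (p ^ k) := Nat.Coprime.pow_right _ hj
    have h1 : ZMod.unitOfCoprime j hcop ∈ Rgrp u huo hk le_rfl := by
      rw [Rgrp_eq_top hp2 hS P hP hu huo k hk le_rfl]; exact Subgroup.mem_top _
    obtain ⟨s, hs, hs2⟩ := h1
    rw [ZMod.coe_unitOfCoprime, ZMod.natCast_eq_natCast_iff, ← huo] at hs
    have h2 : u ^ j = u ^ s := (pow_eq_pow_iff_modEq.2 hs.symm)
    rw [h2]; exact hs2

end Pool.Agent.H44.IC
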