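import Mathlib

/-! Auxiliary group theory for the module ODD. -/

namespace Pool.Agent.H44.IC.Odd

section comm
variable {P : Type*} [Group P]

theorem pow_mul_comm' {x y c : P} (h1 : y * x = c * x * y) (hx : Commute c x) (hy : Commute c y)
    (n : ℕ) : y ^ n * x = x * y ^ n * c ^ n := by
  induction n with
  | zero => simp
  | succ n ih =>
    calc y ^ (n + 1) * x = y * (y ^ n * x) := by rw [pow_succ' y n]; group
    _ = y * (x * y ^ n * c ^ n) := by rw [ih]
    _ = (y * x) * y ^ n * c ^ n := by group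
    _ = (c * x * y) * y ^ n * c ^ n := by rw [h1]
    _ = (x * y * c) * y ^ n * c ^ n := by
        rw [mul_assoc c x y, (hx.mul_right hy).eq]
    _ = x * y * (c * y ^ n) * c ^ n := by group
    _ = x * y * (y ^ n * c) * c ^ n := by rw [(hy.pow_right n).eq]
    _ = _ := by rw [pow_succ' y n, pow_succ' c n]; group

theorem mul_pow_comm' {x y c : P} (h1 : y * x = c * x * y) (hx : Commute c x) (hy : Commute c y)
    (n : ℕ) : (x * y) ^ n = x ^ n * y ^ n * c ^ (n.choose 2) := by
  induction n with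
  | zero => simp
  | succ n ih =>
    have h3 : (n + 1).choose 2 = n + n.choose 2 := by
      rw [Nat.choose_succ_succ' n 1]; simp
    have h4 : Commute (c ^ (n.choose 2)) (x * y) := (hx.mul_right hy).pow_left _
    have h5 : Commute (c ^ n) y := hy.pow_left _
    calc (x * y) ^ (n + 1) = (x * y) ^ n * (x * y) := pow_succ _ _
    _ = x ^ n * y ^ n * c ^ (n.choose 2) * (x * y) := by rw [ih]
    _ = x ^ n * y ^ n * ((x * y) * c ^ (n.choose 2)) := by
        rw [mul_assoc (x ^ n * y ^ n), h4.eq]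
    _ = x ^ n * (y ^ n * x) * y * c ^ (n.choose 2) := by group
    _ = x ^ n * (x * y ^ n * c ^ n) * y * c ^ (n.choose 2) := by
        rw [pow_mul_comm' h1 hx hy n]
    _ = x ^ (n + 1) * y ^ n * (c ^ n * y) * c ^ (n.choose 2) := by
        rw [pow_succ x n]; group
    _ = x ^ (n + 1) * y ^ n * (y * c ^ n) * c ^ (n.choose 2) := by rw [h5.eq]
    _ = x ^ (n + 1) * y ^ (n + 1) * c ^ ((n + 1).choose 2) := by
        rw [h3, pow_add, pow_succ y n]; group

end comm

section zp
variable {G : Type*} [Group G] {p : ℕ} [hp : Fact p.Prime]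

/-- in a cyclic group of order `p ^ 2`: every element generates or lies in the subgroup of
`p`-th powers -/
theorem mem_zpowers_sq {u a : G} (hu : orderOf u = p ^ 2) (ha : a ∈ Subgroup.zpowers u) :
    u ∈ Subgroup.zpowers a ∨ a ∈ Subgroup.zpowers (u ^ p) := by
  obtain ⟨n, rfl⟩ := Subgroup.mem_zpowers_iff.1 ha
  by_cases hpn : (p : ℤ) ∣ n
  · right
    obtain ⟨m, rfl⟩ := hpn
    rw [zpow_mul, zpow_natCast]
    exact Subgroup.zpow_mem _ (Subgroup.mem_zpowers _) m
  · left
    rw [mem_zpowers_zpow_iff, hu]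
    have h1 : IsCoprime n (p : ℤ) :=
      ((Nat.prime_iff_prime_int.1 hp.out).coprime_iff_not_dvd.2 hpn).symm
    have h2 := h1.pow_right (n := 2)
    have h3 := Int.isCoprime_iff_gcd_eq_one.1 h2
    exact_mod_cast h3

/-- nontrivial elements of a group of order `p` generate it -/
theorem mem_zpowers_prime {y c : G} (hy : y ^ p = 1) (hc : c ∈ Subgroup.zpowers y) (hc1 : c ≠ 1) :
    y ∈ Subgroup.zpowers c := by
  obtain ⟨n, rfl⟩ := Subgroup.mem_zpowers_iff.1 hc
  have hy1 : y ≠ 1 := by rintro rfl; simp at hc1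
  have hord : orderOf y = p := orderOf_eq_prime hy hy1
  rw [mem_zpowers_zpow_iff, hord]
  have hpn : ¬ (p : ℤ) ∣ n := by
    rintro ⟨m, rfl⟩
    apply hc1
    rw [zpow_mul, zpow_natCast, hy, one_zpow]
  have h1 : IsCoprime n (p : ℤ) :=
    ((Nat.prime_iff_prime_int.1 hp.out).coprime_iff_not_dvd.2 hpn).symm
  exact Int.isCoprime_iff_gcd_eq_one.1 h1

theorem zpowers_mono_mem {a b c : G} (h1 : a ∈ Subgroup.zpowers b) (h2 : b ∈ Subgroup.zpowers c) :
    a ∈ Subgroup.zpowers c := (Subgroup.zpowers_le.2 h2) h1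

/-- two elements of order `p` in a cyclic group of order `p ^ 2` -/
theorem mem_zpowers_of_sq {w a b : G} (hw : orderOf w = p ^ 2) (ha : a ∈ Subgroup.zpowers w)
    (hb : b ∈ Subgroup.zpowers w) (hap : a ^ p = 1) (hbp : b ^ p = 1) (hb1 : b ≠ 1) :
    a ∈ Subgroup.zpowers b := by
  have hwp : (w ^ p) ^ p = 1 := by
    rw [← pow_mul, ← pow_two, ← hw]; exact pow_orderOf_eq_one w
  have key : ∀ x : G, x ∈ Subgroup.zpowers w → x ^ p = 1 → x ∈ Subgroup.zpowers (w ^ p) := by
    intro x hx hxp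
    rcases mem_zpowers_sq hw hx with h | h
    · exfalso
      obtain ⟨k, hk⟩ := Subgroup.mem_zpowers_iff.1 h
      have : w ^ p = 1 := by
        rw [← hk, ← zpow_natCast, ← zpow_mul, mul_comm, zpow_mul, zpow_natCast, hxp, one_zpow]
      rw [← orderOf_dvd_iff_pow_eq_one, hw, pow_two] at this
      have h1 := Nat.le_of_dvd hp.out.pos this
      have := hp.out.one_lt
      nlinarith
    · exact h
  exact zpowers_mono_mem (key a ha hap) (mem_zpowers_prime hwp (key b hb hbp) hb1)

/-- two elements of order `p` in a cyclic group -/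
theorem mem_zpowers_of_cyclic [Finite G] {K : Subgroup G} (hK : IsCyclic K) {a b : G} (ha : a ∈ K)
    (hb : b ∈ K) (hap : a ^ p = 1) (hbp : b ^ p = 1) (hb1 : b ≠ 1) : a ∈ Subgroup.zpowers b := by
  classical
  have := Fintype.ofFinite K
  have h1 := IsCyclic.card_pow_eq_one_le (α := K) (n := p) hp.out.pos
  have hord : orderOf (⟨b, hb⟩ : K) = p := by
    apply orderOf_eq_prime
    · ext; simpa using hbp
    · intro h; apply hb1; simpa using congrArg Subtype.val h
  have h2 : (Finset.univ.filter (fun x : K => x ∈ Subgroup.zpowers (⟨b, hb⟩ : K))) ⊆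
      Finset.univ.filter (fun x : K => x ^ p = 1) := by
    intro x hx
    simp only [Finset.mem_filter, Finset.mem_univ, true_and] at hx ⊢
    obtain ⟨k, rfl⟩ := Subgroup.mem_zpowers_iff.1 hx
    rw [← zpow_natCast, ← zpow_mul, mul_comm, zpow_mul, zpow_natCast, ← hord, pow_orderOf_eq_one,
      one_zpow]
  have h3 : (Finset.univ.filter (fun x : K => x ∈ Subgroup.zpowers (⟨b, hb⟩ : K))).card = p := by
    have : Nat.card (Subgroup.zpowers (⟨b, hb⟩ : K)) = p := by rw [Nat.card_zpowers, hord]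
    rw [← this, Nat.card_eq_fintype_card, Fintype.card_subtype]
  have h4 := Finset.eq_of_subset_of_card_le h2 (by rw [h3]; exact h1)
  have h5 : (⟨a, ha⟩ : K) ∈ Finset.univ.filter (fun x : K => x ^ p = 1) := by
    simp only [Finset.mem_filter, Finset.mem_univ, true_and]
    ext; simpa using hap
  rw [← h4] at h5
  simp only [Finset.mem_filter, Finset.mem_univ, true_and] at h5
  obtain ⟨k, hk⟩ := Subgroup.mem_zpowers_iff.1 h5
  rw [Subgroup.mem_zpowers_iff]
  exact ⟨k, by simpa using congrArg Subtype.val hk⟩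

/-- the centralizer of an element of order `p ^ 2` in a `p`-subgroup -/
theorem cent_of_sq [Finite G] {K : Subgroup G} (hK : IsPGroup p K) {u : G} (huK : u ∈ K)
    (hu : orderOf u = p ^ 2) (h1 : ¬ p ^ 3 ∣ Nat.card (Subgroup.centralizer ({u} : Set G)))
    {x : G} (hx : x ∈ K) (hxu : x * u = u * x) : x ∈ Subgroup.zpowers u := by
  have hle : Subgroup.zpowers u ≤ K ⊓ Subgroup.centralizer ({u} : Set G) := by
    rw [Subgroup.zpowers_le]
    exact ⟨huK, Subgroup.mem_centralizer_singleton_iff.2 rfl⟩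
  have hpg : IsPGroup p (K ⊓ Subgroup.centralizer ({u} : Set G) : Subgroup G) :=
    hK.to_le inf_le_left
  obtain ⟨j, hj⟩ := IsPGroup.iff_card.1 hpg
  have hj2 : j ≤ 2 := by
    by_contra hcon
    apply h1
    have h3 : p ^ 3 ∣ p ^ j := pow_dvd_pow p (by omega)
    rw [← hj] at h3
    exact h3.trans (Subgroup.card_dvd_of_le inf_le_right)
  have heq : Subgroup.zpowers u = K ⊓ Subgroup.centralizer ({u} : Set G) := by
    apply Subgroup.eq_of_le_of_card_ge hle
    rw [hj, Nat.card_zpowers, hu]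
    exact Nat.pow_le_pow_right hp.out.pos hj2
  rw [heq]
  exact ⟨hx, Subgroup.mem_centralizer_singleton_iff.2 hxu⟩

/-- the commutator with `a` is a homomorphism modulo a central subgroup of order `p` -/
theorem cent_card [Finite G] {H : Subgroup G} {a z : G} (hz : z ^ p = 1)
    (hcz : ∀ x ∈ H, x * z = z * x) (hca : ∀ x ∈ H, x * a * x⁻¹ * a⁻¹ ∈ Subgroup.zpowers z)
    {k : ℕ} (hk : p ^ (k + 1) ∣ Nat.card H) :
    p ^ k ∣ Nat.card (H ⊓ Subgroup.centralizer ({a} : Set G) : Subgroup G) := by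
  have hczp : ∀ x ∈ H, ∀ w ∈ Subgroup.zpowers z, x * w = w * x := by
    intro x hx w hw
    obtain ⟨i, rfl⟩ := Subgroup.mem_zpowers_iff.1 hw
    exact (Commute.zpow_right (hcz x hx) i).eq
  let f : H →* G :=
    { toFun := fun x => (x : G) * a * (x : G)⁻¹ * a⁻¹
      map_one' := by simp
      map_mul' := by
        intro x y
        have h1 := hczp x x.2 _ (hca y y.2)
        have h2 : ((x * y : H) : G) * a * ((x * y : H) : G)⁻¹ * a⁻¹
            = (x : G) * ((y : G) * a * (y : G)⁻¹ * a⁻¹) * (a * (x : G)⁻¹ * a⁻¹) := by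
          push_cast; group
        rw [h2, h1]
        obtain ⟨i, hi⟩ := Subgroup.mem_zpowers_iff.1 (hca x x.2)
        obtain ⟨j, hj⟩ := Subgroup.mem_zpowers_iff.1 (hca y y.2)
        rw [← hj]
        calc z ^ j * (x : G) * (a * (x : G)⁻¹ * a⁻¹) = z ^ j * ((x : G) * a * (x : G)⁻¹ * a⁻¹) := by
              group
        _ = ((x : G) * a * (x : G)⁻¹ * a⁻¹) * z ^ j := by
              rw [← hi, ← zpow_add, ← zpow_add, add_comm] }
  have hf : ∀ x : H, f x = (x : G) * a * (x : G)⁻¹ * a⁻¹ := fun x => rfl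
  have hrange : Nat.card f.range ∣ p := by
    have h1 : f.range ≤ Subgroup.zpowers z := by
      rintro _ ⟨x, rfl⟩; exact hca x x.2
    have h2 := Subgroup.card_dvd_of_le h1
    rw [Nat.card_zpowers] at h2
    exact h2.trans (orderOf_dvd_of_pow_eq_one hz)
  have hker : Nat.card f.ker = Nat.card (H ⊓ Subgroup.centralizer ({a} : Set G) : Subgroup G) := by
    have h1 : f.ker.map H.subtype = H ⊓ Subgroup.centralizer ({a} : Set G) := by
      ext x
      simp only [Subgroup.mem_map, MonoidHom.mem_ker, hf, Subgroup.mem_inf,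
        Subgroup.mem_centralizer_singleton_iff, Subgroup.subtype_apply]
      constructor
      · rintro ⟨y, hy, rfl⟩
        refine ⟨y.2, ?_⟩
        rw [mul_inv_eq_one, mul_inv_eq_iff_eq_mul] at hy
        exact hy
      · rintro ⟨hx, hxa⟩
        refine ⟨⟨x, hx⟩, ?_, rfl⟩
        change x * a * x⁻¹ * a⁻¹ = 1
        rw [hxa]; group
    rw [← h1]
    exact (Subgroup.card_map_of_injective H.subtype_injective).symm
  have hmul : Nat.card H = Nat.card f.ker * Nat.card f.range := by
    have := f.ker.card_mul_index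
    rw [Subgroup.index_ker] at this
    exact this.symm
  rw [← hker]
  obtain ⟨r, hr⟩ := hrange
  have h1 : p ^ (k + 1) ∣ Nat.card f.ker * p := by
    calc p ^ (k + 1) ∣ Nat.card H := hk
    _ = Nat.card f.ker * Nat.card f.range := hmul
    _ ∣ Nat.card f.ker * p := Nat.mul_dvd_mul_left _ ⟨r, hr⟩
  rw [pow_succ] at h1
  exact Nat.dvd_of_mul_dvd_mul_right hp.out.pos h1

/-- conjugacy of full `p`-subgroups inside a subgroup -/
theorem exists_conj_of_card [Finite G] {H A B : Subgroup G} (hA : A ≤ H) (hB : B ≤ H) {k : ℕ}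
    (hAc : Nat.card A = p ^ k) (hBc : Nat.card B = p ^ k) (hk : ¬ p ^ (k + 1) ∣ Nat.card H) :
    ∃ y ∈ H, ∀ x ∈ A, y * x * y⁻¹ ∈ B := by
  have hfac : (Nat.card H).factorization p = k := by
    apply le_antisymm
    · by_contra hcon
      push Not at hcon
      exact hk ((pow_dvd_pow p hcon).trans (Nat.ordProj_dvd _ p))
    · rw [← hp.out.pow_dvd_iff_le_factorization Nat.card_pos.ne', ← hAc]
      exact Subgroup.card_dvd_of_le hA
  have h1 : ∀ C : Subgroup G, C ≤ H → Nat.card (C.subgroupOf H) = Nat.card C := fun C hC =>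
    Nat.card_congr (Subgroup.subgroupOfEquivOfLe hC).toEquiv
  let SA : Sylow p H := Sylow.ofCard (A.subgroupOf H) (by rw [h1 A hA, hAc, hfac])
  let SB : Sylow p H := Sylow.ofCard (B.subgroupOf H) (by rw [h1 B hB, hBc, hfac])
  obtain ⟨y, hy⟩ := MulAction.exists_smul_eq H SA SB
  refine ⟨y, y.2, fun x hx => ?_⟩
  have h2 : (⟨x, hA hx⟩ : H) ∈ (SA : Subgroup H) := by
    change (⟨x, hA hx⟩ : H) ∈ A.subgroupOf H
    rw [Subgroup.mem_subgroupOf]; exact hx
  have h3 : y * (⟨x, hA hx⟩ : H) * y⁻¹ ∈ (SB : Subgroup H) := by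
    rw [← hy, Sylow.coe_subgroup_smul]
    have := Subgroup.smul_mem_pointwise_smul (⟨x, hA hx⟩ : H) (MulAut.conj y) _ h2
    simpa [MulAut.smul_def, MulAut.conj_apply] using this
  have h4 : y * (⟨x, hA hx⟩ : H) * y⁻¹ ∈ B.subgroupOf H := h3
  rw [Subgroup.mem_subgroupOf] at h4
  simpa using h4

/-- Sylow subgroups of a subgroup of index prime to `p` -/
theorem exists_sylow_between [Finite G] {H A : Subgroup G} (hA : A ≤ H) (hAp : IsPGroup p A)
    (hH : ¬ p ∣ H.index) : ∃ S : Sylow p G, A ≤ S ∧ (S : Subgroup G) ≤ H := by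
  have h0 : IsPGroup p (A.subgroupOf H) :=
    hAp.of_equiv (Subgroup.subgroupOfEquivOfLe hA).symm
  obtain ⟨T, hT⟩ := h0.exists_le_sylow
  have hcT : Nat.card ((T : Subgroup H).map H.subtype) = p ^ (Nat.card G).factorization p := by
    rw [Subgroup.card_map_of_injective H.subtype_injective]
    have h1 := T.card_eq_multiplicity
    have h2 : (Nat.card G).factorization p = (Nat.card H).factorization p := by
      rw [← H.card_mul_index, Nat.factorization_mul Nat.card_pos.ne' H.index_ne_zero_of_finite,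
        Finsupp.add_apply, Nat.factorization_eq_zero_of_not_dvd hH, add_zero]
    rw [h2]; exact h1
  refine ⟨Sylow.ofCard _ hcT, ?_, ?_⟩
  · intro x hx
    change x ∈ (T : Subgroup H).map H.subtype
    refine ⟨⟨x, hA hx⟩, hT ?_, rfl⟩
    rw [Subgroup.mem_subgroupOf]; exact hx
  · intro x hx
    have hx' : x ∈ (T : Subgroup H).map H.subtype := hx
    obtain ⟨y, _, rfl⟩ := hx'
    exact y.2

/-- the centre of a `p`-subgroup containing an element of order `p ^ 2` with small centralizer -/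
theorem center_of_sq [Finite G] {K : Subgroup G} (hK : IsPGroup p K) (hK3 : p ^ 3 ∣ Nat.card K)
    {u : G} (huK : u ∈ K) (hu : orderOf u = p ^ 2)
    (h1 : ¬ p ^ 3 ∣ Nat.card (Subgroup.centralizer ({u} : Set G))) :
    (∀ x ∈ K, x * u ^ p = u ^ p * x) ∧
      ∀ a ∈ K, (∀ x ∈ K, x * a = a * x) → a ∈ Subgroup.zpowers (u ^ p) := by
  have hsmall : ¬ ∀ x ∈ K, x * u = u * x := by
    intro h
    have h2 : K ≤ Subgroup.zpowers u := fun x hx => cent_of_sq hK huK hu h1 hx (h x hx)
    have h3 := Nat.le_of_dvd Nat.card_pos (hK3.trans (Subgroup.card_dvd_of_le h2))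
    rw [Nat.card_zpowers, hu] at h3
    exact absurd h3 (not_le.2 (Nat.pow_lt_pow_right hp.out.one_lt (by norm_num)))
  have key : ∀ a ∈ K, (∀ x ∈ K, x * a = a * x) → a ∈ Subgroup.zpowers (u ^ p) := by
    intro a ha hc
    have h2 : a ∈ Subgroup.zpowers u := cent_of_sq hK huK hu h1 ha (hc u huK).symm
    rcases mem_zpowers_sq hu h2 with h | h
    · exfalso
      apply hsmall
      intro x hx
      obtain ⟨i, hi⟩ := Subgroup.mem_zpowers_iff.1 h
      rw [← hi]
      exact (Commute.zpow_right (hc x hx) i).eq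
    · exact h
  refine ⟨?_, key⟩
  have hnt : Nontrivial K := by
    rw [← Finite.one_lt_card_iff_nontrivial]
    have h3 := Nat.le_of_dvd Nat.card_pos hK3
    exact lt_of_lt_of_le (Nat.one_lt_pow (by norm_num) hp.out.one_lt) h3
  have h2 := hK.center_nontrivial
  obtain ⟨⟨c, hc⟩, hc1⟩ := exists_ne (1 : Subgroup.center K)
  have hcc : ∀ x ∈ K, x * (c : G) = c * x := by
    intro x hx
    have := Subgroup.mem_center_iff.1 hc ⟨x, hx⟩
    simpa using congrArg Subtype.val this
  have hc1' : (c : G) ≠ 1 := by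
    intro h
    apply hc1
    ext
    simpa using h
  have h3 := key c c.2 hcc
  have hup : (u ^ p) ^ p = 1 := by
    rw [← pow_mul, ← pow_two, ← hu]; exact pow_orderOf_eq_one u
  have h4 := mem_zpowers_prime hup h3 hc1'
  intro x hx
  obtain ⟨i, hi⟩ := Subgroup.mem_zpowers_iff.1 h4
  rw [← hi]
  exact (Commute.zpow_right (hcc x hx) i).eq

/-- every Sylow subgroup contains a conjugate of a given `p`-element -/
theorem exists_conj_mem [Finite G] (S : Sylow p G) {u : G} (hu : ∃ n : ℕ, u ^ p ^ n = 1) :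
    ∃ g : G, g * u * g⁻¹ ∈ S := by
  have h0 : IsPGroup p (Subgroup.zpowers u) := by
    obtain ⟨n, hn⟩ := hu
    rintro ⟨x, hx⟩
    obtain ⟨i, rfl⟩ := Subgroup.mem_zpowers_iff.1 hx
    refine ⟨n, ?_⟩
    ext
    simp only [SubmonoidClass.mk_pow, OneMemClass.coe_one]
    rw [← zpow_natCast, ← zpow_mul, mul_comm, zpow_mul, zpow_natCast, hn, one_zpow]
  obtain ⟨T, hT⟩ := h0.exists_le_sylow
  obtain ⟨g, hg⟩ := MulAction.exists_smul_eq G T S
  refine ⟨g, ?_⟩
  have h2 : u ∈ (T : Subgroup G) := hT (Subgroup.mem_zpowers u)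
  have h3 : g * u * g⁻¹ ∈ (S : Subgroup G) := by
    rw [← hg, Sylow.coe_subgroup_smul]
    have := Subgroup.smul_mem_pointwise_smul u (MulAut.conj g) _ h2
    simpa [MulAut.smul_def, MulAut.conj_apply] using this
  exact h3

end zp

/-- an involutive automorphism acting without fixed points on `P / N` -/
theorem commutator_mem_of_involution {P : Type*} [Group P] [Finite P] (N : Subgroup P) [N.Normal]
    (φ : P →* P) (hφ : ∀ x, φ (φ x) = x) (hN : ∀ x ∈ N, φ x ∈ N)
    (hfix : ∀ x, x⁻¹ * φ x ∈ N → x ∈ N) (x y : P) : x * y * x⁻¹ * y⁻¹ ∈ N := by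
  let ψ : P ⧸ N →* P ⧸ N := QuotientGroup.map N N φ (fun x hx => hN x hx)
  have hψ : ∀ a : P, ψ (a : P ⧸ N) = ((φ a : P) : P ⧸ N) := fun a => rfl
  have h1 : MonoidHom.FixedPointFree ψ := by
    intro g
    induction g using QuotientGroup.induction_on with
    | H a =>
      intro h
      rw [hψ] at h
      rw [QuotientGroup.eq_one_iff]
      apply hfix
      exact QuotientGroup.eq.1 h.symm
  have h2 : Function.Involutive ψ := by
    intro g
    induction g using QuotientGroup.induction_on with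
    | H a => rw [hψ, hψ, hφ]
  have h3 := h1.commute_all_of_involutive h2 (x : P ⧸ N) (y : P ⧸ N)
  rw [← QuotientGroup.eq_one_iff, QuotientGroup.mk_mul,
      QuotientGroup.mk_mul, QuotientGroup.mk_mul, QuotientGroup.mk_inv, QuotientGroup.mk_inv,
      h3.eq]
  simp

/-- an involution of a finite type of odd cardinality has a fixed point -/
theorem exists_fixed_of_odd {X : Type*} [Finite X] (f : X → X) (hf : ∀ x, f (f x) = x)
    (hodd : ¬ 2 ∣ Nat.card X) : ∃ x, f x = x := by
  classical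
  have := Fintype.ofFinite X
  by_contra hcon
  push Not at hcon
  apply hodd
  rw [Nat.card_eq_fintype_card]
  have h1 : (Finset.univ : Finset X).card = Fintype.card X := rfl
  rw [← h1]
  have := Finset.sum_involution (s := (Finset.univ : Finset X)) (f := fun _ => (1 : ZMod 2))
    (fun x _ => f x) (fun x _ => by decide) (fun x _ _ => hcon x) (fun x _ => Finset.mem_univ _)
    (fun x _ => hf x)
  rw [Finset.sum_const, nsmul_eq_mul, mul_one] at this
  exact (ZMod.natCast_eq_zero_iff _ _).1 this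

end Pool.Agent.H44.IC.Odd
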