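import Pool.Agent.H44.IC.Defs
import Pool.Agent.H44.IC.OddAux

/-! Module ODD. -/

namespace Pool.Agent.H44.IC.Odd

/-- the hypotheses of the odd case -/
structure Hyp (p : ℕ) (G : Type*) [Group G] [Finite G] : Prop where
  hp2 : p ≠ 2
  ha : ∀ x : G, x ≠ 1 → ¬ p ∣ orderOf x → ∀ K : Subgroup G, IsPGroup p K →
      (∀ k ∈ K, k * x = x * k) → IsCyclic K
  hexp : ∀ c : G, (∃ n : ℕ, c ^ p ^ n = 1) → c ^ (p ^ 2) = 1
  h1 : ∀ u : G, orderOf u = p ^ 2 → ¬ p ^ 3 ∣ Nat.card (Subgroup.centralizer ({u} : Set G))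
  hinv : ∀ u : G, orderOf u = p ^ 2 → IsConj u u⁻¹
  h4 : ∀ w : G, orderOf w = p → p ^ 3 ∣ Nat.card (Subgroup.centralizer ({w} : Set G)) →
      ¬ p ∣ (Subgroup.centralizer ({w} : Set G)).index
  hn : p ^ 4 ∣ Nat.card G

/-- `v` is central modulo the centre of `P` -/
structure V {p : ℕ} {G : Type*} [Group G] (P : Sylow p G) (z v : G) : Prop where
  mem : v ∈ P
  nmem : v ∉ Subgroup.zpowers z
  com : ∀ x ∈ P, x * v * x⁻¹ * v⁻¹ ∈ Subgroup.zpowers z

variable {p : ℕ} [hp : Fact p.Prime] {G : Type*} [Group G] [Finite G]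

theorem Hyp.order_cases (H : Hyp p G) {w : G} (hw : ∃ n : ℕ, w ^ p ^ n = 1) :
    w ^ p = 1 ∨ orderOf w = p ^ 2 := by
  by_cases h : w ^ p = 1
  · exact Or.inl h
  · right
    exact orderOf_eq_prime_pow (n := 1) (by rwa [pow_one]) (H.hexp w hw)

theorem sylow_pel (P : Sylow p G) {w : G} (hw : w ∈ P) : ∃ n : ℕ, w ^ p ^ n = 1 := by
  obtain ⟨n, hn⟩ := P.isPGroup' ⟨w, hw⟩
  exact ⟨n, by simpa using congrArg Subtype.val hn⟩

theorem pow_p_ne {u : G} (hu : orderOf u = p ^ 2) : u ^ p ≠ 1 := by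
  intro h
  rw [← orderOf_dvd_iff_pow_eq_one, hu, pow_two] at h
  have h1 := Nat.le_of_dvd hp.out.pos h
  have := hp.out.one_lt
  nlinarith

theorem pow_p_p {u : G} (hu : orderOf u = p ^ 2) : (u ^ p) ^ p = 1 := by
  rw [← pow_mul, ← pow_two, ← hu]; exact pow_orderOf_eq_one u

theorem Hyp.card_sylow (H : Hyp p G) (P : Sylow p G) : p ^ 4 ∣ Nat.card P :=
  P.pow_dvd_card_of_pow_dvd_card H.hn

theorem Hyp.center (H : Hyp p G) (P : Sylow p G) {u : G} (huP : u ∈ P) (hu : orderOf u = p ^ 2) :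
    (∀ x ∈ P, x * u ^ p = u ^ p * x) ∧
      ∀ a ∈ P, (∀ x ∈ P, x * a = a * x) → a ∈ Subgroup.zpowers (u ^ p) :=
  center_of_sq P.isPGroup' ((pow_dvd_pow p (by norm_num)).trans (H.card_sylow P)) huP hu
    (H.h1 u hu)

theorem Hyp.exists_sq (H : Hyp p G) (hu : ∃ u : G, orderOf u = p ^ 2) (S : Sylow p G) :
    ∃ u ∈ S, orderOf u = p ^ 2 := by
  obtain ⟨u, hu⟩ := hu
  obtain ⟨g, hg⟩ := exists_conj_mem S (u := u) ⟨2, by rw [← hu]; exact pow_orderOf_eq_one u⟩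
  refine ⟨_, hg, ?_⟩
  rw [← hu]
  exact orderOf_injective (MulAut.conj g).toMonoidHom (MulAut.conj g).injective u

/-- two elements central in a Sylow subgroup -/
theorem Hyp.central_two (H : Hyp p G) (hu : ∃ u : G, orderOf u = p ^ 2) (S : Sylow p G)
    {a b : G} (haS : a ∈ S) (hbS : b ∈ S) (ha : ∀ x ∈ S, x * a = a * x)
    (hb : ∀ x ∈ S, x * b = b * x) (hb1 : b ≠ 1) : a ∈ Subgroup.zpowers b := by
  obtain ⟨u, huS, hu⟩ := H.exists_sq hu S
  obtain ⟨_, h2⟩ := H.center S huS hu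
  exact zpowers_mono_mem (h2 a haS ha) (mem_zpowers_prime (pow_p_p hu) (h2 b hbS hb) hb1)

theorem Hyp.facts (H : Hyp p G) (P : Sylow p G) {u : G} (huP : u ∈ P) (hu : orderOf u = p ^ 2)
    {v : G} (hv : V P (u ^ p) v) :
    v ^ p = 1 ∧ (¬ p ∣ (Subgroup.centralizer ({v} : Set G)).index) ∧
      p ^ 3 ∣ Nat.card ((P : Subgroup G) ⊓ Subgroup.centralizer ({v} : Set G) : Subgroup G) ∧
      ∀ w ∈ P, w * v = v * w → w ^ p = 1 := by
  obtain ⟨hc1, hc2⟩ := H.center P huP hu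
  have hk : p ^ 3 ∣ Nat.card ((P : Subgroup G) ⊓ Subgroup.centralizer ({v} : Set G) : Subgroup G) :=
    cent_card (pow_p_p hu) hc1 hv.com (H.card_sylow P)
  have hk' : p ^ 3 ∣ Nat.card (Subgroup.centralizer ({v} : Set G)) :=
    hk.trans (Subgroup.card_dvd_of_le inf_le_right)
  have hvp : v ^ p = 1 := by
    rcases H.order_cases (sylow_pel P hv.mem) with h | h
    · exact h
    · exact absurd hk' (H.h1 v h)
  have hv1 : v ≠ 1 := by
    intro h
    apply hv.nmem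
    rw [h]; exact Subgroup.one_mem _
  refine ⟨hvp, H.h4 v (orderOf_eq_prime hvp hv1) hk', hk, ?_⟩
  intro w hw hwv
  rcases H.order_cases (sylow_pel P hw) with h | h
  · exact h
  · exfalso
    have h1 : v ∈ Subgroup.zpowers w :=
      cent_of_sq P.isPGroup' hw h (H.h1 w h) hv.mem hwv.symm
    have h2 : u ^ p ∈ Subgroup.zpowers w :=
      cent_of_sq P.isPGroup' hw h (H.h1 w h) (Subgroup.pow_mem _ huP p) (hc1 w hw).symm
    exact hv.nmem (mem_zpowers_of_sq h h1 h2 hvp (pow_p_p hu) (pow_p_ne hu))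

theorem Hyp.exists_V (H : Hyp p G) (P : Sylow p G) {u : G} (huP : u ∈ P)
    (hu : orderOf u = p ^ 2) : ∃ v, V P (u ^ p) v := by
  obtain ⟨hc1, hc2⟩ := H.center P huP hu
  have huZ : (⟨u, huP⟩ : P) ∉ Subgroup.center P := by
    intro h
    have h1 : ∀ x ∈ P, x * u = u * x := by
      intro x hx
      have := Subgroup.mem_center_iff.1 h ⟨x, hx⟩
      simpa using congrArg Subtype.val this
    have h2 := hc2 u huP h1
    obtain ⟨i, hi⟩ := Subgroup.mem_zpowers_iff.1 h2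
    apply pow_p_ne hu
    conv_lhs => rw [← hi]
    rw [← zpow_natCast, ← zpow_mul, mul_comm, zpow_mul, zpow_natCast, pow_p_p hu, one_zpow]
  have hnt : Nontrivial (P ⧸ Subgroup.center P) := by
    refine ⟨⟨((⟨u, huP⟩ : P) : P ⧸ Subgroup.center P), 1, ?_⟩⟩
    intro h
    exact huZ ((QuotientGroup.eq_one_iff _).1 h)
  have hpg : IsPGroup p (P ⧸ Subgroup.center P) := P.isPGroup'.to_quotient _
  have h2 := hpg.center_nontrivial
  obtain ⟨⟨q, hq⟩, hq1⟩ := exists_ne (1 : Subgroup.center (P ⧸ Subgroup.center P))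
  obtain ⟨⟨v, hvP⟩, rfl⟩ := QuotientGroup.mk_surjective q
  refine ⟨v, hvP, ?_, ?_⟩
  · intro h
    apply hq1
    ext
    change ((⟨v, hvP⟩ : (P : Subgroup G)) :
      (P : Subgroup G) ⧸ Subgroup.center (P : Subgroup G)) = 1
    rw [QuotientGroup.eq_one_iff, Subgroup.mem_center_iff]
    rintro ⟨x, hx⟩
    ext
    obtain ⟨i, hi⟩ := Subgroup.mem_zpowers_iff.1 h
    change x * v = v * x
    rw [← hi]
    exact (Commute.zpow_right (hc1 x hx) i).eq
  · intro x hx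
    have h3 := Subgroup.mem_center_iff.1 hq ((⟨x, hx⟩ : P) : P ⧸ Subgroup.center P)
    have h4 : (⟨x, hx⟩ : P) * ⟨v, hvP⟩ * (⟨x, hx⟩ : P)⁻¹ * (⟨v, hvP⟩ : P)⁻¹ ∈ Subgroup.center P := by
      rw [← QuotientGroup.eq_one_iff, QuotientGroup.mk_mul,
        QuotientGroup.mk_mul, QuotientGroup.mk_mul, QuotientGroup.mk_inv, QuotientGroup.mk_inv, h3]
      simp
    apply hc2
    · exact P.mul_mem (P.mul_mem (P.mul_mem hx hvP) (P.inv_mem hx)) (P.inv_mem hvP)
    · intro y hy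
      have := Subgroup.mem_center_iff.1 h4 ⟨y, hy⟩
      simpa using congrArg Subtype.val this

/-- the subgroup `L` -/
def subL (u z : G) (hz : ∀ x : G, (∃ i : ℤ, x * u * x⁻¹ = u * z ^ i) → x * z = z * x) :
    Subgroup G where
  carrier := {x | ∃ i : ℤ, x * u * x⁻¹ = u * z ^ i}
  mul_mem' := by
    rintro x y ⟨i, hi⟩ ⟨j, hj⟩
    refine ⟨i + j, ?_⟩
    have h1 : x * z ^ j * x⁻¹ = z ^ j := by
      rw [(Commute.zpow_right (hz x ⟨i, hi⟩) j).eq]; group
    calc x * y * u * (x * y)⁻¹ = x * (y * u * y⁻¹) * x⁻¹ := by group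
    _ = x * (u * z ^ j) * x⁻¹ := by rw [hj]
    _ = (x * u * x⁻¹) * (x * z ^ j * x⁻¹) := by group
    _ = u * z ^ (i + j) := by rw [hi, h1, zpow_add]; group
  one_mem' := ⟨0, by simp⟩
  inv_mem' := by
    rintro x ⟨i, hi⟩
    refine ⟨-i, ?_⟩
    have h1 : x⁻¹ * z ^ i * x = z ^ i := by
      rw [mul_assoc, ← (Commute.zpow_right (hz x ⟨i, hi⟩) i).eq]; group
    have h2 : x⁻¹ * (x * u * x⁻¹) * x = x⁻¹ * (u * z ^ i) * x := by rw [hi]
    have h3 : u = (x⁻¹ * u * x) * (x⁻¹ * z ^ i * x) := by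
      calc u = x⁻¹ * (x * u * x⁻¹) * x := by group
      _ = x⁻¹ * (u * z ^ i) * x := h2
      _ = _ := by group
    rw [h1] at h3
    rw [inv_inv]
    have h4 : (x⁻¹ * u * x) * z ^ i * z ^ (-i) = x⁻¹ * u * x := by group
    rw [← h4, ← h3]

theorem conj_pow_sq {x u : G} {i : ℤ} (hu : orderOf u = p ^ 2)
    (h : x * u * x⁻¹ = u * (u ^ p) ^ i) : x * u ^ p = u ^ p * x := by
  have h1 : x * u ^ p * x⁻¹ = u ^ p := by
    calc x * u ^ p * x⁻¹ = (x * u * x⁻¹) ^ p := by rw [conj_pow]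
    _ = (u * (u ^ p) ^ i) ^ p := by rw [h]
    _ = u ^ p * ((u ^ p) ^ i) ^ p := by
        apply Commute.mul_pow
        exact Commute.zpow_right (Commute.pow_right (Commute.refl u) p) i
    _ = u ^ p * 1 := by
        congr 1
        rw [← zpow_natCast, ← zpow_mul, mul_comm, zpow_mul, zpow_natCast, pow_p_p hu, one_zpow]
    _ = u ^ p := mul_one _
  calc x * u ^ p = (x * u ^ p * x⁻¹) * x := by group
  _ = u ^ p * x := by rw [h1]

/-- Step 2: an element inverting `z` and stabilizing `v Z` -/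
theorem Hyp.step2 (H : Hyp p G) (P : Sylow p G) {u : G} (huP : u ∈ P) (hu : orderOf u = p ^ 2)
    {v : G} (hv : V P (u ^ p) v) :
    ∃ t : G, t * (u ^ p) * t⁻¹ = (u ^ p)⁻¹ ∧ ∃ k : ℤ, t * v * t⁻¹ = v * (u ^ p) ^ k := by
  obtain ⟨hc1, hc2⟩ := H.center P huP hu
  obtain ⟨hvp, hvi, hvc, hve⟩ := H.facts P huP hu hv
  set z := u ^ p with hzdef
  have hzp : z ^ p = 1 := pow_p_p hu
  have hz1 : z ≠ 1 := pow_p_ne hu
  have hzP : z ∈ P := Subgroup.pow_mem _ huP p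
  have hLz : ∀ x : G, (∃ i : ℤ, x * u * x⁻¹ = u * z ^ i) → x * z = z * x := by
    rintro x ⟨i, hi⟩
    exact conj_pow_sq hu hi
  let L := subL u z hLz
  have hL : ∀ x, x ∈ L ↔ ∃ i : ℤ, x * u * x⁻¹ = u * z ^ i := fun x => Iff.rfl
  -- card of L
  have hL4 : ¬ p ^ 4 ∣ Nat.card L := by
    intro h
    have h1 : p ^ 3 ∣ Nat.card (L ⊓ Subgroup.centralizer ({u} : Set G) : Subgroup G) := by
      refine cent_card hzp (fun x hx => hLz x hx) ?_ h
      rintro x ⟨i, hi⟩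
      rw [hi, Subgroup.mem_zpowers_iff]
      refine ⟨i, ?_⟩
      have : u * z ^ i = z ^ i * u :=
        (Commute.zpow_right (Commute.pow_right (Commute.refl u) p) i).eq
      rw [this]; group
    exact H.h1 u hu (h1.trans (Subgroup.card_dvd_of_le inf_le_right))
  -- Q
  let Q : Subgroup G := Subgroup.closure {u, v}
  have huQ : u ∈ Q := Subgroup.subset_closure (by simp)
  have hvQ : v ∈ Q := Subgroup.subset_closure (by simp)
  have hQP : Q ≤ P := by
    rw [Subgroup.closure_le]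
    rintro x (rfl | rfl)
    · exact huP
    · exact hv.mem
  have hzu : ∀ i : ℤ, Commute u (z ^ i) := fun i =>
    Commute.zpow_right (Commute.pow_right (Commute.refl u) p) i
  have huL : u ∈ L := ⟨0, by simp⟩
  obtain ⟨a, hau⟩ : ∃ a : ℤ, v * u * v⁻¹ = u * z ^ a := by
    obtain ⟨i, hi⟩ := Subgroup.mem_zpowers_iff.1 (hv.com u huP)
    refine ⟨-i, ?_⟩
    have h1 : u * v = z ^ i * v * u := by rw [hi]; group
    have h2 : Commute (z ^ i) v := Commute.zpow_left (hc1 v hv.mem).symm i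
    have h3 : Commute (z ^ i) u := (hzu i).symm
    have h4 : v * u = u * v * z ^ (-i) := by
      rw [h1, h2.eq, mul_assoc v, h3.eq]
      calc v * u = v * u * (z ^ i * z ^ (-i)) := by rw [← zpow_add]; simp
      _ = _ := by group
    have h5 : Commute (z ^ (-i)) v := Commute.zpow_left (hc1 v hv.mem).symm (-i)
    rw [h4, mul_assoc u v, ← h5.eq]
    group
  have hvL : v ∈ L := ⟨a, hau⟩
  have hQL : Q ≤ L := by
    rw [Subgroup.closure_le]
    rintro x (rfl | rfl)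
    · exact huL
    · exact hvL
  have hvu : v ∉ Subgroup.zpowers u := by
    intro h
    obtain ⟨i, hi⟩ := Subgroup.mem_zpowers_iff.1 h
    have h1 : u * v = v * u := by rw [← hi]; exact (Commute.zpow_right (Commute.refl u) i).eq
    exact hz1 (hve u huP h1)
  have hQpg : IsPGroup p Q := P.isPGroup'.to_le hQP
  obtain ⟨j, hj⟩ := IsPGroup.iff_card.1 hQpg
  have hj3 : 3 ≤ j := by
    have h1 : Subgroup.zpowers u ≤ Q := by rw [Subgroup.zpowers_le]; exact huQ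
    have h2 : Nat.card (Subgroup.zpowers u) ∣ Nat.card Q := Subgroup.card_dvd_of_le h1
    rw [Nat.card_zpowers, hu, hj] at h2
    have h3 : 2 ≤ j := (Nat.pow_dvd_pow_iff_le_right hp.out.one_lt).1 h2
    rcases h3.lt_or_eq with h4 | h4
    · exact h4
    · exfalso
      apply hvu
      have : Subgroup.zpowers u = Q := by
        apply Subgroup.eq_of_le_of_card_ge h1
        rw [hj, Nat.card_zpowers, hu, h4]
      rw [this]; exact hvQ
  have hj3' : j = 3 := by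
    by_contra hcon
    apply hL4
    have h1 : p ^ 4 ∣ p ^ j := pow_dvd_pow p (by omega)
    rw [← hj] at h1
    exact h1.trans (Subgroup.card_dvd_of_le hQL)
  have hQc : Nat.card Q = p ^ 3 := by rw [hj, hj3']
  -- g0
  obtain ⟨g0, hg0⟩ := isConj_iff.1 (H.hinv u hu)
  have hg0z : ∀ i : ℤ, g0 * z ^ i * g0⁻¹ = z ^ (-i) := by
    intro i
    rw [← conj_zpow, hzdef, ← conj_pow, hg0, inv_pow, inv_zpow, zpow_neg]
  let B : Subgroup G := Q.map (MulAut.conj g0).toMonoidHom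
  have hBc : Nat.card B = p ^ 3 := by
    rw [← hQc]; exact Subgroup.card_map_of_injective (MulAut.conj g0).injective
  have hBL : B ≤ L := by
    rintro _ ⟨x, hx, rfl⟩
    obtain ⟨i, hi⟩ := (hL x).1 (hQL hx)
    change g0 * x * g0⁻¹ ∈ L
    rw [hL]
    refine ⟨i, ?_⟩
    have h1 : g0⁻¹ * u * g0 = u⁻¹ := by
      have : u = g0 * u⁻¹ * g0⁻¹ := by
        rw [← conj_inv, hg0, inv_inv]
      calc g0⁻¹ * u * g0 = g0⁻¹ * (g0 * u⁻¹ * g0⁻¹) * g0 := by rw [← this]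
      _ = _ := by group
    have h2 : x * u⁻¹ * x⁻¹ = u⁻¹ * z ^ (-i) := by
      rw [← conj_inv, hi, (hzu i).eq, mul_inv_rev, zpow_neg]
    calc g0 * x * g0⁻¹ * u * (g0 * x * g0⁻¹)⁻¹
        = g0 * (x * (g0⁻¹ * u * g0) * x⁻¹) * g0⁻¹ := by group
    _ = g0 * (u⁻¹ * z ^ (-i)) * g0⁻¹ := by rw [h1, h2]
    _ = (g0 * u * g0⁻¹)⁻¹ * (g0 * z ^ (-i) * g0⁻¹) := by group
    _ = u * z ^ i := by rw [hg0, hg0z]; simp
  obtain ⟨y, hyL, hy⟩ := exists_conj_of_card hBL hQL hBc hQc hL4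
  obtain ⟨i, hi⟩ := (hL y).1 hyL
  have hyz : ∀ m : ℤ, y * z ^ m * y⁻¹ = z ^ m := by
    intro m
    rw [(Commute.zpow_right (hLz y hyL) m).eq]; group
  refine ⟨y * g0, ?_, ?_⟩
  · have h1 := hg0z 1
    have h2 := hyz (-1)
    rw [zpow_one] at h1
    calc y * g0 * z * (y * g0)⁻¹ = y * (g0 * z * g0⁻¹) * y⁻¹ := by group
    _ = y * z ^ (-1 : ℤ) * y⁻¹ := by rw [h1]
    _ = z⁻¹ := by rw [h2, zpow_neg_one]
  · set t := y * g0 with ht
    have htQ : t * v * t⁻¹ ∈ Q := by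
      have h1 : g0 * v * g0⁻¹ ∈ B := ⟨v, hvQ, rfl⟩
      have h2 := hy _ h1
      have h3 : y * (g0 * v * g0⁻¹) * y⁻¹ = t * v * t⁻¹ := by rw [ht]; group
      rwa [h3] at h2
    have htz : ∀ m : ℤ, t * z ^ m * t⁻¹ = z ^ (-m) := by
      intro m
      calc t * z ^ m * t⁻¹ = y * (g0 * z ^ m * g0⁻¹) * y⁻¹ := by rw [ht]; group
      _ = z ^ (-m) := by rw [hg0z, hyz]
    have htu : t * u * t⁻¹ = u⁻¹ * z ^ (-i) := by
      calc t * u * t⁻¹ = y * (g0 * u * g0⁻¹) * y⁻¹ := by rw [ht]; group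
      _ = (y * u * y⁻¹)⁻¹ := by rw [hg0]; group
      _ = u⁻¹ * z ^ (-i) := by rw [hi, (hzu i).eq, mul_inv_rev, zpow_neg]
    have htu2 : ∀ m : ℤ, t * (u⁻¹ * z ^ m) * t⁻¹ = u * z ^ (i - m) := by
      intro m
      calc t * (u⁻¹ * z ^ m) * t⁻¹ = (t * u * t⁻¹)⁻¹ * (t * z ^ m * t⁻¹) := by group
      _ = (u⁻¹ * z ^ (-i))⁻¹ * z ^ (-m) := by rw [htu, htz]
      _ = z ^ i * u * z ^ (-m) := by rw [mul_inv_rev, inv_inv, zpow_neg, inv_inv]
      _ = u * z ^ i * z ^ (-m) := by rw [(hzu i).eq]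
      _ = u * z ^ (i - m) := by rw [mul_assoc, ← zpow_add]; rfl
    have htu' : t⁻¹ * u * t = u⁻¹ * z ^ i := by
      have h1 := htu2 i
      rw [sub_self, zpow_zero, mul_one] at h1
      calc t⁻¹ * u * t = t⁻¹ * (t * (u⁻¹ * z ^ i) * t⁻¹) * t := by rw [h1]
      _ = _ := by group
    have hvu' : v * (u⁻¹ * z ^ i) * v⁻¹ = u⁻¹ * z ^ (i - a) := by
      have h1 : v * z ^ i * v⁻¹ = z ^ i := by
        rw [(Commute.zpow_right (hc1 v hv.mem) i).eq]; group
      calc v * (u⁻¹ * z ^ i) * v⁻¹ = (v * u * v⁻¹)⁻¹ * (v * z ^ i * v⁻¹) := by group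
      _ = (u * z ^ a)⁻¹ * z ^ i := by rw [hau, h1]
      _ = u⁻¹ * z ^ (-a) * z ^ i := by rw [(hzu a).eq, mul_inv_rev, zpow_neg]
      _ = u⁻¹ * z ^ (i - a) := by rw [mul_assoc, ← zpow_add]; congr 2; ring
    have hact : (t * v * t⁻¹) * u * (t * v * t⁻¹)⁻¹ = v * u * v⁻¹ := by
      calc (t * v * t⁻¹) * u * (t * v * t⁻¹)⁻¹ = t * (v * (t⁻¹ * u * t) * v⁻¹) * t⁻¹ := by group
      _ = t * (u⁻¹ * z ^ (i - a)) * t⁻¹ := by rw [htu', hvu']
      _ = u * z ^ a := by rw [htu2]; congr 2; ring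
      _ = v * u * v⁻¹ := hau.symm
    have hw : (v⁻¹ * (t * v * t⁻¹)) * u = u * (v⁻¹ * (t * v * t⁻¹)) := by
      calc (v⁻¹ * (t * v * t⁻¹)) * u
          = v⁻¹ * ((t * v * t⁻¹) * u * (t * v * t⁻¹)⁻¹) * (t * v * t⁻¹) := by group
      _ = v⁻¹ * (v * u * v⁻¹) * (t * v * t⁻¹) := by rw [hact]
      _ = _ := by group
    have hwQ : v⁻¹ * (t * v * t⁻¹) ∈ Q := Q.mul_mem (Q.inv_mem hvQ) htQ
    have hwu := cent_of_sq hQpg huQ hu (H.h1 u hu) hwQ hw
    obtain ⟨m, hm⟩ := Subgroup.mem_zpowers_iff.1 hwu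
    have htv : t * v * t⁻¹ = v * u ^ m := by rw [hm]; group
    -- p-th power
    have hp1 : (v * u ^ m) ^ p = 1 := by
      rw [← htv, conj_pow, hvp]; group
    have humP : u ^ m ∈ P := Subgroup.zpow_mem _ huP m
    have hcz := hv.com _ humP
    obtain ⟨b, hb⟩ := Subgroup.mem_zpowers_iff.1 hcz
    have hzP' : ∀ x ∈ P, Commute (z ^ b) x := fun x hx => Commute.zpow_left (hc1 x hx).symm b
    have hp2 := mul_pow_comm' (x := v) (y := u ^ m) (c := z ^ b) (by rw [hb]; group)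
      (hzP' v hv.mem) (hzP' _ humP) p
    have hp3 : (z ^ b) ^ (p.choose 2) = 1 := by
      have h2 : p ∣ p.choose 2 := by
        apply hp.out.dvd_choose_self (by norm_num)
        exact lt_of_le_of_ne hp.out.two_le (Ne.symm H.hp2)
      obtain ⟨r, hr⟩ := h2
      rw [hr, pow_mul, ← zpow_natCast (z ^ b) p, ← zpow_mul, mul_comm b, zpow_mul, zpow_natCast,
        hzp, one_zpow, one_pow]
    rw [hp1, hvp, hp3, one_mul, mul_one] at hp2
    have hfin : u ^ m ∈ Subgroup.zpowers z :=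
      mem_zpowers_of_sq hu (Subgroup.zpow_mem _ (Subgroup.mem_zpowers u) m)
        (Subgroup.pow_mem _ (Subgroup.mem_zpowers u) p) hp2.symm hzp hz1
    obtain ⟨k, hk⟩ := Subgroup.mem_zpowers_iff.1 hfin
    exact ⟨k, by rw [htv, hk]⟩

/-- the subgroup `Y` -/
def subY (v z : G) : Subgroup G where
  carrier := {x | x * z = z * x ∧ ∃ i : ℤ, x * v * x⁻¹ = v * z ^ i}
  mul_mem' := by
    rintro x y ⟨hx, i, hi⟩ ⟨hy, j, hj⟩
    refine ⟨(Commute.mul_left hx hy).eq, i + j, ?_⟩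
    have h1 : x * z ^ j * x⁻¹ = z ^ j := by
      rw [(Commute.zpow_right hx j).eq]; group
    calc x * y * v * (x * y)⁻¹ = x * (y * v * y⁻¹) * x⁻¹ := by group
    _ = x * (v * z ^ j) * x⁻¹ := by rw [hj]
    _ = (x * v * x⁻¹) * (x * z ^ j * x⁻¹) := by group
    _ = v * z ^ (i + j) := by rw [hi, h1, zpow_add]; group
  one_mem' := ⟨by simp, 0, by simp⟩
  inv_mem' := by
    rintro x ⟨hx, i, hi⟩
    refine ⟨(Commute.inv_left hx).eq, -i, ?_⟩
    have h1 : x⁻¹ * z ^ i * x = z ^ i := by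
      rw [mul_assoc, ← (Commute.zpow_right hx i).eq]; group
    have h2 : x⁻¹ * (x * v * x⁻¹) * x = x⁻¹ * (v * z ^ i) * x := by rw [hi]
    have h3 : v = (x⁻¹ * v * x) * (x⁻¹ * z ^ i * x) := by
      calc v = x⁻¹ * (x * v * x⁻¹) * x := by group
      _ = x⁻¹ * (v * z ^ i) * x := h2
      _ = _ := by group
    rw [h1] at h3
    rw [inv_inv]
    have h4 : (x⁻¹ * v * x) * z ^ i * z ^ (-i) = x⁻¹ * v * x := by group
    rw [← h4, ← h3]

theorem Hyp.step3 (H : Hyp p G) (P : Sylow p G) {u : G} (huP : u ∈ P) (hu : orderOf u = p ^ 2)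
    {v : G} (hv : V P (u ^ p) v) :
    ∃ t : G, t * t = 1 ∧ t * (u ^ p) * t⁻¹ = (u ^ p)⁻¹ ∧
      (∃ k : ℤ, t * v * t⁻¹ = v * (u ^ p) ^ k) ∧ ∀ x ∈ P, t * x * t⁻¹ ∈ P := by
  obtain ⟨hc1, hc2⟩ := H.center P huP hu
  obtain ⟨hvp, hvi, hvc, hve⟩ := H.facts P huP hu hv
  obtain ⟨t0, ht0z, k, ht0v⟩ := H.step2 P huP hu hv
  set z := u ^ p with hzdef
  have hzp : z ^ p = 1 := pow_p_p hu
  have hz1 : z ≠ 1 := pow_p_ne hu
  have hzP : z ∈ P := Subgroup.pow_mem _ huP p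
  have ht0z' : ∀ m : ℤ, t0 * z ^ m * t0⁻¹ = z ^ (-m) := by
    intro m
    rw [← conj_zpow, ht0z, inv_zpow, zpow_neg]
  let Y := subY v z
  have hY : ∀ x, x ∈ Y ↔ x * z = z * x ∧ ∃ i : ℤ, x * v * x⁻¹ = v * z ^ i := fun x => Iff.rfl
  have hPY : (P : Subgroup G) ≤ Y := by
    intro x hx
    rw [hY]
    refine ⟨hc1 x hx, ?_⟩
    obtain ⟨i, hi⟩ := Subgroup.mem_zpowers_iff.1 (hv.com x hx)
    refine ⟨i, ?_⟩
    have h1 : Commute v (z ^ i) := Commute.zpow_right (hc1 v hv.mem) i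
    rw [h1.eq, hi]; group
  let B : Subgroup G := (P : Subgroup G).map (MulAut.conj t0).toMonoidHom
  have hBY : B ≤ Y := by
    rintro _ ⟨x, hx, rfl⟩
    change t0 * x * t0⁻¹ ∈ Y
    obtain ⟨hxz, i, hi⟩ := (hY x).1 (hPY hx)
    have h1 : t0⁻¹ * z * t0 = z⁻¹ := by
      have h2 := ht0z' (-1)
      rw [neg_neg, zpow_one, zpow_neg_one] at h2
      calc t0⁻¹ * z * t0 = t0⁻¹ * (t0 * z⁻¹ * t0⁻¹) * t0 := by rw [h2]
      _ = _ := by group
    have h3 : t0⁻¹ * v * t0 = v * z ^ k := by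
      have h4 : t0 * (v * z ^ k) * t0⁻¹ = v := by
        calc t0 * (v * z ^ k) * t0⁻¹ = (t0 * v * t0⁻¹) * (t0 * z ^ k * t0⁻¹) := by group
        _ = v * z ^ k * z ^ (-k) := by rw [ht0v, ht0z']
        _ = v := by group
      calc t0⁻¹ * v * t0 = t0⁻¹ * (t0 * (v * z ^ k) * t0⁻¹) * t0 := by rw [h4]
      _ = _ := by group
    rw [hY]
    constructor
    · have h5 : (t0 * x * t0⁻¹) * z * (t0 * x * t0⁻¹)⁻¹ = z := by
        calc (t0 * x * t0⁻¹) * z * (t0 * x * t0⁻¹)⁻¹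
            = t0 * (x * (t0⁻¹ * z * t0) * x⁻¹) * t0⁻¹ := by group
        _ = t0 * (x * z⁻¹ * x⁻¹) * t0⁻¹ := by rw [h1]
        _ = t0 * z⁻¹ * t0⁻¹ := by
            rw [(Commute.inv_right hxz).eq]; group
        _ = z := by
            have h2 := ht0z' (-1)
            rwa [neg_neg, zpow_one, zpow_neg_one] at h2
      calc (t0 * x * t0⁻¹) * z = ((t0 * x * t0⁻¹) * z * (t0 * x * t0⁻¹)⁻¹) * (t0 * x * t0⁻¹) := by
            group
      _ = _ := by rw [h5]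
    · refine ⟨-i, ?_⟩
      have h6 : x * z ^ k * x⁻¹ = z ^ k := by
        rw [(Commute.zpow_right hxz k).eq]; group
      calc (t0 * x * t0⁻¹) * v * (t0 * x * t0⁻¹)⁻¹
          = t0 * (x * (t0⁻¹ * v * t0) * x⁻¹) * t0⁻¹ := by group
      _ = t0 * ((x * v * x⁻¹) * (x * z ^ k * x⁻¹)) * t0⁻¹ := by rw [h3]; group
      _ = t0 * ((v * z ^ i) * z ^ k) * t0⁻¹ := by rw [hi, h6]
      _ = (t0 * v * t0⁻¹) * (t0 * z ^ i * t0⁻¹) * (t0 * z ^ k * t0⁻¹) := by group
      _ = v * z ^ k * z ^ (-i) * z ^ (-k) := by rw [ht0v, ht0z', ht0z']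
      _ = v * z ^ (-i) := by group
  have hPc : Nat.card P = p ^ (Nat.card G).factorization p := P.card_eq_multiplicity
  have hBc : Nat.card B = p ^ (Nat.card G).factorization p := by
    rw [← hPc]; exact Subgroup.card_map_of_injective (MulAut.conj t0).injective
  have hYn : ¬ p ^ ((Nat.card G).factorization p + 1) ∣ Nat.card Y := by
    intro h
    have h1 := h.trans (Subgroup.card_subgroup_dvd_card Y)
    exact Nat.pow_succ_factorization_not_dvd Nat.card_pos.ne' hp.out h1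
  obtain ⟨y, hyY, hy⟩ := exists_conj_of_card hBY hPY hBc hPc hYn
  obtain ⟨hyz, i, hyv⟩ := (hY y).1 hyY
  have hyz' : ∀ m : ℤ, y * z ^ m * y⁻¹ = z ^ m := by
    intro m
    rw [(Commute.zpow_right hyz m).eq]; group
  set t1 := y * t0 with ht1
  have ht1z : ∀ m : ℤ, t1 * z ^ m * t1⁻¹ = z ^ (-m) := by
    intro m
    calc t1 * z ^ m * t1⁻¹ = y * (t0 * z ^ m * t0⁻¹) * y⁻¹ := by rw [ht1]; group
    _ = z ^ (-m) := by rw [ht0z', hyz']
  have ht1v : t1 * v * t1⁻¹ = v * z ^ (i + k) := by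
    calc t1 * v * t1⁻¹ = y * (t0 * v * t0⁻¹) * y⁻¹ := by rw [ht1]; group
    _ = (y * v * y⁻¹) * (y * z ^ k * y⁻¹) := by rw [ht0v]; group
    _ = v * z ^ (i + k) := by rw [hyv, hyz', mul_assoc, ← zpow_add]
  have ht1P : ∀ x ∈ P, t1 * x * t1⁻¹ ∈ P := by
    intro x hx
    have h1 := hy (t0 * x * t0⁻¹) ⟨x, hx, rfl⟩
    have h2 : y * (t0 * x * t0⁻¹) * y⁻¹ = t1 * x * t1⁻¹ := by rw [ht1]; group
    rwa [h2] at h1
  -- t1 ^ 2 commutes with z and v
  have hcz : Commute (t1 ^ 2) z := by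
    have h1 : t1 ^ 2 * z * (t1 ^ 2)⁻¹ = z := by
      have h2 := ht1z 1
      have h3 := ht1z (-1)
      rw [zpow_one] at h2
      rw [neg_neg, zpow_one] at h3
      calc t1 ^ 2 * z * (t1 ^ 2)⁻¹ = t1 * (t1 * z * t1⁻¹) * t1⁻¹ := by rw [pow_two]; group
      _ = z := by rw [h2, h3]
    calc t1 ^ 2 * z = (t1 ^ 2 * z * (t1 ^ 2)⁻¹) * t1 ^ 2 := by group
    _ = _ := by rw [h1]
  have hcv : Commute (t1 ^ 2) v := by
    have h1 : t1 ^ 2 * v * (t1 ^ 2)⁻¹ = v := by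
      calc t1 ^ 2 * v * (t1 ^ 2)⁻¹ = t1 * (t1 * v * t1⁻¹) * t1⁻¹ := by rw [pow_two]; group
      _ = t1 * (v * z ^ (i + k)) * t1⁻¹ := by rw [ht1v]
      _ = (t1 * v * t1⁻¹) * (t1 * z ^ (i + k) * t1⁻¹) := by group
      _ = v := by rw [ht1v, ht1z]; group
    calc t1 ^ 2 * v = (t1 ^ 2 * v * (t1 ^ 2)⁻¹) * t1 ^ 2 := by group
    _ = _ := by rw [h1]
  -- the power
  set N := orderOf t1 with hN
  have hN0 : N ≠ 0 := (orderOf_pos t1).ne'
  set q := p ^ (N.factorization p) with hq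
  have hqodd : ∃ r, q = 2 * r + 1 := by
    have : Odd q := (hp.out.odd_of_ne_two H.hp2).pow
    exact this
  obtain ⟨r, hr⟩ := hqodd
  have hNq : q * (N / q) = N := Nat.ordProj_mul_ordCompl_eq_self N p
  have hpm : ¬ p ∣ N / q := Nat.not_dvd_ordCompl hp.out hN0
  have hconj : ∀ w : G, Commute (t1 ^ 2) w → ∀ w' : G, Commute (t1 ^ 2) w' →
      t1 * w * t1⁻¹ = w' → t1 ^ q * w * (t1 ^ q)⁻¹ = w' := by
    intro w hw w' hw' h
    have h1 : t1 ^ q = (t1 ^ 2) ^ r * t1 := by rw [hr, pow_succ, pow_mul]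
    rw [h1]
    calc (t1 ^ 2) ^ r * t1 * w * ((t1 ^ 2) ^ r * t1)⁻¹
        = (t1 ^ 2) ^ r * (t1 * w * t1⁻¹) * ((t1 ^ 2) ^ r)⁻¹ := by group
    _ = w' := by rw [h, (hw'.pow_left r).eq]; group
  refine ⟨t1 ^ q, ?_, ?_, ⟨i + k, ?_⟩, ?_⟩
  · by_contra hne
    have h1 : t1 ^ q * t1 ^ q = (t1 ^ 2) ^ q := by
      rw [← pow_add, ← pow_mul]; congr 1; ring
    rw [h1] at hne
    have h2 : ¬ p ∣ orderOf ((t1 ^ 2) ^ q) := by
      intro h
      apply hpm
      refine h.trans ?_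
      rw [orderOf_dvd_iff_pow_eq_one, ← pow_mul, ← pow_mul]
      have : 2 * (q * (N / q)) = N * 2 := by rw [hNq, mul_comm]
      rw [this, pow_mul, hN, pow_orderOf_eq_one, one_pow]
    have hcyc := H.ha _ hne h2 ((P : Subgroup G) ⊓ Subgroup.centralizer ({(t1 ^ 2) ^ q} : Set G))
      (P.isPGroup'.to_le inf_le_left)
      (fun x hx => Subgroup.mem_centralizer_singleton_iff.1 hx.2)
    have h3 : v ∈ (P : Subgroup G) ⊓ Subgroup.centralizer ({(t1 ^ 2) ^ q} : Set G) :=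
      ⟨hv.mem, Subgroup.mem_centralizer_singleton_iff.2 (hcv.pow_left q).eq.symm⟩
    have h4 : z ∈ (P : Subgroup G) ⊓ Subgroup.centralizer ({(t1 ^ 2) ^ q} : Set G) :=
      ⟨hzP, Subgroup.mem_centralizer_singleton_iff.2 (hcz.pow_left q).eq.symm⟩
    exact hv.nmem (mem_zpowers_of_cyclic hcyc h3 h4 hvp hzp hz1)
  · apply hconj z hcz _ hcz.inv_right
    have := ht1z 1
    rwa [zpow_one, zpow_neg_one] at this
  · exact hconj v hcv _ (hcv.mul_right (hcz.zpow_right _)) ht1v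
  · have : ∀ n : ℕ, ∀ x ∈ P, t1 ^ n * x * (t1 ^ n)⁻¹ ∈ P := by
      intro n
      induction n with
      | zero => intro x hx; simpa using hx
      | succ n ih =>
        intro x hx
        have h1 := ht1P _ (ih x hx)
        have h2 : t1 * (t1 ^ n * x * (t1 ^ n)⁻¹) * t1⁻¹ = t1 ^ (n + 1) * x * (t1 ^ (n + 1))⁻¹ := by
          rw [pow_succ' t1 n]; group
        rwa [h2] at h1
    exact this q

/-- the full data: an involution `t` normalizing `P`, inverting `z`, centralizing `v` -/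
structure Ctx (P : Sylow p G) (u v t : G) : Prop where
  huP : u ∈ P
  hu : orderOf u = p ^ 2
  hv : V P (u ^ p) v
  tt : t * t = 1
  tz : t * (u ^ p) * t⁻¹ = (u ^ p)⁻¹
  tv : t * v = v * t
  tP : ∀ x ∈ P, t * x * t⁻¹ ∈ P

theorem Hyp.exists_ctx (H : Hyp p G) (P : Sylow p G) {u : G} (huP : u ∈ P)
    (hu : orderOf u = p ^ 2) : ∃ v t, Ctx P u v t := by
  obtain ⟨v, hv⟩ := H.exists_V P huP hu
  obtain ⟨hc1, hc2⟩ := H.center P huP hu
  obtain ⟨t, htt, htz, ⟨k, htv⟩, htP⟩ := H.step3 P huP hu hv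
  have hzp : (u ^ p) ^ p = 1 := pow_p_p hu
  have hzP : u ^ p ∈ P := Subgroup.pow_mem _ huP p
  obtain ⟨h, hh⟩ : ∃ h, p = 2 * h + 1 := hp.out.odd_of_ne_two H.hp2
  have htz' : ∀ m : ℤ, t * (u ^ p) ^ m * t⁻¹ = (u ^ p) ^ (-m) := by
    intro m
    rw [← conj_zpow, htz, inv_zpow, zpow_neg]
  refine ⟨v * (u ^ p) ^ (k * (h + 1)), t, huP, hu, ⟨?_, ?_, ?_⟩, htt, htz, ?_, htP⟩
  · exact P.mul_mem hv.mem (Subgroup.zpow_mem _ hzP _)
  · intro h1
    apply hv.nmem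
    have := Subgroup.mul_mem _ h1
      (Subgroup.zpow_mem _ (Subgroup.mem_zpowers (u ^ p)) (-(k * (h + 1))))
    rwa [mul_assoc, ← zpow_add, add_neg_cancel, zpow_zero, mul_one] at this
  · intro x hx
    have h1 : Commute x ((u ^ p) ^ (k * (h + 1))) := Commute.zpow_right (hc1 x hx) _
    have h2 := hv.com x hx
    have h3 : x * (v * (u ^ p) ^ (k * (h + 1))) * x⁻¹ * (v * (u ^ p) ^ (k * (h + 1)))⁻¹
        = x * v * ((u ^ p) ^ (k * (h + 1)) * x⁻¹) * ((u ^ p) ^ (k * (h + 1)))⁻¹ * v⁻¹ := by group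
    rw [h3, ← (h1.inv_left).eq]
    have h4 : x * v * (x⁻¹ * (u ^ p) ^ (k * (h + 1))) * ((u ^ p) ^ (k * (h + 1)))⁻¹ * v⁻¹
        = x * v * x⁻¹ * v⁻¹ := by group
    rw [h4]; exact h2
  · have h1 : t * (v * (u ^ p) ^ (k * (h + 1))) * t⁻¹ = v * (u ^ p) ^ (k * (h + 1)) := by
      calc t * (v * (u ^ p) ^ (k * (h + 1))) * t⁻¹
          = (t * v * t⁻¹) * (t * (u ^ p) ^ (k * (h + 1)) * t⁻¹) := by group
      _ = v * ((u ^ p) ^ k * (u ^ p) ^ (-(k * (h + 1)))) := by rw [htv, htz', mul_assoc]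
      _ = v * ((u ^ p) ^ (k * (h + 1)) * ((u ^ p) ^ (p : ℤ)) ^ (-k)) := by
          rw [← zpow_mul, ← zpow_add, ← zpow_add]
          congr 2
          have : (p : ℤ) = 2 * h + 1 := by exact_mod_cast hh
          rw [this]; ring
      _ = _ := by rw [zpow_natCast, hzp, one_zpow, mul_one]
    calc t * (v * (u ^ p) ^ (k * (h + 1)))
        = (t * (v * (u ^ p) ^ (k * (h + 1))) * t⁻¹) * t := by group
    _ = _ := by rw [h1]

omit [Finite G] in
theorem eq_one_of_sq (hp2 : p ≠ 2) {w : G} (h1 : w * w = 1) (h2 : w ^ p = 1) : w = 1 := by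
  have h3 : orderOf w ∣ 2 := by rw [orderOf_dvd_iff_pow_eq_one, pow_two]; exact h1
  have h4 : orderOf w ∣ p := orderOf_dvd_of_pow_eq_one h2
  have h5 : Nat.Coprime 2 p := (Nat.coprime_primes Nat.prime_two hp.out).2 (Ne.symm hp2)
  have h6 : orderOf w ∣ 1 := by
    have := Nat.dvd_gcd h3 h4
    rwa [Nat.Coprime.gcd_eq_one h5] at this
  exact orderOf_eq_one_iff.1 (Nat.dvd_one.1 h6)

theorem pow_succ_dvd {A B : Subgroup G} (hB : IsPGroup p B) (hAB : A ≤ B) {x : G} (hx : x ∈ B)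
    (hxA : x ∉ A) {a : ℕ} (hA : p ^ a ∣ Nat.card A) : p ^ (a + 1) ∣ Nat.card B := by
  obtain ⟨i, hi⟩ := IsPGroup.iff_card.1 (hB.to_le hAB)
  obtain ⟨j, hj⟩ := IsPGroup.iff_card.1 hB
  have h1 : a ≤ i := by
    rw [hi] at hA; exact (Nat.pow_dvd_pow_iff_le_right hp.out.one_lt).1 hA
  have h2 : i ≤ j := by
    have := Subgroup.card_dvd_of_le hAB
    rw [hi, hj] at this
    exact (Nat.pow_dvd_pow_iff_le_right hp.out.one_lt).1 this
  have h3 : i ≠ j := by
    rintro rfl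
    apply hxA
    have : A = B := Subgroup.eq_of_le_of_card_ge hAB (by rw [hi, hj])
    rw [this]; exact hx
  rw [hj]
  exact pow_dvd_pow p (by omega)

theorem Ctx.fix (H : Hyp p G) {P : Sylow p G} {u v t : G} (C : Ctx P u v t) :
    ∀ x ∈ P, t * x = x * t → x ∈ Subgroup.zpowers v := by
  obtain ⟨hvp, hvi, hvc, hve⟩ := H.facts P C.huP C.hu C.hv
  have hv1 : v ≠ 1 := by
    intro h
    apply C.hv.nmem
    rw [h]; exact Subgroup.one_mem _
  have ht1 : t ≠ 1 := by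
    intro h
    have h1 := C.tz
    rw [h] at h1
    simp only [one_mul, inv_one, mul_one] at h1
    apply pow_p_ne C.hu
    apply eq_one_of_sq (p := p) H.hp2 _ (pow_p_p C.hu)
    nth_rewrite 1 [h1]
    group
  have hto : ¬ p ∣ orderOf t := by
    intro h
    have h3 : orderOf t ∣ 2 := by rw [orderOf_dvd_iff_pow_eq_one, pow_two]; exact C.tt
    have h4 := (Nat.dvd_prime Nat.prime_two).1 (h.trans h3)
    rcases h4 with h4 | h4
    · exact hp.out.one_lt.ne' h4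
    · exact H.hp2 h4
  have hcyc := H.ha t ht1 hto ((P : Subgroup G) ⊓ Subgroup.centralizer ({t} : Set G))
      (P.isPGroup'.to_le inf_le_left)
      (fun x hx => Subgroup.mem_centralizer_singleton_iff.1 hx.2)
  intro x hx hxt
  have hxm : x ∈ (P : Subgroup G) ⊓ Subgroup.centralizer ({t} : Set G) :=
    ⟨hx, Subgroup.mem_centralizer_singleton_iff.2 hxt.symm⟩
  have hvm : v ∈ (P : Subgroup G) ⊓ Subgroup.centralizer ({t} : Set G) :=
    ⟨C.hv.mem, Subgroup.mem_centralizer_singleton_iff.2 C.tv.symm⟩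
  have hcomm : x * v = v * x := by
    obtain ⟨g, hg⟩ := hcyc.exists_generator
    obtain ⟨a, ha⟩ := Subgroup.mem_zpowers_iff.1 (hg ⟨x, hxm⟩)
    obtain ⟨b, hb⟩ := Subgroup.mem_zpowers_iff.1 (hg ⟨v, hvm⟩)
    have h1 : x = (g : G) ^ a := by simpa using (congrArg Subtype.val ha).symm
    have h2 : v = (g : G) ^ b := by simpa using (congrArg Subtype.val hb).symm
    rw [h1, h2, ← zpow_add, ← zpow_add, add_comm]
  exact mem_zpowers_of_cyclic hcyc hxm hvm (hve x hx hcomm) hvp hv1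

/-- the subgroup `E` -/
def subE (v z : G) (h : Commute v z) : Subgroup G where
  carrier := {x | ∃ i j : ℤ, x = v ^ i * z ^ j}
  mul_mem' := by
    rintro x y ⟨i, j, rfl⟩ ⟨k, l, rfl⟩
    refine ⟨i + k, j + l, ?_⟩
    have h1 : Commute (z ^ j) (v ^ k) := (h.symm.zpow_left j).zpow_right k
    calc v ^ i * z ^ j * (v ^ k * z ^ l) = v ^ i * (z ^ j * v ^ k) * z ^ l := by group
    _ = v ^ i * (v ^ k * z ^ j) * z ^ l := by rw [h1.eq]
    _ = _ := by group
  one_mem' := ⟨0, 0, by simp⟩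
  inv_mem' := by
    rintro x ⟨i, j, rfl⟩
    refine ⟨-i, -j, ?_⟩
    have h1 : Commute (z ^ (-j)) (v ^ (-i)) := (h.symm.zpow_left _).zpow_right _
    rw [mul_inv_rev, ← zpow_neg, ← zpow_neg, h1.eq]

theorem card_subE {v z : G} (h : Commute v z) (hv : v ^ p = 1) (hz : z ^ p = 1)
    (hz1 : z ≠ 1) (hvz : v ∉ Subgroup.zpowers z) : Nat.card (subE v z h) = p ^ 2 := by
  have hpg : IsPGroup p (subE v z h) := by
    rintro ⟨x, i, j, rfl⟩
    refine ⟨1, ?_⟩
    apply Subtype.ext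
    change (v ^ i * z ^ j) ^ (p ^ 1) = 1
    rw [pow_one]
    have h1 : Commute (v ^ i) (z ^ j) := (h.zpow_left i).zpow_right j
    rw [h1.mul_pow, ← zpow_natCast, ← zpow_natCast, ← zpow_mul, ← zpow_mul, mul_comm i,
      mul_comm j, zpow_mul, zpow_mul, zpow_natCast, zpow_natCast, hv, hz, one_zpow, one_zpow,
      one_mul]
  have hv1 : v ≠ 1 := by
    intro h'
    apply hvz
    rw [h']; exact Subgroup.one_mem _
  apply le_antisymm
  · let f : Subgroup.zpowers v × Subgroup.zpowers z → subE v z h := fun x =>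
      ⟨x.1 * x.2, by
        obtain ⟨i, hi⟩ := Subgroup.mem_zpowers_iff.1 x.1.2
        obtain ⟨j, hj⟩ := Subgroup.mem_zpowers_iff.1 x.2.2
        exact ⟨i, j, by rw [hi, hj]⟩⟩
    have hf : Function.Surjective f := by
      rintro ⟨x, i, j, rfl⟩
      exact ⟨(⟨v ^ i, Subgroup.zpow_mem _ (Subgroup.mem_zpowers v) i⟩,
        ⟨z ^ j, Subgroup.zpow_mem _ (Subgroup.mem_zpowers z) j⟩), rfl⟩
    have h1 := Nat.card_le_card_of_surjective f hf
    rw [Nat.card_prod, Nat.card_zpowers, Nat.card_zpowers, orderOf_eq_prime hv hv1,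
      orderOf_eq_prime hz hz1] at h1
    rw [pow_two]; exact h1
  · apply Nat.le_of_dvd Nat.card_pos
    refine pow_succ_dvd (A := Subgroup.zpowers z) hpg ?_ (x := v) ⟨1, 0, by simp⟩ hvz (a := 1) ?_
    · rw [Subgroup.zpowers_le]; exact ⟨0, 1, by simp⟩
    · rw [Nat.card_zpowers, orderOf_eq_prime hz hz1, pow_one]

theorem Ctx.zconj {P : Sylow p G} {u v t : G} (C : Ctx P u v t) (m : ℤ) :
    t * (u ^ p) ^ m * t⁻¹ = (u ^ p) ^ (-m) := by
  rw [← conj_zpow, C.tz, inv_zpow, zpow_neg]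

/-- commutators of `P` lie in `E` -/
theorem Ctx.comm_mem (H : Hyp p G) {P : Sylow p G} {u v t : G} (C : Ctx P u v t)
    (hvz : Commute v (u ^ p)) : ∀ x ∈ P, ∀ y ∈ P, x * y * x⁻¹ * y⁻¹ ∈ subE v (u ^ p) hvz := by
  obtain ⟨hc1, hc2⟩ := H.center P C.huP C.hu
  obtain ⟨hvp, hvi, hvc, hve⟩ := H.facts P C.huP C.hu C.hv
  have hzp : (u ^ p) ^ p = 1 := pow_p_p C.hu
  have hzP : u ^ p ∈ P := Subgroup.pow_mem _ C.huP p
  obtain ⟨h, hh⟩ : ∃ h, p = 2 * h + 1 := hp.out.odd_of_ne_two H.hp2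
  set z := u ^ p with hz
  have hEmem : ∀ x, x ∈ subE v z hvz ↔ ∃ i j : ℤ, x = v ^ i * z ^ j := fun x => Iff.rfl
  let E : Subgroup P := (subE v z hvz).subgroupOf P
  have hE : ∀ x : P, x ∈ E ↔ (x : G) ∈ subE v z hvz := fun x => Iff.rfl
  have hEn : E.Normal := by
    constructor
    rintro n hn g
    rw [hE, hEmem] at hn ⊢
    obtain ⟨i, j, hij⟩ := hn
    obtain ⟨a, ha⟩ := Subgroup.mem_zpowers_iff.1 (C.hv.com g g.2)
    have h1 : (g : G) * v * (g : G)⁻¹ = v * z ^ a := by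
      rw [(hvz.zpow_right a).eq, ha]; group
    have h2 : (g : G) * z ^ j * (g : G)⁻¹ = z ^ j := by
      rw [(Commute.zpow_right (hc1 g g.2) j).eq]; group
    refine ⟨i, a * i + j, ?_⟩
    calc ((g * n * g⁻¹ : P) : G) = (g : G) * n * (g : G)⁻¹ := by push_cast; rfl
    _ = ((g : G) * v ^ i * (g : G)⁻¹) * ((g : G) * z ^ j * (g : G)⁻¹) := by rw [hij]; group
    _ = (v * z ^ a) ^ i * z ^ j := by rw [← conj_zpow, h1, h2]
    _ = v ^ i * z ^ (a * i + j) := by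
        rw [(hvz.zpow_right a).mul_zpow, ← zpow_mul, mul_assoc, ← zpow_add]
  let φ : P →* P :=
    { toFun := fun x => ⟨t * x * t⁻¹, C.tP x x.2⟩
      map_one' := by ext; simp
      map_mul' := by
        intro x y
        ext
        simp only [Subgroup.coe_mul]
        group }
  have hφ : ∀ x, ((φ x : P) : G) = t * x * t⁻¹ := fun x => rfl
  have htinv : t⁻¹ = t := by
    rw [inv_eq_iff_mul_eq_one]; exact C.tt
  have hinvol : ∀ x, φ (φ x) = x := by
    intro x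
    ext
    rw [hφ, hφ]
    calc t * (t * (x : G) * t⁻¹) * t⁻¹ = (t * t) * x * (t * t)⁻¹ := by group
    _ = x := by rw [C.tt]; simp
  have htv : ∀ i : ℤ, t * v ^ i * t⁻¹ = v ^ i := by
    intro i
    rw [(Commute.zpow_right C.tv i).eq]; group
  have htE : ∀ i j : ℤ, t * (v ^ i * z ^ j) * t⁻¹ = v ^ i * z ^ (-j) := by
    intro i j
    calc t * (v ^ i * z ^ j) * t⁻¹ = (t * v ^ i * t⁻¹) * (t * z ^ j * t⁻¹) := by group
    _ = _ := by rw [htv, C.zconj]
  intro x hx y hy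
  refine commutator_mem_of_involution E φ hinvol ?_ ?_ ⟨x, hx⟩ ⟨y, hy⟩
  · intro n hn
    rw [hE, hEmem] at hn ⊢
    obtain ⟨i, j, hij⟩ := hn
    exact ⟨i, -j, by rw [hφ, hij, htE]⟩
  · intro w hw
    rw [hE, hEmem] at hw
    obtain ⟨a, b, hab⟩ := hw
    rw [Subgroup.coe_mul, Subgroup.coe_inv, hφ] at hab
    have h1 : t * (w : G) * t⁻¹ = w * (v ^ a * z ^ b) := by rw [← hab]; group
    have h2 : (w : G) = w * (v ^ a * z ^ b) * (v ^ a * z ^ (-b)) := by
      have h3 := congrArg Subtype.val (hinvol w)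
      rw [hφ, hφ, h1] at h3
      calc (w : G) = t * (w * (v ^ a * z ^ b)) * t⁻¹ := h3.symm
      _ = (t * w * t⁻¹) * (t * (v ^ a * z ^ b) * t⁻¹) := by group
      _ = _ := by rw [h1, htE]
    have h3 : v ^ a * v ^ a = 1 := by
      have h4 : Commute (z ^ b) (v ^ a) := (hvz.symm.zpow_left b).zpow_right a
      have h5 : (v ^ a * z ^ b) * (v ^ a * z ^ (-b)) = 1 := by
        have h6 : (w : G) * 1 = w * ((v ^ a * z ^ b) * (v ^ a * z ^ (-b))) := by
          rw [mul_one, ← mul_assoc (w : G)]; exact h2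
        exact (mul_left_cancel h6).symm
      calc v ^ a * v ^ a = v ^ a * (v ^ a * z ^ b) * z ^ (-b) := by group
      _ = v ^ a * (z ^ b * v ^ a) * z ^ (-b) := by rw [h4.eq]
      _ = (v ^ a * z ^ b) * (v ^ a * z ^ (-b)) := by group
      _ = 1 := h5
    have h4 : v ^ a = 1 := by
      apply eq_one_of_sq H.hp2 h3
      rw [← zpow_natCast, ← zpow_mul, mul_comm, zpow_mul, zpow_natCast, hvp, one_zpow]
    rw [h4, one_mul] at h1
    have h5 : t * ((w : G) * z ^ (b * (h + 1))) * t⁻¹ = w * z ^ (b * (h + 1)) := by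
      calc t * ((w : G) * z ^ (b * (h + 1))) * t⁻¹
          = (t * w * t⁻¹) * (t * z ^ (b * (h + 1)) * t⁻¹) := by group
      _ = w * (z ^ b * z ^ (-(b * (h + 1)))) := by rw [h1, C.zconj, mul_assoc]
      _ = w * (z ^ (b * (h + 1)) * (z ^ (p : ℤ)) ^ (-b)) := by
          rw [← zpow_mul, ← zpow_add, ← zpow_add]
          congr 2
          have : (p : ℤ) = 2 * h + 1 := by exact_mod_cast hh
          rw [this]; ring
      _ = _ := by rw [zpow_natCast, hzp, one_zpow, mul_one]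
    have h6 := C.fix H _ (P.mul_mem w.2 (Subgroup.zpow_mem _ hzP (b * (h + 1)))) (by
      calc t * ((w : G) * z ^ (b * (h + 1))) = (t * ((w : G) * z ^ (b * (h + 1))) * t⁻¹) * t := by
            group
      _ = _ := by rw [h5])
    obtain ⟨i, hi⟩ := Subgroup.mem_zpowers_iff.1 h6
    rw [hE, hEmem]
    refine ⟨i, -(b * (h + 1)), ?_⟩
    rw [hi]; group

/-- `P` has order `p ^ 4` -/
theorem Ctx.card_eq (H : Hyp p G) {P : Sylow p G} {u v t : G} (C : Ctx P u v t) :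
    Nat.card P = p ^ 4 := by
  classical
  obtain ⟨hc1, hc2⟩ := H.center P C.huP C.hu
  obtain ⟨hvp, hvi, hvc, hve⟩ := H.facts P C.huP C.hu C.hv
  have hvz : Commute v (u ^ p) := hc1 v C.hv.mem
  have hcm := C.comm_mem H hvz
  have hEc : Nat.card (subE v (u ^ p) hvz) = p ^ 2 :=
    card_subE hvz hvp (pow_p_p C.hu) (pow_p_ne C.hu) C.hv.nmem
  let f : P → subE v (u ^ p) hvz := fun x => ⟨(x : G) * u * (x : G)⁻¹ * u⁻¹, hcm x x.2 u C.huP⟩
  let rep : subE v (u ^ p) hvz → P := fun e => if h : ∃ x, f x = e then h.choose else 1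
  have hrep : ∀ x, f (rep (f x)) = f x := by
    intro x
    have h : ∃ y, f y = f x := ⟨x, rfl⟩
    have : rep (f x) = h.choose := dif_pos h
    rw [this]; exact h.choose_spec
  have hmem : ∀ x, ((rep (f x) : P) : G)⁻¹ * x ∈ Subgroup.zpowers u := by
    intro x
    have h1 := congrArg Subtype.val (hrep x)
    have h2 : ((rep (f x) : P) : G) * u * ((rep (f x) : P) : G)⁻¹ = (x : G) * u * (x : G)⁻¹ :=
      mul_right_cancel h1
    apply cent_of_sq P.isPGroup' C.huP C.hu (H.h1 u C.hu)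
      (P.mul_mem (P.inv_mem (rep (f x)).2) x.2)
    calc ((rep (f x) : P) : G)⁻¹ * x * u
        = ((rep (f x) : P) : G)⁻¹ * ((x : G) * u * (x : G)⁻¹) * x := by group
    _ = ((rep (f x) : P) : G)⁻¹ * (((rep (f x) : P) : G) * u * ((rep (f x) : P) : G)⁻¹) * x := by
        rw [h2]
    _ = _ := by group
  let F : P → subE v (u ^ p) hvz × Subgroup.zpowers u := fun x => (f x, ⟨_, hmem x⟩)
  have hF : Function.Injective F := by
    intro x y hxy
    have h1 : f x = f y := congrArg Prod.fst hxy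
    have h2 : ((rep (f x) : P) : G)⁻¹ * x = ((rep (f y) : P) : G)⁻¹ * y :=
      congrArg Subtype.val (congrArg Prod.snd hxy)
    rw [h1] at h2
    exact Subtype.ext (mul_left_cancel h2)
  have h1 : Nat.card (P : Subgroup G) ≤ _ := Nat.card_le_card_of_injective F hF
  rw [Nat.card_prod, hEc, Nat.card_zpowers, C.hu] at h1
  obtain ⟨n, hn⟩ := IsPGroup.iff_card.1 P.isPGroup'
  have h2 := H.card_sylow P
  rw [hn] at h1 h2 ⊢
  have h3 : 4 ≤ n := (Nat.pow_dvd_pow_iff_le_right hp.out.one_lt).1 h2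
  have h4 : n ≤ 4 := by
    rw [← pow_add] at h1
    exact (Nat.pow_le_pow_iff_right hp.out.one_lt).1 h1
  rw [le_antisymm h4 h3]

/-- the subgroup `W` -/
def subW (M : Subgroup G) (v : G) : Subgroup G where
  carrier := {x | x * v = v * x ∧ ∀ m ∈ M, ∃ i : ℤ, x * m * x⁻¹ = m * v ^ i}
  mul_mem' := by
    rintro x y ⟨hx, hx'⟩ ⟨hy, hy'⟩
    refine ⟨(Commute.mul_left hx hy).eq, fun m hm => ?_⟩
    obtain ⟨i, hi⟩ := hx' m hm
    obtain ⟨j, hj⟩ := hy' m hm
    refine ⟨i + j, ?_⟩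
    have h1 : x * v ^ j * x⁻¹ = v ^ j := by
      rw [(Commute.zpow_right hx j).eq]; group
    calc x * y * m * (x * y)⁻¹ = x * (y * m * y⁻¹) * x⁻¹ := by group
    _ = x * (m * v ^ j) * x⁻¹ := by rw [hj]
    _ = (x * m * x⁻¹) * (x * v ^ j * x⁻¹) := by group
    _ = m * v ^ (i + j) := by rw [hi, h1, zpow_add]; group
  one_mem' := ⟨by simp, fun m _ => ⟨0, by simp⟩⟩
  inv_mem' := by
    rintro x ⟨hx, hx'⟩
    refine ⟨(Commute.inv_left hx).eq, fun m hm => ?_⟩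
    obtain ⟨i, hi⟩ := hx' m hm
    refine ⟨-i, ?_⟩
    have h1 : x⁻¹ * v ^ i * x = v ^ i := by
      rw [mul_assoc, ← (Commute.zpow_right hx i).eq]; group
    have h2 : x⁻¹ * (x * m * x⁻¹) * x = x⁻¹ * (m * v ^ i) * x := by rw [hi]
    have h3 : m = (x⁻¹ * m * x) * (x⁻¹ * v ^ i * x) := by
      calc m = x⁻¹ * (x * m * x⁻¹) * x := by group
      _ = x⁻¹ * (m * v ^ i) * x := h2
      _ = _ := by group
    rw [h1] at h3
    rw [inv_inv]
    have h4 : (x⁻¹ * m * x) * v ^ i * v ^ (-i) = x⁻¹ * m * x := by group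
    rw [← h4, ← h3]

/-- the subgroup of an abelian group `M` inverted by `t` -/
def subN (M : Subgroup G) (t : G) (hM : ∀ a ∈ M, ∀ b ∈ M, a * b = b * a) : Subgroup G where
  carrier := {x | x ∈ M ∧ t * x * t⁻¹ = x⁻¹}
  mul_mem' := by
    rintro x y ⟨hx, hx'⟩ ⟨hy, hy'⟩
    refine ⟨M.mul_mem hx hy, ?_⟩
    calc t * (x * y) * t⁻¹ = (t * x * t⁻¹) * (t * y * t⁻¹) := by group
    _ = x⁻¹ * y⁻¹ := by rw [hx', hy']
    _ = (y * x)⁻¹ := by rw [mul_inv_rev]
    _ = (x * y)⁻¹ := by rw [hM x hx y hy]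
  one_mem' := ⟨M.one_mem, by simp⟩
  inv_mem' := by
    rintro x ⟨hx, hx'⟩
    refine ⟨M.inv_mem hx, ?_⟩
    rw [← conj_inv, hx']

theorem Ctx.false (H : Hyp p G) {P : Sylow p G} {u v t : G} (C : Ctx P u v t) : False := by
  classical
  have hsq : ∃ u : G, orderOf u = p ^ 2 := ⟨u, C.hu⟩
  obtain ⟨hc1, hc2⟩ := H.center P C.huP C.hu
  obtain ⟨hvp, hvi, hvc, hve⟩ := H.facts P C.huP C.hu C.hv
  have hvz : Commute v (u ^ p) := hc1 v C.hv.mem
  have hzp : (u ^ p) ^ p = 1 := pow_p_p C.hu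
  have hz1 : u ^ p ≠ 1 := pow_p_ne C.hu
  have hzP : u ^ p ∈ P := Subgroup.pow_mem _ C.huP p
  have hEc : Nat.card (subE v (u ^ p) hvz) = p ^ 2 :=
    card_subE hvz hvp hzp hz1 C.hv.nmem
  have hPc := C.card_eq H
  have hv1 : v ≠ 1 := by
    intro h
    apply C.hv.nmem
    rw [h]; exact Subgroup.one_mem _
  have hfac : (Nat.card G).factorization p = 4 := by
    have h1 : Nat.card P = p ^ (Nat.card G).factorization p := P.card_eq_multiplicity
    rw [hPc] at h1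
    exact (Nat.pow_right_injective hp.out.two_le h1).symm
  have hSc : ∀ S : Sylow p G, Nat.card S = p ^ 4 := by
    intro S
    rw [← hfac]; exact S.card_eq_multiplicity
  have hG5 : ¬ p ^ 5 ∣ Nat.card G := by
    intro h
    have := (hp.out.pow_dvd_iff_le_factorization Nat.card_pos.ne').1 h
    omega
  -- M
  set M : Subgroup G := (P : Subgroup G) ⊓ Subgroup.centralizer ({v} : Set G) with hM
  have hMmem : ∀ x, x ∈ M ↔ x ∈ P ∧ x * v = v * x := by
    intro x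
    rw [hM, Subgroup.mem_inf, Subgroup.mem_centralizer_singleton_iff]
    rfl
  have hMP : M ≤ P := inf_le_left
  have hMpg : IsPGroup p M := P.isPGroup'.to_le hMP
  have huM : u ∉ M := by
    intro h
    exact hz1 (hve u C.huP ((hMmem u).1 h).2)
  have hMc : Nat.card M = p ^ 3 := by
    obtain ⟨j, hj⟩ := IsPGroup.iff_card.1 hMpg
    have h1 : 3 ≤ j := by
      rw [hj] at hvc
      exact (Nat.pow_dvd_pow_iff_le_right hp.out.one_lt).1 hvc
    have h2 := pow_succ_dvd P.isPGroup' hMP C.huP huM (a := j) (by rw [hj])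
    rw [hPc] at h2
    have h3 := (Nat.pow_dvd_pow_iff_le_right hp.out.one_lt).1 h2
    have : j = 3 := by omega
    rw [hj, this]
  have hMexp : ∀ m ∈ M, m ^ p = 1 := fun m hm => hve m ((hMmem m).1 hm).1 ((hMmem m).1 hm).2
  have hvM : v ∈ M := (hMmem v).2 ⟨C.hv.mem, rfl⟩
  have hzM : u ^ p ∈ M := (hMmem _).2 ⟨hzP, (hc1 v C.hv.mem).symm⟩
  -- M is abelian
  have hEM : subE v (u ^ p) hvz ≤ M := by
    rintro x ⟨i, j, rfl⟩
    exact M.mul_mem (M.zpow_mem hvM i) (M.zpow_mem hzM j)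
  have hEcen : ∀ x ∈ subE v (u ^ p) hvz, ∀ m ∈ M, m * x = x * m := by
    rintro x ⟨i, j, rfl⟩ m hm
    have h1 : Commute m v := ((hMmem m).1 hm).2
    have h2 : Commute m (u ^ p) := hc1 m ((hMmem m).1 hm).1
    exact ((h1.zpow_right i).mul_right (h2.zpow_right j)).eq
  have hMab : ∀ a ∈ M, ∀ b ∈ M, a * b = b * a := by
    intro a ha b hb
    by_cases haE : a ∈ subE v (u ^ p) hvz
    · exact (hEcen a haE b hb).symm
    · have h1 : subE v (u ^ p) hvz ≤ M ⊓ Subgroup.centralizer ({a} : Set G) := by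
        intro x hx
        exact ⟨hEM hx, Subgroup.mem_centralizer_singleton_iff.2 (hEcen x hx a ha).symm⟩
      have h2 : p ^ 3 ∣ Nat.card (M ⊓ Subgroup.centralizer ({a} : Set G) : Subgroup G) :=
        pow_succ_dvd (hMpg.to_le inf_le_left) h1 (x := a)
          ⟨ha, Subgroup.mem_centralizer_singleton_iff.2 rfl⟩ haE (a := 2) (by rw [hEc])
      have h3 : M ⊓ Subgroup.centralizer ({a} : Set G) = M := by
        apply Subgroup.eq_of_le_of_card_ge inf_le_left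
        rw [hMc]
        exact Nat.le_of_dvd Nat.card_pos h2
      have h4 : b ∈ M ⊓ Subgroup.centralizer ({a} : Set G) := by rw [h3]; exact hb
      exact (Subgroup.mem_centralizer_singleton_iff.1 h4.2).symm
  -- t acts on M
  have htM : ∀ m ∈ M, t * m * t⁻¹ ∈ M := by
    intro m hm
    obtain ⟨h1, h2⟩ := (hMmem m).1 hm
    refine (hMmem _).2 ⟨C.tP m h1, ?_⟩
    have h3 : Commute t v := C.tv
    have h4 : Commute m v := h2
    exact ((h3.mul_left h4).mul_left h3.inv_left).eq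
  have htm : ∀ m ∈ M, ∃ i : ℤ, t * m * t⁻¹ = m⁻¹ * v ^ i := by
    intro m hm
    have h1 : m * (t * m * t⁻¹) ∈ M := M.mul_mem hm (htM m hm)
    have h2 : t * (m * (t * m * t⁻¹)) * t⁻¹ = m * (t * m * t⁻¹) := by
      calc t * (m * (t * m * t⁻¹)) * t⁻¹ = (t * m * t⁻¹) * ((t * t) * m * (t * t)⁻¹) := by group
      _ = (t * m * t⁻¹) * m := by rw [C.tt]; simp
      _ = _ := hMab _ (htM m hm) m hm
    have h3 := C.fix H _ (hMP h1) (by
      calc t * (m * (t * m * t⁻¹)) = (t * (m * (t * m * t⁻¹)) * t⁻¹) * t := by group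
      _ = _ := by rw [h2])
    obtain ⟨i, hi⟩ := Subgroup.mem_zpowers_iff.1 h3
    exact ⟨i, by rw [hi]; group⟩
  -- the centralizer of M
  have hCM : ∀ x : G, (∀ m ∈ M, x * m = m * x) → x ∈ M := by
    intro x hx
    by_contra hxM
    let D : Subgroup G := Subgroup.centralizer (M : Set G)
    have hD : ∀ y, y ∈ D ↔ ∀ m ∈ M, m * y = y * m := fun y => by
      rw [Subgroup.mem_centralizer_iff]; rfl
    have hDpg : IsPGroup p D := by
      rintro ⟨y, hy⟩
      set N := orderOf y with hN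
      have hN0 : N ≠ 0 := (orderOf_pos y).ne'
      refine ⟨N.factorization p, ?_⟩
      apply Subtype.ext
      change y ^ p ^ (N.factorization p) = 1
      by_contra hne
      have h2 : ¬ p ∣ orderOf (y ^ p ^ (N.factorization p)) := by
        intro h
        refine Nat.not_dvd_ordCompl hp.out hN0 (h.trans ?_)
        rw [orderOf_dvd_iff_pow_eq_one, ← pow_mul, Nat.ordProj_mul_ordCompl_eq_self, hN,
          pow_orderOf_eq_one]
      have hcyc := H.ha _ hne h2 M hMpg (fun m hm =>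
        (Commute.pow_right ((hD y).1 hy m hm) _).eq)
      exact C.hv.nmem (mem_zpowers_of_cyclic hcyc hvM hzM hvp hzp hz1)
    have hMD : M ≤ D := fun m hm => (hD m).2 (fun m' hm' => hMab m' hm' m hm)
    have hxD : x ∈ D := (hD x).2 (fun m hm => (hx m hm).symm)
    have h4 : p ^ 4 ∣ Nat.card D := pow_succ_dvd hDpg hMD hxD hxM (a := 3) (by rw [hMc])
    obtain ⟨S, hS⟩ := hDpg.exists_le_sylow
    have hDS : D = S := by
      apply Subgroup.eq_of_le_of_card_ge hS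
      rw [hSc S]; exact Nat.le_of_dvd Nat.card_pos h4
    have hcen : ∀ m ∈ M, ∀ y ∈ S, y * m = m * y := by
      intro m hm y hy
      have hy' : y ∈ D := by rw [hDS]; exact hy
      exact ((hD y).1 hy' m hm).symm
    exact C.hv.nmem (H.central_two hsq S (hS (hMD hvM)) (hS (hMD hzM))
      (hcen v hvM) (hcen _ hzM) hz1)
  -- W
  let W := subW M v
  have hW : ∀ x, x ∈ W ↔ x * v = v * x ∧ ∀ m ∈ M, ∃ i : ℤ, x * m * x⁻¹ = m * v ^ i :=
    fun x => Iff.rfl
  have hMW : M ≤ W := by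
    intro x hx
    refine (hW x).2 ⟨hMab x hx v hvM, fun m hm => ⟨0, ?_⟩⟩
    rw [hMab x hx m hm]; group
  have hWp : ∀ x ∈ W, x ^ p ∈ M := by
    intro x hx
    obtain ⟨hxv, hxm⟩ := (hW x).1 hx
    apply hCM
    intro m hm
    obtain ⟨i, hi⟩ := hxm m hm
    have h1 : ∀ k : ℕ, x ^ k * m * (x ^ k)⁻¹ = m * v ^ (i * k) := by
      intro k
      induction k with
      | zero => simp
      | succ k ih =>
        have h2 : x * v ^ (i * k) * x⁻¹ = v ^ (i * k) := by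
          rw [(Commute.zpow_right hxv _).eq]; group
        calc x ^ (k + 1) * m * (x ^ (k + 1))⁻¹ = x * (x ^ k * m * (x ^ k)⁻¹) * x⁻¹ := by
              rw [pow_succ' x k]; group
        _ = x * (m * v ^ (i * k)) * x⁻¹ := by rw [ih]
        _ = (x * m * x⁻¹) * (x * v ^ (i * k) * x⁻¹) := by group
        _ = m * v ^ (i * ((k + 1 : ℕ) : ℤ)) := by
            rw [hi, h2, mul_assoc, ← zpow_add]; congr 2; push_cast; ring
    have h2 := h1 p
    rw [mul_comm i, zpow_mul, zpow_natCast, hvp, one_zpow, mul_one] at h2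
    calc x ^ p * m = (x ^ p * m * (x ^ p)⁻¹) * x ^ p := by group
    _ = _ := by rw [h2]
  have hWpg : IsPGroup p W := by
    rintro ⟨x, hx⟩
    refine ⟨2, ?_⟩
    apply Subtype.ext
    change x ^ p ^ 2 = 1
    rw [pow_two, pow_mul]
    exact hMexp _ (hWp x hx)
  have hWM : W ≤ M := by
    intro c hc
    by_contra hcM
    have h1 : p ^ 4 ∣ Nat.card W := pow_succ_dvd hWpg hMW hc hcM (a := 3) (by rw [hMc])
    obtain ⟨S, hS⟩ := hWpg.exists_le_sylow
    have hWS : W = S := by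
      apply Subgroup.eq_of_le_of_card_ge hS
      rw [hSc S]; exact Nat.le_of_dvd Nat.card_pos h1
    have h2 : p ^ 2 ∣ Nat.card (M ⊓ Subgroup.centralizer ({c} : Set G) : Subgroup G) := by
      refine cent_card hvp (fun x hx => hMab x hx v hvM) ?_ (by rw [hMc])
      intro x hx
      obtain ⟨i, hi⟩ := ((hW c).1 hc).2 x hx
      rw [Subgroup.mem_zpowers_iff]
      refine ⟨-i, ?_⟩
      have h3 : x * c * x⁻¹ * c⁻¹ = (c * x * c⁻¹ * x⁻¹)⁻¹ := by group
      have h4 : Commute x (v ^ i) := Commute.zpow_right (hMab x hx v hvM) i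
      rw [h3, hi, h4.eq, zpow_neg]; group
    have h3 : ∀ w ∈ M ⊓ Subgroup.centralizer ({c} : Set G), ∀ y ∈ S, y * w = w * y := by
      intro w hw y hy
      have hwM : w ∈ M := hw.1
      have hwc : w * c = c * w := Subgroup.mem_centralizer_singleton_iff.1 hw.2
      have h4 : p ^ 4 ∣ Nat.card ((S : Subgroup G) ⊓ Subgroup.centralizer ({w} : Set G) :
          Subgroup G) := by
        refine pow_succ_dvd (S.isPGroup'.to_le inf_le_left) (A := M) ?_ (x := c) ?_ hcM (a := 3)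
          (by rw [hMc])
        · intro m hm
          exact ⟨hS (hMW hm), Subgroup.mem_centralizer_singleton_iff.2 (hMab m hm w hwM)⟩
        · exact ⟨hS hc, Subgroup.mem_centralizer_singleton_iff.2 hwc.symm⟩
      have h5 : (S : Subgroup G) ⊓ Subgroup.centralizer ({w} : Set G) = S := by
        apply Subgroup.eq_of_le_of_card_ge inf_le_left
        rw [hSc S]; exact Nat.le_of_dvd Nat.card_pos h4
      have h6 : y ∈ (S : Subgroup G) ⊓ Subgroup.centralizer ({w} : Set G) := by rw [h5]; exact hy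
      exact Subgroup.mem_centralizer_singleton_iff.1 h6.2
    -- pick a nontrivial element b; everything lies in zpowers b
    have h4 : 1 < Nat.card (M ⊓ Subgroup.centralizer ({c} : Set G) : Subgroup G) :=
      lt_of_lt_of_le (Nat.one_lt_pow (by norm_num) hp.out.one_lt) (Nat.le_of_dvd Nat.card_pos h2)
    have := Finite.one_lt_card_iff_nontrivial.1 h4
    obtain ⟨⟨b, hb⟩, hb1⟩ := exists_ne (1 : (M ⊓ Subgroup.centralizer ({c} : Set G) : Subgroup G))
    have hb1' : b ≠ 1 := by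
      intro h; apply hb1; apply Subtype.ext; exact h
    have h5 : M ⊓ Subgroup.centralizer ({c} : Set G) ≤ Subgroup.zpowers b := by
      intro a ha
      exact H.central_two hsq S (hS (hMW ha.1)) (hS (hMW hb.1)) (h3 a ha) (h3 b hb) hb1'
    have h6 := h2.trans (Subgroup.card_dvd_of_le h5)
    rw [Nat.card_zpowers, orderOf_eq_prime (hMexp b hb.1) hb1', pow_two] at h6
    have h7 := Nat.le_of_dvd hp.out.pos h6
    have := hp.out.one_lt
    nlinarith
  -- S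
  have hMcv : M ≤ Subgroup.centralizer ({v} : Set G) := inf_le_right
  obtain ⟨S, hMS, hScv⟩ := exists_sylow_between hMcv hMpg hvi
  have hSv : ∀ y ∈ S, y * v = v * y := fun y hy =>
    Subgroup.mem_centralizer_singleton_iff.1 (hScv hy)
  have hSM : ∀ s ∈ S, ∀ m ∈ M, s * m * s⁻¹ ∈ M := by
    have h1 : (M.subgroupOf S).Normal := by
      apply Subgroup.normal_of_index_eq_minFac_card
      rw [hSc S, Nat.Prime.pow_minFac hp.out (by norm_num)]
      have h2 := (M.subgroupOf (S : Subgroup G)).card_mul_index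
      rw [Nat.card_congr (Subgroup.subgroupOfEquivOfLe hMS).toEquiv, hMc, hSc S, pow_succ p 3] at h2
      exact Nat.eq_of_mul_eq_mul_left (pow_pos hp.out.pos 3) h2
    intro s hs m hm
    have h2 := h1.conj_mem ⟨m, hMS hm⟩ (by rw [Subgroup.mem_subgroupOf]; exact hm) ⟨s, hs⟩
    rw [Subgroup.mem_subgroupOf] at h2
    simpa using h2
  have htsW : ∀ s ∈ S, t * s * t⁻¹ * s⁻¹ ∈ M := by
    intro s hs
    apply hWM
    rw [hW]
    have htv : Commute t v := C.tv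
    have hsv : Commute s v := hSv s hs
    refine ⟨(((htv.mul_left hsv).mul_left htv.inv_left).mul_left hsv.inv_left).eq, ?_⟩
    intro m hm
    have hm1 : s⁻¹ * m * s ∈ M := by
      have := hSM s⁻¹ (S.inv_mem hs) m hm
      rwa [inv_inv] at this
    have htinv : t⁻¹ = t := inv_eq_iff_mul_eq_one.2 C.tt
    obtain ⟨i, hi⟩ := htm _ hm1
    have h1 : t⁻¹ * (s⁻¹ * m * s) * t = (s⁻¹ * m * s)⁻¹ * v ^ i := by
      rw [← hi]; rw [htinv]
    obtain ⟨j, hj⟩ := htm (m⁻¹) (M.inv_mem hm)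
    have h2 : s * v ^ i * s⁻¹ = v ^ i := by
      rw [(hsv.zpow_right i).eq]; group
    have h3 : t * v ^ i * t⁻¹ = v ^ i := by
      rw [(htv.zpow_right i).eq]; group
    refine ⟨j + i, ?_⟩
    calc t * s * t⁻¹ * s⁻¹ * m * (t * s * t⁻¹ * s⁻¹)⁻¹
        = t * (s * (t⁻¹ * (s⁻¹ * m * s) * t) * s⁻¹) * t⁻¹ := by group
    _ = t * (s * ((s⁻¹ * m * s)⁻¹ * v ^ i) * s⁻¹) * t⁻¹ := by rw [h1]
    _ = t * (m⁻¹ * (s * v ^ i * s⁻¹)) * t⁻¹ := by group
    _ = (t * m⁻¹ * t⁻¹) * (t * v ^ i * t⁻¹) := by rw [h2]; group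
    _ = m * v ^ (j + i) := by rw [hj, h3, inv_inv, mul_assoc, ← zpow_add]
  -- s0
  obtain ⟨s, hsS, hsM⟩ : ∃ s ∈ S, s ∉ M := by
    by_contra hcon
    push Not at hcon
    have h1 := Nat.le_of_dvd Nat.card_pos (Subgroup.card_dvd_of_le (H := (S : Subgroup G)) hcon)
    rw [hSc S, hMc] at h1
    exact absurd h1 (not_le.2 (Nat.pow_lt_pow_right hp.out.one_lt (by norm_num)))
  let X : Type _ := {x : G // s⁻¹ * x ∈ M}
  have hXc : Nat.card X = p ^ 3 := by
    rw [← hMc]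
    refine Nat.card_congr ⟨fun x => ⟨s⁻¹ * x.1, x.2⟩, fun m => ⟨s * m.1, ?_⟩, ?_, ?_⟩
    · have : s⁻¹ * (s * (m : G)) = m := by group
      rw [this]; exact m.2
    · intro x; apply Subtype.ext; change s * (s⁻¹ * x.1) = x.1; group
    · intro x; apply Subtype.ext; change s⁻¹ * (s * x.1) = x.1; group
  have hXt : ∀ x : X, s⁻¹ * (t * x.1 * t⁻¹) ∈ M := by
    intro x
    have h1 := htsW s hsS
    have h2 := htM _ x.2
    have h3 := hSM s⁻¹ (S.inv_mem hsS) _ h1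
    have h4 : s⁻¹ * (t * x.1 * t⁻¹) = (s⁻¹ * (t * s * t⁻¹ * s⁻¹) * s⁻¹⁻¹) * (t * (s⁻¹ * x.1) * t⁻¹) := by
      group
    rw [h4]; exact M.mul_mem h3 h2
  obtain ⟨⟨s0, hs0⟩, hfix⟩ := exists_fixed_of_odd (X := X) (fun x => ⟨t * x.1 * t⁻¹, hXt x⟩) (by
    intro x
    apply Subtype.ext
    change t * (t * x.1 * t⁻¹) * t⁻¹ = x.1
    calc t * (t * x.1 * t⁻¹) * t⁻¹ = (t * t) * x.1 * (t * t)⁻¹ := by group
    _ = x.1 := by rw [C.tt]; simp) (by
    rw [hXc]
    intro h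
    have h1 := Nat.prime_two.dvd_of_dvd_pow h
    exact H.hp2 ((Nat.prime_dvd_prime_iff_eq Nat.prime_two hp.out).1 h1).symm)
  have hts0 : t * s0 * t⁻¹ = s0 := congrArg Subtype.val hfix
  have hs0S : s0 ∈ S := by
    have := S.mul_mem hsS (hMS hs0)
    rwa [mul_inv_cancel_left] at this
  have hs0M : s0 ∉ M := by
    intro h
    apply hsM
    have := M.mul_mem h (M.inv_mem hs0)
    have h2 : s0 * (s⁻¹ * s0)⁻¹ = s := by group
    rwa [h2] at this
  -- N
  let Nm := subN M t hMab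
  have hNm : ∀ x, x ∈ Nm ↔ x ∈ M ∧ t * x * t⁻¹ = x⁻¹ := fun x => Iff.rfl
  have hzN : u ^ p ∈ Nm := ⟨hzM, C.tz⟩
  have hNc : p ∣ Nat.card Nm := by
    have h1 := orderOf_dvd_natCard (⟨u ^ p, hzN⟩ : Nm)
    have h2 : orderOf (⟨u ^ p, hzN⟩ : Nm) = p := by
      apply orderOf_eq_prime
      · apply Subtype.ext; exact hzp
      · intro h; exact hz1 (congrArg Subtype.val h)
    rwa [h2] at h1
  have hsN : ∀ g ∈ Subgroup.zpowers s0, ∀ x ∈ Nm, g * x * g⁻¹ ∈ Nm := by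
    intro g hg x hx
    have hgS : g ∈ S := (Subgroup.zpowers_le.2 hs0S) hg
    have hts : Commute t s0 := by
      change t * s0 = s0 * t
      calc t * s0 = (t * s0 * t⁻¹) * t := by group
      _ = s0 * t := by rw [hts0]
    have htg : Commute t g := by
      obtain ⟨i, rfl⟩ := Subgroup.mem_zpowers_iff.1 hg
      exact hts.zpow_right i
    refine ⟨hSM g hgS x hx.1, ?_⟩
    calc t * (g * x * g⁻¹) * t⁻¹ = (t * g) * x * (t * g)⁻¹ := by group
    _ = (g * t) * x * (g * t)⁻¹ := by rw [htg.eq]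
    _ = g * (t * x * t⁻¹) * g⁻¹ := by group
    _ = (g * x * g⁻¹)⁻¹ := by rw [hx.2]; group
  let act : MulAction (Subgroup.zpowers s0) Nm :=
    { smul := fun g x => ⟨(g : G) * x * (g : G)⁻¹, hsN g g.2 x x.2⟩
      one_smul := by
        intro x
        apply Subtype.ext
        change ((1 : Subgroup.zpowers s0) : G) * x * ((1 : Subgroup.zpowers s0) : G)⁻¹ = x
        simp
      mul_smul := by
        intro g h x
        apply Subtype.ext
        change ((g * h : Subgroup.zpowers s0) : G) * x * ((g * h : Subgroup.zpowers s0) : G)⁻¹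
          = (g : G) * ((h : G) * x * (h : G)⁻¹) * (g : G)⁻¹
        push_cast
        group }
  have hzpg : IsPGroup p (Subgroup.zpowers s0) := S.isPGroup'.to_le (Subgroup.zpowers_le.2 hs0S)
  have h1fix : (1 : Nm) ∈ @MulAction.fixedPoints (Subgroup.zpowers s0) Nm _ act := by
    intro g
    apply Subtype.ext
    change (g : G) * ((1 : Nm) : G) * (g : G)⁻¹ = ((1 : Nm) : G)
    simp
  obtain ⟨⟨w, hwN⟩, hwfix, hw1⟩ :=
    @IsPGroup.exists_fixed_point_of_prime_dvd_card_of_fixed_point p (Subgroup.zpowers s0) _ hzpg _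
      Nm act _ hNc 1 h1fix
  have hw1' : w ≠ 1 := by
    intro h; apply hw1; apply Subtype.ext; exact h.symm
  have hws : s0 * w = w * s0 := by
    have h1 := congrArg Subtype.val (hwfix ⟨s0, Subgroup.mem_zpowers s0⟩)
    have h2 : s0 * w * s0⁻¹ = w := h1
    calc s0 * w = (s0 * w * s0⁻¹) * s0 := by group
    _ = _ := by rw [h2]
  have hwcen : ∀ y ∈ S, y * w = w * y := by
    intro y hy
    have h4 : p ^ 4 ∣ Nat.card ((S : Subgroup G) ⊓ Subgroup.centralizer ({w} : Set G) :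
        Subgroup G) := by
      refine pow_succ_dvd (S.isPGroup'.to_le inf_le_left) (A := M) ?_ (x := s0) ?_ hs0M (a := 3)
        (by rw [hMc])
      · intro m hm
        exact ⟨hMS hm, Subgroup.mem_centralizer_singleton_iff.2 (hMab m hm w hwN.1)⟩
      · exact ⟨hs0S, Subgroup.mem_centralizer_singleton_iff.2 hws⟩
    have h5 : (S : Subgroup G) ⊓ Subgroup.centralizer ({w} : Set G) = S := by
      apply Subgroup.eq_of_le_of_card_ge inf_le_left
      rw [hSc S]; exact Nat.le_of_dvd Nat.card_pos h4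
    have h6 : y ∈ (S : Subgroup G) ⊓ Subgroup.centralizer ({w} : Set G) := by rw [h5]; exact hy
    exact Subgroup.mem_centralizer_singleton_iff.1 h6.2
  have hwv := H.central_two hsq S (hMS hwN.1) (hMS hvM) hwcen hSv hv1
  obtain ⟨i, hi⟩ := Subgroup.mem_zpowers_iff.1 hwv
  have h1 : t * w * t⁻¹ = w := by
    rw [← hi, (Commute.zpow_right C.tv i).eq]; group
  have h2 : w = w⁻¹ := by rw [← hwN.2, h1]
  apply hw1'
  apply eq_one_of_sq H.hp2 _ (hMexp w hwN.1)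
  nth_rewrite 1 [h2]
  group

theorem Hyp.false (H : Hyp p G) (hu : ∃ u : G, orderOf u = p ^ 2) : False := by
  obtain ⟨P⟩ : Nonempty (Sylow p G) := inferInstance
  obtain ⟨u, huP, hu⟩ := H.exists_sq hu P
  obtain ⟨v, t, C⟩ := H.exists_ctx P huP hu
  exact C.false H

end Pool.Agent.H44.IC.Odd

namespace Pool.Agent.H44.IC

theorem odd_case (p : ℕ) [hp : Fact p.Prime] (hp2 : p ≠ 2) (G : Type*) [Group G] [Finite G]
    (ha : ∀ x : G, x ≠ 1 → ¬ p ∣ orderOf x → ∀ K : Subgroup G, IsPGroup p K →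
      (∀ k ∈ K, k * x = x * k) → IsCyclic K)
    (hexp : ∀ c : G, PEl p c → c ^ (p ^ 2) = 1)
    (h1 : ∀ u : G, orderOf u = p ^ 2 → ¬ p ^ 3 ∣ Nat.card (Subgroup.centralizer ({u} : Set G)))
    (hinv : ∀ u : G, orderOf u = p ^ 2 → IsConj u u⁻¹)
    (h4 : ∀ w : G, orderOf w = p → p ^ 3 ∣ Nat.card (Subgroup.centralizer ({w} : Set G)) →
      ¬ p ∣ (Subgroup.centralizer ({w} : Set G)).index)
    (hu : ∃ u : G, orderOf u = p ^ 2)
    (hn : p ^ 4 ∣ Nat.card G) : False :=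
  Odd.Hyp.false ⟨hp2, ha, hexp, h1, hinv, h4, hn⟩ hu

end Pool.Agent.H44.IC
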