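import Mathlib

/-! Module ODD3: groups of order `p ^ 3` with an element of order `p ^ 2` generating its own
centralizer. -/

namespace Pool.Agent.H44.IC

open scoped commutatorElement

section
variable {P : Type*} [Group P]

theorem pow_mul_comm_central {x y c : P} (hc : c = y * x * y⁻¹ * x⁻¹)
    (hcen : ∀ g : P, c * g = g * c) (n : ℕ) : y ^ n * x = c ^ n * x * y ^ n := by
  have h1 : y * x = c * x * y := by rw [hc]; group
  induction n with
  | zero => simp
  | succ n ih =>
    have h2 : ∀ g : P, Commute (c ^ n) g := fun g => Commute.pow_left (hcen g) n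
    calc y ^ (n + 1) * x = y * (y ^ n * x) := by rw [pow_succ' y n]; group
    _ = y * (c ^ n * x * y ^ n) := by rw [ih]
    _ = c ^ n * (y * x) * y ^ n := by
        have := (h2 y).eq
        calc y * (c ^ n * x * y ^ n) = (y * c ^ n) * (x * y ^ n) := by group
        _ = (c ^ n * y) * (x * y ^ n) := by rw [this]
        _ = _ := by group
    _ = c ^ n * (c * x * y) * y ^ n := by rw [h1]
    _ = c ^ (n + 1) * x * y ^ (n + 1) := by rw [pow_succ c n, pow_succ' y n]; group

theorem mul_pow_central {x y c : P} (hc : c = y * x * y⁻¹ * x⁻¹)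
    (hcen : ∀ g : P, c * g = g * c) (n : ℕ) : (x * y) ^ n = x ^ n * y ^ n * c ^ (n.choose 2) := by
  induction n with
  | zero => simp
  | succ n ih =>
    have h2 : ∀ (m : ℕ) (g : P), Commute (c ^ m) g := fun m g => Commute.pow_left (hcen g) m
    have h3 : (n + 1).choose 2 = n + n.choose 2 := by
      rw [Nat.choose_succ_succ' n 1]; simp
    calc (x * y) ^ (n + 1) = (x * y) ^ n * (x * y) := pow_succ _ _
    _ = x ^ n * y ^ n * c ^ (n.choose 2) * (x * y) := by rw [ih]
    _ = x ^ n * y ^ n * ((x * y) * c ^ (n.choose 2)) := by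
        rw [mul_assoc (x ^ n * y ^ n), (h2 (n.choose 2) (x * y)).eq]
    _ = x ^ n * (y ^ n * x) * y * c ^ (n.choose 2) := by group
    _ = x ^ n * (c ^ n * x * y ^ n) * y * c ^ (n.choose 2) := by
        rw [pow_mul_comm_central hc hcen n]
    _ = x ^ n * (x * y ^ n * c ^ n) * y * c ^ (n.choose 2) := by
        rw [mul_assoc (c ^ n) x, (h2 n (x * y ^ n)).eq]
    _ = x ^ (n + 1) * y ^ n * (c ^ n * y) * c ^ (n.choose 2) := by
        rw [pow_succ x n]; group
    _ = x ^ (n + 1) * y ^ n * (y * c ^ n) * c ^ (n.choose 2) := by rw [(h2 n y).eq]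
    _ = x ^ (n + 1) * y ^ (n + 1) * c ^ ((n + 1).choose 2) := by
        rw [h3, pow_add, pow_succ y n]; group

end

theorem odd_three (p : ℕ) [hp : Fact p.Prime] (hp2 : p ≠ 2) (P : Type*) [Group P] [Finite P]
    (hcard : Nat.card P = p ^ 3) (u : P) (hu : orderOf u = p ^ 2)
    (hc : ∀ x : P, x * u = u * x → x ∈ Subgroup.zpowers u) :
    ∃ v : P, v ^ p = 1 ∧ v ∉ commutator P ∧ ∀ φ : P ≃* P, φ v * v⁻¹ ∈ commutator P := by
  classical
  have hpp := hp.out
  have hPG : IsPGroup p P := IsPGroup.of_card hcard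
  have hnt : Nontrivial P := by
    rw [← Finite.one_lt_card_iff_nontrivial, hcard]
    exact Nat.one_lt_pow (by norm_num) hpp.one_lt
  have hnotcomm : ¬ ∀ x y : P, x * y = y * x := by
    intro h
    have : (Subgroup.zpowers u) = ⊤ := by
      rw [eq_top_iff]; intro x _; exact hc x (h x u)
    have h1 : Nat.card (Subgroup.zpowers u) = p ^ 3 := by
      rw [this, Subgroup.card_top, hcard]
    rw [Nat.card_zpowers, hu] at h1
    exact absurd (Nat.pow_right_injective hpp.two_le h1) (by norm_num)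
  -- the centre
  have hZle : Subgroup.center P ≤ Subgroup.zpowers u := by
    intro x hx
    exact hc x ((Subgroup.mem_center_iff.1 hx u).symm)
  have hZcard : Nat.card (Subgroup.center P) = p := by
    have h1 : Nat.card (Subgroup.center P) ∣ p ^ 2 := by
      rw [← hu, ← Nat.card_zpowers]
      exact Subgroup.card_dvd_of_le hZle
    obtain ⟨k, hk2, hk⟩ := (Nat.dvd_prime_pow hpp).1 h1
    have hk0 : k ≠ 0 := by
      rintro rfl
      have := hPG.center_nontrivial
      rw [← Finite.one_lt_card_iff_nontrivial, hk] at this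
      simp at this
    have hk2' : k ≠ 2 := by
      rintro rfl
      have h2 : Subgroup.center P = Subgroup.zpowers u := by
        apply Subgroup.eq_of_le_of_card_ge hZle
        rw [hk, Nat.card_zpowers, hu]
      have h3 : u ∈ Subgroup.center P := by rw [h2]; exact Subgroup.mem_zpowers u
      apply hnotcomm
      intro x y
      have hx : x ∈ Subgroup.center P := by
        rw [h2]; exact hc x (Subgroup.mem_center_iff.1 h3 x)
      exact (Subgroup.mem_center_iff.1 hx y).symm
    have : k = 1 := by omega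
    rw [hk, this, pow_one]
  have hQcard : Nat.card (P ⧸ Subgroup.center P) = p ^ 2 := by
    have := Subgroup.card_eq_card_quotient_mul_card_subgroup (Subgroup.center P)
    rw [hcard, hZcard, pow_succ p 2] at this
    exact (Nat.eq_of_mul_eq_mul_right hpp.pos this).symm
  have hQcomm : ∀ a b : P ⧸ Subgroup.center P, a * b = b * a :=
    IsPGroup.commutative_of_card_eq_prime_sq hQcard
  have hcomle : commutator P ≤ Subgroup.center P := by
    rw [commutator_def, Subgroup.commutator_le]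
    intro x _ y _
    rw [← QuotientGroup.eq_one_iff, commutatorElement_def, QuotientGroup.mk_mul,
      QuotientGroup.mk_mul, QuotientGroup.mk_mul, QuotientGroup.mk_inv, QuotientGroup.mk_inv,
      hQcomm (x : P ⧸ Subgroup.center P) y]
    simp
  have hcomne : commutator P ≠ ⊥ := by
    intro h
    apply hnotcomm
    intro x y
    have h1 : ⁅x, y⁆ ∈ commutator P := by
      rw [commutator_def]
      exact Subgroup.commutator_mem_commutator (Subgroup.mem_top x) (Subgroup.mem_top y)
    rw [h, Subgroup.mem_bot, commutatorElement_eq_one_iff_mul_comm] at h1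
    exact h1
  have hcomeq : commutator P = Subgroup.center P := by
    apply Subgroup.eq_of_le_of_card_ge hcomle
    have h1 : Nat.card (commutator P) ∣ p := by
      rw [← hZcard]; exact Subgroup.card_dvd_of_le hcomle
    rcases (Nat.dvd_prime hpp).1 h1 with h | h
    · exact absurd ((commutator P).eq_bot_of_card_eq h) hcomne
    · rw [h, hZcard]
  have hcen : ∀ x y : P, x * y * x⁻¹ * y⁻¹ ∈ Subgroup.center P := by
    intro x y
    apply hcomle
    rw [commutator_def]
    exact Subgroup.commutator_mem_commutator (Subgroup.mem_top x) (Subgroup.mem_top y)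
  have hZpow : ∀ c ∈ Subgroup.center P, c ^ p = 1 := by
    intro c hc'
    have : (⟨c, hc'⟩ : Subgroup.center P) ^ p = 1 := by
      rw [← hZcard]; exact pow_card_eq_one'
    have := congrArg (Subtype.val) this
    simpa using this
  have hmulpow : ∀ x y : P, (x * y) ^ p = x ^ p * y ^ p := by
    intro x y
    have h1 := mul_pow_central (x := x) (y := y) (c := y * x * y⁻¹ * x⁻¹) rfl
      (fun g => (Subgroup.mem_center_iff.1 (hcen y x) g).symm) p
    rw [h1]
    have h2 : p ∣ p.choose 2 := by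
      apply hpp.dvd_choose_self (by norm_num)
      exact lt_of_le_of_ne hpp.two_le (Ne.symm hp2)
    obtain ⟨m, hm⟩ := h2
    rw [hm, pow_mul, hZpow _ (hcen y x), one_pow, mul_one]
  have hpowZ : ∀ x : P, x ^ p ∈ Subgroup.center P := by
    intro x
    by_contra hx
    apply hnotcomm
    have hord : orderOf (x : P ⧸ Subgroup.center P) = p ^ 2 := by
      have h1 : orderOf (x : P ⧸ Subgroup.center P) ∣ p ^ 2 := by
        rw [← hQcard]; exact orderOf_dvd_natCard _
      obtain ⟨k, hk2, hk⟩ := (Nat.dvd_prime_pow hpp).1 h1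
      have : ¬ k ≤ 1 := by
        intro hk1
        apply hx
        rw [← QuotientGroup.eq_one_iff, QuotientGroup.mk_pow, ← orderOf_dvd_iff_pow_eq_one, hk]
        calc p ^ k ∣ p ^ 1 := pow_dvd_pow p hk1
        _ = p := pow_one p
      have : k = 2 := by omega
      rw [hk, this]
    have hcyc : IsCyclic (P ⧸ Subgroup.center P) := by
      apply isCyclic_of_orderOf_eq_card (x : P ⧸ Subgroup.center P)
      rw [hord, hQcard]
    intro a b
    exact commutative_of_cyclic_center_quotient (QuotientGroup.mk' (Subgroup.center P))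
      (by rw [QuotientGroup.ker_mk']) a b
  -- the power map
  let π : P →* P := { toFun := fun x => x ^ p, map_one' := one_pow p, map_mul' := hmulpow }
  have hπ : ∀ x, π x = x ^ p := fun x => rfl
  have hrange : π.range = Subgroup.center P := by
    apply Subgroup.eq_of_le_of_card_ge
    · rintro _ ⟨x, rfl⟩; exact hpowZ x
    · rw [hZcard]
      have h1 : Subgroup.zpowers (π u) ≤ π.range := by
        rw [Subgroup.zpowers_le]; exact ⟨u, rfl⟩
      have h2 : orderOf (π u) = p := by
        rw [hπ, orderOf_pow, hu, pow_two, Nat.gcd_eq_right (dvd_mul_left p p),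
          Nat.mul_div_cancel _ hpp.pos]
      have h3 := Nat.le_of_dvd Nat.card_pos (Subgroup.card_dvd_of_le h1)
      rwa [Nat.card_zpowers, h2] at h3
  have hkercard : Nat.card π.ker = p ^ 2 := by
    have h1 := π.ker.card_mul_index
    rw [Subgroup.index_ker, hrange, hZcard, hcard, pow_succ p 2] at h1
    exact Nat.eq_of_mul_eq_mul_right hpp.pos h1
  have hEcomm : ∀ a b : π.ker, a * b = b * a := IsPGroup.commutative_of_card_eq_prime_sq hkercard
  obtain ⟨v, hvE, hvZ⟩ : ∃ v ∈ π.ker, v ∉ Subgroup.center P := by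
    by_contra hcon
    push Not at hcon
    have h1 : π.ker ≤ Subgroup.center P := hcon
    have h2 := Nat.le_of_dvd Nat.card_pos (Subgroup.card_dvd_of_le h1)
    rw [hkercard, hZcard, pow_two] at h2
    have := hpp.one_lt
    nlinarith
  have hvp : v ^ p = 1 := by
    have := MonoidHom.mem_ker.1 hvE
    rwa [hπ] at this
  refine ⟨v, hvp, by rw [hcomeq]; exact hvZ, ?_⟩
  -- z ^ k = [u, v]
  have hZz : Subgroup.center P = Subgroup.zpowers (u ^ p) := by
    symm
    apply Subgroup.eq_of_le_of_card_ge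
    · rw [Subgroup.zpowers_le]; exact hpowZ u
    · rw [hZcard, Nat.card_zpowers, orderOf_pow, hu, pow_two,
        Nat.gcd_eq_right (dvd_mul_left p p), Nat.mul_div_cancel _ hpp.pos]
  obtain ⟨k, hk⟩ : ∃ k : ℤ, (u ^ p) ^ k = u * v * u⁻¹ * v⁻¹ := by
    have h1 := hcen u v
    rw [hZz] at h1
    exact Subgroup.mem_zpowers_iff.1 h1
  -- the hom f
  have hfmul : ∀ x y : P, (x * y) * v * (x * y)⁻¹ * v⁻¹ * ((x * y) ^ p) ^ (-k)
      = (x * v * x⁻¹ * v⁻¹ * (x ^ p) ^ (-k)) * (y * v * y⁻¹ * v⁻¹ * (y ^ p) ^ (-k)) := by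
    intro x y
    have c1 : ∀ g, Commute (y * v * y⁻¹ * v⁻¹) g := fun g =>
      (Subgroup.mem_center_iff.1 (hcen y v) g).symm
    have c2 : ∀ g, Commute ((x ^ p) ^ (-k)) g := fun g =>
      (Subgroup.mem_center_iff.1 (Subgroup.zpow_mem _ (hpowZ x) (-k)) g).symm
    have h1 : (x * y) * v * (x * y)⁻¹ * v⁻¹ = (x * v * x⁻¹ * v⁻¹) * (y * v * y⁻¹ * v⁻¹) := by
      calc (x * y) * v * (x * y)⁻¹ * v⁻¹ = x * (y * v * y⁻¹ * v⁻¹) * (v * x⁻¹ * v⁻¹) := by group
      _ = (y * v * y⁻¹ * v⁻¹) * x * (v * x⁻¹ * v⁻¹) := by rw [(c1 x).eq]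
      _ = (y * v * y⁻¹ * v⁻¹) * (x * v * x⁻¹ * v⁻¹) := by group
      _ = _ := (c1 _).eq
    have h2 : ((x * y) ^ p) ^ (-k) = (x ^ p) ^ (-k) * (y ^ p) ^ (-k) := by
      rw [hmulpow]
      apply Commute.mul_zpow
      exact (Subgroup.mem_center_iff.1 (hpowZ x) _).symm
    rw [h1, h2]
    calc (x * v * x⁻¹ * v⁻¹) * (y * v * y⁻¹ * v⁻¹) * ((x ^ p) ^ (-k) * (y ^ p) ^ (-k))
        = (x * v * x⁻¹ * v⁻¹) * ((y * v * y⁻¹ * v⁻¹) * (x ^ p) ^ (-k)) * (y ^ p) ^ (-k) := by
          group
    _ = (x * v * x⁻¹ * v⁻¹) * ((x ^ p) ^ (-k) * (y * v * y⁻¹ * v⁻¹)) * (y ^ p) ^ (-k) := by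
          rw [(c1 _).eq]
    _ = _ := by group
  let f : P →* P :=
    { toFun := fun x => x * v * x⁻¹ * v⁻¹ * (x ^ p) ^ (-k)
      map_one' := by simp
      map_mul' := hfmul }
  have hf : ∀ x, f x = x * v * x⁻¹ * v⁻¹ * (x ^ p) ^ (-k) := fun x => rfl
  have hEf : π.ker ≤ f.ker := by
    intro e he
    rw [MonoidHom.mem_ker, hf]
    have h1 : e ^ p = 1 := by
      have := MonoidHom.mem_ker.1 he
      rwa [hπ] at this
    have h2 : e * v = v * e := by
      have := congrArg Subtype.val (hEcomm ⟨e, he⟩ ⟨v, hvE⟩)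
      simpa using this
    rw [h1, h2]
    simp
  have huf : u ∈ f.ker := by
    rw [MonoidHom.mem_ker, hf, ← hk, ← zpow_add]
    simp
  have hufE : u ∉ π.ker := by
    intro h
    rw [MonoidHom.mem_ker, hπ, ← orderOf_dvd_iff_pow_eq_one, hu, pow_two] at h
    have h2 := Nat.le_of_dvd hpp.pos h
    have := hpp.one_lt
    nlinarith
  have hftop : f.ker = ⊤ := by
    have h1 : Nat.card f.ker ∣ p ^ 3 := by rw [← hcard]; exact Subgroup.card_subgroup_dvd_card _
    obtain ⟨j, hj3, hj⟩ := (Nat.dvd_prime_pow hpp).1 h1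
    have h2 : p ^ 2 ∣ p ^ j := by
      rw [← hj, ← hkercard]; exact Subgroup.card_dvd_of_le hEf
    have h3 : 2 ≤ j := (Nat.pow_dvd_pow_iff_le_right hpp.one_lt).1 h2
    have h4 : j ≠ 2 := by
      rintro rfl
      apply hufE
      have : π.ker = f.ker := by
        apply Subgroup.eq_of_le_of_card_ge hEf
        rw [hj, hkercard]
      rw [this]; exact huf
    have h5 : j = 3 := by omega
    apply Subgroup.eq_top_of_card_eq
    rw [hj, hcard, h5]
  have hkey : ∀ x : P, x * v * x⁻¹ * v⁻¹ = (x ^ p) ^ k := by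
    intro x
    have h1 : x ∈ f.ker := by rw [hftop]; exact Subgroup.mem_top x
    rw [MonoidHom.mem_ker, hf, zpow_neg, mul_inv_eq_one] at h1
    exact h1
  intro φ
  have h1 : ∀ y : P, y * (φ v) * y⁻¹ * (φ v)⁻¹ = y * v * y⁻¹ * v⁻¹ := by
    intro y
    obtain ⟨x, rfl⟩ := φ.surjective y
    have h2 := congrArg φ (hkey x)
    simp only [map_mul, map_inv, map_zpow, map_pow] at h2
    rw [h2, hkey (φ x)]
  rw [hcomeq, Subgroup.mem_center_iff]
  have h2 : ∀ y : P, (v⁻¹ * φ v) * y = y * (v⁻¹ * φ v) := by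
    intro y
    have h3 := h1 y⁻¹
    rw [inv_inv] at h3
    have h4 : φ v * y * (φ v)⁻¹ = v * y * v⁻¹ := by
      apply mul_left_cancel (a := y⁻¹)
      calc y⁻¹ * (φ v * y * (φ v)⁻¹) = y⁻¹ * φ v * y * (φ v)⁻¹ := by group
      _ = y⁻¹ * v * y * v⁻¹ := h3
      _ = _ := by group
    calc (v⁻¹ * φ v) * y = v⁻¹ * (φ v * y * (φ v)⁻¹) * φ v := by group
    _ = v⁻¹ * (v * y * v⁻¹) * φ v := by rw [h4]
    _ = _ := by group
  have h5 : φ v * v⁻¹ = v⁻¹ * φ v := by
    have := h2 v
    calc φ v * v⁻¹ = (v * (v⁻¹ * φ v)) * v⁻¹ := by group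
    _ = ((v⁻¹ * φ v) * v) * v⁻¹ := by rw [this]
    _ = _ := by group
  intro g
  rw [h5]
  exact (h2 g).symm

end Pool.Agent.H44.IC
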