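import Pool.Agent.H44.IC.SuffExp

/-! Sufficiency: reduction to the sum over `p`-elements. -/

open scoped ComplexConjugate
noncomputable section
namespace Pool.Agent.H44.IC

variable {G : Type*} [Group G] [Fintype G] {p : ℕ} [hp : Fact p.Prime]

theorem ip_sub_ell_mem {f g : G → ℂ} (hf : Rhat p f) (hg : Rhat p g)
    (hloc : ∀ x : G, x ≠ 1 → ¬ p ∣ orderOf x →
      ∀ K : Subgroup (Subgroup.centralizer ({x} : Set G)), IsPGroup p K → IsCyclic K) :
    ip f g - ell p (fun y => f y * conj (g y)) ∈ Op p := by
  classical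
  exact avg_sub_ell_mem (p := p) (fun y => f y * conj (g y)) (hf.mul_conj hg).1
    (fun x hx1 hx => ell_centralizer_mem hf hg x hx (hloc x hx1 hx))

/-- a subgroup isomorphic into a cyclic Sylow subgroup is cyclic -/
theorem isCyclic_of_sylow {H : Type*} [Group H] [Finite H]
    (hcyc : ∀ Q : Sylow p H, IsCyclic Q) (K : Subgroup H) (hK : IsPGroup p K) : IsCyclic K := by
  obtain ⟨Q, hQ⟩ := hK.exists_le_sylow
  have := hcyc Q
  exact isCyclic_of_injective (Subgroup.inclusion hQ) (Subgroup.inclusion_injective hQ)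

theorem isCyclic_of_sylow_one {H : Type*} [Group H] [Finite H] (P : Sylow p H)
    (hcyc : IsCyclic P) (K : Subgroup H) (hK : IsPGroup p K) : IsCyclic K := by
  apply isCyclic_of_sylow _ K hK
  intro Q
  exact isCyclic_of_injective (Sylow.equiv Q P).toMonoidHom (Sylow.equiv Q P).injective

theorem spade_of_cyclic (P : Sylow p G) (hcyc : IsCyclic P) : Spade G p := by
  classical
  intro f g hf hg
  have hloc : ∀ x : G, ∀ K : Subgroup (Subgroup.centralizer ({x} : Set G)),
      IsPGroup p K → IsCyclic K := by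
    intro x K hK
    have h1 : IsPGroup p (K.map (Subgroup.centralizer ({x} : Set G)).subtype) :=
      hK.map _
    have h2 := isCyclic_of_sylow_one P hcyc _ h1
    exact isCyclic_of_injective
      (K.equivMapOfInjective _ (Subgroup.subtype_injective _)).toMonoidHom
      (K.equivMapOfInjective _ (Subgroup.subtype_injective _)).injective
  have h1 := ip_sub_ell_mem hf.1 hg.1 (fun x _ _ => hloc x)
  have hone : ¬ p ∣ orderOf (1 : G) := by
    rw [orderOf_one]; exact hp.out.one_lt.ne' ∘ fun h => Nat.dvd_one.1 h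
  have h2 := ell_centralizer_mem hf.1 hg.1 1 hone (hloc 1)
  rw [ell_centralizer (fun y => f y * conj (g y)) 1, Psi_one] at h2
  have h3 : Nat.card (Subgroup.centralizer ({1} : Set G)) = Fintype.card G := by
    rw [← Nat.card_eq_fintype_card]
    have : Subgroup.centralizer ({1} : Set G) = ⊤ := by
      ext y
      rw [Subgroup.mem_centralizer_iff]
      simp
    rw [this, Subgroup.card_top]
  have h4 : ell p (fun y => f y * conj (g y)) ∈ Op p := by
    unfold ell
    rw [h3, div_eq_inv_mul] at h2
    exact h2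
  have := add_mem h1 h4
  simpa using this

/-- the general frame -/
theorem spade_of_ell (hloc : ∀ x : G, x ≠ 1 → ¬ p ∣ orderOf x →
      ∀ Q : Sylow p (Subgroup.centralizer ({x} : Set G)), IsCyclic Q)
    (h : ∀ f g : G → ℂ, Rhat p f → Rhat p g → ell p f ∈ Op p → ell p g ∈ Op p →
      ell p (fun y => f y * conj (g y)) ∈ Op p) : Spade G p := by
  intro f g hf hg
  have hloc' : ∀ x : G, x ≠ 1 → ¬ p ∣ orderOf x →
      ∀ K : Subgroup (Subgroup.centralizer ({x} : Set G)), IsPGroup p K → IsCyclic K :=
    fun x hx1 hx K hK => isCyclic_of_sylow (hloc x hx1 hx) K hK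
  have hell : ∀ f : G → ℂ, Sp p f → ell p f ∈ Op p := by
    intro f hf
    have h1 := ip_sub_ell_mem hf.1 Rhat.one hloc'
    have h2 := sub_mem hf.2 h1
    have e : ip f 1 - (ip f 1 - ell p (fun y => f y * conj ((1 : G → ℂ) y))) = ell p f := by
      rw [sub_sub_cancel]
      congr 1
      ext y
      simp
    rw [e] at h2
    exact h2
  have h1 := ip_sub_ell_mem hf.1 hg.1 hloc'
  have h2 := h f g hf.1 hg.1 (hell f hf) (hell g hg)
  have := add_mem h1 h2
  simpa using this

end Pool.Agent.H44.IC
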