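import Pool.Agent.H44.IC.Defs

/-!
# Module TWO: Sylow `2`-subgroups with `|P : P'| = 4` (pure group theory)
-/

open Subgroup
open scoped commutatorElement

namespace Pool.Agent.H44.IC

namespace TwoAux

/-! ### Generic counting lemmas -/

theorem index_le_card_of {P T : Type*} [Group P] [Finite T] (H : Subgroup P)
    (φ : P → T) (h : ∀ x x', φ x = φ x' → x⁻¹ * x' ∈ H) : H.index ≤ Nat.card T := by
  have hinj : Function.Injective (fun q : P ⧸ H => φ q.out) := by
    intro a b hab
    have h1 := h _ _ hab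
    rw [← QuotientGroup.eq, QuotientGroup.out_eq', QuotientGroup.out_eq'] at h1
    exact h1
  exact Nat.card_le_card_of_injective _ hinj

theorem index_commutator_le {P : Type*} [Group P] [Finite P] (x : P) :
    (commutator P).index ≤ Nat.card (centralizer ({x} : Set P)) := by
  have h1 : (centralizer ({x} : Set P)).index ≤ Nat.card (commutator P) := by
    refine index_le_card_of _
      (fun g => (⟨⁅g, x⁆, commutator_mem_commutator (mem_top _) (mem_top _)⟩ : commutator P)) ?_
    intro a b hab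
    have h2 : ⁅a, x⁆ = ⁅b, x⁆ := congrArg Subtype.val hab
    rw [mem_centralizer_singleton_iff]
    simp only [commutatorElement_def] at h2
    have h3 : a * x * a⁻¹ = b * x * b⁻¹ := mul_right_cancel h2
    calc a⁻¹ * b * x = a⁻¹ * (b * x * b⁻¹) * b := by group
      _ = a⁻¹ * (a * x * a⁻¹) * b := by rw [h3]
      _ = x * (a⁻¹ * b) := by group
  have h2 := (centralizer ({x} : Set P)).card_mul_index
  have h3 := (commutator P).card_mul_index
  by_contra hcon
  push Not at hcon
  have h4 : 0 < Nat.card (commutator P) := Nat.card_pos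
  have h5 : 0 < (centralizer ({x} : Set P)).index := Nat.pos_of_ne_zero (index_ne_zero_of_finite)
  nlinarith

theorem mem_norm {P : Type*} [Group P] [Finite P] {x y : P} (h : x * y * x⁻¹ ∈ zpowers y) :
    x ∈ normalizer (zpowers y : Set P) := by
  apply mem_normalizer_fintype
  intro n hn
  obtain ⟨k, rfl⟩ := mem_zpowers_iff.1 hn
  rw [← conj_zpow]
  exact zpow_mem h k

theorem mem_norm_iff {P : Type*} [Group P] [Finite P] {x y : P} :
    x ∈ normalizer (zpowers y : Set P) ↔ x * y * x⁻¹ ∈ zpowers y :=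
  ⟨fun h => (mem_normalizer_iff.1 h y).1 (mem_zpowers y), mem_norm⟩

theorem mem_iff_of_rel_two {P : Type*} [Group P] {D R : Subgroup P}
    (h : (D.subgroupOf R).index = 2) {a b : P} (ha : a ∈ R) (hb : b ∈ R) :
    a * b ∈ D ↔ (a ∈ D ↔ b ∈ D) := by
  have := mul_mem_iff_of_index_two h (a := ⟨a, ha⟩) (b := ⟨b, hb⟩)
  simpa [mem_subgroupOf] using this

theorem index_subgroupOf_eq_two {P : Type*} [Group P] [Finite P] {D R : Subgroup P} (hDR : D ≤ R)
    (h : Nat.card R = 2 * Nat.card D) : (D.subgroupOf R).index = 2 := by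
  have h1 := (D.subgroupOf R).card_mul_index
  have h2 : Nat.card (D.subgroupOf R) = Nat.card D :=
    Nat.card_congr (subgroupOfEquivOfLe hDR).toEquiv
  rw [h2, h] at h1
  have h3 : 0 < Nat.card D := Nat.card_pos
  nlinarith

theorem card_norm_eq {P : Type*} [Group P] [Finite P] (h2 : IsPGroup 2 P) (hnc : ¬ IsCyclic P)
    (y : P) (e : ℕ) (hy : orderOf y = 2 ^ e)
    (hE : ¬ 2 ^ (e + 2) ∣ Nat.card (normalizer (zpowers y : Set P))) :
    Nat.card (normalizer (zpowers y : Set P)) = 2 ^ (e + 1) := by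
  have hnil : Group.IsNilpotent P := h2.isNilpotent
  have hcond : NormalizerCondition P := Group.normalizerCondition_of_isNilpotent
  have hlt : zpowers y < ⊤ := by
    rw [lt_top_iff_ne_top]
    intro htop
    apply hnc
    exact ⟨y, fun x => by
      have h : x ∈ zpowers y := by rw [htop]; exact mem_top x
      exact h⟩
  have h3 := hcond _ hlt
  obtain ⟨k, hk⟩ := (IsPGroup.iff_card (p := 2) (G := normalizer (zpowers y : Set P))).1
    (h2.to_subgroup _)
  have hc : Nat.card (zpowers y) = 2 ^ e := by rw [Nat.card_zpowers, hy]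
  have h4 : Nat.card (zpowers y) < Nat.card (normalizer (zpowers y : Set P)) := by
    exact Set.Finite.card_lt_card (Set.toFinite _) h3
  rw [hk] at h4 hE ⊢
  rw [hc] at h4
  have h5 : e < k := (Nat.pow_lt_pow_iff_right (by norm_num)).1 h4
  have h6 : k < e + 2 := by
    by_contra hcon
    push Not at hcon
    exact hE (pow_dvd_pow 2 hcon)
  have : k = e + 1 := by omega
  rw [this]

theorem mod_lemma {e i j : ℕ} (he : 1 ≤ e) (hj : j % 4 = 3) (h : i * j ≡ i [MOD 2 ^ e]) :
    2 ^ (e - 1) ∣ i := by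
  have h1 : 2 ^ e ∣ i * (j - 1) := by
    have h2 := (Nat.modEq_iff_dvd' (Nat.le_mul_of_pos_right i (by omega))).1 h.symm
    have h3 : i * j - i = i * (j - 1) := by
      rw [Nat.mul_sub, mul_one]
    rwa [h3] at h2
  obtain ⟨k, hk⟩ : ∃ k, j - 1 = 2 * (2 * k + 1) := ⟨(j - 3) / 4, by omega⟩
  have h4 : (2 : ℕ) ^ e = 2 * 2 ^ (e - 1) := by
    rw [← pow_succ']; congr 1; omega
  rw [hk, h4] at h1
  have h5 : 2 ^ (e - 1) ∣ i * (2 * k + 1) := by
    have h6 : i * (2 * (2 * k + 1)) = 2 * (i * (2 * k + 1)) := by ring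
    rw [h6] at h1
    exact Nat.dvd_of_mul_dvd_mul_left (by norm_num) h1
  refine Nat.Coprime.dvd_of_dvd_mul_right ?_ h5
  apply Nat.Coprime.pow_left
  rw [Nat.coprime_two_left]
  exact ⟨k, rfl⟩

theorem mem_zpowers_iff_nat {P : Type*} [Group P] [Finite P] {x y : P} :
    x ∈ zpowers y ↔ ∃ i : ℕ, y ^ i = x := by
  rw [← mem_powers_iff_mem_zpowers, Submonoid.mem_powers_iff]

/-! ### Local lemmas in a finite `2`-group -/

section Local

variable {P : Type*} [Group P] [Finite P]

theorem local_two (h2 : IsPGroup 2 P) (e : ℕ) (he : 2 ≤ e) (y g : P) (hy : orderOf y = 2 ^ e)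
    (hN : Nat.card (normalizer (zpowers y : Set P)) = 2 ^ (e + 1))
    (hC : ∀ x : P, 8 ≤ Nat.card (centralizer ({x} : Set P))) (j : ℕ) (hj : j % 4 = 3)
    (hg : g * y * g⁻¹ = y ^ j) : False := by
  have hnil : Group.IsNilpotent P := h2.isNilpotent
  have hcond : NormalizerCondition P := Group.normalizerCondition_of_isNilpotent
  set R := normalizer (zpowers y : Set P) with hR
  have hcD : Nat.card (zpowers y) = 2 ^ e := by rw [Nat.card_zpowers, hy]
  have hDR : zpowers y ≤ R := le_normalizer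
  have hrel : ((zpowers y).subgroupOf R).index = 2 :=
    index_subgroupOf_eq_two hDR (by rw [hcD, hN, pow_succ']) 
  have hgR : g ∈ R := mem_norm (by rw [hg]; exact pow_mem (mem_zpowers y) j)
  have hfix : ∀ i : ℕ, y ^ (i * j) = y ^ i → 2 ^ (e - 1) ∣ i := by
    intro i hi
    rw [pow_eq_pow_iff_modEq, hy] at hi
    exact mod_lemma (by omega) hj hi
  have hyj : y ^ j ≠ y := by
    intro h
    have h1 := hfix 1 (by simpa using h)
    have h3 : 2 ≤ 2 ^ (e - 1) := by
      calc 2 = 2 ^ 1 := by norm_num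
        _ ≤ 2 ^ (e - 1) := Nat.pow_le_pow_right (by norm_num) (by omega)
    have := Nat.le_of_dvd one_pos h1
    omega
  have hgD : g ∉ zpowers y := by
    intro h
    obtain ⟨k, rfl⟩ := mem_zpowers_iff.1 h
    apply hyj
    rw [← hg]
    group
  -- action of elements of `R` outside `D`
  have hact : ∀ x ∈ R, x ∉ zpowers y → x * y * x⁻¹ = y ^ j := by
    intro x hx hxD
    have h1 : x * g⁻¹ ∈ zpowers y := by
      rw [mem_iff_of_rel_two hrel hx (inv_mem hgR)]
      simp [hxD, hgD]
    obtain ⟨k, hk⟩ := mem_zpowers_iff.1 h1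
    have h3 : x = y ^ k * g := by rw [hk]; group
    have h4 : x * y * x⁻¹ = y ^ k * (g * y * g⁻¹) * (y ^ k)⁻¹ := by rw [h3]; group
    rw [h4, hg]
    group
  have hpow4 : ∀ x ∈ R, x ∉ zpowers y → x ^ 4 = 1 := by
    intro x hx hxD
    have h1 : x * x ∈ zpowers y := by
      rw [mem_iff_of_rel_two hrel hx hx]
    obtain ⟨i, hi⟩ := mem_zpowers_iff_nat.1 h1
    have h3 : x * y ^ i * x⁻¹ = y ^ i := by rw [hi]; group
    have h4 : x * y ^ i * x⁻¹ = y ^ (i * j) := by
      rw [← conj_pow, hact x hx hxD, ← pow_mul, mul_comm]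
    have h5 := hfix i (by rw [← h4, h3])
    have h6 : x ^ 4 = (x * x) ^ 2 := by rw [← pow_two, ← pow_mul]
    rw [h6, ← hi, ← pow_mul]
    apply orderOf_dvd_iff_pow_eq_one.1
    rw [hy]
    obtain ⟨m, hm⟩ := h5
    refine ⟨m, ?_⟩
    have h7 : (2 : ℕ) ^ e = 2 ^ (e - 1) * 2 := by rw [← pow_succ]; congr 1; omega
    rw [h7, hm]; ring
  rcases Nat.lt_or_ge e 3 with he3 | he3
  · -- e = 2
    have he2 : e = 2 := by omega
    have hle : centralizer ({y} : Set P) ≤ zpowers y := by
      intro c hc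
      rw [mem_centralizer_singleton_iff] at hc
      by_contra hcD
      have hcc : c * y * c⁻¹ = y := by rw [hc]; group
      have hcR : c ∈ R := mem_norm (by rw [hcc]; exact mem_zpowers y)
      exact hyj ((hact c hcR hcD).symm.trans hcc)
    have h3 := Nat.le_of_dvd (Nat.card_pos) (card_dvd_of_le hle)
    have h4 := hC y
    rw [hcD, he2] at h3
    omega
  · -- e ≥ 3
    have hRtop : R = ⊤ := by
      rw [normalizerCondition_iff_only_full_group_self_normalizing] at hcond
      apply hcond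
      apply le_antisymm _ le_normalizer
      intro h hh
      have h1 : h * y * h⁻¹ ∈ R := (mem_normalizer_iff.1 hh y).1 (hDR (mem_zpowers y))
      apply mem_norm
      by_contra hcon
      have h3 := hpow4 _ h1 hcon
      rw [conj_pow] at h3
      have h4 : y ^ 4 = 1 := by
        have h5 : y ^ 4 = h⁻¹ * (h * y ^ 4 * h⁻¹) * h := by group
        rw [h5, h3]; group
      have h5 := orderOf_dvd_iff_pow_eq_one.2 h4
      rw [hy] at h5
      have h6 := Nat.le_of_dvd (by norm_num) h5
      have h7 : 2 ^ 3 ≤ 2 ^ e := Nat.pow_le_pow_right (by norm_num) he3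
      omega
    have hidx : (zpowers y).index = 2 := by
      have h1 := (zpowers y).card_mul_index
      have h3 : Nat.card P = 2 ^ (e + 1) := by
        rw [← hN, hRtop]
        exact (Nat.card_congr Subgroup.topEquiv.toEquiv).symm
      rw [hcD, h3, pow_succ] at h1
      exact Nat.eq_of_mul_eq_mul_left (by positivity) h1
    -- centralizer of g
    have h8 := hC g
    set C := centralizer ({g} : Set P) with hCdef
    have h9 := ((zpowers y).subgroupOf C).card_mul_index
    have h10 : ((zpowers y).subgroupOf C).index ≤ 2 := by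
      have hnorm : (zpowers y).Normal := normal_of_index_eq_two hidx
      have h11 : (zpowers y).relIndex C ∣ (zpowers y).index := relIndex_dvd_index_of_normal _ _
      have h12 := Nat.le_of_dvd (by rw [hidx]; norm_num) h11
      rw [hidx] at h12
      exact h12
    have h13 : Nat.card ((zpowers y).subgroupOf C) ≤ 2 := by
      have h14 : Nat.card (zpowers (y ^ (2 ^ (e - 1)))) = 2 := by
        rw [Nat.card_zpowers, orderOf_pow, hy]
        have h15 : Nat.gcd (2 ^ e) (2 ^ (e - 1)) = 2 ^ (e - 1) :=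
          Nat.gcd_eq_right (pow_dvd_pow 2 (by omega))
        rw [h15, Nat.pow_div (by omega) (by norm_num)]
        have : e - (e - 1) = 1 := by omega
        rw [this, pow_one]
      rw [← h14]
      let f : (zpowers y).subgroupOf C → zpowers (y ^ (2 ^ (e - 1))) := fun c =>
        ⟨((c : C) : P), by
          obtain ⟨i, hi⟩ := mem_zpowers_iff_nat.1 (mem_subgroupOf.1 c.2)
          have hc := (mem_centralizer_singleton_iff.1 (c : C).2)
          rw [← hi] at hc ⊢
          have h15 : g * y ^ i * g⁻¹ = y ^ i := by rw [← hc]; group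
          have h16 : g * y ^ i * g⁻¹ = y ^ (i * j) := by
            rw [← conj_pow, hg, ← pow_mul, mul_comm]
          obtain ⟨m, hm⟩ := hfix i (by rw [← h16, h15])
          rw [hm, pow_mul]
          exact pow_mem (mem_zpowers _) m⟩
      have hf : Function.Injective f := by
        intro a b hab
        have h15 : ((a : C) : P) = ((b : C) : P) := congrArg (Subtype.val : zpowers (y ^ (2 ^ (e - 1))) → P) hab
        exact Subtype.ext (Subtype.ext h15)
      exact Nat.card_le_card_of_injective f hf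
    have h15 : Nat.card C ≤ 4 := by
      rw [← h9]
      calc Nat.card ((zpowers y).subgroupOf C) * ((zpowers y).subgroupOf C).index
          ≤ 2 * 2 := Nat.mul_le_mul h13 h10
        _ = 4 := by norm_num
    omega

theorem local_three (h2 : IsPGroup 2 P) (e : ℕ) (he : 2 ≤ e) (y : P) (hy : orderOf y = 2 ^ e)
    (hN : Nat.card (normalizer (zpowers y : Set P)) = 2 ^ (e + 1))
    (hB : normalizer (zpowers (y ^ 2) : Set P) ≠ ⊤) :
    2 ^ (e + 2) ∣ Nat.card (normalizer (zpowers (y ^ 2) : Set P)) := by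
  have hnil : Group.IsNilpotent P := h2.isNilpotent
  have hcond : NormalizerCondition P := Group.normalizerCondition_of_isNilpotent
  set R := normalizer (zpowers y : Set P) with hR
  set N := normalizer (zpowers (y ^ 2) : Set P) with hNdef
  have hcD : Nat.card (zpowers y) = 2 ^ e := by rw [Nat.card_zpowers, hy]
  have hDR : zpowers y ≤ R := le_normalizer
  have hrel : ((zpowers y).subgroupOf R).index = 2 :=
    index_subgroupOf_eq_two hDR (by rw [hcD, hN, pow_succ']) 
  have hRN : R ≤ N := by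
    intro x hx
    obtain ⟨k, hk⟩ := mem_zpowers_iff.1 (mem_norm_iff.1 hx)
    apply mem_norm
    rw [← conj_pow, ← hk]
    have h1 : (y ^ k) ^ 2 = (y ^ 2) ^ k := by
      rw [← zpow_natCast, ← zpow_natCast, ← zpow_mul, ← zpow_mul, mul_comm]
    rw [h1]
    exact zpow_mem (mem_zpowers _) k
  have hne : R ≠ N := by
    intro heq
    have hlt : R < ⊤ := by rw [heq]; exact lt_top_iff_ne_top.2 hB
    obtain ⟨x, hx, hxR⟩ := SetLike.exists_of_lt (hcond R hlt)
    apply hxR
    rw [heq]
    apply mem_norm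
    have h1 : x * y * x⁻¹ ∈ R := (mem_normalizer_iff.1 hx y).1 (hDR (mem_zpowers y))
    have h3 : (x * y * x⁻¹) * (x * y * x⁻¹) ∈ zpowers y := by
      rw [mem_iff_of_rel_two hrel h1 h1]
    have h4 : (x * y * x⁻¹) * (x * y * x⁻¹) = x * y ^ 2 * x⁻¹ := by rw [← conj_pow, pow_two]
    rw [h4] at h3
    obtain ⟨i, hi⟩ := mem_zpowers_iff_nat.1 h3
    rw [← hi]
    have h5 : (y ^ i) ^ 2 ^ (e - 1) = 1 := by
      rw [hi, conj_pow, ← pow_mul]
      have h6 : 2 * 2 ^ (e - 1) = 2 ^ e := by rw [← pow_succ']; congr 1; omega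
      rw [h6, ← hy, pow_orderOf_eq_one]
      group
    rw [← pow_mul] at h5
    have h6 := orderOf_dvd_iff_pow_eq_one.2 h5
    rw [hy] at h6
    have h7 : 2 ∣ i := by
      have h8 : (2 : ℕ) ^ e = 2 * 2 ^ (e - 1) := by rw [← pow_succ']; congr 1; omega
      rw [h8] at h6
      exact Nat.dvd_of_mul_dvd_mul_right (by positivity) h6
    obtain ⟨m, rfl⟩ := h7
    rw [pow_mul]
    exact pow_mem (mem_zpowers _) m
  have hlt : R < N := lt_of_le_of_ne hRN hne
  obtain ⟨k, hk⟩ := (IsPGroup.iff_card (p := 2) (G := N)).1 (h2.to_subgroup _)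
  have h4 : Nat.card R < Nat.card N := Set.Finite.card_lt_card (Set.toFinite _) hlt
  rw [hk, hN] at h4
  have h5 : e + 1 < k := (Nat.pow_lt_pow_iff_right (by norm_num)).1 h4
  rw [hk]
  exact pow_dvd_pow 2 h5

theorem local_four (e : ℕ) (he : 2 ≤ e) (y : P) (hy : orderOf y = 2 ^ e)
    (hN : Nat.card (normalizer (zpowers y : Set P)) = 2 ^ (e + 1))
    (hB : (zpowers (y ^ 2)).Normal) (hc : y ^ 2 ∈ commutator P) :
    (commutator P).index ≤ 4 := by
  set R := normalizer (zpowers y : Set P) with hR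
  have hB' : zpowers (y ^ 2) ≤ commutator P := by
    rwa [zpowers_le]
  have hcB : Nat.card (zpowers (y ^ 2)) = 2 ^ (e - 1) := by
    rw [Nat.card_zpowers, orderOf_pow, hy]
    have h1 : Nat.gcd (2 ^ e) 2 = 2 := by
      apply Nat.gcd_eq_right
      exact dvd_pow_self 2 (by omega)
    rw [h1]
    have h3 : (2 : ℕ) ^ e = 2 ^ (e - 1) * 2 := by rw [← pow_succ]; congr 1; omega
    rw [h3, Nat.mul_div_cancel _ (by norm_num)]
  let f : (P ⧸ R) × zpowers (y ^ 2) → commutator P := fun q =>
    ⟨⁅q.1.out, y⁆ * (q.2 : P), mul_mem (commutator_mem_commutator (mem_top _) (mem_top _))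
      (hB' q.2.2)⟩
  have hf : Function.Injective f := by
    rintro ⟨a, β⟩ ⟨b, γ⟩ hab
    have h1 : ⁅a.out, y⁆ * (β : P) = ⁅b.out, y⁆ * (γ : P) := congrArg Subtype.val hab
    have hcomm : ∀ δ : zpowers (y ^ 2), y⁻¹ * (δ : P) = (δ : P) * y⁻¹ := by
      rintro ⟨δ, hδ⟩
      obtain ⟨k, rfl⟩ := mem_zpowers_iff.1 hδ
      have : Commute (y⁻¹) ((y ^ 2) ^ k) :=
        ((Commute.refl y).pow_right 2 |>.zpow_right k).inv_left
      exact this
    have h3 : a.out * y * (a.out)⁻¹ * (β : P) = b.out * y * (b.out)⁻¹ * (γ : P) := by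
      simp only [commutatorElement_def] at h1
      rw [mul_assoc _ y⁻¹, mul_assoc _ y⁻¹, hcomm, hcomm, ← mul_assoc, ← mul_assoc] at h1
      exact mul_right_cancel h1
    have h4 : (b.out)⁻¹ * a.out ∈ R := by
      apply mem_norm
      have h5 : (b.out)⁻¹ * a.out * y * ((b.out)⁻¹ * a.out)⁻¹ =
          (b.out)⁻¹ * (a.out * y * (a.out)⁻¹ * (β : P)) * (β : P)⁻¹ * b.out := by group
      rw [h5, h3]
      have h6 : (b.out)⁻¹ * (b.out * y * (b.out)⁻¹ * (γ : P)) * (β : P)⁻¹ * b.out =
          y * ((b.out)⁻¹ * ((γ : P) * (β : P)⁻¹) * ((b.out)⁻¹)⁻¹) := by group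
      rw [h6]
      apply mul_mem (mem_zpowers y)
      have h7 := hB.conj_mem ((γ : P) * (β : P)⁻¹) (mul_mem γ.2 (inv_mem β.2)) (b.out)⁻¹
      have h8 : zpowers (y ^ 2) ≤ zpowers y := by
        rw [zpowers_le]
        exact pow_mem (mem_zpowers y) 2
      exact h8 h7
    have h5 : a = b := by
      rw [← QuotientGroup.eq, QuotientGroup.out_eq', QuotientGroup.out_eq'] at h4
      exact h4.symm
    subst h5
    have h6 : (β : P) = (γ : P) := mul_left_cancel h1
    have h7 : β = γ := Subtype.ext h6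
    rw [h7]
  have h1 := Nat.card_le_card_of_injective f hf
  rw [Nat.card_prod, hcB] at h1
  have h3 : Nat.card (P ⧸ R) = R.index := rfl
  rw [h3] at h1
  have h4 := R.card_mul_index
  have h5 := (commutator P).card_mul_index
  rw [hN] at h4
  have h6 : (2 : ℕ) ^ (e + 1) = 4 * 2 ^ (e - 1) := by
    have : e + 1 = 2 + (e - 1) := by omega
    rw [this, pow_add]; norm_num
  have h7 : Nat.card P ≤ 4 * Nat.card (commutator P) := by
    rw [← h4, h6]
    nlinarith
  by_contra hcon
  push Not at hcon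
  have h8 : 0 < Nat.card (commutator P) := Nat.card_pos
  nlinarith

end Local

/-! ### The commutator index of a noncyclic `2`-group -/

section CommIndex

variable {P : Type*} [Group P] [Finite P]

theorem eq_top_of_sup_commutator (hnil : Group.IsNilpotent P) (K : Subgroup P)
    (h : K ⊔ commutator P = ⊤) : K = ⊤ := by
  rcases eq_top_or_exists_le_coatom K with hK | ⟨M, hM, hKM⟩
  · exact hK
  · exfalso
    have hcond : NormalizerCondition P := Group.normalizerCondition_of_isNilpotent
    have hnorm : M.Normal := NormalizerCondition.normal_of_coatom M hcond hM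
    have hne : M ≠ ⊤ := hM.1
    have hnt : Nontrivial (P ⧸ M) := QuotientGroup.nontrivial_iff.2 hne
    have hlt : commutator (P ⧸ M) < ⊤ :=
      Group.IsSolvable.commutator_lt_top_of_nontrivial (P ⧸ M)
    set N := (commutator (P ⧸ M)).comap (QuotientGroup.mk' M) with hN
    have hMN : M ≤ N := by
      intro x hx
      rw [hN, mem_comap]
      have : QuotientGroup.mk' M x = 1 := (QuotientGroup.eq_one_iff x).2 hx
      rw [this]
      exact one_mem _
    have hNtop : N ≠ ⊤ := by
      intro hNt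
      apply hlt.ne
      rw [eq_top_iff]
      intro q _
      obtain ⟨x, rfl⟩ := QuotientGroup.mk'_surjective M q
      have : x ∈ N := by rw [hNt]; exact mem_top x
      exact this
    have hNM : N = M := by
      by_contra hcon
      exact hNtop (hM.2 N (lt_of_le_of_ne hMN (Ne.symm hcon)))
    have hcomm : commutator P ≤ N := by
      rw [hN, ← map_le_iff_le_comap, commutator_def, map_commutator, commutator_def]
      exact commutator_mono le_top le_top
    apply hne
    rw [eq_top_iff, ← h]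
    exact sup_le hKM (hNM ▸ hcomm)

theorem eight_le_index (h2 : IsPGroup 2 P) (hnc : ¬ IsCyclic P) (h4 : (commutator P).index ≠ 4) :
    8 ≤ (commutator P).index := by
  have hnil : Group.IsNilpotent P := h2.isNilpotent
  obtain ⟨k, hk⟩ := h2.index (commutator P)
  have h0 : k ≠ 0 := by
    rintro rfl
    rw [pow_zero, index_eq_one] at hk
    have h1 := eq_top_of_sup_commutator hnil ⊥ (by rw [hk]; simp)
    apply hnc
    exact ⟨1, fun z => by
      have h : z ∈ (⊥ : Subgroup P) := by rw [h1]; exact mem_top z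
      rw [mem_bot] at h
      rw [h]
      exact one_mem (zpowers (1 : P))⟩
  have h1 : k ≠ 1 := by
    rintro rfl
    rw [pow_one] at hk
    have hne : commutator P ≠ ⊤ := by
      intro h
      rw [h, index_top] at hk
      omega
    obtain ⟨x, hx⟩ : ∃ x, x ∉ commutator P := by
      by_contra hcon
      push Not at hcon
      exact hne (eq_top_iff.2 fun x _ => hcon x)
    have h3 : zpowers x ⊔ commutator P = ⊤ := by
      rw [eq_top_iff]
      intro z _
      by_cases hz : z ∈ commutator P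
      · exact mem_sup_right hz
      · have h5 : x⁻¹ * z ∈ commutator P := by
          rw [mul_mem_iff_of_index_two hk]
          simp [hx, hz]
        have h6 : z = x * (x⁻¹ * z) := by group
        rw [h6]
        exact mul_mem (mem_sup_left (mem_zpowers x)) (mem_sup_right h5)
    have h5 := eq_top_of_sup_commutator hnil _ h3
    apply hnc
    exact ⟨x, fun z => by
      have h : z ∈ zpowers x := by rw [h5]; exact mem_top z
      exact h⟩
  have h3 : k ≠ 2 := by
    rintro rfl
    exact h4 (by rw [hk]; norm_num)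
  rw [hk]
  calc 8 = 2 ^ 3 := by norm_num
    _ ≤ 2 ^ k := Nat.pow_le_pow_right (by norm_num) (by omega)

theorem index_commutator_eq {S T : Type*} [Group S] [Group T] (f : S ≃* T) :
    (commutator S).index = (commutator T).index := by
  have h1 : (commutator S).map f.toMonoidHom = commutator T := by
    rw [commutator_def, map_commutator, commutator_def]
    have h3 : (⊤ : Subgroup S).map f.toMonoidHom = ⊤ :=
      map_top_of_surjective _ f.surjective
    rw [h3]
  rw [← h1]
  exact (index_map_equiv _ f).symm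

end CommIndex

/-! ### Counting elements of order `2 ^ e` -/

section Orbits

theorem dvd_card_of_orbits {Γ X : Type*} [Group Γ] [Finite Γ] [Finite X] [MulAction Γ X] (d : ℕ)
    (h : ∀ x : X, d ∣ (MulAction.stabilizer Γ x).index) : d ∣ Nat.card X := by
  classical
  rw [Nat.card_congr (MulAction.selfEquivSigmaOrbits Γ X)]
  have : Fintype (Quotient (MulAction.orbitRel Γ X)) := Fintype.ofFinite _
  rw [Nat.card_sigma]
  apply Finset.dvd_sum
  intro ω _
  have h1 := h ω.out
  rw [MulAction.index_stabilizer] at h1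
  exact h1

variable {G : Type*} [Group G]

/-- conjugation action on a class of subgroups closed under conjugation -/
@[reducible] def conjAction (p : Subgroup G → Prop)
    (hp : ∀ (g : G) D, p D → p (D.map (MulAut.conj g).toMonoidHom)) :
    MulAction G {D : Subgroup G // p D} where
  smul g D := ⟨D.1.map (MulAut.conj g).toMonoidHom, hp g _ D.2⟩
  one_smul D := by
    apply Subtype.ext
    change D.1.map (MulAut.conj (1 : G)).toMonoidHom = D.1
    rw [map_one]
    exact map_id _
  mul_smul g h D := by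
    apply Subtype.ext
    change D.1.map (MulAut.conj (g * h)).toMonoidHom =
      (D.1.map (MulAut.conj h).toMonoidHom).map (MulAut.conj g).toMonoidHom
    rw [map_map, map_mul]
    rfl

theorem dvd_card_of_conj_closed [Finite G] (p : Subgroup G → Prop)
    (hp : ∀ (g : G) D, p D → p (D.map (MulAut.conj g).toMonoidHom)) (d : ℕ)
    (h : ∀ D : Subgroup G, p D → d ∣ (normalizer (D : Set G)).index) :
    d ∣ Nat.card {D : Subgroup G // p D} := by
  let _ := conjAction p hp
  apply dvd_card_of_orbits (Γ := G)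
  intro D
  refine (h D.1 D.2).trans (index_dvd_of_le ?_)
  intro g hg
  have h1 : D.1.map (MulAut.conj g).toMonoidHom = D.1 :=
    congrArg Subtype.val (MulAction.mem_stabilizer_iff.1 hg)
  rw [mem_normalizer_iff]
  intro n
  constructor
  · intro hn
    rw [← h1]
    exact ⟨n, hn, rfl⟩
  · intro hn
    rw [← h1] at hn
    obtain ⟨m, hm, hmn⟩ := hn
    have h3 : g * m * g⁻¹ = g * n * g⁻¹ := hmn
    have h5 : m = n := mul_left_cancel (mul_right_cancel h3)
    rwa [← h5]

theorem card_generators [Finite G] (e : ℕ) (he : 1 ≤ e) (y : G) (hy : orderOf y = 2 ^ e) :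
    Nat.card {x : G // orderOf x = 2 ^ e ∧ zpowers x = zpowers y} = 2 ^ (e - 1) := by
  classical
  have : Fintype (zpowers y) := Fintype.ofFinite _
  have hc : Fintype.card (zpowers y) = 2 ^ e := by
    rw [← Nat.card_eq_fintype_card, Nat.card_zpowers, hy]
  have h1 := IsCyclic.card_orderOf_eq_totient (α := zpowers y) (d := 2 ^ e) (by rw [hc])
  have h3 : Nat.totient (2 ^ e) = 2 ^ (e - 1) := by
    rw [Nat.totient_prime_pow Nat.prime_two (by omega)]
    simp
  rw [← h3, ← h1, ← Fintype.card_subtype, ← Nat.card_eq_fintype_card]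
  refine Nat.card_congr ⟨fun x => ⟨⟨x.1, x.2.2.le (mem_zpowers x.1)⟩, ?_⟩,
    fun x => ⟨x.1.1, ?_, ?_⟩, fun x => rfl, fun x => rfl⟩
  · rw [Subgroup.orderOf_mk]; exact x.2.1
  · exact (Subgroup.orderOf_coe x.1).trans x.2
  · apply eq_of_le_of_card_ge
    · rw [zpowers_le]; exact x.1.2
    · rw [Nat.card_zpowers, Nat.card_zpowers, hy, Subgroup.orderOf_coe, x.2]

theorem card_eq_mul_fibre [Finite G] (e : ℕ) (he : 1 ≤ e) (q : G → Prop)
    (hq : ∀ x y : G, orderOf x = 2 ^ e → orderOf y = 2 ^ e → zpowers x = zpowers y → q x → q y) :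
    Nat.card {x : G // orderOf x = 2 ^ e ∧ q x} =
      Nat.card {D : Subgroup G // ∃ x, orderOf x = 2 ^ e ∧ q x ∧ zpowers x = D} * 2 ^ (e - 1) := by
  classical
  let f : {x : G // orderOf x = 2 ^ e ∧ q x} →
      {D : Subgroup G // ∃ x, orderOf x = 2 ^ e ∧ q x ∧ zpowers x = D} :=
    fun x => ⟨zpowers x.1, x.1, x.2.1, x.2.2, rfl⟩
  rw [Nat.card_congr (Equiv.sigmaFiberEquiv f).symm]
  have : Fintype {D : Subgroup G // ∃ x, orderOf x = 2 ^ e ∧ q x ∧ zpowers x = D} :=
    Fintype.ofFinite _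
  rw [Nat.card_sigma]
  have h1 : ∀ D, Nat.card {a // f a = D} = 2 ^ (e - 1) := by
    rintro ⟨D, y, hy, hqy, rfl⟩
    rw [← card_generators e he y hy]
    refine Nat.card_congr ⟨fun x => ⟨x.1.1, x.1.2.1, congrArg Subtype.val x.2⟩,
      fun x => ⟨⟨x.1, x.2.1, hq y x.1 hy x.2.1 x.2.2.symm hqy⟩, Subtype.ext x.2.2⟩,
      fun x => rfl, fun x => rfl⟩
  rw [Finset.sum_congr rfl (fun D _ => h1 D)]
  simp [Nat.card_eq_fintype_card]

end Orbits

/-! ### Global lemmas -/

section Global

variable {G : Type*} [Group G] [Finite G]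

theorem card_norm_dvd (S : Subgroup G) (y : S) :
    Nat.card (normalizer (zpowers y : Set S)) ∣ Nat.card (normalizer (zpowers (y : G) : Set G)) := by
  have h1 : (normalizer (zpowers y : Set S)).map S.subtype ≤
      normalizer (zpowers (y : G) : Set G) := by
    rintro _ ⟨x, hx, rfl⟩
    apply mem_norm
    obtain ⟨k, hk⟩ := mem_zpowers_iff.1 (mem_norm_iff.1 hx)
    rw [mem_zpowers_iff]
    refine ⟨k, ?_⟩
    have := congrArg (Subtype.val : S → G) hk
    simpa using this
  have h3 := card_dvd_of_le h1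
  rwa [card_map_of_injective S.subtype_injective] at h3

theorem pow_dvd_index {n k a b : ℕ} (hab : a * b ≠ 0) (h : 2 ^ n ∣ a * b) (ha : ¬ 2 ^ (k + 1) ∣ a) :
    2 ^ (n - k) ∣ b := by
  have ha0 : a ≠ 0 := left_ne_zero_of_mul hab
  have hb0 : b ≠ 0 := right_ne_zero_of_mul hab
  rw [Nat.prime_two.pow_dvd_iff_le_factorization hab, Nat.factorization_mul ha0 hb0] at h
  rw [Nat.prime_two.pow_dvd_iff_le_factorization ha0] at ha
  rw [Nat.prime_two.pow_dvd_iff_le_factorization hb0]
  simp only [Finsupp.coe_add, Pi.add_apply] at h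
  omega

/-- an element of order `2 ^ e` is not conjugate to its `j`-th power, `j = 3 mod 4` -/
theorem not_conj (e : ℕ) (he : 2 ≤ e)
    (hNS : ∀ (S : Sylow 2 G) (y : S), orderOf y = 2 ^ e →
      Nat.card (normalizer (zpowers y : Set S)) = 2 ^ (e + 1))
    (hC : ∀ (S : Sylow 2 G) (x : S), 8 ≤ Nat.card (centralizer ({x} : Set S)))
    (y : G) (hy : orderOf y = 2 ^ e) (j : ℕ) (hj : j % 4 = 3) : ¬ IsConj y (y ^ j) := by
  intro hconj
  obtain ⟨g, hg⟩ := isConj_iff.1 hconj
  have hpow : ∀ m : ℕ, g ^ m * y * (g ^ m)⁻¹ = y ^ (j ^ m) := by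
    intro m
    induction m with
    | zero => simp
    | succ m ih =>
      have h1 : g ^ (m + 1) * y * (g ^ (m + 1))⁻¹ = g ^ m * (g * y * g⁻¹) * (g ^ m)⁻¹ := by
        rw [pow_succ]; group
      rw [h1, hg, ← conj_pow, ih, ← pow_mul, pow_succ]
  have hg0 : orderOf g ≠ 0 := (orderOf_pos g).ne'
  set k := (orderOf g).factorization 2 with hk
  set m := orderOf g / 2 ^ k with hm
  have hmk : 2 ^ k * m = orderOf g := Nat.ordProj_mul_ordCompl_eq_self _ _
  have hmodd : m % 2 = 1 := by
    have : ¬ 2 ∣ m := Nat.not_dvd_ordCompl Nat.prime_two hg0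
    omega
  have hg2 : (g ^ m) ^ (2 ^ k) = 1 := by
    rw [← pow_mul, mul_comm, hmk, pow_orderOf_eq_one]
  have hjm : (j ^ m) % 4 = 3 := by
    obtain ⟨t, ht⟩ : ∃ t, m = 2 * t + 1 := ⟨m / 2, by omega⟩
    rw [ht]
    clear ht
    induction t with
    | zero => simpa using hj
    | succ t ih =>
      have h1 : j ^ (2 * (t + 1) + 1) = j ^ (2 * t + 1) * (j * j) := by ring
      rw [h1, Nat.mul_mod, ih, Nat.mul_mod j j, hj]
  have hgp : IsPGroup 2 (zpowers (g ^ m)) := by
    obtain ⟨s, _, hs⟩ := (Nat.dvd_prime_pow Nat.prime_two).1 (orderOf_dvd_of_pow_eq_one hg2)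
    exact IsPGroup.of_card (n := s) (by rw [Nat.card_zpowers, hs])
  have hyp : IsPGroup 2 (zpowers y) := IsPGroup.of_card (n := e) (by rw [Nat.card_zpowers, hy])
  have hle : zpowers (g ^ m) ≤ normalizer (zpowers y : Set G) := by
    rw [zpowers_le]
    apply mem_norm
    rw [hpow]
    exact pow_mem (mem_zpowers y) _
  obtain ⟨S, hS⟩ := (hgp.to_sup_of_normal_right' hyp hle).exists_le_sylow
  have hgS : g ^ m ∈ S := hS (mem_sup_left (mem_zpowers _))
  have hyS : y ∈ S := hS (mem_sup_right (mem_zpowers _))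
  have hy' : orderOf (⟨y, hyS⟩ : S) = 2 ^ e := by rw [← hy]; exact Subgroup.orderOf_mk y hyS
  refine local_two S.isPGroup' e he (⟨y, hyS⟩ : S) ⟨g ^ m, hgS⟩ hy' (hNS S _ hy') (hC S) (j ^ m)
    hjm ?_
  apply Subtype.ext
  exact hpow m

end Global

end TwoAux

open TwoAux in
theorem two_group_index_four (G : Type*) [Group G] [Finite G] (e : ℕ) (he : 2 ≤ e)
    (_hexp : ∀ c : G, PEl 2 c → c ^ (2 ^ e) = 1)
    (hex : ∃ y : G, orderOf y = 2 ^ e)
    (hnc : ∀ P : Sylow 2 G, ¬ IsCyclic P)
    (hE : ∀ y : G, orderOf y = 2 ^ e →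
      ¬ 2 ^ (e + 2) ∣ Nat.card (Subgroup.normalizer (Subgroup.zpowers y : Set G)))
    (hA : ∀ (P : Sylow 2 G) (x : P), x ^ 2 ∈ commutator P)
    (hT : ∀ b : G, orderOf b = 2 ^ (e - 1) →
      (∀ y : G, orderOf y = 2 ^ e → (∃ g : G, g * b * g⁻¹ ∈ Subgroup.zpowers y) →
        ∀ j : ℕ, j % 4 = 3 → ¬ IsConj y (y ^ j)) →
      2 ^ ((Nat.card G).factorization 2 - 2) ∣
        Nat.card {y : G | orderOf y = 2 ^ e ∧ ∃ g : G, g * b * g⁻¹ ∈ Subgroup.zpowers y} →
      2 ^ (e + 2) ∣ Nat.card (Subgroup.normalizer (Subgroup.zpowers b : Set G)) →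
      2 ∣ (Subgroup.normalizer (Subgroup.zpowers b : Set G)).index → False) :
    ∀ P : Sylow 2 G, (commutator P).index = 4 := by
  intro P₀
  by_contra hP₀
  set n := (Nat.card G).factorization 2 with hn
  have hidx : ∀ S : Sylow 2 G, 8 ≤ (commutator S).index := by
    intro S
    refine eight_le_index S.isPGroup' (hnc S) ?_
    rw [index_commutator_eq (Sylow.equiv S P₀)]
    exact hP₀
  have hC : ∀ (S : Sylow 2 G) (x : S), 8 ≤ Nat.card (centralizer ({x} : Set S)) :=
    fun S x => (hidx S).trans (index_commutator_le x)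
  have hNS : ∀ (S : Sylow 2 G) (y : S), orderOf y = 2 ^ e →
      Nat.card (normalizer (zpowers y : Set S)) = 2 ^ (e + 1) := by
    intro S y hy
    refine card_norm_eq S.isPGroup' (hnc S) y e hy ?_
    intro h
    exact hE (y : G) (by rw [← hy]; exact Subgroup.orderOf_coe y) (h.trans (card_norm_dvd _ y))
  obtain ⟨y₀, hy₀⟩ := hex
  have hb : orderOf (y₀ ^ 2) = 2 ^ (e - 1) := by
    rw [orderOf_pow, hy₀]
    have h1 : Nat.gcd (2 ^ e) 2 = 2 := Nat.gcd_eq_right (dvd_pow_self 2 (by omega))
    rw [h1]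
    have h3 : (2 : ℕ) ^ e = 2 ^ (e - 1) * 2 := by rw [← pow_succ]; congr 1; omega
    rw [h3, Nat.mul_div_cancel _ (by norm_num)]
  by_cases hdvd : 2 ∣ (normalizer (zpowers (y₀ ^ 2) : Set G)).index
  · -- case A
    refine hT (y₀ ^ 2) hb (fun y hy _ j hj => not_conj e he hNS hC y hy j hj) ?_ ?_ hdvd
    · -- the number of elements
      have h1 := card_eq_mul_fibre (G := G) e (by omega)
        (fun y => ∃ g : G, g * y₀ ^ 2 * g⁻¹ ∈ zpowers y)
        (fun x y _ _ hxy ⟨g, hg⟩ => ⟨g, by rw [← hxy]; exact hg⟩)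
      have h3 : Nat.card {y : G | orderOf y = 2 ^ e ∧ ∃ g : G, g * y₀ ^ 2 * g⁻¹ ∈ zpowers y} =
          Nat.card {y : G // orderOf y = 2 ^ e ∧ ∃ g : G, g * y₀ ^ 2 * g⁻¹ ∈ zpowers y} := rfl
      rw [h3, h1]
      have h5 : 2 ^ (n - (e + 1)) ∣ Nat.card {D : Subgroup G // ∃ x, orderOf x = 2 ^ e ∧
          (∃ g : G, g * y₀ ^ 2 * g⁻¹ ∈ zpowers x) ∧ zpowers x = D} := by
        apply dvd_card_of_conj_closed
        · rintro g D ⟨x, hx, ⟨h, hh⟩, rfl⟩
          refine ⟨g * x * g⁻¹, ?_, ⟨g * h, ?_⟩, ?_⟩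
          · rw [← hx]
            exact orderOf_injective (MulAut.conj g).toMonoidHom (MulAut.conj g).injective x
          · obtain ⟨k, hk⟩ := mem_zpowers_iff.1 hh
            rw [mem_zpowers_iff]
            refine ⟨k, ?_⟩
            rw [conj_zpow, hk]
            group
          · exact ((MulAut.conj g).toMonoidHom.map_zpowers x).symm
        · rintro D ⟨x, hx, _, rfl⟩
          have h6 := (normalizer (zpowers x : Set G)).card_mul_index
          refine pow_dvd_index (a := Nat.card (normalizer (zpowers x : Set G))) ?_ ?_ (hE x hx)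
          · rw [h6]; exact Nat.card_pos.ne'
          · rw [h6]; exact Nat.ordProj_dvd _ _
      calc 2 ^ (n - 2) ∣ 2 ^ (n - (e + 1)) * 2 ^ (e - 1) := by
            rw [← pow_add]
            exact pow_dvd_pow 2 (by omega)
        _ ∣ _ := Nat.mul_dvd_mul h5 dvd_rfl
    · -- the normalizer of `B`
      have hyp : IsPGroup 2 (zpowers y₀) :=
        IsPGroup.of_card (n := e) (by rw [Nat.card_zpowers, hy₀])
      obtain ⟨S, hS⟩ := hyp.exists_le_sylow
      have hyS : y₀ ∈ S := hS (mem_zpowers _)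
      have hy' : orderOf (⟨y₀, hyS⟩ : S) = 2 ^ e := by
        rw [← hy₀]; exact Subgroup.orderOf_mk y₀ hyS
      refine (local_three S.isPGroup' e he (⟨y₀, hyS⟩ : S) hy' (hNS S _ hy') ?_).trans
        (card_norm_dvd _ _)
      intro htop
      have h1 : (S : Subgroup G) ≤ normalizer (zpowers (y₀ ^ 2) : Set G) := by
        intro s hs
        have h3 : (⟨s, hs⟩ : S) ∈ normalizer (zpowers ((⟨y₀, hyS⟩ : S) ^ 2) : Set S) := by
          rw [htop]; exact mem_top _
        obtain ⟨k, hk⟩ := mem_zpowers_iff.1 (mem_norm_iff.1 h3)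
        apply mem_norm
        rw [mem_zpowers_iff]
        refine ⟨k, ?_⟩
        have := congrArg (Subtype.val : S → G) hk
        simpa using this
      exact S.not_dvd_index (hdvd.trans (index_dvd_of_le h1))
  · -- case B
    set N := normalizer (zpowers (y₀ ^ 2) : Set G) with hN
    have hyN : y₀ ∈ N := by
      apply mem_norm
      have : y₀ * y₀ ^ 2 * y₀⁻¹ = y₀ ^ 2 := by group
      rw [this]
      exact mem_zpowers _
    have hyp : IsPGroup 2 (zpowers (⟨y₀, hyN⟩ : N)) :=
      IsPGroup.of_card (n := e) (by rw [Nat.card_zpowers, Subgroup.orderOf_mk, hy₀])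
    obtain ⟨T, hT'⟩ := hyp.exists_le_sylow
    have hcard : Nat.card ((T : Subgroup N).map N.subtype) = 2 ^ n := by
      rw [card_map_of_injective N.subtype_injective, T.card_eq_multiplicity]
      congr 1
      have h1 := N.card_mul_index
      have h3 : N.index ≠ 0 := index_ne_zero_of_finite
      rw [hn, ← h1, Nat.factorization_mul Nat.card_pos.ne' h3]
      simp [Nat.factorization_eq_zero_of_not_dvd hdvd]
    let S : Sylow 2 G := Sylow.ofCard _ hcard
    have hSN : ∀ s ∈ S, s ∈ N := by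
      rintro s ⟨t, _, rfl⟩
      exact t.2
    have hyS : y₀ ∈ S := ⟨⟨y₀, hyN⟩, hT' (mem_zpowers _), rfl⟩
    have hy' : orderOf (⟨y₀, hyS⟩ : S) = 2 ^ e := by
      rw [← hy₀]; exact Subgroup.orderOf_mk y₀ hyS
    have hBn : (zpowers ((⟨y₀, hyS⟩ : S) ^ 2)).Normal := by
      rw [← normalizer_eq_top_iff, eq_top_iff]
      rintro ⟨s, hs⟩ _
      obtain ⟨k, hk⟩ := mem_zpowers_iff.1 (mem_norm_iff.1 (hSN s hs))
      apply mem_norm
      rw [mem_zpowers_iff]
      exact ⟨k, Subtype.ext hk⟩
    have h1 := local_four e he (⟨y₀, hyS⟩ : S) hy' (hNS S _ hy') hBn (hA S _)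
    exact absurd ((hidx S).trans h1) (by norm_num)

end Pool.Agent.H44.IC
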