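import Pool.Agent.H44.IC.NecSign2
import Pool.Agent.H44.IC.NecRat2
import Pool.Agent.H44.IC.Two
import Pool.Agent.H44.IC.Odd
import Pool.Agent.H44.IC.Odd3
import Pool.Agent.H44.IC.Suff

/-! Necessity: assembly. -/

open scoped ComplexConjugate
noncomputable section
namespace Pool.Agent.H44.IC

variable {G : Type*} [Group G] [Fintype G] {p : ℕ} [hp : Fact p.Prime]

omit hp in
theorem card_Xset_eq (u : G) : (Xset u).card
    = (Subgroup.normalizer (Subgroup.zpowers u : Set G)).index * Nat.totient (orderOf u) := by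
  have h1 := card_Xset_mul u
  set N := Subgroup.normalizer (Subgroup.zpowers u : Set G) with hN
  have h2 : Nat.card N * N.index = Nat.card G := Subgroup.card_mul_index N
  have h3 : 0 < Nat.card N := Nat.card_pos
  apply Nat.eq_of_mul_eq_mul_right h3
  rw [h1, ← Nat.card_eq_fintype_card, ← h2]
  ring

theorem dvd_card_Xset {u : G} {k : ℕ} (hk : k ≠ 0) (huo : orderOf u = p ^ k) :
    p ^ (k - 1) ∣ (Xset u).card := by
  rw [card_Xset_eq, huo, Nat.totient_prime_pow hp.out (Nat.pos_of_ne_zero hk)]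
  exact Dvd.dvd.mul_left (Dvd.intro _ rfl) _

theorem eq_zpowers_of_order {u c : G} (h : u ∈ Subgroup.zpowers c) (ho : orderOf c ≤ orderOf u) :
    Subgroup.zpowers u = Subgroup.zpowers c := by
  apply Subgroup.eq_of_le_of_card_ge
  · rw [Subgroup.zpowers_le]; exact h
  · rw [Nat.card_zpowers, Nat.card_zpowers]; exact ho

theorem maxCyc_of_exp {e : ℕ} (hexp : ∀ c : G, PEl p c → c ^ p ^ e = 1) {u : G}
    (huo : orderOf u = p ^ e) : MaxCyc p u := by
  refine ⟨pEl_iff_orderOf.2 ⟨e, huo⟩, fun c hc huc => ?_⟩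
  have h1 : orderOf c ≤ orderOf u := by
    rw [huo]
    exact Nat.le_of_dvd (pow_pos hp.out.pos e) (orderOf_dvd_of_pow_eq_one (hexp c hc))
  rw [eq_zpowers_of_order huc h1]
  exact Subgroup.mem_zpowers c

theorem card_fac_mul {a b c : ℕ} (hc : c ≠ 0) (h : a * b = c) :
    a.factorization p + b.factorization p = c.factorization p := by
  have ha : a ≠ 0 := by rintro rfl; rw [zero_mul] at h; exact hc h.symm
  have hb : b ≠ 0 := by rintro rfl; rw [mul_zero] at h; exact hc h.symm
  rw [← h, Nat.factorization_mul ha hb, Finsupp.add_apply]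

/-- from the self-pairing: small centralizers for rational elements -/
theorem centralizer_small (hS : Spade G p) {e : ℕ} (he : 2 ≤ e)
    (hexp : ∀ c : G, PEl p c → c ^ p ^ e = 1)
    {u : G} {k : ℕ} (hk : k ≠ 0) (huo : orderOf u = p ^ k) (hu : MaxCyc p u)
    (hx : p ^ (e - 1) ∣ (Xset u).card)
    (hrat : ∀ j : ℕ, j.Coprime p → IsConj u (u ^ j)) :
    ¬ p ^ 3 ∣ Nat.card (Subgroup.centralizer ({u} : Set G)) := by
  intro h3
  have h1 := self_pairing hS he hexp hk huo hu hx
  have h2 := card_Xset_rational huo hk hrat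
  have hG0 : Fintype.card G ≠ 0 := Fintype.card_ne_zero
  have hC0 : Nat.card (Subgroup.centralizer ({u} : Set G)) ≠ 0 := Nat.card_pos.ne'
  have hX0 : (Xset u).card ≠ 0 := by
    rw [Finset.card_ne_zero]
    exact ⟨u, mem_Xset.2 ⟨1, by simp⟩⟩
  have h4 := card_fac_mul (p := p) hG0 h2
  have h5 := (hp.out.pow_dvd_iff_le_factorization hC0).1 h3
  have h6 := (hp.out.pow_dvd_iff_le_factorization
    (mul_ne_zero (pow_ne_zero 2 hp.out.ne_zero) hX0)).1 h1
  rw [Nat.factorization_mul (pow_ne_zero 2 hp.out.ne_zero) hX0, Finsupp.add_apply,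
    Nat.Prime.factorization_pow hp.out, Finsupp.single_eq_same] at h6
  omega

theorem nec_one (hS : Spade G p) (P : Sylow p G) (hP : ¬ IsCyclic P)
    (hexp : ∀ c : G, PEl p c → c ^ p = 1) :
    (∀ u ∈ P, u ^ p = 1) ∧ (∀ u ∈ P, ∀ j : ℕ, j.Coprime p → IsConj u (u ^ j)) ∧
    (∀ u ∈ P, ∀ v ∈ P, u ≠ 1 → v ≠ 1 →
      p ^ 3 ∣ Nat.card (Subgroup.centralizer ({u} : Set G)) →
      p ^ 3 ∣ Nat.card (Subgroup.centralizer ({v} : Set G)) → IsConj u v) := by
  classical
  have hPel : ∀ u ∈ P, PEl p u := by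
    intro u hu
    obtain ⟨n, hn⟩ := P.2 ⟨u, hu⟩
    exact ⟨n, by simpa using congrArg Subtype.val hn⟩
  have hexp' : ∀ c : G, PEl p c → c ^ p ^ 1 = 1 := by
    intro c hc; rw [pow_one]; exact hexp c hc
  have hord : ∀ u ∈ P, u ≠ 1 → orderOf u = p := fun u hu hu1 =>
    orderOf_eq_prime (hexp u (hPel u hu)) hu1
  have hmax : ∀ u ∈ P, u ≠ 1 → MaxCyc p u := fun u hu hu1 =>
    maxCyc_of_exp hexp' (by rw [pow_one]; exact hord u hu hu1)
  have hrat : ∀ u ∈ P, ∀ j : ℕ, j.Coprime p → IsConj u (u ^ j) := by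
    intro u hu j hj
    by_cases hu1 : u = 1
    · rw [hu1, one_pow]
    by_cases hp2 : p = 2
    · subst hp2
      have h2 := hexp u (hPel u hu)
      rw [Nat.coprime_two_right] at hj
      obtain ⟨i, rfl⟩ := hj
      rw [pow_succ, pow_mul, h2, one_pow, one_mul]
    · exact nec_rational hp2 hS P hP (hmax u hu hu1) j hj
  refine ⟨fun u hu => hexp u (hPel u hu), hrat, ?_⟩
  intro u hu v hv hu1 hv1 h3u h3v
  by_contra hcon
  have hnot : ∀ u ∈ P, ∀ v ∈ P, u ≠ 1 → v ≠ 1 → ¬ IsConj u v → ¬ GenConj u v := by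
    intro u hu v hv hu1 hv1 hcon h
    obtain ⟨x, hx⟩ := h
    apply hcon
    have h1 : x * v * x⁻¹ ∈ Subgroup.zpowers u := by rw [← hx]; exact Subgroup.mem_zpowers _
    rw [mem_zpowers_iff_mem_range_orderOf, Finset.mem_image] at h1
    obtain ⟨j, hj, hj2⟩ := h1
    have hcop : j.Coprime p := by
      rw [Nat.coprime_comm, Nat.Prime.coprime_iff_not_dvd hp.out]
      intro hd
      have h2 : u ^ j = 1 := by
        obtain ⟨i, rfl⟩ := hd
        rw [pow_mul, hexp u (hPel u hu), one_pow]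
      rw [h2] at hj2
      apply hv1
      have := hj2.symm
      rwa [mul_inv_eq_one, mul_eq_left] at this
    have h5 : IsConj v (u ^ j) := by rw [hj2]; exact isConj_iff.2 ⟨x, rfl⟩
    exact (hrat u hu j hcop).trans h5.symm
  have key : ∀ u ∈ P, ∀ v ∈ P, u ≠ 1 → v ≠ 1 → ¬ IsConj u v →
      p ^ 3 ∣ Nat.card (Subgroup.centralizer ({v} : Set G)) →
      ((Xset u).card).factorization p ≤ ((Xset v).card).factorization p → False := by
    intro u hu v hv hu1 hv1 hcon h3 hle
    have h1 := two_class_pairing hS hexp (hord u hu hu1) (hord v hv hv1) (hmax u hu hu1)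
      (hmax v hv hv1) (hnot u hu v hv hu1 hv1 hcon) hle
    have huo' : orderOf v = p ^ 1 := by rw [pow_one]; exact hord v hv hv1
    have h2 := card_Xset_rational huo' one_ne_zero (hrat v hv)
    have hG0 : Fintype.card G ≠ 0 := Fintype.card_ne_zero
    have hC0 : Nat.card (Subgroup.centralizer ({v} : Set G)) ≠ 0 := Nat.card_pos.ne'
    have hX0 : (Xset v).card ≠ 0 := by
      rw [Finset.card_ne_zero]
      exact ⟨v, mem_Xset.2 ⟨1, by simp⟩⟩
    have h4 := card_fac_mul (p := p) hG0 h2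
    have h5 := (hp.out.pow_dvd_iff_le_factorization hC0).1 h3
    have h6 := (hp.out.pow_dvd_iff_le_factorization
      (mul_ne_zero (pow_ne_zero 2 hp.out.ne_zero) hX0)).1 h1
    rw [Nat.factorization_mul (pow_ne_zero 2 hp.out.ne_zero) hX0, Finsupp.add_apply,
      Nat.Prime.factorization_pow hp.out, Finsupp.single_eq_same] at h6
    omega
  rcases le_total ((Xset u).card.factorization p) ((Xset v).card.factorization p) with h | h
  · exact key u hu v hv hu1 hv1 hcon h3v h
  · exact key v hv u hu hv1 hu1 (fun h => hcon h.symm) h3u h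

theorem nec_two [Fact (Nat.Prime 2)] (hS : Spade G 2) (hnc : ∀ P : Sylow 2 G, ¬ IsCyclic P)
    {e : ℕ} (he : 2 ≤ e) (hexp : ∀ c : G, PEl 2 c → c ^ 2 ^ e = 1)
    (hex : ∃ y : G, orderOf y = 2 ^ e)
    (hA : ∀ (P : Sylow 2 G) (x : P), x ^ 2 ∈ commutator P) (P : Sylow 2 G) :
    (commutator P).index = 4 := by
  refine two_group_index_four G e he hexp hex hnc ?_ hA ?_ P
  · intro y hy hdvd
    have hX := dvd_card_Xset (p := 2) (by omega : e ≠ 0) hy
    have h1 := self_pairing hS he hexp (by omega : e ≠ 0) hy (maxCyc_of_exp hexp hy) hX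
    have h2 := card_Xset_mul y
    rw [hy, Nat.totient_prime_pow Nat.prime_two (by omega)] at h2
    simp only [Nat.add_one_sub_one, mul_one] at h2
    have hG0 : Fintype.card G ≠ 0 := Fintype.card_ne_zero
    have hN0 : Nat.card (Subgroup.normalizer (Subgroup.zpowers y : Set G)) ≠ 0 := Nat.card_pos.ne'
    have hX0 : (Xset y).card ≠ 0 := by
      rw [Finset.card_ne_zero]
      exact ⟨y, mem_Xset.2 ⟨1, by simp⟩⟩
    have h4 := card_fac_mul (p := 2) (mul_ne_zero hG0 (pow_ne_zero (e - 1) two_ne_zero)) h2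
    rw [Nat.factorization_mul hG0 (pow_ne_zero _ two_ne_zero), Finsupp.add_apply,
      Nat.Prime.factorization_pow Nat.prime_two, Finsupp.single_eq_same] at h4
    have h5 := (Nat.prime_two.pow_dvd_iff_le_factorization hN0).1 hdvd
    have h6 := (Nat.prime_two.pow_dvd_iff_le_factorization
      (mul_ne_zero (pow_ne_zero 2 two_ne_zero) hX0)).1 h1
    rw [Nat.factorization_mul (pow_ne_zero 2 two_ne_zero) hX0, Finsupp.add_apply,
      Nat.Prime.factorization_pow Nat.prime_two, Finsupp.single_eq_same] at h6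
    omega
  · intro b hb hY hYc hN hI
    exact nec_sign hS he hexp b hb hY hYc hN hI

theorem nec_odd (hp2 : p ≠ 2) (hS : Spade G p) (P : Sylow p G) (hP : ¬ IsCyclic P)
    {e : ℕ} (he : 2 ≤ e) (hexp : ∀ c : G, PEl p c → c ^ p ^ e = 1)
    (hex : ∃ y : G, orderOf y = p ^ e)
    (hPL : ∀ (P : Sylow p G) (v : P), v ^ p = 1 → v ∉ commutator P →
      (∀ φ : P ≃* P, φ v * v⁻¹ ∈ commutator P) → False) : False := by
  classical
  have hp3 : 3 ≤ p := by
    have := hp.out.two_le
    omega
  -- rationality and small centralizers of elements of order p ^ e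
  have hrat : ∀ u : G, orderOf u = p ^ e → ∀ j : ℕ, j.Coprime p → IsConj u (u ^ j) :=
    fun u hu j hj => nec_rational hp2 hS P hP (maxCyc_of_exp hexp hu) j hj
  have hsmall : ∀ u : G, orderOf u = p ^ e →
      ¬ p ^ 3 ∣ Nat.card (Subgroup.centralizer ({u} : Set G)) := by
    intro u hu
    exact centralizer_small hS he hexp (by omega : e ≠ 0) hu (maxCyc_of_exp hexp hu)
      (dvd_card_Xset (by omega : e ≠ 0) hu) (hrat u hu)
  have he2 : e = 2 := by
    obtain ⟨y, hy⟩ := hex
    by_contra hne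
    apply hsmall y hy
    have h1 : Subgroup.zpowers y ≤ Subgroup.centralizer ({y} : Set G) := by
      rw [Subgroup.zpowers_le]
      exact Subgroup.mem_centralizer_singleton_iff.2 rfl
    have h2 := Subgroup.card_dvd_of_le h1
    rw [Nat.card_zpowers, hy] at h2
    exact dvd_trans (pow_dvd_pow p (by omega)) h2
  subst he2
  -- every Sylow subgroup contains an element of order p ^ 2 and has order divisible by p ^ 3
  have hnc : ∀ Q : Sylow p G, ¬ IsCyclic Q := by
    intro Q hQ
    apply hP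
    exact isCyclic_of_injective (Sylow.equiv P Q).toMonoidHom (Sylow.equiv P Q).injective
  obtain ⟨y, hy⟩ := hex
  have hcard3 : ∀ Q : Sylow p G, p ^ 3 ∣ Nat.card Q := by
    intro Q
    obtain ⟨x, hx⟩ := PEl.exists_conj_mem Q (pEl_iff_orderOf.2 ⟨2, hy⟩)
    obtain ⟨k, hk⟩ := IsPGroup.iff_card.1 Q.2
    have hox : orderOf (⟨x * y * x⁻¹, hx⟩ : Q) = p ^ 2 := by
      rw [← Subgroup.orderOf_coe]
      show orderOf (x * y * x⁻¹) = p ^ 2
      rw [orderOf_conj', hy]
    have h1 : p ^ 2 ∣ Nat.card Q := by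
      rw [← hox]; exact orderOf_dvd_natCard _
    have h2 : Nat.card Q = p ^ k := hk
    rw [h2] at h1 ⊢
    have h3 := (Nat.pow_dvd_pow_iff_le_right hp.out.one_lt).1 h1
    rcases Nat.lt_or_ge 2 k with h | h
    · exact pow_dvd_pow p h
    · exfalso
      have hk2 : k = 2 := le_antisymm h h3
      apply hnc Q
      apply isCyclic_of_orderOf_eq_card (⟨x * y * x⁻¹, hx⟩ : Q)
      rw [hox, ← hk2]
      exact h2.symm
  have hinv : ∀ u : G, orderOf u = p ^ 2 → IsConj u u⁻¹ := by
    intro u hu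
    have h1 := hrat u hu (p ^ 2 - 1) (by
      rw [Nat.coprime_comm, Nat.Prime.coprime_iff_not_dvd hp.out]
      intro h
      have h2 : p ∣ p ^ 2 := dvd_pow_self p two_ne_zero
      have h3 : 1 ≤ p ^ 2 := Nat.one_le_pow _ _ hp.out.pos
      have h4 := (Nat.dvd_sub h2 h)
      rw [Nat.sub_sub_self h3] at h4
      exact hp.out.one_lt.ne' (Nat.dvd_one.1 h4))
    have h5 : u ^ (p ^ 2 - 1) = u⁻¹ := by
      rw [eq_inv_iff_mul_eq_one, ← pow_succ, Nat.sub_add_cancel (Nat.one_le_pow _ _ hp.out.pos),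
        ← hu, pow_orderOf_eq_one]
    rwa [h5] at h1
  have h4 : ∀ w : G, orderOf w = p → p ^ 3 ∣ Nat.card (Subgroup.centralizer ({w} : Set G)) →
      ¬ p ∣ (Subgroup.centralizer ({w} : Set G)).index := by
    intro w hw h3 hpi
    have hwp : PEl p w := pEl_iff_orderOf.2 ⟨1, by rw [pow_one]; exact hw⟩
    have hw1 : w ≠ 1 := by
      rintro rfl
      rw [orderOf_one] at hw
      exact hp.out.one_lt.ne hw
    by_cases hmax : MaxCyc p w
    · have hr := fun j hj => nec_rational hp2 hS P hP hmax j hj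
      have hwo : orderOf w = p ^ 1 := by rw [pow_one]; exact hw
      refine centralizer_small hS he hexp one_ne_zero hwo hmax ?_ hr h3
      have h5 := card_Xset_rational hwo one_ne_zero hr
      have h6 : (Xset w).card = (Subgroup.centralizer ({w} : Set G)).index := by
        have h7 := Subgroup.card_mul_index (Subgroup.centralizer ({w} : Set G))
        rw [Nat.card_eq_fintype_card (α := G), ← h5, mul_comm] at h7
        exact (Nat.eq_of_mul_eq_mul_right Nat.card_pos h7).symm
      rw [h6]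
      simpa using hpi
    · -- w is a power of an element of order p ^ 2
      unfold MaxCyc at hmax
      push Not at hmax
      obtain ⟨c, hc, hwc, hcw⟩ := hmax hwp
      have hoc : orderOf c = p ^ 2 := by
        have h5 := orderOf_dvd_of_pow_eq_one (hexp c hc)
        obtain ⟨k, hk, hk2⟩ := (Nat.dvd_prime_pow hp.out).1 h5
        rw [hk2]
        congr 1
        by_contra hne
        apply hcw
        have h6 : orderOf c ≤ orderOf w := by
          rw [hk2, hw]
          calc p ^ k ≤ p ^ 1 := Nat.pow_le_pow_right hp.out.pos (by omega)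
          _ = p := pow_one p
        rw [eq_zpowers_of_order hwc h6]
        exact Subgroup.mem_zpowers c
      obtain ⟨S, hcS⟩ : ∃ S : Sylow p G, c ∈ S := by
        obtain ⟨x, hx⟩ := PEl.exists_conj_mem P hc
        refine ⟨x⁻¹ • P, ?_⟩
        have h2 : x⁻¹ * (x * c * x⁻¹) * x⁻¹⁻¹ ∈ ((x⁻¹ • P : Sylow p G) : Subgroup G) := by
          rw [Sylow.coe_subgroup_smul]
          exact Subgroup.smul_mem_pointwise_smul _ _ _ hx
        have h3 : x⁻¹ * (x * c * x⁻¹) * x⁻¹⁻¹ = c := by group
        rw [h3] at h2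
        exact h2
      have h5 := Odd.center_of_sq S.2 (hcard3 S) hcS hoc (hsmall c hoc)
      have hwcp : w ∈ Subgroup.zpowers (c ^ p) := by
        rcases Odd.mem_zpowers_sq hoc hwc with h | h
        · exfalso
          have h6 : Subgroup.zpowers c ≤ Subgroup.zpowers w := by
            rw [Subgroup.zpowers_le]; exact h
          exact hcw (h6 (Subgroup.mem_zpowers c))
        · exact h
      have h6 : (S : Subgroup G) ≤ Subgroup.centralizer ({w} : Set G) := by
        intro x hx
        rw [Subgroup.mem_centralizer_singleton_iff]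
        obtain ⟨i, hi⟩ := Subgroup.mem_zpowers_iff.1 hwcp
        rw [← hi]
        exact (Commute.zpow_right (h5.1 x hx) i).eq
      have h7 : (Subgroup.centralizer ({w} : Set G)).index ∣ (S : Subgroup G).index :=
        Subgroup.index_dvd_of_le h6
      exact S.not_dvd_index (dvd_trans hpi h7)
  by_cases hn : p ^ 4 ∣ Nat.card G
  · refine odd_case p hp2 G ?_ hexp hsmall hinv h4 ⟨y, hy⟩ hn
    intro x hx1 hx K hK hKx
    exact nec_a hS P hP x hx1 hx K hK hKx
  · -- |P| = p ^ 3
    obtain ⟨x, hx⟩ := PEl.exists_conj_mem P (pEl_iff_orderOf.2 ⟨2, hy⟩)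
    set u : P := ⟨x * y * x⁻¹, hx⟩ with hu
    have huo : orderOf u = p ^ 2 := by
      rw [hu, ← Subgroup.orderOf_coe]
      show orderOf (x * y * x⁻¹) = p ^ 2
      rw [orderOf_conj', hy]
    have huo' : orderOf (u : G) = p ^ 2 := by
      show orderOf (x * y * x⁻¹) = p ^ 2
      rw [orderOf_conj', hy]
    have hPcard : Nat.card P = p ^ 3 := by
      obtain ⟨k, hk⟩ := IsPGroup.iff_card.1 P.2
      have h2 : Nat.card P = p ^ k := hk
      have h3 := hcard3 P
      rw [h2] at h3
      have h5 := (Nat.pow_dvd_pow_iff_le_right hp.out.one_lt).1 h3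
      rw [h2]
      congr 1
      by_contra hne
      apply hn
      have h6 : Nat.card P ∣ Nat.card G := Subgroup.card_subgroup_dvd_card _
      rw [h2] at h6
      exact dvd_trans (pow_dvd_pow p (by omega)) h6
    obtain ⟨v, hv1, hv2, hv3⟩ := odd_three p hp2 P hPcard u huo (by
      intro z hz
      have h5 := Odd.cent_of_sq P.2 u.2 huo' (hsmall _ huo') z.2 (by
        simpa using congrArg Subtype.val hz)
      obtain ⟨i, hi⟩ := Subgroup.mem_zpowers_iff.1 h5
      rw [Subgroup.mem_zpowers_iff]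
      exact ⟨i, Subtype.ext (by simpa using hi)⟩)
    exact hPL P v hv1 hv2 hv3

/-- exponent of the Sylow subgroups -/
theorem exists_exponent (P : Sylow p G) (hP : ¬ IsCyclic P) :
    ∃ e : ℕ, 1 ≤ e ∧ (∀ c : G, PEl p c → c ^ p ^ e = 1) ∧ ∃ y : G, orderOf y = p ^ e := by
  classical
  have hex : ∃ e : ℕ, ∀ c : G, PEl p c → c ^ p ^ e = 1 :=
    ⟨(Fintype.card G).factorization p, fun c hc => pEl_iff_pow.1 hc⟩
  have hspec := Nat.find_spec hex
  set e := Nat.find hex with he
  have he0 : e ≠ 0 := by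
    intro h0
    apply hP
    have h1 : ∀ x : P, x = 1 := by
      intro x
      obtain ⟨n, hn⟩ := P.2 x
      have h2 := hspec (x : G) ⟨n, by simpa using congrArg Subtype.val hn⟩
      rw [h0, pow_zero, pow_one] at h2
      exact Subtype.ext h2
    have : Subsingleton P := ⟨fun a b => by rw [h1 a, h1 b]⟩
    infer_instance
  refine ⟨e, Nat.one_le_iff_ne_zero.2 he0, hspec, ?_⟩
  have hmin := Nat.find_min hex (m := e - 1) (by omega)
  push Not at hmin
  obtain ⟨c, hc, hc2⟩ := hmin
  refine ⟨c, ?_⟩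
  have h1 := orderOf_dvd_of_pow_eq_one (hspec c hc)
  obtain ⟨k, hk, hk2⟩ := (Nat.dvd_prime_pow hp.out).1 h1
  rw [hk2]
  congr 1
  by_contra hne
  apply hc2
  rw [← orderOf_dvd_iff_pow_eq_one, hk2]
  exact pow_dvd_pow p (by omega)

end Pool.Agent.H44.IC
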