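import Pool.Agent.H44.IC.SuffExp

/-! Necessity: centralizers of nontrivial `p'`-elements have cyclic Sylow `p`-subgroups. -/

open scoped ComplexConjugate
noncomputable section
namespace Pool.Agent.H44.IC

section general

variable {p : ℕ} [hp : Fact p.Prime]

/-- In a finite group with a noncyclic `p`-subgroup no element has the full `p`-part of the group
order. -/
theorem lt_factorization_of_noncyclic {H : Type*} [Group H] [Finite H] (K : Subgroup H)
    (hK : IsPGroup p K) (hnc : ¬ IsCyclic K) (c : H) :
    (orderOf c).factorization p < (Nat.card H).factorization p := by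
  by_contra hcon
  apply hnc
  have hle : (orderOf c).factorization p ≤ (Nat.card H).factorization p :=
    (Nat.factorization_le_iff_dvd (orderOf_pos c).ne' Nat.card_pos.ne').2 (orderOf_dvd_natCard c) p
  have heq : (orderOf c).factorization p = (Nat.card H).factorization p := by omega
  set n := (Nat.card H).factorization p with hn
  have hd : p ^ n ∣ orderOf c := by
    rw [← heq]; exact Nat.ordProj_dvd _ _
  set c' := c ^ (orderOf c / p ^ n) with hc'
  have hoc : orderOf c' = p ^ n := orderOf_pow_orderOf_div (orderOf_pos c).ne' hd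
  have hcard : Nat.card (Subgroup.zpowers c') = p ^ (Nat.card H).factorization p := by
    rw [Nat.card_zpowers, hoc]
  let S : Sylow p H := Sylow.ofCard (Subgroup.zpowers c') hcard
  obtain ⟨Q, hQ⟩ := hK.exists_le_sylow
  have e : Q ≃* S := Q.equiv S
  have hS : IsCyclic S := by
    show IsCyclic (Subgroup.zpowers c')
    infer_instance
  let φ : K →* S := e.toMonoidHom.comp (Subgroup.inclusion hQ)
  exact isCyclic_of_injective φ (e.injective.comp (Subgroup.inclusion_injective hQ))

theorem factorization_prime_mul {m : ℕ} (hm : m ≠ 0) :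
    (p * m).factorization p = m.factorization p + 1 := by
  rw [Nat.factorization_mul hp.out.ne_zero hm, Finsupp.add_apply, hp.out.factorization_self,
    add_comm]

omit hp in
theorem sum_range_mul_eq (F : ℕ → ℂ) (a b : ℕ) :
    ∑ j ∈ Finset.range (b * a), F j = ∑ i ∈ Finset.range b, ∑ j ∈ Finset.range a, F (j + a * i) := by
  induction b with
  | zero => simp
  | succ b ih =>
    rw [Finset.sum_range_succ, ← ih, Nat.succ_mul, Finset.sum_range_add]
    congr 1
    apply Finset.sum_congr rfl
    intro j _
    rw [add_comm, mul_comm]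

/-- periodic functions -/
theorem per_mem {m m' s : ℕ} (hm : m = p ^ s * m') (hm' : ¬ p ∣ m') {h : ℕ → ℂ}
    (hper : ∀ j, h (j + m') = h j) (hval : ∀ j, h j ∈ Op p) {w : ℂ} (hw : w ^ m = 1) :
    (m : ℂ)⁻¹ * ∑ j ∈ Finset.range m, h j * w ^ j ∈ Op p := by
  have hp0 : (p : ℂ) ≠ 0 := by exact_mod_cast hp.out.ne_zero
  have hm'0 : m' ≠ 0 := by rintro rfl; exact hm' (dvd_zero p)
  have hm'0' : (m' : ℂ) ≠ 0 := by exact_mod_cast hm'0
  have hm0 : m ≠ 0 := by rw [hm]; exact mul_ne_zero (pow_ne_zero _ hp.out.ne_zero) hm'0
  have hper' : ∀ i j, h (j + m' * i) = h j := by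
    intro i
    induction i with
    | zero => intro j; simp
    | succ i ih => intro j; rw [mul_add, mul_one, ← add_assoc, hper, ih]
  have key : ∑ j ∈ Finset.range m, h j * w ^ j
      = (∑ j ∈ Finset.range m', h j * w ^ j) * (∑ i ∈ Finset.range (p ^ s), (w ^ m') ^ i) := by
    rw [hm, sum_range_mul_eq, Finset.sum_mul_sum, Finset.sum_comm]
    apply Finset.sum_congr rfl
    intro j _
    apply Finset.sum_congr rfl
    intro i _
    rw [hper', pow_add, pow_mul]; ring
  have hw' : (w ^ m') ^ (p ^ s) = 1 := by rw [← pow_mul, mul_comm, ← hm, hw]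
  rw [key, sum_root hw']
  have hsum : (∑ j ∈ Finset.range m', h j * w ^ j) ∈ Op p := by
    apply Subring.sum_mem
    intro j _
    exact mul_mem (hval j) (pow_mem (Op.root_mem hm0 hw) j)
  split_ifs
  · have e : (m : ℂ)⁻¹ * ((∑ j ∈ Finset.range m', h j * w ^ j) * ((p ^ s : ℕ) : ℂ))
        = (∑ j ∈ Finset.range m', h j * w ^ j) * ((m' : ℂ))⁻¹ := by
      rw [hm]; push_cast; field_simp
    rw [e]
    exact mul_mem hsum (Op.inv_natCast_mem hm')
  · simp

open Classical in
theorem card_conj_mul {G : Type*} [Group G] [Fintype G] (x : G) :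
    ((Finset.univ.filter (fun y => IsConj x y)).card) *
      Nat.card (Subgroup.centralizer ({x} : Set G)) = Fintype.card G := by
  rw [← card_stabilizer_conjAct]
  have h1 : (Finset.univ.filter (fun y => IsConj x y)).card
      = Nat.card (MulAction.orbit (ConjAct G) x) := by
    rw [Nat.card_eq_fintype_card, ← Set.toFinset_card]
    congr 1
    ext y
    simp only [Finset.mem_filter, Finset.mem_univ, true_and, Set.mem_toFinset]
    rw [ConjAct.mem_orbit_conjAct, isConj_comm]
  rw [h1, Nat.card_congr (MulAction.orbitEquivQuotientStabilizer (ConjAct G) x)]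
  rw [← Subgroup.card_eq_card_quotient_mul_card_subgroup, ← Nat.card_eq_fintype_card]
  rfl

end general

variable {G : Type*} [Group G] [Fintype G] {p : ℕ} [hp : Fact p.Prime]

/-- `|G|/p`-type coefficients divided by orders of elements are `p`-integral -/
theorem div_order_mem {a m : ℕ} (hm : m ≠ 0) (ha : p ^ (m.factorization p + 1) ∣ a) :
    ((a : ℂ) / p) / m ∈ Op p := by
  have e : ((a : ℂ) / p) / m = ((a : ℕ) : ℂ) / ((p * m : ℕ) : ℂ) := by
    push_cast; rw [div_div]
  rw [e]
  apply Op.nat_div_mem (mul_ne_zero hp.out.ne_zero hm)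
  rw [factorization_prime_mul hm]
  exact ha

theorem nec_a (hS : Spade G p) (P : Sylow p G) (hP : ¬ IsCyclic P) (x : G) (hx1 : x ≠ 1)
    (hx : ¬ p ∣ orderOf x) (K : Subgroup G) (hK : IsPGroup p K) (hKx : ∀ k ∈ K, k * x = x * k) :
    IsCyclic K := by
  classical
  by_contra hnc
  have hp0 : (p : ℂ) ≠ 0 := by exact_mod_cast hp.out.ne_zero
  have hG0 : (Fintype.card G : ℂ) ≠ 0 := by exact_mod_cast (Fintype.card_pos (α := G)).ne'
  set C := Subgroup.centralizer ({x} : Set G) with hC
  have hC0 : (Nat.card C : ℂ) ≠ 0 := by exact_mod_cast (Nat.card_pos (α := C)).ne'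
  have hmemC : ∀ y : G, y ∈ C ↔ x * y = y * x := by
    intro y
    rw [hC, Subgroup.mem_centralizer_iff]
    simp
  -- K as a subgroup of C
  have hKC : K ≤ C := fun k hk => (hmemC k).2 (hKx k hk).symm
  have hK' : IsPGroup p (K.subgroupOf C) := hK.of_equiv (Subgroup.subgroupOfEquivOfLe hKC).symm
  have hnc' : ¬ IsCyclic (K.subgroupOf C) := by
    intro h
    apply hnc
    exact isCyclic_of_surjective (Subgroup.subgroupOfEquivOfLe hKC).toMonoidHom
      (Subgroup.subgroupOfEquivOfLe hKC).surjective
  have hltC : ∀ c ∈ C, (orderOf c).factorization p < (Nat.card C).factorization p := by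
    intro c hc
    have := lt_factorization_of_noncyclic (K.subgroupOf C) hK' hnc' ⟨c, hc⟩
    rwa [← Subgroup.orderOf_coe] at this
  have hltG : ∀ c : G, (orderOf c).factorization p < (Nat.card G).factorization p := fun c =>
    lt_factorization_of_noncyclic (P : Subgroup G) P.2 hP c
  -- the test functions
  obtain ⟨k, l, hk1, hk2, hl1, hl2, hkl⟩ := exists_exponents G p
  let f : G → ℂ := fun y => (if IsConj x y then (Nat.card C : ℂ) / p else 0)
    - (if y = 1 then (Fintype.card G : ℂ) / p else 0)
  let g : G → ℂ := fun y => if IsConj x (y ^ k) then 1 else 0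
  have hconjiff : ∀ a y : G, IsConj x (a * y * a⁻¹) ↔ IsConj x y := by
    intro a y
    have h1 : IsConj y (a * y * a⁻¹) := isConj_iff.2 ⟨a, rfl⟩
    exact ⟨fun h => h.trans h1.symm, fun h => h.trans h1⟩
  have hfc : IsClassFn f := by
    intro a y
    simp only [f, hconjiff]
    congr 1
    have : a * y * a⁻¹ = 1 ↔ y = 1 := by
      rw [mul_inv_eq_one, mul_eq_left]
    simp only [this]
  have hgc : IsClassFn g := by
    intro a y
    simp only [g, conj_pow, hconjiff]
  have hfR : Rhat p f := by
    refine ⟨hfc, fun c w hw => ?_⟩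
    have hm0 : orderOf c ≠ 0 := (orderOf_pos c).ne'
    unfold coef
    rw [Finset.mul_sum]
    apply Subring.sum_mem
    intro j _
    have e : ((orderOf c : ℕ) : ℂ)⁻¹ * (f (c ^ j) * w ^ j) = (f (c ^ j) / (orderOf c : ℕ)) * w ^ j := by
      ring
    rw [e]
    apply mul_mem _ (pow_mem (Op.root_mem hm0 hw) j)
    simp only [f]
    rw [sub_div]
    apply sub_mem
    · split_ifs with h
      · apply div_order_mem hm0
        obtain ⟨a, ha⟩ := isConj_iff.1 h
        -- a x a⁻¹ = c ^ j, so a⁻¹ c a commutes with x
        have h1 : a⁻¹ * c * a ∈ C := by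
          rw [hmemC]
          have h2 : x = a⁻¹ * c ^ j * a := by rw [← ha]; group
          rw [h2]
          have : a⁻¹ * c ^ j * a * (a⁻¹ * c * a) = a⁻¹ * (c ^ j * c) * a := by group
          rw [this, ← pow_succ, pow_succ']
          group
        have h3 := hltC _ h1
        have h4 : orderOf (a⁻¹ * c * a) = orderOf c := by
          have := orderOf_injective (MulAut.conj a⁻¹).toMonoidHom (MulAut.conj a⁻¹).injective c
          simpa using this
        rw [h4] at h3
        exact (hp.out.pow_dvd_iff_le_factorization Nat.card_pos.ne').2 h3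
      · simp
    · split_ifs with h
      · apply div_order_mem hm0
        have h3 := hltG c
        rw [Nat.card_eq_fintype_card] at h3
        exact (hp.out.pow_dvd_iff_le_factorization Fintype.card_ne_zero).2 h3
      · simp
  have hgR : Rhat p g := by
    refine ⟨hgc, fun c w hw => ?_⟩
    have hm0 : orderOf c ≠ 0 := (orderOf_pos c).ne'
    unfold coef
    set m := orderOf c with hm
    have hmm : m = p ^ (m.factorization p) * (m / p ^ (m.factorization p)) :=
      (Nat.ordProj_mul_ordCompl_eq_self m p).symm
    apply per_mem hmm (Nat.not_dvd_ordCompl hp.out hm0) (h := fun j => g (c ^ j)) _ _ hw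
    · intro j
      simp only [g]
      have h1 : (c ^ (m / p ^ (m.factorization p))) ^ k = 1 := by
        rw [← pow_mul, ← orderOf_dvd_iff_pow_eq_one, ← hm]
        conv_lhs => rw [hmm]
        rw [mul_comm]
        apply Nat.mul_dvd_mul (dvd_refl _)
        refine dvd_trans (pow_dvd_pow p ?_) hk2
        exact (Nat.factorization_le_iff_dvd hm0 Fintype.card_ne_zero).2 orderOf_dvd_card p
      rw [pow_add, (Commute.refl c).pow_pow _ _ |>.mul_pow, h1, mul_one]
    · intro j
      simp only [g]
      split_ifs
      · exact one_mem _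
      · exact zero_mem _
  have hxk : x ^ k = x := by
    rw [p'El_iff_pow] at hx
    conv_rhs => rw [← pow_one x]
    exact pow_modEq hx hk1
  have hcount := card_conj_mul x
  have hcountC : (((Finset.univ.filter (fun y => IsConj x y)).card : ℕ) : ℂ) * (Nat.card C : ℂ)
      = (Fintype.card G : ℂ) := by exact_mod_cast hcount
  have hfS : Sp p f := by
    refine ⟨hfR, ?_⟩
    have : ip f 1 = 0 := by
      unfold ip
      simp only [Pi.one_apply, map_one, mul_one, f]
      rw [Finset.sum_sub_distrib, ← Finset.sum_filter, Finset.sum_const, nsmul_eq_mul,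
        Finset.sum_ite_eq' Finset.univ (1 : G), if_pos (Finset.mem_univ _), ← hcountC]
      ring
    rw [this]; exact zero_mem _
  have hg1 : g 1 = 0 := by
    simp only [g, one_pow]
    rw [if_neg]
    intro h
    apply hx1
    obtain ⟨a, ha⟩ := isConj_iff.1 h
    rwa [mul_inv_eq_one, mul_eq_left] at ha
  have hgS : Sp p g := by
    refine ⟨hgR, ?_⟩
    unfold ip
    simp only [Pi.one_apply, map_one, mul_one]
    rw [sum_eq_sum_Psi (p := p) g]
    apply conj_average (Op p).toAddSubgroup (p'Els G p)
    · intro a u hu
      rw [mem_p'Els] at hu ⊢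
      have : orderOf (a * u * a⁻¹) = orderOf u := by
        have := orderOf_injective (MulAut.conj a).toMonoidHom (MulAut.conj a).injective u
        simpa using this
      rw [this]; exact hu
    · intro a u _
      exact Psi_conj g hgc a u
    · intro x' hx'
      rw [mem_p'Els, p'El_iff_pow] at hx'
      have hx'k : x' ^ k = x' := by
        conv_rhs => rw [← pow_one x']
        exact pow_modEq hx' hk1
      rw [← ell_centralizer]
      have e : ell p (fun u : Subgroup.centralizer ({x'} : Set G) => g (x' * u))
          = (if IsConj x x' then (1 : ℂ) else 0)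
            * ell p (fun _ : Subgroup.centralizer ({x'} : Set G) => (1 : ℂ)) := by
        rw [← ell_mul_left]
        apply ell_congr
        intro u hu
        rw [mul_one]
        have hcomm : Commute x' (u : G) := by
          have := u.2
          rw [Subgroup.mem_centralizer_iff] at this
          exact this x' rfl
        have huk : (u : G) ^ k = 1 := by
          have hu' : PEl p (u : G) := by
            obtain ⟨n, hn⟩ := hu
            exact ⟨n, by simpa using congrArg Subtype.val hn⟩
          rw [pEl_iff_pow] at hu'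
          obtain ⟨t, ht⟩ := hk2
          rw [ht, pow_mul, hu', one_pow]
        simp only [g]
        rw [hcomm.mul_pow, huk, hx'k, mul_one]
      show ell p (fun u : Subgroup.centralizer ({x'} : Set G) => g (x' * u)) ∈ Op p
      rw [e]
      apply mul_mem _ frobenius_count
      split_ifs
      · exact one_mem _
      · exact zero_mem _
  have hfin := hS f g hfS hgS
  have e : ip f g = ((1 : ℕ) : ℂ) / ((p : ℕ) : ℂ) := by
    unfold ip
    have e1 : ∀ y : G, f y * conj (g y) = if IsConj x y then (Nat.card C : ℂ) / p else 0 := by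
      intro y
      by_cases hy : y = 1
      · rw [hy, hg1, if_neg]
        · simp
        · intro h
          apply hx1
          obtain ⟨a, ha⟩ := isConj_iff.1 h
          rwa [mul_inv_eq_one, mul_eq_left] at ha
      · simp only [f]
        by_cases hxy : IsConj x y
        · have hgy : g y = 1 := by
            simp only [g]
            rw [if_pos]
            obtain ⟨a, ha⟩ := isConj_iff.1 hxy
            rw [← ha, conj_pow, hxk]
            exact isConj_iff.2 ⟨a, rfl⟩
          rw [if_pos hxy, if_neg hy, hgy]; simp
        · rw [if_neg hxy, if_neg hy]; simp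
    rw [Finset.sum_congr rfl (fun y _ => e1 y), ← Finset.sum_filter, Finset.sum_const,
      nsmul_eq_mul, ← hcountC]
    have h5 : (((Finset.univ.filter (fun y => IsConj x y)).card : ℕ) : ℂ) ≠ 0 := by
      intro h; rw [h, zero_mul] at hcountC; exact hG0 hcountC.symm
    field_simp
    simp
  rw [e] at hfin
  have := Op.nat_dvd_of_div_mem (p := p) hp.out.ne_zero hfin (k := 1) (by simp)
  rw [pow_one] at this
  exact hp.out.one_lt.ne' (Nat.dvd_one.1 this)

end Pool.Agent.H44.IC
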