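import Pool.Agent.H44.IC.NecSelf

open scoped ComplexConjugate
noncomputable section
namespace Pool.Agent.H44.IC

section coset

variable {p : ℕ} [hp : Fact p.Prime]

omit hp in
theorem sum_hom_complex {K : Type*} [Group K] [Fintype K] (μ : K →* ℂ) [Decidable (μ = 1)] :
    ∑ k, μ k = if μ = 1 then (Nat.card K : ℂ) else 0 := by
  rw [sum_hom_units μ, Nat.card_eq_fintype_card]
  split_ifs <;> simp

open Classical in
omit hp in
theorem coset_sum {K Q : Type*} [Group K] [Fintype K] [Group Q] [Finite Q] (N : Subgroup Q)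
    [N.Normal] (φ : K →* Q) (μ : K →* ℂ) (v : Q) (k0 : K) (hk0 : v⁻¹ * φ k0 ∈ N) :
    (Nat.card K : ℂ)⁻¹ * ∑ k, (if v⁻¹ * φ k ∈ N then (N.index : ℂ) else 0) * μ k
      = ((φ.range ⊔ N).index : ℂ) * μ k0 * (if (∀ m : K, φ m ∈ N → μ m = 1) then 1 else 0) := by
  set M := N.comap φ with hM
  have hF : ∀ k : K, (v⁻¹ * φ (k0 * k) ∈ N) ↔ k ∈ M := by
    intro k
    rw [map_mul, ← mul_assoc, Subgroup.mul_mem_cancel_left N hk0, hM, Subgroup.mem_comap]
  rw [← Equiv.sum_comp (Equiv.mulLeft k0)]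
  have e1 : ∀ k : K, (if v⁻¹ * φ ((Equiv.mulLeft k0) k) ∈ N then (N.index : ℂ) else 0)
      * μ ((Equiv.mulLeft k0) k) = (N.index : ℂ) * μ k0 * (if k ∈ M then μ k else 0) := by
    intro k
    by_cases h : k ∈ M
    · have h1 : v⁻¹ * φ ((Equiv.mulLeft k0) k) ∈ N := (hF k).2 h
      have h2 : μ ((Equiv.mulLeft k0) k) = μ k0 * μ k := map_mul μ k0 k
      rw [if_pos h1, if_pos h, h2]
      ring
    · have h1 : ¬ (v⁻¹ * φ ((Equiv.mulLeft k0) k) ∈ N) := fun h' => h ((hF k).1 h')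
      rw [if_neg h1, if_neg h]
      simp
  rw [Finset.sum_congr rfl (fun k _ => e1 k), ← Finset.mul_sum]
  have e2 : ∑ k : K, (if k ∈ M then μ k else 0) = ∑ m : M, (μ.comp M.subtype) m := by
    rw [← Finset.sum_filter]
    rw [Finset.sum_subtype (p := fun k => k ∈ M) (Finset.univ.filter (fun k => k ∈ M)) (by simp)]
    rfl
  rw [e2, sum_hom_complex]
  have e3 : (μ.comp M.subtype = 1) ↔ (∀ m : K, φ m ∈ N → μ m = 1) := by
    constructor
    · intro h m hm
      have := DFunLike.congr_fun h ⟨m, hm⟩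
      simpa using this
    · intro h
      ext m
      have := h m.1 m.2
      simpa using this
  have hMi : M.index * Nat.card M = Nat.card K := Subgroup.index_mul_card M
  have hMi2 : M.index = N.relIndex φ.range := Subgroup.index_comap N φ
  have h4 : N.relIndex (φ.range ⊔ N) * (φ.range ⊔ N).index = N.index :=
    Subgroup.relIndex_mul_index le_sup_right
  rw [Subgroup.relIndex_sup_right, ← hMi2] at h4
  have hK0 : (Nat.card K : ℂ) ≠ 0 := by exact_mod_cast (Nat.card_pos (α := K)).ne'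
  have hM0 : (Nat.card M : ℂ) ≠ 0 := by exact_mod_cast (Nat.card_pos (α := M)).ne'
  have hi0 : (M.index : ℂ) ≠ 0 := by
    intro h0
    rw [← hMi] at hK0
    apply hK0
    push_cast
    rw [h0, zero_mul]
  by_cases h : μ.comp M.subtype = 1
  · rw [if_pos h, if_pos (e3.1 h), ← h4, ← hMi]
    push_cast
    field_simp
  · rw [if_neg h, if_neg (fun h' => h (e3.2 h'))]
    simp

/-- the additive group `p · O` -/
def pO (p : ℕ) [hp : Fact p.Prime] : AddSubgroup ℂ :=
  (Op p).toAddSubgroup.map (AddMonoidHom.mulLeft (p : ℂ))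

theorem mem_pO {z : ℂ} : z ∈ pO p ↔ ∃ y ∈ Op p, (p : ℂ) * y = z := by
  unfold pO
  rw [AddSubgroup.mem_map]
  rfl

theorem div_mem_of_mem_pO {z : ℂ} (h : z ∈ pO p) : z / p ∈ Op p := by
  obtain ⟨y, hy, rfl⟩ := mem_pO.1 h
  have hp0 : (p : ℂ) ≠ 0 := by exact_mod_cast hp.out.ne_zero
  rw [mul_div_cancel_left₀ _ hp0]
  exact hy

theorem mem_pO_of_div {z : ℂ} (h : z / p ∈ Op p) : z ∈ pO p := by
  have hp0 : (p : ℂ) ≠ 0 := by exact_mod_cast hp.out.ne_zero
  exact mem_pO.2 ⟨_, h, by field_simp⟩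

theorem natCast_mul_mem_pO {n : ℕ} (hn : p ∣ n) {z : ℂ} (hz : z ∈ Op p) : (n : ℂ) * z ∈ pO p := by
  obtain ⟨m, rfl⟩ := hn
  refine mem_pO.2 ⟨(m : ℂ) * z, mul_mem (Op.natCast_mem m) hz, ?_⟩
  push_cast; ring

theorem hom_mem_Op {K : Type*} [Group K] [Finite K] (μ : K →* ℂ) (k : K) : μ k ∈ Op p := by
  apply Op.root_mem (n := Nat.card K) Nat.card_pos.ne'
  rw [← map_pow, pow_card_eq_one', map_one]

open Classical in
/-- coset lemma, Frattini version -/
theorem coset_mem_pO {K Q : Type*} [Group K] [Fintype K] [Group Q] [Finite Q] (hQ : IsPGroup p Q)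
    (N : Subgroup Q) [N.Normal] (hN : N ≤ frattini Q) (φ : K →* Q)
    (hφ : ¬ Function.Surjective φ) (μ : K →* ℂ) (v : Q) :
    (Nat.card K : ℂ)⁻¹ * ∑ k, (if v⁻¹ * φ k ∈ N then (N.index : ℂ) else 0) * μ k ∈ pO p := by
  by_cases h : ∃ k0 : K, v⁻¹ * φ k0 ∈ N
  · obtain ⟨k0, hk0⟩ := h
    rw [coset_sum N φ μ v k0 hk0, mul_assoc]
    apply natCast_mul_mem_pO
    · have h1 : (φ.range ⊔ N) ≠ ⊤ := by
        intro h2
        apply hφ
        rw [← MonoidHom.range_eq_top]
        apply frattini_nongenerating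
        rw [eq_top_iff, ← h2]
        exact sup_le_sup_left hN _
      obtain ⟨n, hn⟩ := hQ.index (φ.range ⊔ N)
      rw [hn]
      apply dvd_pow_self
      rintro rfl
      apply h1
      rw [← Subgroup.index_eq_one, hn, pow_zero]
    · apply mul_mem (hom_mem_Op μ k0)
      split_ifs
      · exact one_mem _
      · exact zero_mem _
  · have : ∀ k : K, (if v⁻¹ * φ k ∈ N then (N.index : ℂ) else 0) * μ k = 0 := by
      intro k
      rw [if_neg (fun hk => h ⟨k, hk⟩), zero_mul]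
    rw [Finset.sum_congr rfl (fun k _ => this k)]
    simp [zero_mem]

end coset

section ind

variable {G : Type*} [Group G] [Fintype G] {p : ℕ} [hp : Fact p.Prime]

open Classical in
/-- extension by zero -/
def extz (P : Subgroup G) (ψ : P → ℂ) (g : G) : ℂ := if h : g ∈ P then ψ ⟨g, h⟩ else 0

/-- induced class function -/
def indf (P : Subgroup G) (ψ : P → ℂ) (g : G) : ℂ :=
  (Nat.card P : ℂ)⁻¹ * ∑ x : G, extz P ψ (x⁻¹ * g * x)

omit [Fintype G] in
theorem extz_mem {P : Subgroup G} {ψ : P → ℂ} {g : G} (h : g ∈ P) : extz P ψ g = ψ ⟨g, h⟩ := by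
  unfold extz; rw [dif_pos h]

omit [Fintype G] in
theorem extz_not_mem {P : Subgroup G} {ψ : P → ℂ} {g : G} (h : g ∉ P) : extz P ψ g = 0 := by
  unfold extz; rw [dif_neg h]

omit [Fintype G] in
theorem extz_conj {P : Subgroup G} {ψ : P → ℂ} (hψ : IsClassFn ψ) {b : G} (hb : b ∈ P) (g : G) :
    extz P ψ (b * g * b⁻¹) = extz P ψ g := by
  by_cases h : g ∈ P
  · have h1 : b * g * b⁻¹ ∈ P := P.mul_mem (P.mul_mem hb h) (P.inv_mem hb)
    rw [extz_mem h, extz_mem h1]
    exact hψ ⟨b, hb⟩ ⟨g, h⟩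
  · have h1 : b * g * b⁻¹ ∉ P := by
      intro h2
      apply h
      have := P.mul_mem (P.mul_mem (P.inv_mem hb) h2) hb
      simpa [mul_assoc] using this
    rw [extz_not_mem h, extz_not_mem h1]

theorem indf_class (P : Subgroup G) (ψ : P → ℂ) : IsClassFn (indf P ψ) := by
  intro x g
  unfold indf
  congr 1
  rw [← Equiv.sum_comp (Equiv.mulLeft x)]
  apply Finset.sum_congr rfl
  intro y _
  simp only [Equiv.coe_mulLeft]
  congr 1
  group

/-- the action of `H × P` on `G` by left and right translations -/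
@[instance_reducible]
def actHP (H P : Subgroup G) : MulAction (H × P) G where
  smul a x := (a.1 : G) * x * (a.2 : G)⁻¹
  one_smul x := by
    show ((1 : H × P).1 : G) * x * ((1 : H × P).2 : G)⁻¹ = x
    simp
  mul_smul a b x := by
    show ((a * b : H × P).1 : G) * x * ((a * b : H × P).2 : G)⁻¹
      = (a.1 : G) * ((b.1 : G) * x * (b.2 : G)⁻¹) * (a.2 : G)⁻¹
    simp [mul_assoc]

/-- the subgroup of `H` conjugated into `P` by `x` -/
def Kx (H P : Subgroup G) (x : G) : Subgroup H :=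
  P.comap ((MulAut.conj x⁻¹).toMonoidHom.comp H.subtype)

omit [Fintype G] in
theorem mem_Kx {H P : Subgroup G} {x : G} {a : H} : a ∈ Kx H P x ↔ x⁻¹ * a * x ∈ P := by
  unfold Kx
  rw [Subgroup.mem_comap]
  simp

/-- the conjugation map to `P` -/
def phx (H P : Subgroup G) (x : G) : Kx H P x →* P :=
  (((MulAut.conj x⁻¹).toMonoidHom.comp H.subtype).comp (Kx H P x).subtype).codRestrict P
    (fun k => k.2)

omit [Fintype G] in
theorem phx_apply (H P : Subgroup G) (x : G) (k : Kx H P x) :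
    ((phx H P x k : P) : G) = x⁻¹ * (k.1 : G) * x := by
  unfold phx
  simp

omit [Fintype G] in
theorem phx_injective (H P : Subgroup G) (x : G) : Function.Injective (phx H P x) := by
  intro a b h
  have h1 := congrArg (fun z : P => (z : G)) h
  simp only [phx_apply] at h1
  have h2 : (a.1 : G) = (b.1 : G) := by
    have := congrArg (fun z => x * z * x⁻¹) h1
    simpa [mul_assoc] using this
  exact Subtype.ext (Subtype.ext h2)

open Classical in
/-- local average -/
def sfun (H P : Subgroup G) (ψ : P → ℂ) (μ : H → ℂ) (x : G) : ℂ :=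
  (Nat.card (Kx H P x) : ℂ)⁻¹ * ∑ a : H, extz P ψ (x⁻¹ * a * x) * μ a

open Classical in
theorem sfun_eq (H P : Subgroup G) (ψ : P → ℂ) (μ : H → ℂ) (x : G) :
    sfun H P ψ μ x = (Nat.card (Kx H P x) : ℂ)⁻¹ *
      ∑ k : Kx H P x, ψ (phx H P x k) * μ k.1 := by
  unfold sfun
  congr 1
  have e : ∀ a : H, extz P ψ (x⁻¹ * a * x) * μ a
      = if h : a ∈ Kx H P x then ψ (phx H P x ⟨a, h⟩) * μ a else 0 := by
    intro a
    by_cases h : a ∈ Kx H P x
    · rw [dif_pos h, extz_mem (mem_Kx.1 h)]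
      congr 2
      apply Subtype.ext
      rw [phx_apply]
    · rw [dif_neg h, extz_not_mem (fun h' => h (mem_Kx.2 h')), zero_mul]
  rw [Finset.sum_congr rfl (fun a _ => e a)]
  rw [← Finset.sum_subset (Finset.subset_univ (Finset.univ.filter (fun a => a ∈ Kx H P x)))]
  · rw [Finset.sum_subtype (p := fun a => a ∈ Kx H P x)
      (Finset.univ.filter (fun a => a ∈ Kx H P x)) (by simp)]
    apply Finset.sum_congr rfl
    intro k _
    rw [dif_pos k.2]
  · intro a _ ha
    rw [dif_neg]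
    intro h
    apply ha
    simp [h]

open Classical in
theorem master_sum (H P : Subgroup G) (ψ : P → ℂ) (μ : H → ℂ) :
    (Nat.card H : ℂ)⁻¹ * ∑ a : H, indf P ψ a * μ a
      = ∑ x : G, ((Nat.card (Kx H P x) : ℂ) / ((Nat.card H : ℂ) * (Nat.card P : ℂ)))
        * sfun H P ψ μ x := by
  have e : ∀ x : G, ((Nat.card (Kx H P x) : ℂ) / ((Nat.card H : ℂ) * (Nat.card P : ℂ)))
        * sfun H P ψ μ x = ((Nat.card H : ℂ) * (Nat.card P : ℂ))⁻¹ *
          ∑ a : H, extz P ψ (x⁻¹ * a * x) * μ a := by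
    intro x
    unfold sfun
    have h0 : (Nat.card (Kx H P x) : ℂ) ≠ 0 := by
      exact_mod_cast (Nat.card_pos (α := (Kx H P x))).ne'
    field_simp
  rw [Finset.sum_congr rfl (fun x _ => e x), ← Finset.mul_sum, Finset.sum_comm, mul_inv, mul_assoc]
  congr 1
  rw [Finset.mul_sum]
  apply Finset.sum_congr rfl
  intro a _
  unfold indf
  rw [Finset.mul_sum, Finset.mul_sum, Finset.sum_mul]
  apply Finset.sum_congr rfl
  intro x _
  ring

theorem master_avg (H P : Subgroup G) (A : AddSubgroup ℂ) (t : G → ℂ)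
    (ht : ∀ (a : H) (b : P) (x : G), t (a * x * (b : G)⁻¹) = t x) (hA : ∀ x, t x ∈ A) :
    ∑ x : G, ((Nat.card (Kx H P x) : ℂ) / ((Nat.card H : ℂ) * (Nat.card P : ℂ))) * t x ∈ A := by
  let := actHP H P
  have h := orbit_average (Γ := H × P) (X := G) A t (fun a x => ht a.1 a.2 x) hA
  have e : ∀ x : G, (Nat.card (MulAction.stabilizer (H × P) x) : ℂ) / (Nat.card (H × P) : ℂ)
      = (Nat.card (Kx H P x) : ℂ) / ((Nat.card H : ℂ) * (Nat.card P : ℂ)) := by
    intro x
    rw [Nat.card_prod]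
    push_cast
    congr 2
    apply Nat.card_congr
    have hs : ∀ a : H × P, a • x = (a.1 : G) * x * (a.2 : G)⁻¹ := fun a => rfl
    refine ⟨fun y => ⟨y.1.1, ?_⟩, fun y => ⟨(y.1, phx H P x y), ?_⟩, fun y => ?_, fun y => rfl⟩
    · have h1 := y.2
      rw [MulAction.mem_stabilizer_iff, hs] at h1
      rw [mem_Kx]
      have h2 : x⁻¹ * (y.1.1 : G) * x = (y.1.2 : G) := by
        rw [mul_inv_eq_iff_eq_mul] at h1
        rw [mul_assoc, h1]; simp
      rw [h2]
      exact y.1.2.2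
    · rw [MulAction.mem_stabilizer_iff, hs]
      show (y.1 : G) * x * ((phx H P x y : P) : G)⁻¹ = x
      rw [phx_apply]; group
    · apply Subtype.ext
      apply Prod.ext
      · rfl
      · apply Subtype.ext
        show ((phx H P x _ : P) : G) = (y.1.2 : G)
        rw [phx_apply]
        have h1 := y.2
        rw [MulAction.mem_stabilizer_iff, hs] at h1
        rw [mul_inv_eq_iff_eq_mul] at h1
        show x⁻¹ * (y.1.1 : G) * x = (y.1.2 : G)
        rw [mul_assoc, h1]; simp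
  rw [Finset.sum_congr rfl (fun x _ => by rw [e x])] at h
  exact h

omit [Fintype G] in
theorem Kx_card_conj (H P : Subgroup G) (a0 : H) (b0 : P) (x : G) :
    Nat.card (Kx H P (a0 * x * (b0 : G)⁻¹)) = Nat.card (Kx H P x) := by
  have h1 : Kx H P (a0 * x * (b0 : G)⁻¹) = (Kx H P x).map (MulAut.conj a0).toMonoidHom := by
    ext a
    rw [Subgroup.mem_map, mem_Kx]
    constructor
    · intro h
      refine ⟨a0⁻¹ * a * a0, ?_, ?_⟩
      · rw [mem_Kx]
        have := P.mul_mem (P.mul_mem (P.inv_mem b0.2) h) b0.2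
        simpa [mul_assoc] using this
      · simp [mul_assoc]
    · rintro ⟨k, hk, rfl⟩
      rw [mem_Kx] at hk
      have := P.mul_mem (P.mul_mem b0.2 hk) (P.inv_mem b0.2)
      simpa [mul_assoc] using this
  rw [h1]
  exact (Nat.card_congr (Subgroup.equivMapOfInjective _ _
        (MulAut.conj a0).injective).toEquiv).symm

open Classical in
theorem sfun_inv (H P : Subgroup G) {ψ : P → ℂ} (hψ : IsClassFn ψ) (μ : H →* ℂ) (a0 : H) (b0 : P)
    (x : G) : sfun H P ψ μ (a0 * x * (b0 : G)⁻¹) = sfun H P ψ μ x := by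
  unfold sfun
  rw [Kx_card_conj]
  congr 1
  rw [← Equiv.sum_comp (MulAut.conj a0).toEquiv]
  apply Finset.sum_congr rfl
  intro a _
  have h1 : (MulAut.conj a0).toEquiv a = a0 * a * a0⁻¹ := rfl
  rw [h1]
  have h2 : (a0 * x * (b0 : G)⁻¹ : G)⁻¹ * ((a0 * a * a0⁻¹ : H) : G) * (a0 * x * (b0 : G)⁻¹)
      = b0 * (x⁻¹ * a * x) * (b0 : G)⁻¹ := by
    push_cast
    group
  rw [h2, extz_conj hψ b0.2]
  congr 1
  rw [map_mul, map_mul, mul_comm (μ a0), mul_assoc, ← map_mul, mul_inv_cancel, map_one, mul_one]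

open Classical in
theorem master_mem (H P : Subgroup G) (A : AddSubgroup ℂ) {ψ : P → ℂ} (hψ : IsClassFn ψ)
    (μ : H →* ℂ) (hA : ∀ x, sfun H P ψ μ x ∈ A) :
    (Nat.card H : ℂ)⁻¹ * ∑ a : H, indf P ψ a * μ a ∈ A := by
  rw [master_sum]
  exact master_avg H P A _ (fun a b x => sfun_inv H P hψ μ a b x) hA

end ind

end Pool.Agent.H44.IC
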