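import Pool.Agent.H44.IC.NecIndA

open scoped ComplexConjugate commutatorElement
noncomputable section
namespace Pool.Agent.H44.IC

section frat

variable {p : ℕ} [hp : Fact p.Prime]

/-- maximal subgroups of finite `p`-groups are normal of index `p` -/
theorem coatom_facts {Q : Type*} [Group Q] [Finite Q] (hQ : IsPGroup p Q) {M : Subgroup Q}
    (hM : IsCoatom M) : commutator Q ≤ M ∧ ∀ x : Q, x ^ p ∈ M := by
  have hnil : Group.IsNilpotent Q := hQ.isNilpotent
  have hN : M.Normal :=
    Subgroup.NormalizerCondition.normal_of_coatom M Group.normalizerCondition_of_isNilpotent hM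
  obtain ⟨k, hk⟩ := (hQ.to_subgroup M).exists_card_eq
  obtain ⟨n, hn⟩ := hQ.exists_card_eq
  have hlt : k < n := by
    by_contra hcon
    have h1 : Nat.card M = Nat.card Q := by
      apply le_antisymm (Subgroup.card_le_card_group M)
      rw [hk, hn]
      exact Nat.pow_le_pow_right hp.out.pos (by omega)
    exact hM.1 ((Subgroup.card_eq_iff_eq_top M).1 h1)
  obtain ⟨K, hK, hMK⟩ := Sylow.exists_subgroup_card_pow_succ (G := Q) (p := p) (n := k)
    (by rw [hn]; exact pow_dvd_pow p hlt) hk
  have hKM : K ≠ M := by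
    rintro rfl
    rw [hk] at hK
    have := Nat.pow_right_injective hp.out.two_le hK
    omega
  have hKtop : K = ⊤ := hM.2 K (lt_of_le_of_ne hMK (Ne.symm hKM))
  have hidx : Nat.card (Q ⧸ M) = p := by
    have h1 := Subgroup.card_eq_card_quotient_mul_card_subgroup M
    rw [hKtop, Subgroup.card_top] at hK
    rw [hK, hk, pow_succ', ] at h1
    exact (Nat.eq_of_mul_eq_mul_right (pow_pos hp.out.pos k) h1).symm
  have hcyc : IsCyclic (Q ⧸ M) := isCyclic_of_prime_card hidx
  constructor
  · rw [← Subgroup.Normal.quotient_commutative_iff_commutator_le]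
    exact ⟨⟨fun a b => (IsCyclic.commGroup (α := Q ⧸ M)).mul_comm a b⟩⟩
  · intro x
    rw [← QuotientGroup.eq_one_iff, QuotientGroup.mk_pow, ← hidx]
    exact pow_card_eq_one'

theorem commutator_le_frattini {Q : Type*} [Group Q] [Finite Q] (hQ : IsPGroup p Q) :
    commutator Q ≤ frattini Q := by
  unfold frattini Order.radical
  apply le_iInf₂
  intro M hM
  exact (coatom_facts hQ hM).1

theorem pow_mem_frattini {Q : Type*} [Group Q] [Finite Q] (hQ : IsPGroup p Q) (x : Q) :
    x ^ p ∈ frattini Q := by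
  unfold frattini Order.radical
  rw [Subgroup.mem_iInf]
  intro M
  rw [Subgroup.mem_iInf]
  intro hM
  exact (coatom_facts hQ hM).2 x

end frat

section frob

variable {G : Type*} [Group G] [Fintype G] {p : ℕ} [hp : Fact p.Prime]

open Classical in
theorem sum_extz (P : Subgroup G) (ψ : P → ℂ) (c : G → ℂ) :
    ∑ g : G, extz P ψ g * c g = ∑ k : P, ψ k * c k := by
  rw [← Finset.sum_subset (Finset.subset_univ (Finset.univ.filter (fun a => a ∈ P)))]
  · rw [Finset.sum_subtype (p := fun a => a ∈ P)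
      (Finset.univ.filter (fun a => a ∈ P)) (by simp)]
    apply Finset.sum_congr rfl
    intro k _
    rw [extz_mem k.2]
  · intro a _ ha
    rw [extz_not_mem, zero_mul]
    intro h
    apply ha
    simp [h]

open Classical in
/-- Frobenius reciprocity -/
theorem ip_indf (P : Subgroup G) (ψ : P → ℂ) {F : G → ℂ} (hF : IsClassFn F) :
    ip (indf P ψ) F = (Nat.card P : ℂ)⁻¹ * ∑ k : P, ψ k * conj (F k) := by
  have hG0 : (Fintype.card G : ℂ) ≠ 0 := by exact_mod_cast (Fintype.card_pos (α := G)).ne'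
  unfold ip indf
  have e1 : ∀ g : G, ((Nat.card P : ℂ)⁻¹ * ∑ x : G, extz P ψ (x⁻¹ * g * x)) * conj (F g)
      = (Nat.card P : ℂ)⁻¹ * ∑ x : G, extz P ψ (x⁻¹ * g * x) * conj (F g) := by
    intro g
    rw [mul_assoc, Finset.sum_mul]
  rw [Finset.sum_congr rfl (fun g _ => e1 g), ← Finset.mul_sum, Finset.sum_comm]
  have e2 : ∀ x : G, ∑ g : G, extz P ψ (x⁻¹ * g * x) * conj (F g) = ∑ k : P, ψ k * conj (F k) := by
    intro x
    rw [← sum_extz P ψ (fun g => conj (F g)), ← Equiv.sum_comp (MulAut.conj x).toEquiv]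
    apply Finset.sum_congr rfl
    intro g _
    have h1 : (MulAut.conj x).toEquiv g = x * g * x⁻¹ := rfl
    rw [h1, hF]
    congr 2
    group
  rw [Finset.sum_congr rfl (fun x _ => e2 x), Finset.sum_const, Finset.card_univ, nsmul_eq_mul]
  field_simp

omit [Group G] in
theorem ip_conj_symm (f g : G → ℂ) : ip g f = conj (ip f g) := by
  unfold ip
  rw [map_mul, map_sum]
  congr 1
  · simp
  · apply Finset.sum_congr rfl
    intro x _
    rw [map_mul]
    simp [mul_comm]

open Classical in
/-- Fourier coefficients of an induced function -/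
theorem coef_indf_mem (P : Subgroup G) {ψ : P → ℂ} (hψ : IsClassFn ψ) (A : AddSubgroup ℂ) (c : G)
    (hA : ∀ (μ : Subgroup.zpowers c →* ℂ) (x : G), sfun (Subgroup.zpowers c) P ψ μ x ∈ A) {w : ℂ}
    (hw : w ^ orderOf c = 1) : coef (indf P ψ) c w ∈ A := by
  have hn : orderOf c ≠ 0 := (orderOf_pos c).ne'
  have hw0 : w ≠ 0 := by
    rintro rfl
    rw [zero_pow hn] at hw
    exact zero_ne_one hw
  set wu : ℂˣ := Units.mk0 w hw0 with hwu
  set c' : Subgroup.zpowers c := ⟨c, Subgroup.mem_zpowers c⟩ with hc'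
  have hgen : ∀ x : Subgroup.zpowers c, x ∈ Subgroup.zpowers c' := by
    rintro ⟨x, k, rfl⟩
    exact ⟨k, by ext; simp [hc']⟩
  have hord : orderOf wu ∣ orderOf c' := by
    rw [Subgroup.orderOf_mk, orderOf_dvd_iff_pow_eq_one]
    ext
    rw [Units.val_pow_eq_pow_val]
    exact hw
  set μ : Subgroup.zpowers c →* ℂ :=
    (Units.coeHom ℂ).comp (monoidHomOfForallMemZpowers hgen hord) with hμ
  have hμc : μ c' = w := by
    rw [hμ, MonoidHom.comp_apply, monoidHomOfForallMemZpowers_apply_gen]
    rfl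
  have h := master_mem (Subgroup.zpowers c) P A hψ μ (hA μ)
  have e : (Nat.card (Subgroup.zpowers c) : ℂ)⁻¹ * ∑ a : Subgroup.zpowers c, indf P ψ a * μ a
      = coef (indf P ψ) c w := by
    unfold coef
    rw [Nat.card_zpowers]
    congr 1
    rw [← Fin.sum_univ_eq_sum_range (fun j => indf P ψ (c ^ j) * w ^ j),
      ← Equiv.sum_comp (finEquivZPowers (isOfFinOrder_of_finite c))]
    apply Finset.sum_congr rfl
    intro j _
    have h1 : (finEquivZPowers (isOfFinOrder_of_finite c)) j = c' ^ (j : ℕ) := by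
      ext
      rw [finEquivZPowers_apply]
      simp [hc']
    rw [h1, map_pow, hμc]
    simp [hc']
  rw [← e]
  exact h

open Classical in
/-- the class function `|Q : N| 1_{vN}` -/
def psiN {Q : Type*} [Group Q] (N : Subgroup Q) (v : Q) (k : Q) : ℂ :=
  if v⁻¹ * k ∈ N then (N.index : ℂ) else 0

theorem psiN_class {Q : Type*} [Group Q] {N : Subgroup Q} (hN : commutator Q ≤ N) (v : Q) :
    IsClassFn (psiN N v) := by
  intro x g
  unfold psiN
  have h : v⁻¹ * (x * g * x⁻¹) ∈ N ↔ v⁻¹ * g ∈ N := by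
    have h1 : v⁻¹ * (x * g * x⁻¹) = (v⁻¹ * g) * ⁅g⁻¹, x⁆ := by
      rw [commutatorElement_def]; group
    rw [h1]
    apply Subgroup.mul_mem_cancel_right
    apply hN
    exact Subgroup.commutator_mem_commutator (Subgroup.mem_top _) (Subgroup.mem_top _)
  by_cases h2 : v⁻¹ * g ∈ N
  · rw [if_pos (h.2 h2), if_pos h2]
  · rw [if_neg (fun h' => h2 (h.1 h')), if_neg h2]

omit [Fintype G] in
theorem not_surjective_phx_of_cyclic {P : Subgroup G} (hP : ¬ IsCyclic P) (c x : G) :
    ¬ Function.Surjective (phx (Subgroup.zpowers c) P x) := by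
  intro h
  apply hP
  exact isCyclic_of_surjective _ h

theorem indf_one_val (P : Subgroup G) (ψ : P → ℂ) : indf P ψ 1 = (P.index : ℂ) * ψ 1 := by
  unfold indf
  have hP0 : (Nat.card P : ℂ) ≠ 0 := by exact_mod_cast (Nat.card_pos (α := P)).ne'
  have e : ∀ x : G, extz P ψ (x⁻¹ * 1 * x) = ψ 1 := by
    intro x
    have : x⁻¹ * 1 * x = 1 := by group
    rw [this, extz_mem P.one_mem]
    rfl
  rw [Finset.sum_congr rfl (fun x _ => e x), Finset.sum_const, Finset.card_univ, nsmul_eq_mul]
  have h1 : (P.index : ℂ) * (Nat.card P : ℂ) = (Fintype.card G : ℂ) := by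
    rw [← Nat.card_eq_fintype_card]
    exact_mod_cast P.index_mul_card
  rw [← h1]
  field_simp

open Classical in
/-- the first test function -/
def fI (p : ℕ) (P : Subgroup G) (ψ : P → ℂ) (g : G) : ℂ :=
  (indf P ψ g - (if g = 1 then (Fintype.card G : ℂ) else 0)) / p

omit hp in
theorem fI_class (P : Subgroup G) (ψ : P → ℂ) : IsClassFn (fI p P ψ) := by
  intro x g
  unfold fI
  rw [indf_class P ψ x g]
  have : x * g * x⁻¹ = 1 ↔ g = 1 := by
    rw [mul_inv_eq_one, mul_eq_left]
  by_cases h2 : g = 1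
  · rw [if_pos (this.2 h2), if_pos h2]
  · rw [if_neg (fun h' => h2 (this.1 h')), if_neg h2]

omit hp in
theorem fI_coef {P : Subgroup G} (ψ : P → ℂ) (c : G) (w : ℂ) :
    coef (fI p P ψ) c w
      = coef (indf P ψ) c w / p - ((Fintype.card G : ℂ) / p) / (orderOf c : ℕ) := by
  classical
  have hn : orderOf c ≠ 0 := (orderOf_pos c).ne'
  unfold coef fI
  have e : ∀ j ∈ Finset.range (orderOf c),
      (indf P ψ (c ^ j) - (if c ^ j = 1 then (Fintype.card G : ℂ) else 0)) / p * w ^ j
      = (indf P ψ (c ^ j) * w ^ j) / p - (if j = 0 then (Fintype.card G : ℂ) / p else 0) := by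
    intro j hj
    rw [Finset.mem_range] at hj
    have h1 : c ^ j = 1 ↔ j = 0 := by
      constructor
      · intro h
        by_contra h0
        exact absurd (orderOf_le_of_pow_eq_one (Nat.pos_of_ne_zero h0) h) (by omega)
      · rintro rfl; exact pow_zero c
    by_cases h : j = 0
    · subst h
      simp
      ring
    · rw [if_neg h, if_neg (fun h' => h (h1.1 h'))]
      ring
  rw [Finset.sum_congr rfl e, Finset.sum_sub_distrib, ← Finset.sum_div,
    Finset.sum_ite_eq' (Finset.range (orderOf c)) 0, if_pos (Finset.mem_range.2 (orderOf_pos c))]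
  ring

theorem fI_sp (P : Sylow p G) (hP : ¬ IsCyclic P) {N : Subgroup P} (hN1 : commutator P ≤ N)
    (hN2 : N ≤ frattini P) (v : P) : Sp p (fI p (P : Subgroup G) (psiN N v)) := by
  classical
  have hp0 : (p : ℂ) ≠ 0 := by exact_mod_cast hp.out.ne_zero
  have hG0 : (Fintype.card G : ℂ) ≠ 0 := by exact_mod_cast (Fintype.card_pos (α := G)).ne'
  have hNn : N.Normal := by
    constructor
    intro n hn g
    have h1 : g * n * g⁻¹ = ⁅g, n⁆ * n := by rw [commutatorElement_def]; group
    rw [h1]
    exact N.mul_mem (hN1 (Subgroup.commutator_mem_commutator (Subgroup.mem_top _)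
      (Subgroup.mem_top _))) hn
  refine ⟨⟨fI_class _ _, fun c w hw => ?_⟩, ?_⟩
  · rw [fI_coef]
    apply sub_mem
    · apply div_mem_of_mem_pO
      apply coef_indf_mem _ (psiN_class hN1 v) _ c _ hw
      intro μ x
      rw [sfun_eq]
      exact coset_mem_pO P.2 N hN2 (phx (Subgroup.zpowers c) P x)
        (not_surjective_phx_of_cyclic hP c x) (μ.comp (Kx (Subgroup.zpowers c) P x).subtype) v
    · apply div_order_mem (orderOf_pos c).ne'
      have h3 := lt_factorization_of_noncyclic (P : Subgroup G) P.2 hP c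
      rw [Nat.card_eq_fintype_card] at h3
      exact (hp.out.pow_dvd_iff_le_factorization Fintype.card_ne_zero).2 h3
  · have h1 : ip (fI p (P : Subgroup G) (psiN N v)) 1 = 0 := by
      have h2 := ip_indf (P : Subgroup G) (psiN N v) (F := 1) (fun _ _ => rfl)
      have h3 := coset_sum N (MonoidHom.id P) (1 : P →* ℂ) v v (by simp)
      have h4 : ((MonoidHom.id P).range ⊔ N).index = 1 := by
        rw [Subgroup.index_eq_one, eq_top_iff]
        intro x _
        exact Subgroup.mem_sup_left ⟨x, rfl⟩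
      have h5 : ip (indf (P : Subgroup G) (psiN N v)) 1 = 1 := by
        rw [h2]
        rw [h4] at h3
        simpa [psiN] using h3
      unfold ip fI at *
      simp only [Pi.one_apply, map_one, mul_one] at h5 ⊢
      rw [← Finset.sum_div, Finset.sum_sub_distrib, Finset.sum_ite_eq' Finset.univ (1 : G),
        if_pos (Finset.mem_univ _), ← mul_div_assoc, mul_sub, h5, inv_mul_cancel₀ hG0]
      simp
    rw [h1]
    exact zero_mem _

theorem gI_sp (P : Subgroup G) (θ : P →* ℂ) : Sp p (indf P θ) := by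
  classical
  have hθc : IsClassFn (θ : P → ℂ) := by
    intro x g
    rw [map_mul, map_mul, mul_comm (θ x), mul_assoc, ← map_mul, mul_inv_cancel, map_one, mul_one]
  refine ⟨⟨indf_class _ _, fun c w hw => ?_⟩, ?_⟩
  · have := coef_indf_mem P hθc (Op p).toAddSubgroup c (fun μ x => ?_) hw
    · exact this
    · rw [sfun_eq]
      have h1 := sum_hom_complex ((θ.comp (phx (Subgroup.zpowers c) P x))
        * (μ.comp (Kx (Subgroup.zpowers c) P x).subtype))
      have h2 : ∑ k : Kx (Subgroup.zpowers c) P x, θ (phx (Subgroup.zpowers c) P x k) * μ k.1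
          = ∑ k, ((θ.comp (phx (Subgroup.zpowers c) P x))
        * (μ.comp (Kx (Subgroup.zpowers c) P x).subtype)) k := rfl
      rw [h2, h1]
      have h0 : (Nat.card (Kx (Subgroup.zpowers c) P x) : ℂ) ≠ 0 := by
        exact_mod_cast (Nat.card_pos (α := (Kx (Subgroup.zpowers c) P x))).ne'
      split_ifs
      · rw [inv_mul_cancel₀ h0]; exact one_mem (Op p)
      · rw [mul_zero]; exact zero_mem _
  · rw [ip_indf P _ (F := 1) (fun _ _ => rfl)]
    simp only [Pi.one_apply, map_one, mul_one]
    rw [sum_hom_complex]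
    have h0 : (Nat.card P : ℂ) ≠ 0 := by exact_mod_cast (Nat.card_pos (α := P)).ne'
    split_ifs
    · rw [inv_mul_cancel₀ h0]; exact one_mem (Op p)
    · rw [mul_zero]; exact zero_mem _

open Classical in
/-- consequence of the criterion -/
theorem spade_cons (hsp : Spade G p) (P : Sylow p G) (hP : ¬ IsCyclic P) {N : Subgroup P}
    (hN1 : commutator P ≤ N) (hN2 : N ≤ frattini P) (v : P) (θ : P →* ℂ) :
    (Nat.card (P : Subgroup G) : ℂ)⁻¹ * ∑ a : (P : Subgroup G),
      indf (P : Subgroup G) (psiN N v) a * conj (θ a) - ((P : Subgroup G).index : ℂ) ∈ pO p := by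
  have hp0 : (p : ℂ) ≠ 0 := by exact_mod_cast hp.out.ne_zero
  have hG0 : (Fintype.card G : ℂ) ≠ 0 := by exact_mod_cast (Fintype.card_pos (α := G)).ne'
  have h := hsp _ _ (fI_sp P hP hN1 hN2 v) (gI_sp (P : Subgroup G) θ)
  apply mem_pO_of_div
  convert h using 1
  have h1 : ip (indf (P : Subgroup G) (psiN N v)) (indf (P : Subgroup G) θ)
      = (Nat.card (P : Subgroup G) : ℂ)⁻¹ * ∑ a : (P : Subgroup G),
        indf (P : Subgroup G) (psiN N v) a * conj (θ a) := by
    rw [ip_conj_symm, ip_indf _ _ (indf_class _ _), map_mul, map_sum]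
    congr 1
    · simp
    · apply Finset.sum_congr rfl
      intro k _
      rw [map_mul]
      simp [mul_comm]
  rw [← h1]
  have h2 : indf (P : Subgroup G) θ 1 = ((P : Subgroup G).index : ℂ) := by
    rw [indf_one_val]
    simp
  unfold ip fI
  have e : ∀ x : G, (indf (P : Subgroup G) (psiN N v) x
      - (if x = 1 then (Fintype.card G : ℂ) else 0)) / p * conj (indf (P : Subgroup G) θ x)
      = (indf (P : Subgroup G) (psiN N v) x * conj (indf (P : Subgroup G) θ x)) / p
        - (if x = 1 then (Fintype.card G : ℂ) * conj (indf (P : Subgroup G) θ x) / p else 0) := by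
    intro x
    split_ifs <;> ring
  rw [Finset.sum_congr rfl (fun x _ => e x), Finset.sum_sub_distrib, ← Finset.sum_div,
    Finset.sum_ite_eq' Finset.univ (1 : G), if_pos (Finset.mem_univ _), h2]
  simp only [map_natCast]
  field_simp

end frob

end Pool.Agent.H44.IC
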