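import Pool.Agent.H44.IC.Count

/-! Necessity: rationality of generators of maximal cyclic `p`-subgroups, `p` odd. -/

open scoped ComplexConjugate
noncomputable section
namespace Pool.Agent.H44.IC

variable {G : Type*} [Group G] {p : ℕ} [hp : Fact p.Prime]

omit hp in
theorem IsConj.pow' {u v : G} (h : IsConj u v) (t : ℕ) : IsConj (u ^ t) (v ^ t) := by
  obtain ⟨x, hx⟩ := isConj_iff.1 h
  exact isConj_iff.2 ⟨x, by rw [← hx, conj_pow]⟩

theorem exists_pow_inv {u : G} {k : ℕ} (huo : orderOf u = p ^ k) {i : ℕ} (hi : ¬ p ∣ i) :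
    ∃ t : ℕ, i * t ≡ 1 [MOD p ^ k] ∧ (u ^ i) ^ t = u := by
  have hcop : Nat.Coprime i (p ^ k) := by
    apply Nat.Coprime.pow_right
    exact ((Nat.Prime.coprime_iff_not_dvd hp.out).2 hi).symm
  obtain ⟨t, ht⟩ := Nat.exists_mul_mod_eq_of_coprime 1 hcop (pow_ne_zero _ hp.out.ne_zero)
  refine ⟨t, ht.2, ?_⟩
  rw [← pow_mul]
  conv_rhs => rw [← pow_one u]
  rw [pow_eq_pow_iff_modEq, huo]
  exact ht.2

theorem not_dvd_of_unit {m s : ℕ} (hm : m ≠ 0) {a : (ZMod (p ^ m))ˣ}
    (h : ((s : ℕ) : ZMod (p ^ m)) = a) : ¬ p ∣ s := by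
  intro hd
  have h1 : Nat.Coprime s (p ^ m) := by
    rw [← ZMod.isUnit_iff_coprime, h]; exact a.isUnit
  have h2 : p ∣ Nat.gcd s (p ^ m) := Nat.dvd_gcd hd (dvd_pow_self p hm)
  rw [Nat.Coprime] at h1
  rw [h1] at h2
  exact hp.out.one_lt.ne' (Nat.dvd_one.1 h2)

/-- the group of exponents (mod `p ^ m`) by which elements of `G` can act on `u` -/
def Rgrp (u : G) {k m : ℕ} (huo : orderOf u = p ^ k) (hm : m ≠ 0) (hmk : m ≤ k) :
    Subgroup (ZMod (p ^ m))ˣ where
  carrier := {a | ∃ s : ℕ, (s : ZMod (p ^ m)) = a ∧ IsConj u (u ^ s)}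
  mul_mem' := by
    rintro a b ⟨s, hs, hs2⟩ ⟨t, ht, ht2⟩
    refine ⟨s * t, by push_cast; rw [hs, ht], ?_⟩
    rw [pow_mul]
    exact ht2.trans (IsConj.pow' hs2 t)
  one_mem' := ⟨1, by simp, by rw [pow_one]⟩
  inv_mem' := by
    rintro a ⟨s, hs, hs2⟩
    have hps := not_dvd_of_unit hm hs
    obtain ⟨t, ht, ht2⟩ := exists_pow_inv (p := p) huo hps
    refine ⟨t, ?_, ?_⟩
    · have h1 : ((s * t : ℕ) : ZMod (p ^ m)) = ((1 : ℕ) : ZMod (p ^ m)) := by
        rw [ZMod.natCast_eq_natCast_iff]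
        exact ht.of_dvd (pow_dvd_pow p hmk)
      push_cast at h1
      rw [hs] at h1
      exact (Units.inv_eq_of_mul_eq_one_right h1).symm ▸ rfl
    · have h1 := IsConj.pow' hs2 t
      rw [ht2] at h1
      exact h1.symm


section val

variable {q : ℕ} [NeZero q]

/-- the values of the test function -/
def tval (R : Finset (ZMod q)ˣ) (j : (ZMod q)ˣ) (a : ZMod q) : ℂ :=
  ∑ r ∈ R, (ZMod.stdAddChar ((r : ZMod q) * a) - ZMod.stdAddChar ((j : ZMod q) * (r : ZMod q) * a))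

theorem stdAddChar_natCast_mul (x : ZMod q) (i : ℕ) :
    (ZMod.stdAddChar (x * (i : ZMod q)) : ℂ) = (ZMod.stdAddChar x) ^ i := by
  rw [mul_comm, ← nsmul_eq_mul, AddChar.map_nsmul_eq_pow]

theorem stdAddChar_pow_card (x : ZMod q) {n : ℕ} (h : q ∣ n) :
    (ZMod.stdAddChar x : ℂ) ^ n = 1 := by
  rw [← stdAddChar_natCast_mul, (ZMod.natCast_eq_zero_iff n q).2 h, mul_zero,
    AddChar.map_zero_eq_one]

theorem stdAddChar_eq_one_iff (x : ZMod q) : (ZMod.stdAddChar x : ℂ) = 1 ↔ x = 0 := by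
  constructor
  · intro h
    apply ZMod.injective_stdAddChar
    rw [h, AddChar.map_zero_eq_one]
  · rintro rfl; exact AddChar.map_zero_eq_one _

theorem stdAddChar_conj (x : ZMod q) : conj (ZMod.stdAddChar x : ℂ) = ZMod.stdAddChar (-x) := by
  have h1 : ‖(ZMod.stdAddChar x : ℂ)‖ = 1 := by
    rw [ZMod.stdAddChar_apply]; exact Circle.norm_coe _
  rw [AddChar.map_neg_eq_inv, Complex.inv_eq_conj h1]

theorem sum_stdAddChar (x : ZMod q) {n : ℕ} (h : q ∣ n) :
    ∑ i ∈ Finset.range n, (ZMod.stdAddChar (x * (i : ZMod q)) : ℂ) = if x = 0 then (n : ℂ) else 0 := by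
  simp only [stdAddChar_natCast_mul]
  rw [sum_root (stdAddChar_pow_card x h)]
  simp only [stdAddChar_eq_one_iff]

theorem tval_mul (H : Subgroup (ZMod q)ˣ) [DecidablePred (· ∈ H)] (j : (ZMod q)ˣ) {s : (ZMod q)ˣ}
    (hs : s ∈ H) (a : ZMod q) :
    tval (Finset.univ.filter (· ∈ H)) j ((s : ZMod q) * a) = tval (Finset.univ.filter (· ∈ H)) j a := by
  unfold tval
  refine Finset.sum_nbij' (fun r => r * s) (fun r => r * s⁻¹) ?_ ?_ ?_ ?_ ?_
  · intro r hr
    rw [Finset.mem_filter] at hr ⊢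
    exact ⟨Finset.mem_univ _, H.mul_mem hr.2 hs⟩
  · intro r hr
    rw [Finset.mem_filter] at hr ⊢
    exact ⟨Finset.mem_univ _, H.mul_mem hr.2 (H.inv_mem hs)⟩
  · intro r _; simp
  · intro r _; simp
  · intro r _
    push_cast
    ring_nf

theorem tval_eq_zero (R : Finset (ZMod q)ˣ) (j : (ZMod q)ˣ) {a : ZMod q}
    (ha : (j : ZMod q) * a = a) : tval R j a = 0 := by
  unfold tval
  apply Finset.sum_eq_zero
  intro r _
  rw [mul_comm (j : ZMod q), mul_assoc, ha, sub_self]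

theorem sum_tval (R : Finset (ZMod q)ˣ) (j : (ZMod q)ˣ) {n : ℕ} (h : q ∣ n) (hq : 1 < q) :
    ∑ i ∈ Finset.range n, tval R j (i : ZMod q) = 0 := by
  unfold tval
  rw [Finset.sum_comm]
  apply Finset.sum_eq_zero
  intro r _
  have : Fact (1 < q) := ⟨hq⟩
  rw [Finset.sum_sub_distrib, sum_stdAddChar _ h, sum_stdAddChar _ h, if_neg r.ne_zero, if_neg]
  · simp
  · rw [← Units.val_mul]; exact (j * r).ne_zero

theorem sum_tval_sq (R : Finset (ZMod q)ˣ) (j : (ZMod q)ˣ) {n : ℕ} (h : q ∣ n)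
    (hj : ∀ r ∈ R, ∀ s ∈ R, r ≠ j * s) :
    ∑ i ∈ Finset.range n, tval R j (i : ZMod q) * conj (tval R j (i : ZMod q))
      = 2 * n * R.card := by
  classical
  have e : ∀ i : ℕ, tval R j (i : ZMod q) * conj (tval R j (i : ZMod q))
      = ∑ r ∈ R, ∑ s ∈ R,
        ((ZMod.stdAddChar (((r : ZMod q) - (s : ZMod q)) * (i : ZMod q)) : ℂ)
          - ZMod.stdAddChar (((r : ZMod q) - (j : ZMod q) * (s : ZMod q)) * (i : ZMod q))
          - ZMod.stdAddChar (((j : ZMod q) * (r : ZMod q) - (s : ZMod q)) * (i : ZMod q))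
          + ZMod.stdAddChar (((j : ZMod q) * (r : ZMod q) - (j : ZMod q) * (s : ZMod q)) * (i : ZMod q))) := by
    intro i
    unfold tval
    rw [map_sum, Finset.sum_mul_sum]
    apply Finset.sum_congr rfl
    intro r _
    apply Finset.sum_congr rfl
    intro s _
    have hx : ∀ x y : ZMod q, (ZMod.stdAddChar ((x - y) * (i : ZMod q)) : ℂ)
        = ZMod.stdAddChar (x * (i : ZMod q)) * ZMod.stdAddChar (-(y * (i : ZMod q))) := by
      intro x y
      rw [sub_mul, sub_eq_add_neg, AddChar.map_add_eq_mul]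
    rw [map_sub, stdAddChar_conj, stdAddChar_conj, hx, hx, hx, hx]
    ring
  rw [Finset.sum_congr rfl (fun i _ => e i), Finset.sum_comm]
  have e2 : ∀ r ∈ R, (∑ i ∈ Finset.range n, ∑ s ∈ R,
        ((ZMod.stdAddChar (((r : ZMod q) - (s : ZMod q)) * (i : ZMod q)) : ℂ)
          - ZMod.stdAddChar (((r : ZMod q) - (j : ZMod q) * (s : ZMod q)) * (i : ZMod q))
          - ZMod.stdAddChar (((j : ZMod q) * (r : ZMod q) - (s : ZMod q)) * (i : ZMod q))
          + ZMod.stdAddChar (((j : ZMod q) * (r : ZMod q) - (j : ZMod q) * (s : ZMod q)) * (i : ZMod q)))) = 2 * n := by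
    intro r hr
    rw [Finset.sum_comm]
    have e3 : ∀ s ∈ R, (∑ i ∈ Finset.range n,
        ((ZMod.stdAddChar (((r : ZMod q) - (s : ZMod q)) * (i : ZMod q)) : ℂ)
          - ZMod.stdAddChar (((r : ZMod q) - (j : ZMod q) * (s : ZMod q)) * (i : ZMod q))
          - ZMod.stdAddChar (((j : ZMod q) * (r : ZMod q) - (s : ZMod q)) * (i : ZMod q))
          + ZMod.stdAddChar (((j : ZMod q) * (r : ZMod q) - (j : ZMod q) * (s : ZMod q)) * (i : ZMod q)))) = if s = r then 2 * (n : ℂ) else 0 := by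
      intro s hs
      rw [Finset.sum_add_distrib, Finset.sum_sub_distrib, Finset.sum_sub_distrib,
        sum_stdAddChar _ h, sum_stdAddChar _ h, sum_stdAddChar _ h, sum_stdAddChar _ h]
      have h1 : ((r : ZMod q) - (s : ZMod q) = 0) ↔ s = r := by
        rw [sub_eq_zero, Units.val_inj, eq_comm]
      have h2 : ¬ ((r : ZMod q) - (j : ZMod q) * (s : ZMod q) = 0) := by
        rw [sub_eq_zero, ← Units.val_mul, Units.val_inj]
        exact hj r hr s hs
      have h3 : ¬ ((j : ZMod q) * (r : ZMod q) - (s : ZMod q) = 0) := by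
        rw [sub_eq_zero, ← Units.val_mul, Units.val_inj]
        exact fun h => hj s hs r hr h.symm
      have h4 : ((j : ZMod q) * (r : ZMod q) - (j : ZMod q) * (s : ZMod q) = 0) ↔ s = r := by
        rw [sub_eq_zero, ← Units.val_mul, ← Units.val_mul, Units.val_inj, mul_right_inj, eq_comm]
      simp only [h1, h4, if_neg h2, if_neg h3]
      split_ifs <;> ring
    rw [Finset.sum_congr rfl e3, Finset.sum_ite_eq' R r, if_pos hr]
  rw [Finset.sum_congr rfl e2, Finset.sum_const, nsmul_eq_mul]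
  ring

end val


variable [Fintype G]

open Classical in
/-- the test function attached to `u`, `m`, `j` -/
def tfun (u : G) {k m : ℕ} (huo : orderOf u = p ^ k) (hm : m ≠ 0) (hmk : m ≤ k)
    (j : (ZMod (p ^ m))ˣ) (y : G) : ℂ :=
  if h : ∃ i : ℕ, IsConj (u ^ i) y then
    tval (Finset.univ.filter (· ∈ Rgrp u huo hm hmk)) j ((h.choose : ℕ) : ZMod (p ^ m)) else 0

open Classical in
theorem tval_wd (u : G) {k m : ℕ} (huo : orderOf u = p ^ k) (hm : m ≠ 0) (hmk : m ≤ k)
    (j : (ZMod (p ^ m))ˣ) (hj : (j : ZMod (p ^ m)) * p = p) {i i' : ℕ}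
    (h : IsConj (u ^ i) (u ^ i')) :
    tval (Finset.univ.filter (· ∈ Rgrp u huo hm hmk)) j ((i : ℕ) : ZMod (p ^ m))
      = tval (Finset.univ.filter (· ∈ Rgrp u huo hm hmk)) j ((i' : ℕ) : ZMod (p ^ m)) := by
  have hk : k ≠ 0 := by omega
  have hz : ∀ l : ℕ, p ∣ l →
      tval (Finset.univ.filter (· ∈ Rgrp u huo hm hmk)) j ((l : ℕ) : ZMod (p ^ m)) = 0 := by
    rintro _ ⟨l, rfl⟩
    apply tval_eq_zero
    push_cast
    rw [← mul_assoc, hj]
  -- p divides i iff p divides i'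
  have ho : orderOf (u ^ i) = orderOf (u ^ i') := by
    obtain ⟨x, hx⟩ := isConj_iff.1 h
    rw [← hx]
    have := orderOf_injective (MulAut.conj x).toMonoidHom (MulAut.conj x).injective (u ^ i)
    simpa using this.symm
  have hdiv : ∀ l : ℕ, p ∣ l ↔ orderOf (u ^ l) ≠ p ^ k := by
    intro l
    rw [orderOf_pow, huo]
    constructor
    · intro hd h1
      have h2 : 1 < (p ^ k).gcd l := by
        have : p ∣ (p ^ k).gcd l := Nat.dvd_gcd (dvd_pow_self p hk) hd
        exact lt_of_lt_of_le hp.out.one_lt (Nat.le_of_dvd (Nat.gcd_pos_of_pos_left _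
          (pow_pos hp.out.pos k)) this)
      have h3 := Nat.div_lt_self (pow_pos hp.out.pos k) h2
      omega
    · intro h1
      by_contra hd
      apply h1
      have : Nat.Coprime (p ^ k) l :=
        Nat.Coprime.pow_left _ ((Nat.Prime.coprime_iff_not_dvd hp.out).2 hd)
      rw [this.gcd_eq_one, Nat.div_one]
  by_cases hi : p ∣ i
  · have hi' : p ∣ i' := by rw [hdiv, ← ho, ← hdiv]; exact hi
    rw [hz i hi, hz i' hi']
  · obtain ⟨t, ht, ht2⟩ := exists_pow_inv (p := p) huo hi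
    have h1 : IsConj u (u ^ (i' * t)) := by
      have := IsConj.pow' h t
      rw [ht2, ← pow_mul] at this
      exact this
    have hi' : ¬ p ∣ i' := by rw [hdiv, ← ho, ← hdiv]; exact hi
    have ht' : ¬ p ∣ t := by
      intro hd
      have h2 : p ∣ i * t := Dvd.dvd.mul_left hd i
      have h3 : i * t ≡ 1 [MOD p] := ht.of_dvd (dvd_pow_self p hk)
      have h4 : (1 : ℕ) ≡ 0 [MOD p] := h3.symm.trans ((Nat.modEq_zero_iff_dvd).2 h2)
      exact hp.out.one_lt.ne' (Nat.dvd_one.1 ((Nat.modEq_zero_iff_dvd).1 h4))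
    have hs : ¬ p ∣ i' * t := by
      rw [hp.out.dvd_mul]; tauto
    have hcop : Nat.Coprime (i' * t) (p ^ m) := by
      apply Nat.Coprime.pow_right
      exact ((Nat.Prime.coprime_iff_not_dvd hp.out).2 hs).symm
    set s : (ZMod (p ^ m))ˣ := ZMod.unitOfCoprime (i' * t) hcop with hsdef
    have hsval : (s : ZMod (p ^ m)) = ((i' * t : ℕ) : ZMod (p ^ m)) := ZMod.coe_unitOfCoprime _ _
    have hsR : s ∈ Rgrp u huo hm hmk := ⟨i' * t, hsval.symm, h1⟩
    have h5 : ((i' : ℕ) : ZMod (p ^ m)) = (s : ZMod (p ^ m)) * ((i : ℕ) : ZMod (p ^ m)) := by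
      rw [hsval]
      have h6 : ((i * t : ℕ) : ZMod (p ^ m)) = ((1 : ℕ) : ZMod (p ^ m)) := by
        rw [ZMod.natCast_eq_natCast_iff]
        exact ht.of_dvd (pow_dvd_pow p hmk)
      push_cast at h6 ⊢
      linear_combination (-(i' : ZMod (p ^ m))) * h6
    rw [h5, tval_mul _ _ hsR]

open Classical in
theorem tfun_eq (u : G) {k m : ℕ} (huo : orderOf u = p ^ k) (hm : m ≠ 0) (hmk : m ≤ k)
    (j : (ZMod (p ^ m))ˣ) (hj : (j : ZMod (p ^ m)) * p = p) {i : ℕ} {y : G}
    (h : IsConj (u ^ i) y) :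
    tfun u huo hm hmk j y
      = tval (Finset.univ.filter (· ∈ Rgrp u huo hm hmk)) j ((i : ℕ) : ZMod (p ^ m)) := by
  have hex : ∃ i : ℕ, IsConj (u ^ i) y := ⟨i, h⟩
  unfold tfun
  rw [dif_pos hex]
  exact tval_wd u huo hm hmk j hj (hex.choose_spec.trans h.symm)

open Classical in
/-- sums over generators -/
theorem sum_generators {u : G} {k : ℕ} (huo : orderOf u = p ^ k) (H : G → ℂ)
    (hz : ∀ i : ℕ, p ∣ i → H (u ^ i) = 0) (hk : k ≠ 0) :
    ∑ d ∈ Finset.univ.filter (fun d : G => Subgroup.zpowers d = Subgroup.zpowers u), H d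
      = ∑ i ∈ Finset.range (p ^ k), H (u ^ i) := by
  have h1 : ∑ i ∈ Finset.range (p ^ k), H (u ^ i)
      = ∑ i ∈ (Finset.range (p ^ k)).filter (fun i => ¬ p ∣ i), H (u ^ i) := by
    rw [Finset.sum_filter]
    apply Finset.sum_congr rfl
    intro i _
    by_cases hi : p ∣ i
    · rw [if_neg (by simpa using hi), hz i hi]
    · rw [if_pos hi]
  rw [h1]
  symm
  apply Finset.sum_bij (fun i _ => u ^ i)
  · intro i hi
    rw [Finset.mem_filter] at hi ⊢
    exact ⟨Finset.mem_univ _, zpowers_pow_eq huo hi.2⟩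
  · intro a ha b hb hab
    rw [Finset.mem_filter, Finset.mem_range, ← huo] at ha hb
    exact pow_injOn_Iio_orderOf ha.1 hb.1 hab
  · intro d hd
    rw [Finset.mem_filter] at hd
    have h2 : d ∈ Subgroup.zpowers u := by rw [← hd.2]; exact Subgroup.mem_zpowers d
    rw [mem_zpowers_iff_mem_range_orderOf, Finset.mem_image] at h2
    obtain ⟨i, hi, hi2⟩ := h2
    refine ⟨i, ?_, hi2⟩
    rw [Finset.mem_filter, ← huo]
    refine ⟨hi, fun hdv => ?_⟩
    have h3 : orderOf (u ^ i) = p ^ k := by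
      rw [hi2, ← Nat.card_zpowers, hd.2, Nat.card_zpowers, huo]
    rw [orderOf_pow, huo] at h3
    have h4 : 1 < (p ^ k).gcd i := by
      have : p ∣ (p ^ k).gcd i := Nat.dvd_gcd (dvd_pow_self p hk) hdv
      exact lt_of_lt_of_le hp.out.one_lt (Nat.le_of_dvd (Nat.gcd_pos_of_pos_left _
        (pow_pos hp.out.pos k)) this)
    have h5 := Nat.div_lt_self (pow_pos hp.out.pos k) h4
    omega
  · intro i _; rfl

/-- The key divisibility: if `j` is not an exponent of the action but is `1` mod `p ^ (m-1)` then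
`p` divides the order of the group of exponents mod `p ^ m`. -/
theorem key_rat (hp2 : p ≠ 2) (hS : Spade G p) (P : Sylow p G) (hP : ¬ IsCyclic P)
    {u : G} (hu : MaxCyc p u) {k m : ℕ} (huo : orderOf u = p ^ k) (hm : m ≠ 0) (hmk : m ≤ k)
    (j : (ZMod (p ^ m))ˣ) (hj : (j : ZMod (p ^ m)) * p = p) (hjR : j ∉ Rgrp u huo hm hmk) :
    p ∣ Nat.card (Rgrp u huo hm hmk) := by
  classical
  have hk : k ≠ 0 := by omega
  have hG0 : (Fintype.card G : ℂ) ≠ 0 := by exact_mod_cast (Fintype.card_pos (α := G)).ne'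
  set R := Finset.univ.filter (· ∈ Rgrp u huo hm hmk) with hR
  have hRcard : R.card = Nat.card (Rgrp u huo hm hmk) := by
    rw [Nat.card_eq_fintype_card, Fintype.card_subtype]
  set f := tfun u huo hm hmk j with hf
  have hfeq : ∀ {i : ℕ} {y : G}, IsConj (u ^ i) y → f y = tval R j ((i : ℕ) : ZMod (p ^ m)) :=
    fun h => tfun_eq u huo hm hmk j hj h
  have hz : ∀ l : ℕ, p ∣ l → tval R j ((l : ℕ) : ZMod (p ^ m)) = 0 := by
    rintro _ ⟨l, rfl⟩
    apply tval_eq_zero
    push_cast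
    rw [← mul_assoc, hj]
  have hfc : IsClassFn f := by
    intro x y
    by_cases hex : ∃ i : ℕ, IsConj (u ^ i) y
    · obtain ⟨i, hi⟩ := hex
      have hi2 : IsConj (u ^ i) (x * y * x⁻¹) := hi.trans (isConj_iff.2 ⟨x, rfl⟩)
      rw [hfeq hi, hfeq hi2]
    · have hex2 : ¬ ∃ i : ℕ, IsConj (u ^ i) (x * y * x⁻¹) := by
        rintro ⟨i, hi⟩
        exact hex ⟨i, hi.trans (isConj_iff.2 ⟨x, rfl⟩ : IsConj y _).symm⟩
      rw [hf]
      unfold tfun
      rw [dif_neg hex, dif_neg hex2]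
  have hsupp : ∀ y, ¬ GenConj u y → f y = 0 := by
    intro y hy
    by_cases hex : ∃ i : ℕ, IsConj (u ^ i) y
    · obtain ⟨i, hi⟩ := hex
      rw [hfeq hi]
      by_cases hpi : p ∣ i
      · exact hz i hpi
      · exfalso
        apply hy
        obtain ⟨x, hx⟩ := isConj_iff.1 hi.symm
        exact ⟨x, by rw [hx, zpowers_pow_eq huo hpi]⟩
    · rw [hf]; unfold tfun; rw [dif_neg hex]
  have hq1 : 1 < p ^ m := Nat.one_lt_pow hm hp.out.one_lt
  have hqk : p ^ m ∣ p ^ k := pow_dvd_pow p hmk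
  have hfR : Rhat p f := by
    apply Rhat.of_maxCyc hu hfc hsupp
    intro c hc w hw
    apply coef_mem_of_cycSpan _ hw
    have h2 : c ∈ Subgroup.zpowers u := by rw [← hc]; exact Subgroup.mem_zpowers c
    rw [mem_zpowers_iff_mem_range_orderOf, Finset.mem_image] at h2
    obtain ⟨a, _, ha⟩ := h2
    have hoc : orderOf c = p ^ k := by rw [← huo, ← Nat.card_zpowers, hc, Nat.card_zpowers]
    have e : (fun i => f (c ^ i)) = ∑ r ∈ R,
        ((fun i : ℕ => (ZMod.stdAddChar ((r : ZMod (p ^ m)) * ((a : ℕ) : ZMod (p ^ m))) : ℂ) ^ i)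
        - (fun i : ℕ => (ZMod.stdAddChar ((j : ZMod (p ^ m)) * (r : ZMod (p ^ m)) * ((a : ℕ) : ZMod (p ^ m))) : ℂ) ^ i)) := by
      ext i
      have h3 : IsConj (u ^ (a * i)) (c ^ i) := by rw [pow_mul, ha]
      rw [hfeq h3]
      unfold tval
      rw [Finset.sum_apply]
      apply Finset.sum_congr rfl
      intro r _
      simp only [Pi.sub_apply]
      rw [← stdAddChar_natCast_mul, ← stdAddChar_natCast_mul]
      push_cast
      rw [mul_assoc (r : ZMod (p ^ m)), mul_assoc ((j : ZMod (p ^ m)) * (r : ZMod (p ^ m)))]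
    rw [e, hoc]
    apply Submodule.sum_mem
    intro r _
    apply Submodule.sub_mem
    · apply Submodule.subset_span
      exact ⟨_, stdAddChar_pow_card _ hqk, rfl⟩
    · apply Submodule.subset_span
      exact ⟨_, stdAddChar_pow_card _ hqk, rfl⟩
  set N := Subgroup.normalizer (Subgroup.zpowers u : Set G) with hN
  have hN0 : (Nat.card N : ℂ) ≠ 0 := by exact_mod_cast (Nat.card_pos (α := N)).ne'
  have hsum : ∀ H : G → ℂ, IsClassFn H → (∀ y, ¬ GenConj u y → H y = 0) →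
      (∀ i : ℕ, p ∣ i → H (u ^ i) = 0) →
      (Fintype.card G : ℂ)⁻¹ * ∑ y, H y
        = (Nat.card N : ℂ)⁻¹ * ∑ i ∈ Finset.range (p ^ k), H (u ^ i) := by
    intro H hH hs hHz
    have h1 := sum_Xset u H hH
    rw [sum_generators huo H hHz hk] at h1
    have h2 : ∑ y, H y = ∑ y ∈ Xset u, H y := by
      symm
      apply Finset.sum_subset (Finset.subset_univ _)
      intro y _ hy
      exact hs y (fun h => hy (mem_Xset.2 h))
    rw [h2]
    field_simp
    linear_combination h1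
  have hfi : ∀ i : ℕ, f (u ^ i) = tval R j ((i : ℕ) : ZMod (p ^ m)) := fun i => hfeq (IsConj.refl _)
  have hfS : Sp p f := by
    refine ⟨hfR, ?_⟩
    have : ip f 1 = 0 := by
      unfold ip
      simp only [Pi.one_apply, map_one, mul_one]
      rw [hsum f hfc hsupp (fun i hi => by rw [hfi, hz i hi])]
      simp only [hfi]
      rw [sum_tval R j hqk hq1, mul_zero]
    rw [this]; exact zero_mem _
  have h1 := hS f f hfS hfS
  have e1 : ip f f = ((2 * p ^ k * R.card : ℕ) : ℂ) / ((Nat.card N : ℕ) : ℂ) := by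
    unfold ip
    rw [hsum (fun y => f y * conj (f y)) (fun x y => by
        show f (x * y * x⁻¹) * conj (f (x * y * x⁻¹)) = f y * conj (f y)
        rw [hfc]) (fun y hy => by rw [hsupp y hy, zero_mul])
      (fun i hi => by rw [hfi, hz i hi, zero_mul])]
    simp only [hfi]
    rw [sum_tval_sq R j hqk]
    · push_cast
      rw [div_eq_inv_mul]
    · intro r hr s hs hrs
      rw [hR, Finset.mem_filter] at hr hs
      apply hjR
      have : j = r * s⁻¹ := by rw [hrs]; simp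
      rw [this]
      exact (Rgrp u huo hm hmk).mul_mem hr.2 ((Rgrp u huo hm hmk).inv_mem hs.2)
  rw [e1] at h1
  have hcardG : p ^ (k + 1) ∣ Nat.card G := by
    have h2 := lt_factorization_of_noncyclic (P : Subgroup G) P.2 hP u
    rw [huo, Nat.Prime.factorization_pow hp.out, Finsupp.single_eq_same] at h2
    exact (hp.out.pow_dvd_iff_le_factorization Nat.card_pos.ne').2 h2
  have hcardN : p ^ (k + 1) ∣ Nat.card N :=
    Sylow.prime_pow_dvd_card_normalizer hcardG (by rw [Nat.card_zpowers, huo])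
  have h3 := Op.nat_dvd_of_div_mem (p := p) Nat.card_pos.ne' h1 hcardN
  have h4 : p ∣ 2 * R.card := by
    rw [pow_succ', mul_comm 2 (p ^ k), mul_assoc, mul_comm p] at h3
    exact Nat.dvd_of_mul_dvd_mul_left (pow_pos hp.out.pos k) h3
  rw [← hRcard]
  rcases hp.out.dvd_mul.1 h4 with h5 | h5
  · exfalso
    exact hp2 ((Nat.prime_dvd_prime_iff_eq hp.out Nat.prime_two).1 h5)
  · exact h5

end Pool.Agent.H44.IC
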