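import Pool.Agent.H44.IC.NecA

/-! Necessity: self-pairings of class functions supported on generators of a maximal cyclic
`p`-subgroup. -/

open scoped ComplexConjugate
noncomputable section
namespace Pool.Agent.H44.IC

variable {G : Type*} [Group G]

/-- `u` generates a maximal cyclic `p`-subgroup -/
def MaxCyc (p : ℕ) (u : G) : Prop :=
  PEl p u ∧ ∀ c : G, PEl p c → u ∈ Subgroup.zpowers c → c ∈ Subgroup.zpowers u

/-- `y` generates a conjugate of the group generated by `u` -/
def GenConj (u y : G) : Prop := ∃ x : G, Subgroup.zpowers (x * y * x⁻¹) = Subgroup.zpowers u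

theorem GenConj.orderOf_eq {u y : G} (h : GenConj u y) : orderOf y = orderOf u := by
  obtain ⟨x, hx⟩ := h
  have h1 : orderOf (x * y * x⁻¹) = orderOf y := by
    have := orderOf_injective (MulAut.conj x).toMonoidHom (MulAut.conj x).injective y
    simpa using this
  rw [← h1, ← Nat.card_zpowers, hx, Nat.card_zpowers]

theorem genConj_conj {u y : G} (x : G) : GenConj u (x * y * x⁻¹) ↔ GenConj u y := by
  constructor
  · rintro ⟨a, ha⟩
    exact ⟨a * x, by rw [← ha]; congr 1; group⟩
  · rintro ⟨a, ha⟩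
    exact ⟨a * x⁻¹, by rw [← ha]; congr 1; group⟩

theorem zpowers_pow_eq {p : ℕ} [hp : Fact p.Prime] {c : G} {k : ℕ} (hc : orderOf c = p ^ k)
    {j : ℕ} (hj : ¬ p ∣ j) : Subgroup.zpowers (c ^ j) = Subgroup.zpowers c := by
  have hcop : Nat.Coprime (orderOf c) j := by
    rw [hc]
    apply Nat.Coprime.pow_left
    exact (Nat.Prime.coprime_iff_not_dvd hp.out).2 hj
  apply le_antisymm
  · rw [Subgroup.zpowers_le]
    exact Subgroup.pow_mem _ (Subgroup.mem_zpowers c) j
  · rw [Subgroup.zpowers_le]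
    obtain ⟨m, hm⟩ := exists_pow_eq_self_of_coprime hcop.symm
    rw [← hm]
    conv_lhs => rw [hm]
    have : c = (c ^ j) ^ m := hm.symm
    rw [this]
    exact Subgroup.pow_mem _ (Subgroup.mem_zpowers _) m

variable [Fintype G] {p : ℕ} [hp : Fact p.Prime]

/-- functions supported on `p`-elements -/
theorem Rhat.of_pEl {f : G → ℂ} (hf : IsClassFn f) (hsupp : ∀ y, ¬ PEl p y → f y = 0)
    (h : ∀ c : G, PEl p c → ∀ w : ℂ, w ^ orderOf c = 1 → coef f c w ∈ Op p) : Rhat p f := by
  refine ⟨hf, fun c w hw => ?_⟩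
  have hm0 : orderOf c ≠ 0 := (orderOf_pos c).ne'
  set m := orderOf c with hm
  set s := m.factorization p with hs
  set m' := m / p ^ s with hm'
  have hmm : m = p ^ s * m' := (Nat.ordProj_mul_ordCompl_eq_self m p).symm
  have hm'p : ¬ p ∣ m' := Nat.not_dvd_ordCompl hp.out hm0
  have hm'0 : m' ≠ 0 := by rintro h0; rw [h0] at hm'p; exact hm'p (dvd_zero p)
  have hm'd : m' ∣ m := ⟨p ^ s, by rw [mul_comm]; exact hmm⟩
  have hoc' : orderOf (c ^ m') = p ^ s := by
    rw [orderOf_pow_of_dvd hm'0 hm'd, ← hm]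
    conv_lhs => rw [hmm]
    exact Nat.mul_div_cancel _ (Nat.pos_of_ne_zero hm'0)
  have hz : ∀ j, f (c ^ j) ≠ 0 → m' ∣ j := by
    intro j hj
    have h1 : PEl p (c ^ j) := by
      by_contra h2; exact hj (hsupp _ h2)
    obtain ⟨N, hN⟩ := h1
    rw [← pow_mul, ← orderOf_dvd_iff_pow_eq_one, ← hm] at hN
    have h2 : m' ∣ j * p ^ N := dvd_trans hm'd hN
    apply Nat.Coprime.dvd_of_dvd_mul_right _ h2
    apply Nat.Coprime.pow_right
    exact ((Nat.Prime.coprime_iff_not_dvd hp.out).2 hm'p).symm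
  have hw' : (w ^ m') ^ orderOf (c ^ m') = 1 := by
    rw [hoc', ← pow_mul, mul_comm, ← hmm, hw]
  have key : coef f c w = ((m' : ℕ) : ℂ)⁻¹ * coef f (c ^ m') (w ^ m') := by
    unfold coef
    rw [hoc', ← hm]
    have e : ∑ j ∈ Finset.range m, f (c ^ j) * w ^ j
        = ∑ j ∈ Finset.range (p ^ s), f ((c ^ m') ^ j) * (w ^ m') ^ j := by
      conv_lhs => rw [hmm, sum_range_mul_eq]
      apply Finset.sum_congr rfl
      intro i _
      rw [Finset.sum_eq_single 0]
      · rw [zero_add, pow_mul, pow_mul]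
      · intro j hj hj0
        have : f (c ^ (j + m' * i)) = 0 := by
          by_contra h1
          have h2 := hz _ h1
          rw [Nat.dvd_add_left (Dvd.intro i rfl)] at h2
          have := Nat.le_of_dvd (Nat.pos_of_ne_zero hj0) h2
          rw [Finset.mem_range] at hj
          omega
        rw [this, zero_mul]
      · intro h1
        exfalso; apply h1
        rw [Finset.mem_range]; exact Nat.pos_of_ne_zero hm'0
    rw [e, hmm]
    push_cast
    rw [mul_inv]
    ring
  rw [key]
  apply mul_mem (Op.inv_natCast_mem hm'p)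
  exact h _ (pEl_iff_orderOf.2 ⟨s, hoc'⟩) _ hw'

/-- functions supported on conjugates of generators of a maximal cyclic `p`-subgroup -/
theorem Rhat.of_maxCyc {u : G} (hu : MaxCyc p u) {f : G → ℂ} (hf : IsClassFn f)
    (hsupp : ∀ y, ¬ GenConj u y → f y = 0)
    (h : ∀ c : G, Subgroup.zpowers c = Subgroup.zpowers u → ∀ w : ℂ, w ^ orderOf c = 1 →
      coef f c w ∈ Op p) : Rhat p f := by
  apply Rhat.of_pEl hf
  · intro y hy
    apply hsupp
    intro h1
    apply hy
    rw [pEl_iff_orderOf, h1.orderOf_eq, ← pEl_iff_orderOf]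
    exact hu.1
  · intro c hc w hw
    by_cases hcu : GenConj u c
    · obtain ⟨x, hx⟩ := hcu
      have h1 : orderOf (x * c * x⁻¹) = orderOf c := by
        have := orderOf_injective (MulAut.conj x).toMonoidHom (MulAut.conj x).injective c
        simpa using this
      have h2 := h _ hx w (by rw [h1]; exact hw)
      have h3 : coef f (x * c * x⁻¹) w = coef f c w := by
        unfold coef
        rw [h1]
        congr 1
        apply Finset.sum_congr rfl
        intro j _
        rw [conj_pow, hf]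
      rw [← h3]; exact h2
    · have h0 : ∀ j, f (c ^ j) = 0 := by
        intro j
        apply hsupp
        rintro ⟨x, hx⟩
        apply hcu
        refine ⟨x, ?_⟩
        have h1 : u ∈ Subgroup.zpowers (x * c * x⁻¹) := by
          have h2 : u ∈ Subgroup.zpowers (x * c ^ j * x⁻¹) := by
            rw [hx]; exact Subgroup.mem_zpowers u
          have h3 : Subgroup.zpowers (x * c ^ j * x⁻¹) ≤ Subgroup.zpowers (x * c * x⁻¹) := by
            rw [Subgroup.zpowers_le, ← conj_pow]
            exact Subgroup.pow_mem _ (Subgroup.mem_zpowers _) j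
          exact h3 h2
        have h2 := hu.2 _ (hc.conj x) h1
        apply le_antisymm
        · rw [Subgroup.zpowers_le]; exact h2
        · rw [Subgroup.zpowers_le]; exact h1
      unfold coef
      simp only [h0, zero_mul, Finset.sum_const_zero, mul_zero]
      exact zero_mem _

open Classical in
/-- the set of elements generating a conjugate of `⟨u⟩` -/
def Xset (u : G) : Finset G := Finset.univ.filter (GenConj u)

theorem mem_Xset {u y : G} : y ∈ Xset u ↔ GenConj u y := by
  classical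
  simp [Xset]

open Classical in
/-- `p` times the indicator function of `Xset u` -/
def FX (p : ℕ) (u : G) (y : G) : ℂ := if GenConj u y then (p : ℂ) else 0

omit [Fintype G] in
theorem FX_class (u : G) : IsClassFn (FX p u) := by
  intro x y
  unfold FX
  have h1 := genConj_conj (u := u) (y := y) x
  by_cases h : GenConj u y
  · rw [if_pos h, if_pos (h1.2 h)]
  · rw [if_neg h, if_neg (fun h' => h (h1.1 h'))]

omit [Fintype G] in
theorem FX_pow {u c : G} {k : ℕ} (hk : k ≠ 0) (hu : orderOf u = p ^ k)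
    (hc : Subgroup.zpowers c = Subgroup.zpowers u) (j : ℕ) :
    FX p u (c ^ j) = if p ∣ j then 0 else (p : ℂ) := by
  classical
  have hoc : orderOf c = p ^ k := by rw [← hu, ← Nat.card_zpowers, hc, Nat.card_zpowers]
  unfold FX
  by_cases hj : p ∣ j
  · rw [if_pos hj, if_neg]
    intro h
    have h1 := h.orderOf_eq
    rw [hu] at h1
    have h2 : (c ^ j) ^ p ^ (k - 1) = 1 := by
      obtain ⟨t, rfl⟩ := hj
      rw [← pow_mul, ← orderOf_dvd_iff_pow_eq_one, hoc]
      have : p * t * p ^ (k - 1) = p ^ k * t := by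
        have h3 : p ^ k = p * p ^ (k - 1) := by
          rw [← pow_succ']; congr 1; omega
        rw [h3]; ring
      rw [this]; exact Dvd.intro t rfl
    have h3 := orderOf_dvd_of_pow_eq_one h2
    rw [h1] at h3
    have h4 := (Nat.pow_dvd_pow_iff_le_right hp.out.one_lt).1 h3
    omega
  · rw [if_neg hj, if_pos]
    refine ⟨1, ?_⟩
    rw [one_mul, inv_one, mul_one, zpowers_pow_eq hoc hj, hc]

theorem coef_indicator_mem {k : ℕ} (hk : k ≠ 0) {w : ℂ} (hw : w ^ p ^ k = 1) :
    ((p ^ k : ℕ) : ℂ)⁻¹ * ∑ j ∈ Finset.range (p ^ k), (if p ∣ j then 0 else (p : ℂ)) * w ^ j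
      ∈ Op p := by
  have hp0 : (p : ℂ) ≠ 0 := by exact_mod_cast hp.out.ne_zero
  have e1 : ∑ j ∈ Finset.range (p ^ k), (if p ∣ j then 0 else (p : ℂ)) * w ^ j
      = p * ∑ j ∈ Finset.range (p ^ k), w ^ j
        - p * ∑ i ∈ Finset.range (p ^ (k - 1)), (w ^ p) ^ i := by
    have h1 : ∀ j, (if p ∣ j then 0 else (p : ℂ)) * w ^ j
        = p * w ^ j - (if p ∣ j then p * w ^ j else 0) := by
      intro j; split_ifs <;> ring
    rw [Finset.sum_congr rfl (fun j _ => h1 j), Finset.sum_sub_distrib, ← Finset.mul_sum]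
    congr 1
    have h2 : p ^ k = p ^ (k - 1) * p := by rw [← pow_succ]; congr 1; omega
    rw [h2, sum_range_mul_eq, Finset.mul_sum]
    apply Finset.sum_congr rfl
    intro i _
    rw [Finset.sum_eq_single 0]
    · rw [zero_add, if_pos (Dvd.intro i rfl), pow_mul]
    · intro j hj hj0
      rw [if_neg]
      intro h3
      rw [Nat.dvd_add_left (Dvd.intro i rfl)] at h3
      have := Nat.le_of_dvd (Nat.pos_of_ne_zero hj0) h3
      rw [Finset.mem_range] at hj
      omega
    · intro h3
      exfalso; apply h3; rw [Finset.mem_range]; exact hp.out.pos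
  have hpk : ((p ^ k : ℕ) : ℂ) = p * ((p ^ (k - 1) : ℕ) : ℂ) := by
    rw [← Nat.cast_mul, ← pow_succ']; congr 2; omega
  have hpk0 : ((p ^ (k - 1) : ℕ) : ℂ) ≠ 0 := by
    exact_mod_cast (pow_ne_zero _ hp.out.ne_zero)
  have hpk1 : ((p ^ k : ℕ) : ℂ) ≠ 0 := by
    exact_mod_cast (pow_ne_zero _ hp.out.ne_zero)
  have hwp : (w ^ p) ^ p ^ (k - 1) = 1 := by
    rw [← pow_mul, ← pow_succ']
    have : k - 1 + 1 = k := by omega
    rw [this, hw]
  rw [e1, mul_sub]
  apply sub_mem
  · have e2 : ((p ^ k : ℕ) : ℂ)⁻¹ * (p * ∑ j ∈ Finset.range (p ^ k), w ^ j)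
        = p * (((p ^ k : ℕ) : ℂ)⁻¹ * ∑ j ∈ Finset.range (p ^ k), w ^ j) := by ring
    rw [e2]
    exact mul_mem (Op.natCast_mem p) (avg_root_mem (pow_ne_zero _ hp.out.ne_zero) hw)
  · have e2 : ((p ^ k : ℕ) : ℂ)⁻¹ * (p * ∑ i ∈ Finset.range (p ^ (k - 1)), (w ^ p) ^ i)
        = ((p ^ (k - 1) : ℕ) : ℂ)⁻¹ * ∑ i ∈ Finset.range (p ^ (k - 1)), (w ^ p) ^ i := by
      rw [hpk]; field_simp
    rw [e2]
    exact avg_root_mem (pow_ne_zero _ hp.out.ne_zero) hwp

theorem FX_rhat {u : G} {k : ℕ} (hk : k ≠ 0) (huo : orderOf u = p ^ k) (hu : MaxCyc p u) :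
    Rhat p (FX p u) := by
  classical
  apply Rhat.of_maxCyc hu (FX_class u)
  · intro y hy
    unfold FX; rw [if_neg hy]
  · intro c hc w hw
    have hoc : orderOf c = p ^ k := by rw [← huo, ← Nat.card_zpowers, hc, Nat.card_zpowers]
    unfold coef
    rw [hoc] at hw ⊢
    simp only [FX_pow hk huo hc]
    exact coef_indicator_mem hk hw

open Classical in
/-- `p ^ e` times the indicator of the identity -/
def dl (p e : ℕ) (y : G) : ℂ := if y = 1 then ((p ^ e : ℕ) : ℂ) else 0

theorem dl_rhat {e : ℕ} (hexp : ∀ c : G, PEl p c → c ^ p ^ e = 1) : Rhat p (dl (G := G) p e) := by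
  classical
  apply Rhat.of_pEl
  · intro x y
    unfold dl
    have : x * y * x⁻¹ = 1 ↔ y = 1 := by
      rw [mul_inv_eq_one, mul_eq_left]
    simp only [this]
  · intro y hy
    unfold dl
    rw [if_neg]
    rintro rfl
    exact hy ⟨0, by simp⟩
  · intro c hc w hw
    unfold coef
    have hm0 : orderOf c ≠ 0 := (orderOf_pos c).ne'
    rw [Finset.sum_eq_single 0]
    · unfold dl
      rw [pow_zero, if_pos rfl, pow_zero, mul_one, ← div_eq_inv_mul]
      apply Op.nat_div_mem hm0
      obtain ⟨s, hs⟩ := pEl_iff_orderOf.1 hc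
      rw [hs, Nat.Prime.factorization_pow hp.out, Finsupp.single_eq_same, ← hs]
      exact orderOf_dvd_of_pow_eq_one (hexp c hc)
    · intro j hj hj0
      unfold dl
      rw [if_neg, zero_mul]
      intro h
      rw [Finset.mem_range] at hj
      have := orderOf_dvd_of_pow_eq_one h
      have := Nat.le_of_dvd (Nat.pos_of_ne_zero hj0) this
      omega
    · intro h
      exfalso; apply h; rw [Finset.mem_range]; exact orderOf_pos c

omit [Fintype G] in
theorem Rhat.add {f g : G → ℂ} (hf : Rhat p f) (hg : Rhat p g) : Rhat p (fun x => f x + g x) := by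
  refine ⟨fun x y => by simp only; rw [hf.1, hg.1], fun c w hw => ?_⟩
  have e : coef (fun x => f x + g x) c w = coef f c w + coef g c w := by
    unfold coef
    simp only [add_mul]
    rw [Finset.sum_add_distrib, mul_add]
  rw [e]
  exact add_mem (hf.2 c w hw) (hg.2 c w hw)

omit [Fintype G] in
theorem Rhat.smul {f : G → ℂ} {a : ℂ} (ha : a ∈ Op p) (hf : Rhat p f) :
    Rhat p (fun x => a * f x) := by
  refine ⟨fun x y => by simp only; rw [hf.1], fun c w hw => ?_⟩
  have e : coef (fun x => a * f x) c w = a * coef f c w := by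
    unfold coef
    simp only [mul_assoc]
    rw [← Finset.mul_sum]; ring
  rw [e]
  exact mul_mem ha (hf.2 c w hw)

/-- The main self-pairing: if `p ^ (e-1)` divides the number `x` of elements generating a conjugate
of the maximal cyclic `p`-subgroup `⟨u⟩` then `|G|_p` divides `p ^ 2 * x`. -/
theorem self_pairing (hS : Spade G p) {e : ℕ} (he : 2 ≤ e) (hexp : ∀ c : G, PEl p c → c ^ p ^ e = 1)
    {u : G} {k : ℕ} (hk : k ≠ 0) (huo : orderOf u = p ^ k) (hu : MaxCyc p u)
    (hx : p ^ (e - 1) ∣ (Xset u).card) :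
    p ^ ((Fintype.card G).factorization p) ∣ p ^ 2 * (Xset u).card := by
  classical
  obtain ⟨t, ht⟩ := hx
  have hp0 : (p : ℂ) ≠ 0 := by exact_mod_cast hp.out.ne_zero
  have hG0 : (Fintype.card G : ℂ) ≠ 0 := by exact_mod_cast (Fintype.card_pos (α := G)).ne'
  have hu1 : ¬ GenConj u 1 := by
    intro h
    have := h.orderOf_eq
    rw [orderOf_one, huo] at this
    have h2 := Nat.one_lt_pow hk hp.out.one_lt
    omega
  set h : G → ℂ := fun y => FX p u y + (-(t : ℂ)) * dl p e y with hh
  have hR : Rhat p h := Rhat.add (FX_rhat hk huo hu)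
    (Rhat.smul (neg_mem (Op.natCast_mem t)) (dl_rhat hexp))
  have hsumF : ∑ y : G, FX p u y = (p : ℂ) * (Xset u).card := by
    unfold FX Xset
    rw [← Finset.sum_filter, Finset.sum_const, nsmul_eq_mul]; ring
  have hsumd : ∑ y : G, dl p e y = ((p ^ e : ℕ) : ℂ) := by
    unfold dl
    rw [Finset.sum_ite_eq' Finset.univ (1 : G), if_pos (Finset.mem_univ _)]
  have hpe : p ^ e = p * p ^ (e - 1) := by rw [← pow_succ']; congr 1; omega
  have hS1 : Sp p h := by
    refine ⟨hR, ?_⟩
    have : ip h 1 = 0 := by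
      unfold ip
      simp only [Pi.one_apply, map_one, mul_one, hh]
      rw [Finset.sum_add_distrib, ← Finset.mul_sum, hsumF, hsumd, ht, hpe]
      push_cast; ring
    rw [this]; exact zero_mem _
  have h1 := hS h h hS1 hS1
  have e1 : ip h h = (((p ^ 2 * (Xset u).card * (1 + (Xset u).card) : ℕ) : ℂ))
      / ((Fintype.card G : ℕ) : ℂ) := by
    unfold ip
    rw [← div_eq_inv_mul]
    congr 1
    have e2 : ∀ y : G, h y * conj (h y) = (p : ℂ) * FX p u y
        + (t : ℂ) ^ 2 * ((p ^ e : ℕ) : ℂ) * dl p e y := by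
      intro y
      simp only [hh]
      by_cases hy : y = 1
      · subst hy
        have hF0 : FX p u (1 : G) = 0 := by unfold FX; rw [if_neg hu1]
        have hd1 : dl p e (1 : G) = ((p ^ e : ℕ) : ℂ) := by unfold dl; rw [if_pos rfl]
        rw [hF0, hd1]
        simp only [map_add, map_mul, map_neg, Complex.conj_natCast, map_zero]
        ring
      · have hd0 : dl p e y = 0 := by unfold dl; rw [if_neg hy]
        rw [hd0]
        unfold FX
        split_ifs
        · simp
        · simp
    rw [Finset.sum_congr rfl (fun y _ => e2 y), Finset.sum_add_distrib, ← Finset.mul_sum,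
      ← Finset.mul_sum, hsumF, hsumd, ht, hpe]
    push_cast; ring
  rw [e1] at h1
  have h2 := Op.nat_dvd_of_div_mem (p := p) Fintype.card_ne_zero h1
    (k := (Fintype.card G).factorization p) (Nat.ordProj_dvd _ _)
  apply Nat.Coprime.dvd_of_dvd_mul_right _ h2
  apply Nat.Coprime.pow_left
  rw [Nat.Prime.coprime_iff_not_dvd hp.out]
  intro h3
  have h4 : p ∣ (Xset u).card := by
    rw [ht]
    have : e - 1 ≠ 0 := by omega
    exact Dvd.dvd.mul_right (dvd_pow_self p this) t
  have h5 : p ∣ 1 := (Nat.dvd_add_left h4).1 h3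
  exact hp.out.one_lt.ne' (Nat.dvd_one.1 h5)

/-- Exponent `p`: the second self-pairing. -/
theorem two_class_pairing (hS : Spade G p) (hexp : ∀ c : G, PEl p c → c ^ p = 1)
    {u v : G} (huo : orderOf u = p) (hvo : orderOf v = p) (hu : MaxCyc p u) (hv : MaxCyc p v)
    (huv : ¬ GenConj u v)
    (hle : ((Xset u).card).factorization p ≤ ((Xset v).card).factorization p) :
    p ^ ((Fintype.card G).factorization p) ∣ p ^ 2 * (Xset v).card := by
  classical
  have hp0 : (p : ℂ) ≠ 0 := by exact_mod_cast hp.out.ne_zero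
  have hG0 : (Fintype.card G : ℂ) ≠ 0 := by exact_mod_cast (Fintype.card_pos (α := G)).ne'
  have huo' : orderOf u = p ^ 1 := by rw [pow_one]; exact huo
  have hvo' : orderOf v = p ^ 1 := by rw [pow_one]; exact hvo
  have hXu : (Xset u).card ≠ 0 := by
    rw [Finset.card_ne_zero]
    exact ⟨u, mem_Xset.2 ⟨1, by simp⟩⟩
  have hXv : (Xset v).card ≠ 0 := by
    rw [Finset.card_ne_zero]
    exact ⟨v, mem_Xset.2 ⟨1, by simp⟩⟩
  have hXu' : ((Xset u).card : ℂ) ≠ 0 := by exact_mod_cast hXu
  set c : ℂ := ((Xset v).card : ℂ) / ((Xset u).card : ℂ) with hc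
  have hcO : c ∈ Op p := by
    apply Op.nat_div_mem hXu
    exact dvd_trans (pow_dvd_pow p hle) (Nat.ordProj_dvd _ _)
  have hdisj : ∀ y : G, GenConj u y → GenConj v y → False := by
    rintro y ⟨a, ha⟩ ⟨b, hb⟩
    apply huv
    -- zpowers (a y a⁻¹) = zpowers u, zpowers (b y b⁻¹) = zpowers v
    refine ⟨a * b⁻¹, ?_⟩
    have h1 : ∀ (x z : G), Subgroup.zpowers (x * z * x⁻¹)
        = (Subgroup.zpowers z).map (MulAut.conj x).toMonoidHom := by
      intro x z
      rw [MonoidHom.map_zpowers]; rfl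
    rw [h1, ← hb, h1, Subgroup.map_map, ← ha, h1]
    congr 1
    ext z
    simp [mul_assoc]
  have hone : ∀ z : G, orderOf z = p → ¬ GenConj z 1 := by
    intro z hz h
    have := h.orderOf_eq
    rw [orderOf_one, hz] at this
    exact hp.out.one_lt.ne this
  set h1 : G → ℂ := fun y => FX p v y + (-c) * FX p u y with hh1
  set h2 : G → ℂ := fun y => FX p v y + (-((Xset v).card : ℂ)) * dl p 1 y with hh2
  have hexp' : ∀ c : G, PEl p c → c ^ p ^ 1 = 1 := by simpa using hexp
  have hR1 : Rhat p h1 := Rhat.add (FX_rhat one_ne_zero hvo' hv)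
    (Rhat.smul (neg_mem hcO) (FX_rhat one_ne_zero huo' hu))
  have hR2 : Rhat p h2 := Rhat.add (FX_rhat one_ne_zero hvo' hv)
    (Rhat.smul (neg_mem (Op.natCast_mem _)) (dl_rhat hexp'))
  have hsumF : ∀ z : G, ∑ y : G, FX p z y = (p : ℂ) * (Xset z).card := by
    intro z
    unfold FX Xset
    rw [← Finset.sum_filter, Finset.sum_const, nsmul_eq_mul]; ring
  have hsumd : ∑ y : G, dl p 1 y = ((p ^ 1 : ℕ) : ℂ) := by
    unfold dl
    rw [Finset.sum_ite_eq' Finset.univ (1 : G), if_pos (Finset.mem_univ _)]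
  have hS1 : Sp p h1 := by
    refine ⟨hR1, ?_⟩
    have : ip h1 1 = 0 := by
      unfold ip
      simp only [Pi.one_apply, map_one, mul_one, hh1]
      rw [Finset.sum_add_distrib, ← Finset.mul_sum, hsumF, hsumF, hc]
      field_simp
      ring
    rw [this]; exact zero_mem _
  have hS2 : Sp p h2 := by
    refine ⟨hR2, ?_⟩
    have : ip h2 1 = 0 := by
      unfold ip
      simp only [Pi.one_apply, map_one, mul_one, hh2]
      rw [Finset.sum_add_distrib, ← Finset.mul_sum, hsumF, hsumd]
      push_cast; ring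
    rw [this]; exact zero_mem _
  have h3 := hS h1 h2 hS1 hS2
  have e1 : ip h1 h2 = (((p ^ 2 * (Xset v).card : ℕ) : ℂ)) / ((Fintype.card G : ℕ) : ℂ) := by
    unfold ip
    rw [← div_eq_inv_mul]
    congr 1
    have e2 : ∀ y : G, h1 y * conj (h2 y) = (p : ℂ) * FX p v y := by
      intro y
      simp only [hh1, hh2]
      by_cases hy : y = 1
      · subst hy
        have hF0 : FX p u (1 : G) = 0 := by unfold FX; rw [if_neg (hone u huo)]
        have hF1 : FX p v (1 : G) = 0 := by unfold FX; rw [if_neg (hone v hvo)]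
        rw [hF0, hF1]
        simp
      · have hd0 : dl p 1 y = 0 := by unfold dl; rw [if_neg hy]
        rw [hd0]
        by_cases hvy : GenConj v y
        · have hF0 : FX p u y = 0 := by unfold FX; rw [if_neg (fun h => hdisj y h hvy)]
          rw [hF0]
          unfold FX
          rw [if_pos hvy]; simp
        · have hF0 : FX p v y = 0 := by unfold FX; rw [if_neg hvy]
          rw [hF0]; simp
    rw [Finset.sum_congr rfl (fun y _ => e2 y), ← Finset.mul_sum, hsumF]
    push_cast; ring
  rw [e1] at h3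
  exact Op.nat_dvd_of_div_mem (p := p) Fintype.card_ne_zero h3
    (k := (Fintype.card G).factorization p) (Nat.ordProj_dvd _ _)

end Pool.Agent.H44.IC
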