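import Pool.Agent.H44.IC.Count

/-! Necessity for `p = 2`: the signed test function. -/

open scoped ComplexConjugate
noncomputable section
namespace Pool.Agent.H44.IC

/-- in a finite group, two elements of a cyclic subgroup of the same order generate the same
subgroup -/
theorem zpowers_eq_of_orderOf_eq {G : Type*} [Group G] [Finite G] {c a a' : G}
    (ha : a ∈ Subgroup.zpowers c) (ha' : a' ∈ Subgroup.zpowers c) (h : orderOf a = orderOf a') :
    Subgroup.zpowers a = Subgroup.zpowers a' := by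
  classical
  have key : ∀ b : G, b ∈ Subgroup.zpowers c → orderOf b = orderOf a →
      ∀ z : G, z ∈ Subgroup.zpowers b ↔ (z ∈ Subgroup.zpowers c ∧ z ^ orderOf a = 1) := by
    intro b hb hob
    have : Fintype (Subgroup.zpowers c) := Fintype.ofFinite _
    have hle := IsCyclic.card_pow_eq_one_le (α := Subgroup.zpowers c) (n := orderOf a)
      (orderOf_pos a)
    let b' : Subgroup.zpowers c := ⟨b, hb⟩
    have hob' : orderOf b' = orderOf a := by rw [← hob, ← Subgroup.orderOf_coe]
    have hsub : Finset.image (fun i => b' ^ i) (Finset.range (orderOf b'))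
        ⊆ Finset.univ.filter (fun z : Subgroup.zpowers c => z ^ orderOf a = 1) := by
      intro x hx
      rw [Finset.mem_image] at hx
      obtain ⟨i, _, rfl⟩ := hx
      rw [Finset.mem_filter]
      refine ⟨Finset.mem_univ _, ?_⟩
      rw [← hob', ← pow_mul, mul_comm, pow_mul, pow_orderOf_eq_one, one_pow]
    have hcard : (Finset.image (fun i => b' ^ i) (Finset.range (orderOf b'))).card = orderOf a := by
      rw [Finset.card_image_of_injOn, Finset.card_range, hob']
      intro x hx y hy hxy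
      rw [Finset.mem_coe, Finset.mem_range] at hx hy
      exact pow_injOn_Iio_orderOf hx hy hxy
    have heq := Finset.eq_of_subset_of_card_le hsub (by rw [hcard]; exact hle)
    intro z
    constructor
    · intro hz
      obtain ⟨n, rfl⟩ := hz
      refine ⟨Subgroup.zpow_mem _ hb n, ?_⟩
      show (b ^ n) ^ orderOf a = 1
      rw [← zpow_natCast, ← zpow_mul, mul_comm, zpow_mul, zpow_natCast, ← hob, pow_orderOf_eq_one,
        one_zpow]
    · rintro ⟨hz, hz2⟩
      have h1 : (⟨z, hz⟩ : Subgroup.zpowers c) ∈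
          Finset.image (fun i => b' ^ i) (Finset.range (orderOf b')) := by
        rw [heq, Finset.mem_filter]
        exact ⟨Finset.mem_univ _, Subtype.ext (by simpa using hz2)⟩
      rw [Finset.mem_image] at h1
      obtain ⟨i, _, hi⟩ := h1
      have h2 : b ^ i = z := by simpa [b'] using congrArg Subtype.val hi
      rw [← h2]
      exact Subgroup.pow_mem _ (Subgroup.mem_zpowers b) i
  ext z
  rw [key a ha rfl, key a' ha' h.symm]

variable {G : Type*} [Group G] [Fintype G]

section sign

variable (e : ℕ)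

/-- signed class of `y` -/
def scls (y : G) : Set G := {z | ∃ x : G, ∃ j : ℕ, j % 4 = 1 ∧ z = x * y ^ j * x⁻¹}

open Classical in
/-- rank in a linear order of the sets -/
def srk (s : Set G) : ℕ := (Fintype.equivFin (Set G) s : ℕ)

theorem srk_inj {s t : Set G} (h : srk s = srk t) : s = t := by
  classical
  unfold srk at h
  exact (Fintype.equivFin (Set G)).injective (Fin.ext h)

open Classical in
/-- the sign -/
def seps (y : G) : ℂ := if srk (scls y) < srk (scls y⁻¹) then 1 else -1

omit [Fintype G] in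
theorem scls_conj (x y : G) : scls (x * y * x⁻¹) = scls y := by
  ext z
  constructor
  · rintro ⟨a, j, hj, rfl⟩
    refine ⟨a * x, j, hj, ?_⟩
    rw [conj_pow]; group
  · rintro ⟨a, j, hj, rfl⟩
    refine ⟨a * x⁻¹, j, hj, ?_⟩
    rw [conj_pow]; group

omit [Fintype G] in
theorem scls_pow {e : ℕ} (he : 2 ≤ e) {y : G} (hy : y ^ 2 ^ e = 1) {j : ℕ} (hj : j % 4 = 1) :
    scls (y ^ j) = scls y := by
  have hcop : Nat.Coprime j (2 ^ e) := by
    apply Nat.Coprime.pow_right
    rw [Nat.coprime_two_right, Nat.odd_iff]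
    omega
  obtain ⟨t, ht⟩ := Nat.exists_mul_mod_eq_of_coprime 1 hcop (by positivity)
  have h4 : (4 : ℕ) ∣ 2 ^ e := by
    have : (4 : ℕ) = 2 ^ 2 := by norm_num
    rw [this]; exact pow_dvd_pow 2 he
  have ht4 : t % 4 = 1 := by
    have h1 : j * t ≡ 1 [MOD 4] := (show j * t ≡ 1 [MOD 2 ^ e] from ht.2).of_dvd h4
    have h2 : j * t ≡ 1 * t [MOD 4] := Nat.ModEq.mul_right t (show j ≡ 1 [MOD 4] from by
      rw [Nat.ModEq, hj])
    have h3 := h2.symm.trans h1
    rw [one_mul] at h3
    simpa [Nat.ModEq] using h3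
  have hyt : (y ^ j) ^ t = y := by
    rw [← pow_mul]
    conv_rhs => rw [← pow_one y]
    rw [pow_eq_pow_iff_modEq]
    exact (show j * t ≡ 1 [MOD 2 ^ e] from ht.2).of_dvd (orderOf_dvd_of_pow_eq_one hy)
  ext z
  constructor
  · rintro ⟨a, i, hi, rfl⟩
    refine ⟨a, j * i, ?_, by rw [pow_mul]⟩
    rw [Nat.mul_mod, hj, hi]
  · rintro ⟨a, i, hi, rfl⟩
    refine ⟨a, t * i, ?_, by rw [pow_mul, hyt]⟩
    rw [Nat.mul_mod, ht4, hi]

omit [Fintype G] in
theorem scls_pow_three {e : ℕ} (he : 2 ≤ e) {y : G} (hy : y ^ 2 ^ e = 1) {j : ℕ} (hj : j % 4 = 3) :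
    scls (y ^ j) = scls y⁻¹ := by
  have h4 : (4 : ℕ) ∣ 2 ^ e := by
    have : (4 : ℕ) = 2 ^ 2 := by norm_num
    rw [this]; exact pow_dvd_pow 2 he
  obtain ⟨q, hq⟩ := h4
  have hq0 : 0 < q := by
    rcases Nat.eq_zero_or_pos q with h | h
    · subst h; simp at hq
    · exact h
  have h1 : y ^ j = (y⁻¹) ^ (j * (2 ^ e - 1)) := by
    have h2 : (y⁻¹) ^ (2 ^ e - 1) = y := by
      rw [inv_pow, inv_eq_iff_mul_eq_one, ← pow_succ]
      have h2p : 0 < 2 ^ e := Nat.two_pow_pos e
      have : 2 ^ e - 1 + 1 = 2 ^ e := by omega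
      rw [this, hy]
    rw [mul_comm, pow_mul, h2]
  rw [h1]
  apply scls_pow he
  · rw [inv_pow, hy, inv_one]
  · rw [hq, Nat.mul_mod, hj]
    have : (4 * q - 1) % 4 = 3 := by omega
    rw [this]

/-- the set `Y` -/
def InY (e : ℕ) (b y : G) : Prop := orderOf y = 2 ^ e ∧ ∃ g : G, g * b * g⁻¹ ∈ Subgroup.zpowers y

variable {e} {b : G}

omit [Fintype G] in
theorem InY.conj {y : G} (h : InY e b y) (x : G) : InY e b (x * y * x⁻¹) := by
  obtain ⟨h1, g, hg⟩ := h
  refine ⟨?_, x * g, ?_⟩
  · have := orderOf_injective (MulAut.conj x).toMonoidHom (MulAut.conj x).injective y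
    rw [← h1, ← this]; simp
  · rw [zpowers_conj]
    refine ⟨g * b * g⁻¹, hg, ?_⟩
    simp [mul_assoc]

omit [Fintype G] in
theorem InY.conj_iff {y : G} (x : G) : InY e b (x * y * x⁻¹) ↔ InY e b y := by
  refine ⟨fun h => ?_, fun h => h.conj x⟩
  have := h.conj x⁻¹
  simpa [mul_assoc] using this

omit [Fintype G] in
theorem InY.pow {y : G} (h : InY e b y) {j : ℕ} (hj : ¬ 2 ∣ j) : InY e b (y ^ j) := by
  have : Fact (Nat.Prime 2) := ⟨Nat.prime_two⟩
  obtain ⟨h1, g, hg⟩ := h
  have h2 := zpowers_pow_eq (p := 2) h1 hj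
  refine ⟨?_, g, by rw [h2]; exact hg⟩
  rw [← Nat.card_zpowers, h2, Nat.card_zpowers, h1]

theorem seps_conj (x y : G) : seps (x * y * x⁻¹) = seps y := by
  unfold seps
  have h1 : (x * y * x⁻¹)⁻¹ = x * y⁻¹ * x⁻¹ := by group
  rw [h1, scls_conj, scls_conj]

theorem seps_pow_one (he : 2 ≤ e) {y : G} (hy : y ^ 2 ^ e = 1) {j : ℕ} (hj : j % 4 = 1) :
    seps (y ^ j) = seps y := by
  unfold seps
  rw [← inv_pow, scls_pow he hy hj, scls_pow he (by rw [inv_pow, hy, inv_one]) hj]

theorem seps_pow_three (he : 2 ≤ e) {y : G} (hy : y ^ 2 ^ e = 1) {j : ℕ} (hj : j % 4 = 3)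
    (hne : scls y ≠ scls y⁻¹) : seps (y ^ j) = -seps y := by
  unfold seps
  rw [← inv_pow, scls_pow_three he hy hj, scls_pow_three he (by rw [inv_pow, hy, inv_one]) hj,
    inv_inv]
  have hne' : srk (scls y) ≠ srk (scls y⁻¹) := fun h => hne (srk_inj h)
  rcases lt_or_gt_of_ne hne' with h | h
  · rw [if_pos h, if_neg (by omega)]
  · rw [if_pos h, if_neg (by omega)]; simp

theorem seps_sq (y : G) : seps y * seps y = 1 := by
  unfold seps; split_ifs <;> norm_num

theorem seps_conjC (y : G) : conj (seps y) = seps y := by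
  unfold seps; split_ifs <;> simp

omit [Fintype G] in
theorem scls_ne (he : 2 ≤ e) {y : G} (hy : y ^ 2 ^ e = 1)
    (hY : ∀ j : ℕ, j % 4 = 3 → ¬ IsConj y (y ^ j)) : scls y ≠ scls y⁻¹ := by
  intro h
  have h1 : y ∈ scls y⁻¹ := by
    rw [← h]
    exact ⟨1, 1, by norm_num, by simp⟩
  obtain ⟨x, j, hj, hx⟩ := h1
  have h4 : (4 : ℕ) ∣ 2 ^ e := by
    have : (4 : ℕ) = 2 ^ 2 := by norm_num
    rw [this]; exact pow_dvd_pow 2 he
  obtain ⟨q, hq⟩ := h4
  have hq0 : 0 < q := by
    rcases Nat.eq_zero_or_pos q with h | h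
    · subst h; simp at hq
    · exact h
  have h2 : (y⁻¹) ^ j = y ^ (j * (2 ^ e - 1)) := by
    have h3 : y ^ (2 ^ e - 1) = y⁻¹ := by
      rw [eq_inv_iff_mul_eq_one, ← pow_succ]
      have h2p : 0 < 2 ^ e := Nat.two_pow_pos e
      have : 2 ^ e - 1 + 1 = 2 ^ e := by omega
      rw [this, hy]
    rw [mul_comm, pow_mul, h3]
  apply hY (j * (2 ^ e - 1))
  · rw [hq, Nat.mul_mod, hj]
    have : (4 * q - 1) % 4 = 3 := by omega
    rw [this]
  · rw [← h2]
    exact (isConj_iff.2 ⟨x, hx.symm⟩ : IsConj ((y⁻¹) ^ j) y).symm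

open Classical in
/-- the test function -/
def sgnfun (e : ℕ) (b y : G) : ℂ :=
  if InY e b y then 1 - seps y * Complex.I else if GenConj b y then 2 else 0

theorem sgnfun_class : IsClassFn (sgnfun e b) := by
  intro x y
  unfold sgnfun
  have h1 := InY.conj_iff (e := e) (b := b) (y := y) x
  have h2 := genConj_conj (u := b) (y := y) x
  rw [seps_conj]
  by_cases hY : InY e b y
  · rw [if_pos hY, if_pos (h1.2 hY)]
  · rw [if_neg hY, if_neg (fun h => hY (h1.1 h))]
    by_cases hB : GenConj b y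
    · rw [if_pos hB, if_pos (h2.2 hB)]
    · rw [if_neg hB, if_neg (fun h => hB (h2.1 h))]

theorem orderOf_conj' (x y : G) : orderOf (x * y * x⁻¹) = orderOf y := by
  have := orderOf_injective (MulAut.conj x).toMonoidHom (MulAut.conj x).injective y
  simpa using this

theorem sgnfun_pow_Y (he : 2 ≤ e) (hb : orderOf b = 2 ^ (e - 1)) {c : G} (hc : InY e b c)
    (hY : ∀ j : ℕ, j % 4 = 3 → ¬ IsConj c (c ^ j)) (j : ℕ) :
    sgnfun e b (c ^ j) = 1 - (seps c * Complex.I) ^ j := by
  have hfact : Fact (Nat.Prime 2) := ⟨Nat.prime_two⟩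
  have hc1 : c ^ 2 ^ e = 1 := by rw [← hc.1]; exact pow_orderOf_eq_one c
  have hne := scls_ne he hc1 hY
  have heven : ∀ i : ℕ, orderOf (c ^ (2 * i)) ∣ 2 ^ (e - 1) := by
    intro i
    apply orderOf_dvd_of_pow_eq_one
    rw [← pow_mul]
    have : 2 * i * 2 ^ (e - 1) = 2 ^ e * i := by
      have h3 : 2 ^ e = 2 * 2 ^ (e - 1) := by rw [← pow_succ']; congr 1; omega
      rw [h3]; ring
    rw [this, pow_mul, hc1, one_pow]
  have hlt : 2 ^ (e - 1) < 2 ^ e := Nat.pow_lt_pow_right (by norm_num) (by omega)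
  have hI4 : ∀ i : ℕ, Complex.I ^ (4 * i) = 1 := by
    intro i; rw [pow_mul, Complex.I_pow_four, one_pow]
  have hs2 : ∀ i : ℕ, (seps c) ^ (2 * i) = 1 := by
    intro i; rw [pow_mul, pow_two, seps_sq, one_pow]
  obtain ⟨q, hq⟩ : ∃ q, j = 4 * q + j % 4 := ⟨j / 4, (Nat.div_add_mod j 4).symm⟩
  have hj4 : j % 4 < 4 := Nat.mod_lt _ (by norm_num)
  interval_cases h : j % 4
  · -- j = 0 mod 4
    have h1 : ¬ InY e b (c ^ j) := by
      intro h2
      have h3 : orderOf (c ^ j) ∣ 2 ^ (e - 1) := by
        rw [hq, add_zero, show 4 * q = 2 * (2 * q) by ring]; exact heven _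
      rw [h2.1] at h3
      have := Nat.le_of_dvd (by positivity) h3
      omega
    have h2 : ¬ GenConj b (c ^ j) := by
      intro h2
      have h3 := h2.orderOf_eq
      rw [hb] at h3
      have h4 : orderOf (c ^ j) ∣ 2 ^ (e - 2) := by
        apply orderOf_dvd_of_pow_eq_one
        rw [← pow_mul, hq, add_zero]
        have : 4 * q * 2 ^ (e - 2) = 2 ^ e * q := by
          have h3 : 2 ^ e = 4 * 2 ^ (e - 2) := by
            rw [show (4 : ℕ) = 2 ^ 2 by norm_num, ← pow_add]; congr 1; omega
          rw [h3]; ring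
        rw [this, pow_mul, hc1, one_pow]
      rw [h3] at h4
      have h5 := Nat.le_of_dvd (by positivity) h4
      have h6 : 2 ^ (e - 2) < 2 ^ (e - 1) := Nat.pow_lt_pow_right (by norm_num) (by omega)
      omega
    unfold sgnfun
    rw [if_neg h1, if_neg h2, hq, add_zero, mul_pow, hI4, show 4 * q = 2 * (2 * q) by ring, hs2]
    ring
  · -- j = 1 mod 4
    have hodd : ¬ 2 ∣ j := by omega
    have h1 : InY e b (c ^ j) := hc.pow hodd
    unfold sgnfun
    rw [if_pos h1, seps_pow_one he hc1 h, hq, pow_succ, mul_pow, hI4,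
      show 4 * q = 2 * (2 * q) by ring, hs2]
    ring
  · -- j = 2 mod 4
    have h1 : ¬ InY e b (c ^ j) := by
      intro h2
      have h3 : orderOf (c ^ j) ∣ 2 ^ (e - 1) := by
        rw [hq, show 4 * q + 2 = 2 * (2 * q + 1) by ring]; exact heven _
      rw [h2.1] at h3
      have := Nat.le_of_dvd (by positivity) h3
      omega
    have h2 : GenConj b (c ^ j) := by
      obtain ⟨hoc, g, hg⟩ := hc
      refine ⟨g⁻¹, ?_⟩
      have h3 : Subgroup.zpowers (c ^ j) = Subgroup.zpowers (g * b * g⁻¹) := by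
        apply zpowers_eq_of_orderOf_eq (c := c) (Subgroup.pow_mem _ (Subgroup.mem_zpowers c) j) hg
        rw [orderOf_conj', hb, orderOf_pow, hoc, hq]
        have h4 : (2 ^ e).gcd (4 * q + 2) = 2 := by
          have h5 : 2 ^ e = 2 * 2 ^ (e - 1) := by rw [← pow_succ']; congr 1; omega
          rw [h5, show 4 * q + 2 = 2 * (2 * q + 1) by ring, Nat.gcd_mul_left]
          have h6 : Nat.Coprime (2 ^ (e - 1)) (2 * q + 1) := by
            apply Nat.Coprime.pow_left
            rw [Nat.coprime_two_left]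
            exact ⟨q, rfl⟩
          rw [h6.gcd_eq_one]
        rw [h4]
        have h5 : 2 ^ e = 2 * 2 ^ (e - 1) := by rw [← pow_succ']; congr 1; omega
        rw [h5]; exact Nat.mul_div_cancel_left _ (by norm_num)
      have h4 : g⁻¹ * c ^ j * g⁻¹⁻¹ = g⁻¹ * c ^ j * (g⁻¹)⁻¹ := rfl
      rw [zpowers_conj, h3, ← zpowers_conj]
      congr 1
      group
    unfold sgnfun
    rw [if_neg h1, if_pos h2, hq, pow_add, mul_pow, hI4, mul_pow, show 4 * q = 2 * (2 * q) by ring,
      hs2, Complex.I_sq]
    have := hs2 1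
    rw [mul_one] at this
    rw [this]; ring
  · -- j = 3 mod 4
    have hodd : ¬ 2 ∣ j := by omega
    have h1 : InY e b (c ^ j) := hc.pow hodd
    unfold sgnfun
    rw [if_pos h1, seps_pow_three he hc1 h hne, hq, pow_add, mul_pow, hI4,
      show 4 * q = 2 * (2 * q) by ring, hs2, mul_pow, pow_succ (seps c) 2, pow_succ Complex.I 2,
      Complex.I_sq]
    have := hs2 1
    rw [mul_one] at this
    rw [this]; ring

theorem sgnfun_pow_B (he : 2 ≤ e) (hb : orderOf b = 2 ^ (e - 1)) {c : G} (hc : GenConj b c) (j : ℕ) :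
    sgnfun e b (c ^ j) = 1 - (-1) ^ j := by
  have hfact : Fact (Nat.Prime 2) := ⟨Nat.prime_two⟩
  have hoc : orderOf c = 2 ^ (e - 1) := by rw [hc.orderOf_eq, hb]
  have hlt : 2 ^ (e - 1) < 2 ^ e := Nat.pow_lt_pow_right (by norm_num) (by omega)
  have h1 : ¬ InY e b (c ^ j) := by
    intro h
    have h2 : orderOf (c ^ j) ∣ orderOf c := orderOf_pow_dvd j
    rw [h.1, hoc] at h2
    have := Nat.le_of_dvd (by positivity) h2
    omega
  by_cases hj : 2 ∣ j
  · have h2 : ¬ GenConj b (c ^ j) := by
      intro h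
      have h3 := h.orderOf_eq
      rw [hb] at h3
      obtain ⟨i, rfl⟩ := hj
      have h4 : orderOf (c ^ (2 * i)) ∣ 2 ^ (e - 2) := by
        apply orderOf_dvd_of_pow_eq_one
        rw [← pow_mul]
        have : 2 * i * 2 ^ (e - 2) = 2 ^ (e - 1) * i := by
          have h3 : 2 ^ (e - 1) = 2 * 2 ^ (e - 2) := by rw [← pow_succ']; congr 1; omega
          rw [h3]; ring
        rw [this, pow_mul, ← hoc, pow_orderOf_eq_one, one_pow]
      rw [h3] at h4
      have h5 := Nat.le_of_dvd (by positivity) h4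
      have h6 : 2 ^ (e - 2) < 2 ^ (e - 1) := Nat.pow_lt_pow_right (by norm_num) (by omega)
      omega
    unfold sgnfun
    rw [if_neg h1, if_neg h2]
    obtain ⟨i, rfl⟩ := hj
    rw [pow_mul]; norm_num
  · have h2 : GenConj b (c ^ j) := by
      obtain ⟨x, hx⟩ := hc
      refine ⟨x, ?_⟩
      rw [zpowers_conj, zpowers_pow_eq (p := 2) hoc hj, ← zpowers_conj, hx]
    unfold sgnfun
    rw [if_neg h1, if_pos h2]
    have hodd : Odd j := by
      rw [← Nat.not_even_iff_odd]; intro h; exact hj h.two_dvd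
    rw [hodd.neg_one_pow]; norm_num

theorem sgnfun_rhat [Fact (Nat.Prime 2)] (he : 2 ≤ e) (hexp : ∀ c : G, PEl 2 c → c ^ 2 ^ e = 1)
    (hb : orderOf b = 2 ^ (e - 1))
    (hY : ∀ y : G, InY e b y → ∀ j : ℕ, j % 4 = 3 → ¬ IsConj y (y ^ j)) :
    Rhat 2 (sgnfun e b) := by
  apply Rhat.of_pEl sgnfun_class
  · intro y hy
    unfold sgnfun
    rw [if_neg, if_neg]
    · intro h
      apply hy
      rw [pEl_iff_orderOf]
      exact ⟨e - 1, by rw [h.orderOf_eq, hb]⟩
    · intro h
      apply hy
      rw [pEl_iff_orderOf]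
      exact ⟨e, h.1⟩
  · intro c hc w hw
    apply coef_mem_of_cycSpan _ hw
    by_cases h1 : InY e b c
    · have e1 : (fun j => sgnfun e b (c ^ j)) = (fun j : ℕ => (1 : ℂ) ^ j)
          - (fun j : ℕ => (seps c * Complex.I) ^ j) := by
        ext j
        rw [sgnfun_pow_Y he hb h1 (hY c h1)]
        simp
      rw [e1]
      apply Submodule.sub_mem
      · apply Submodule.subset_span; exact ⟨1, one_pow _, rfl⟩
      · apply Submodule.subset_span
        refine ⟨_, ?_, rfl⟩
        rw [h1.1]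
        obtain ⟨t, ht⟩ : ∃ t, 2 ^ e = 4 * t := by
          have : (4 : ℕ) = 2 ^ 2 := by norm_num
          rw [this]; exact pow_dvd_pow 2 he
        rw [ht, mul_pow, pow_mul Complex.I, Complex.I_pow_four, one_pow, mul_one,
          show 4 * t = 2 * (2 * t) by ring, pow_mul, pow_two, seps_sq, one_pow]
    · by_cases h2 : GenConj b c
      · have e1 : (fun j => sgnfun e b (c ^ j)) = (fun j : ℕ => (1 : ℂ) ^ j)
            - (fun j : ℕ => (-1 : ℂ) ^ j) := by
          ext j
          rw [sgnfun_pow_B he hb h2]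
          simp
        rw [e1]
        apply Submodule.sub_mem
        · apply Submodule.subset_span; exact ⟨1, one_pow _, rfl⟩
        · apply Submodule.subset_span
          refine ⟨_, ?_, rfl⟩
          rw [h2.orderOf_eq, hb]
          have : e - 1 ≠ 0 := by omega
          obtain ⟨t, ht⟩ : 2 ∣ 2 ^ (e - 1) := dvd_pow_self 2 this
          rw [ht, pow_mul]; norm_num
      · have e1 : (fun j => sgnfun e b (c ^ j)) = 0 := by
          ext j
          simp only [Pi.zero_apply]
          have hoc : orderOf c ∣ 2 ^ e := orderOf_dvd_of_pow_eq_one (hexp c hc)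
          unfold sgnfun
          rw [if_neg, if_neg]
          · intro h
            obtain ⟨x, hx⟩ := h
            have hmem : x⁻¹ * b * x ∈ Subgroup.zpowers c := by
              have h3 : b ∈ Subgroup.zpowers (x * c ^ j * x⁻¹) := by
                rw [hx]; exact Subgroup.mem_zpowers b
              rw [zpowers_conj] at h3
              obtain ⟨z, hz, hz2⟩ := h3
              have h4 : x⁻¹ * b * x = z := by
                rw [← hz2]; simp [mul_assoc]
              rw [h4]
              have h5 : Subgroup.zpowers (c ^ j) ≤ Subgroup.zpowers c := by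
                rw [Subgroup.zpowers_le]
                exact Subgroup.pow_mem _ (Subgroup.mem_zpowers c) j
              exact h5 hz
            have hob : orderOf (x⁻¹ * b * x) = 2 ^ (e - 1) := by
              have := orderOf_conj' x⁻¹ b
              rw [inv_inv] at this
              rw [this, hb]
            obtain ⟨l, hl, hl2⟩ := (Nat.dvd_prime_pow Nat.prime_two).1 hoc
            have h6 : orderOf (x⁻¹ * b * x) ∣ orderOf c := by
              rw [← Nat.card_zpowers c]
              have := orderOf_dvd_natCard (⟨x⁻¹ * b * x, hmem⟩ : Subgroup.zpowers c)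
              rwa [← Subgroup.orderOf_coe] at this
            rw [hob, hl2] at h6
            have h7 := (Nat.pow_dvd_pow_iff_le_right (by norm_num : 1 < 2)).1 h6
            rcases Nat.lt_or_ge l e with h8 | h8
            · -- order 2 ^ (e-1): c generates a conjugate of b
              have hl3 : l = e - 1 := by omega
              apply h2
              refine ⟨x, ?_⟩
              have h9 : Subgroup.zpowers (x⁻¹ * b * x) = Subgroup.zpowers c :=
                zpowers_eq_of_orderOf_eq (c := c) hmem (Subgroup.mem_zpowers c)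
                  (by rw [hob, hl2, hl3])
              rw [zpowers_conj, ← h9, ← zpowers_conj]
              congr 1; group
            · have hl3 : l = e := by omega
              apply h1
              refine ⟨by rw [hl2, hl3], x⁻¹, by simpa using hmem⟩
          · intro h
            apply h1
            obtain ⟨ho, g, hg⟩ := h
            have h3 : orderOf (c ^ j) ∣ orderOf c := orderOf_pow_dvd j
            rw [ho] at h3
            have h4 : orderOf c = 2 ^ e := Nat.dvd_antisymm hoc h3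
            refine ⟨h4, g, ?_⟩
            have h5 : Subgroup.zpowers (c ^ j) ≤ Subgroup.zpowers c := by
              rw [Subgroup.zpowers_le]
              exact Subgroup.pow_mem _ (Subgroup.mem_zpowers c) j
            exact h5 hg
        rw [e1]
        exact Submodule.zero_mem _

end sign

end Pool.Agent.H44.IC
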