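import Pool.Agent.H44.IC.NecSign

/-! Necessity for `p = 2`: the pairing of the signed test function. -/

open scoped ComplexConjugate
noncomputable section
namespace Pool.Agent.H44.IC

variable {G : Type*} [Group G] [Fintype G]

theorem nec_sign [Fact (Nat.Prime 2)] (hS : Spade G 2) {e : ℕ} (he : 2 ≤ e)
    (hexp : ∀ c : G, PEl 2 c → c ^ 2 ^ e = 1) (b : G) (hb : orderOf b = 2 ^ (e - 1))
    (hY : ∀ y : G, orderOf y = 2 ^ e → (∃ g : G, g * b * g⁻¹ ∈ Subgroup.zpowers y) →
        ∀ j : ℕ, j % 4 = 3 → ¬ IsConj y (y ^ j))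
    (hYc : 2 ^ ((Nat.card G).factorization 2 - 2) ∣
        Nat.card {y : G | orderOf y = 2 ^ e ∧ ∃ g : G, g * b * g⁻¹ ∈ Subgroup.zpowers y})
    (hN : 2 ^ (e + 2) ∣ Nat.card (Subgroup.normalizer (Subgroup.zpowers b : Set G)))
    (hI : 2 ∣ (Subgroup.normalizer (Subgroup.zpowers b : Set G)).index) : False := by
  classical
  have hG0 : (Fintype.card G : ℂ) ≠ 0 := by exact_mod_cast (Fintype.card_pos (α := G)).ne'
  have hY' : ∀ y : G, InY e b y → ∀ j : ℕ, j % 4 = 3 → ¬ IsConj y (y ^ j) :=
    fun y hy => hY y hy.1 hy.2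
  -- the set Y
  set Y : Finset G := Finset.univ.filter (fun y => InY e b y) with hYdef
  have hYcard : Nat.card {y : G | orderOf y = 2 ^ e ∧ ∃ g : G, g * b * g⁻¹ ∈ Subgroup.zpowers y}
      = Y.card := by
    rw [Nat.card_eq_fintype_card, Fintype.card_subtype]
    congr 1
    ext y
    rw [hYdef, Finset.mem_filter, Finset.mem_filter]
    exact Iff.rfl
  rw [hYcard] at hYc
  have hYinv : ∀ y ∈ Y, y⁻¹ ∈ Y := by
    intro y hy
    rw [hYdef, Finset.mem_filter] at hy ⊢
    refine ⟨Finset.mem_univ _, ?_, ?_⟩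
    · rw [orderOf_inv]; exact hy.2.1
    · obtain ⟨g, hg⟩ := hy.2.2
      exact ⟨g, by rw [Subgroup.zpowers_inv]; exact hg⟩
  have hsinv : ∀ y ∈ Y, seps y⁻¹ = - seps y := by
    intro y hy
    rw [hYdef, Finset.mem_filter] at hy
    have hy1 : y ^ 2 ^ e = 1 := by rw [← hy.2.1]; exact pow_orderOf_eq_one y
    have hne := scls_ne he hy1 (hY' y hy.2)
    have h2p : 2 ^ e = 4 * 2 ^ (e - 2) := by
      rw [show (4 : ℕ) = 2 ^ 2 by norm_num, ← pow_add]; congr 1; omega
    have hpos : 0 < 2 ^ (e - 2) := Nat.two_pow_pos _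
    have h3 : y ^ (2 ^ e - 1) = y⁻¹ := by
      rw [eq_inv_iff_mul_eq_one, ← pow_succ]
      have : 2 ^ e - 1 + 1 = 2 ^ e := by omega
      rw [this, hy1]
    rw [← h3]
    exact seps_pow_three he hy1 (by omega) hne
  have hsum0 : ∑ y ∈ Y, seps y = 0 := by
    have h1 : ∑ y ∈ Y, seps y = ∑ y ∈ Y, seps y⁻¹ := by
      symm
      refine Finset.sum_nbij' (fun y => y⁻¹) (fun y => y⁻¹) hYinv hYinv ?_ ?_ ?_
      · intro y _; simp
      · intro y _; simp
      · intro y _; rfl
    have h2 : ∑ y ∈ Y, seps y⁻¹ = - ∑ y ∈ Y, seps y := by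
      rw [← Finset.sum_neg_distrib]
      exact Finset.sum_congr rfl hsinv
    rw [h2] at h1
    have h3 : (2 : ℂ) * ∑ y ∈ Y, seps y = 0 := by linear_combination h1
    simpa using h3
  -- disjointness
  have hdisj : ∀ y, InY e b y → ¬ GenConj b y := by
    intro y hy h
    have h1 := h.orderOf_eq
    rw [hy.1, hb] at h1
    have := Nat.pow_right_injective (le_refl 2) h1
    omega
  set a : ℕ := 2 * (Xset b).card + Y.card with ha
  have hsumf : ∑ y : G, sgnfun e b y = (a : ℂ) := by
    have h1 : ∀ y : G, sgnfun e b y = (if y ∈ Y then 1 - seps y * Complex.I else 0)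
        + (if y ∈ Xset b then 2 else 0) := by
      intro y
      have hYy : y ∈ Y ↔ InY e b y := by rw [hYdef, Finset.mem_filter]; simp
      unfold sgnfun
      simp only [mem_Xset, hYy]
      by_cases h1 : InY e b y
      · rw [if_pos h1, if_pos h1, if_neg (hdisj y h1), add_zero]
      · rw [if_neg h1, if_neg h1, zero_add]
    rw [Finset.sum_congr rfl (fun y _ => h1 y), Finset.sum_add_distrib, Finset.sum_ite_mem,
      Finset.sum_ite_mem, Finset.univ_inter, Finset.univ_inter, Finset.sum_const,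
      Finset.sum_sub_distrib, ← Finset.sum_mul, hsum0, Finset.sum_const, ha]
    push_cast
    simp only [nsmul_eq_mul]
    ring
  have hsumff : ∑ y : G, sgnfun e b y * conj (sgnfun e b y) = 2 * (a : ℂ) := by
    have h1 : ∀ y : G, sgnfun e b y * conj (sgnfun e b y) = (if y ∈ Y then 2 else 0)
        + (if y ∈ Xset b then 4 else 0) := by
      intro y
      have hYy : y ∈ Y ↔ InY e b y := by rw [hYdef, Finset.mem_filter]; simp
      unfold sgnfun
      simp only [mem_Xset, hYy]
      by_cases h1 : InY e b y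
      · rw [if_pos h1, if_pos h1, if_neg (hdisj y h1), add_zero]
        simp only [map_sub, map_one, map_mul, seps_conjC, Complex.conj_I]
        have h2 := seps_sq y
        have h3 := Complex.I_mul_I
        linear_combination (-1 : ℂ) * h3 - (Complex.I * Complex.I) * h2
      · rw [if_neg h1, if_neg h1, zero_add]
        by_cases h2 : GenConj b y
        · rw [if_pos h2, if_pos h2]
          have : conj (2 : ℂ) = 2 := Complex.conj_ofNat 2
          rw [this]; norm_num
        · rw [if_neg h2, if_neg h2]; simp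
    rw [Finset.sum_congr rfl (fun y _ => h1 y), Finset.sum_add_distrib, Finset.sum_ite_mem,
      Finset.sum_ite_mem, Finset.univ_inter, Finset.univ_inter, Finset.sum_const,
      Finset.sum_const, ha]
    push_cast
    simp only [nsmul_eq_mul]
    ring
  -- valuations
  set n := (Nat.card G).factorization 2 with hn
  have hcardG : Nat.card G = Fintype.card G := Nat.card_eq_fintype_card
  have hG0' : Nat.card G ≠ 0 := by rw [hcardG]; exact Fintype.card_ne_zero
  set N := Subgroup.normalizer (Subgroup.zpowers b : Set G) with hNdef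
  have hN0 : Nat.card N ≠ 0 := Nat.card_pos.ne'
  have hXmul := card_Xset_mul b
  rw [← hNdef, hb] at hXmul
  have hX0 : (Xset b).card ≠ 0 := by
    rw [Finset.card_ne_zero]
    exact ⟨b, mem_Xset.2 ⟨1, by simp⟩⟩
  have htot : Nat.totient (2 ^ (e - 1)) = 2 ^ (e - 2) := by
    rw [Nat.totient_prime_pow Nat.prime_two (by omega)]
    simp only [Nat.add_one_sub_one, mul_one]
    congr 1
  rw [htot, ← hcardG] at hXmul
  have hNi : Nat.card N * N.index = Nat.card G := Subgroup.card_mul_index N
  have hi0 : N.index ≠ 0 := Subgroup.index_ne_zero_of_finite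
  -- factorizations
  have hfac1 : (Xset b).card.factorization 2 + (Nat.card N).factorization 2 = n + (e - 2) := by
    have h1 : ((Xset b).card * Nat.card N).factorization 2 = _ :=
      congrArg (fun z => z.factorization 2) hXmul
    rw [Nat.factorization_mul hX0 hN0, Nat.factorization_mul hG0' (pow_ne_zero _ two_ne_zero),
      Finsupp.add_apply, Finsupp.add_apply, Nat.Prime.factorization_pow Nat.prime_two,
      Finsupp.single_eq_same] at h1
    exact h1
  have hfac2 : (Nat.card N).factorization 2 + N.index.factorization 2 = n := by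
    have h1 : (Nat.card N * N.index).factorization 2 = _ :=
      congrArg (fun z => z.factorization 2) hNi
    rw [Nat.factorization_mul hN0 hi0, Finsupp.add_apply] at h1
    exact h1
  have hfac3 : e + 2 ≤ (Nat.card N).factorization 2 :=
    (Nat.prime_two.pow_dvd_iff_le_factorization hN0).1 hN
  have hfac4 : 1 ≤ N.index.factorization 2 :=
    (Nat.prime_two.pow_dvd_iff_le_factorization hi0).1 (by rwa [pow_one])
  set k := (Xset b).card.factorization 2 with hk
  -- a = 2^(k+1) * odd
  obtain ⟨s, hs⟩ : 2 ^ k ∣ (Xset b).card := Nat.ordProj_dvd _ _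
  have hsodd : ¬ 2 ∣ s := by
    intro h
    have h1 : 2 ^ (k + 1) ∣ (Xset b).card := by
      rw [hs, pow_succ]; exact Nat.mul_dvd_mul (dvd_refl _) h
    have := (Nat.prime_two.pow_dvd_iff_le_factorization hX0).1 h1
    omega
  obtain ⟨t, ht⟩ : 2 ^ (k + 2) ∣ Y.card := dvd_trans (pow_dvd_pow 2 (by omega)) hYc
  have ha2 : a = 2 ^ (k + 1) * (s + 2 * t) := by
    rw [ha, ht, hs]
    ring
  have hodd : ¬ 2 ∣ s + 2 * t := by omega
  obtain ⟨q, hq⟩ : 2 ^ e ∣ a := by
    rw [ha2]
    exact Dvd.dvd.mul_right (pow_dvd_pow 2 (by omega)) _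
  -- the function
  have hf1 : sgnfun e b (1 : G) = 0 := by
    unfold sgnfun
    rw [if_neg, if_neg]
    · intro h
      have := h.orderOf_eq
      rw [orderOf_one, hb] at this
      have h2 := Nat.one_lt_two_pow (n := e - 1) (by omega)
      omega
    · intro h
      have := h.1
      rw [orderOf_one] at this
      have h2 := Nat.one_lt_two_pow (n := e) (by omega)
      omega
  set h : G → ℂ := fun y => sgnfun e b y + (-(q : ℂ)) * dl 2 e y with hh
  have hR : Rhat 2 h := Rhat.add (sgnfun_rhat he hexp hb hY')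
    (Rhat.smul (neg_mem (Op.natCast_mem q)) (dl_rhat hexp))
  have hsumd : ∑ y : G, dl 2 e y = ((2 ^ e : ℕ) : ℂ) := by
    unfold dl
    rw [Finset.sum_ite_eq' Finset.univ (1 : G), if_pos (Finset.mem_univ _)]
  have hS1 : Sp 2 h := by
    refine ⟨hR, ?_⟩
    have : ip h 1 = 0 := by
      unfold ip
      simp only [Pi.one_apply, map_one, mul_one, hh]
      rw [Finset.sum_add_distrib, ← Finset.mul_sum, hsumf, hsumd, hq]
      push_cast; ring
    rw [this]; exact zero_mem _
  have h1 := hS h h hS1 hS1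
  have e1 : ip h h = ((a * (a + 2) : ℕ) : ℂ) / ((Fintype.card G : ℕ) : ℂ) := by
    unfold ip
    rw [← div_eq_inv_mul]
    congr 1
    have e2 : ∀ y : G, h y * conj (h y) = sgnfun e b y * conj (sgnfun e b y)
        + (q : ℂ) ^ 2 * ((2 ^ e : ℕ) : ℂ) * dl 2 e y := by
      intro y
      simp only [hh]
      by_cases hy : y = 1
      · subst hy
        have hd1 : dl 2 e (1 : G) = ((2 ^ e : ℕ) : ℂ) := by unfold dl; rw [if_pos rfl]
        rw [hf1, hd1]
        simp only [map_add, map_mul, map_neg, Complex.conj_natCast, map_zero]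
        ring
      · have hd0 : dl 2 e y = 0 := by unfold dl; rw [if_neg hy]
        rw [hd0]
        simp
    rw [Finset.sum_congr rfl (fun y _ => e2 y), Finset.sum_add_distrib, hsumff,
      ← Finset.mul_sum, hsumd, hq]
    push_cast; ring
  rw [e1] at h1
  have h2 := Op.nat_dvd_of_div_mem (p := 2) Fintype.card_ne_zero h1
    (k := (Fintype.card G).factorization 2) (Nat.ordProj_dvd _ _)
  rw [← hcardG, ← hn] at h2
  have h3 : 2 ^ (k + 3) ∣ a * (a + 2) := dvd_trans (pow_dvd_pow 2 (by omega)) h2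
  have h4 : a * (a + 2) = 2 ^ (k + 2) * ((s + 2 * t) * (2 ^ k * (s + 2 * t) + 1)) := by
    rw [ha2]; ring
  rw [h4, show k + 3 = (k + 2) + 1 by ring, pow_succ] at h3
  have h5 := Nat.dvd_of_mul_dvd_mul_left (pow_pos (by norm_num : 0 < 2) (k + 2)) h3
  rcases (Nat.prime_two.dvd_mul).1 h5 with h6 | h6
  · exact hodd h6
  · have hk1 : 1 ≤ k := by omega
    have : 2 ∣ 2 ^ k * (s + 2 * t) := Dvd.dvd.mul_right (dvd_pow_self 2 (by omega)) _
    omega

end Pool.Agent.H44.IC
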