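import Pool.Agent.H44.IC.Defs

/-! Orbit averages. -/

open scoped ComplexConjugate
noncomputable section
namespace Pool.Agent.H44.IC

/-- Orbit average lemma: the weighted sum of an invariant function is the sum of its values over
the orbits. -/
theorem orbit_average {Γ X : Type*} [Group Γ] [Finite Γ] [Fintype X] [MulAction Γ X]
    (A : AddSubgroup ℂ) (s : X → ℂ) (hs : ∀ (a : Γ) (x : X), s (a • x) = s x)
    (hA : ∀ x, s x ∈ A) :
    ∑ x, ((Nat.card (MulAction.stabilizer Γ x) : ℂ) / (Nat.card Γ : ℂ)) * s x ∈ A := by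
  classical
  have hΓ : (Nat.card Γ : ℂ) ≠ 0 := by exact_mod_cast (Nat.card_pos (α := Γ)).ne'
  have hcs : ∀ x : X, Nat.card (MulAction.orbit Γ x) * Nat.card (MulAction.stabilizer Γ x)
      = Nat.card Γ := by
    intro x
    rw [Nat.card_congr (MulAction.orbitEquivQuotientStabilizer Γ x)]
    exact (Subgroup.card_eq_card_quotient_mul_card_subgroup _).symm
  have hoc : ∀ x : X, (Nat.card (MulAction.orbit Γ x) : ℂ) ≠ 0 := by
    intro x h0
    have h0' : Nat.card (MulAction.orbit Γ x) = 0 := by exact_mod_cast h0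
    have := hcs x
    rw [h0', zero_mul] at this
    exact hΓ (by exact_mod_cast this.symm)
  -- the value at x only depends on the orbit
  have key : ∀ x : X, ((Nat.card (MulAction.stabilizer Γ x) : ℂ) / (Nat.card Γ : ℂ)) * s x
      = (Nat.card (MulAction.orbit Γ x) : ℂ)⁻¹ * s x := by
    intro x
    have h1 : (Nat.card (MulAction.orbit Γ x) : ℂ) * (Nat.card (MulAction.stabilizer Γ x) : ℂ)
        = (Nat.card Γ : ℂ) := by
      exact_mod_cast hcs x
    congr 1
    rw [← h1]
    have h3 : (Nat.card (MulAction.stabilizer Γ x) : ℂ) ≠ 0 := by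
      intro h0; rw [h0, mul_zero] at h1; exact hΓ h1.symm
    have h2 := hoc x
    field_simp
  rw [Finset.sum_congr rfl (fun x _ => key x)]
  -- group by orbits
  rw [← Finset.sum_fiberwise_of_maps_to (s := Finset.univ) (t := Finset.univ)
    (g := fun x : X => (Quotient.mk'' x : MulAction.orbitRel.Quotient Γ X))
    (fun x _ => Finset.mem_univ _)]
  apply AddSubgroup.sum_mem
  intro ω _
  obtain ⟨x, rfl⟩ := Quotient.exists_rep ω
  have hset : ∀ y ∈ Finset.univ.filter (fun y : X =>
      (Quotient.mk'' y : MulAction.orbitRel.Quotient Γ X) = Quotient.mk _ x),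
      (Nat.card (MulAction.orbit Γ y) : ℂ)⁻¹ * s y = (Nat.card (MulAction.orbit Γ x) : ℂ)⁻¹ * s x := by
    intro y hy
    rw [Finset.mem_filter] at hy
    have hy2 : y ∈ MulAction.orbit Γ x := by
      have := Quotient.exact hy.2
      exact this
    obtain ⟨a, rfl⟩ := hy2
    simp only
    rw [hs, MulAction.orbit_smul]
  rw [Finset.sum_congr rfl hset, Finset.sum_const, nsmul_eq_mul]
  have hcard : ((Finset.univ.filter (fun y : X =>
      (Quotient.mk'' y : MulAction.orbitRel.Quotient Γ X) = Quotient.mk _ x)).card : ℂ)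
      = (Nat.card (MulAction.orbit Γ x) : ℂ) := by
    congr 1
    rw [Nat.card_eq_fintype_card, ← Set.toFinset_card (MulAction.orbit Γ x)]
    congr 1
    ext y
    simp only [Finset.mem_filter, Finset.mem_univ, true_and, Set.mem_toFinset]
    constructor
    · intro h; exact Quotient.exact h
    · intro h; exact Quotient.sound h
  rw [hcard, ← mul_assoc, mul_inv_cancel₀ (hoc x), one_mul]
  exact hA x

theorem card_stabilizer_conjAct {G : Type*} [Group G] (u : G) :
    Nat.card (MulAction.stabilizer (ConjAct G) u)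
      = Nat.card (Subgroup.centralizer ({u} : Set G)) := by
  have h : ∀ x : G, x ∈ Subgroup.centralizer ({u} : Set G) ↔ u * x = x * u := by
    intro x
    rw [Subgroup.mem_centralizer_iff]
    simp
  apply Nat.card_congr
  refine ⟨fun x => ⟨ConjAct.ofConjAct x.1, ?_⟩, fun x => ⟨ConjAct.toConjAct x.1, ?_⟩,
    fun x => rfl, fun x => rfl⟩
  · have := x.2
    rw [MulAction.mem_stabilizer_iff, ConjAct.smul_def] at this
    rw [h]
    rw [mul_inv_eq_iff_eq_mul] at this
    exact this.symm
  · have := x.2
    rw [h] at this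
    rw [MulAction.mem_stabilizer_iff, ConjAct.smul_def, mul_inv_eq_iff_eq_mul]
    exact this.symm

theorem card_centralizer_conj {G : Type*} [Group G] (x u : G) :
    Nat.card (Subgroup.centralizer ({x * u * x⁻¹} : Set G))
      = Nat.card (Subgroup.centralizer ({u} : Set G)) := by
  have h : ∀ u x : G, x ∈ Subgroup.centralizer ({u} : Set G) ↔ u * x = x * u := by
    intro u x
    rw [Subgroup.mem_centralizer_iff]
    simp
  apply Nat.card_congr
  refine ⟨fun y => ⟨x⁻¹ * y.1 * x, ?_⟩, fun y => ⟨x * y.1 * x⁻¹, ?_⟩,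
    fun y => by ext; simp [mul_assoc], fun y => by ext; simp [mul_assoc]⟩
  · have := y.2
    rw [h] at this ⊢
    have h2 := congrArg (fun z => x⁻¹ * z * x) this
    simpa [mul_assoc] using h2
  · have := y.2
    rw [h] at this ⊢
    have h2 := congrArg (fun z => x * z * x⁻¹) this
    simpa [mul_assoc] using h2

/-- Version for a finite invariant set of elements `U` of a group acting on itself by conjugation:
`(1/|G|) ∑_{u ∈ U} F u ∈ A` when `F u / |C_G(u)| ∈ A` for `u ∈ U`. -/
theorem conj_average {G : Type*} [Group G] [Fintype G] (A : AddSubgroup ℂ) (U : Finset G)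
    (hU : ∀ x u : G, u ∈ U → x * u * x⁻¹ ∈ U) (F : G → ℂ)
    (hF : ∀ x u : G, u ∈ U → F (x * u * x⁻¹) = F u)
    (hA : ∀ u ∈ U, F u / (Nat.card (Subgroup.centralizer ({u} : Set G)) : ℂ) ∈ A) :
    (Fintype.card G : ℂ)⁻¹ * ∑ u ∈ U, F u ∈ A := by
  classical
  let s : G → ℂ := fun u =>
    if u ∈ U then F u / (Nat.card (Subgroup.centralizer ({u} : Set G)) : ℂ) else 0
  have hU' : ∀ x u : G, x * u * x⁻¹ ∈ U ↔ u ∈ U := by
    intro x u
    refine ⟨fun h => ?_, hU x u⟩
    have := hU x⁻¹ _ h
    simpa [mul_assoc] using this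
  have h := orbit_average (Γ := ConjAct G) (X := G) A s ?_ ?_
  · have e1 : ∀ u : G, ((Nat.card (MulAction.stabilizer (ConjAct G) u) : ℂ)
          / (Nat.card (ConjAct G) : ℂ)) * s u
        = (Fintype.card G : ℂ)⁻¹ * (if u ∈ U then F u else 0) := by
      intro u
      rw [card_stabilizer_conjAct]
      have : (Nat.card (Subgroup.centralizer ({u} : Set G)) : ℂ) ≠ 0 := by
        exact_mod_cast (Nat.card_pos (α := Subgroup.centralizer ({u} : Set G))).ne'
      simp only [s]
      split_ifs
      · have hG : (Nat.card (ConjAct G) : ℂ) = (Fintype.card G : ℂ) := by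
          rw [← Nat.card_eq_fintype_card]; rfl
        rw [hG]; field_simp
      · simp
    rw [Finset.sum_congr rfl (fun u _ => e1 u), ← Finset.mul_sum, Finset.sum_ite_mem,
      Finset.univ_inter] at h
    exact h
  · intro a x
    simp only [s, ConjAct.smul_def, hU']
    split_ifs with hx
    · rw [hF _ _ hx, card_centralizer_conj]
    · rfl
  · intro x
    simp only [s]
    split_ifs with h
    · exact hA x h
    · exact A.zero_mem

end Pool.Agent.H44.IC
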