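import Pool.Agent.H44.IC.Defs

/-!
# Property (IC): induced cyclic characters, irreducible characters, the property
-/

noncomputable section
universe u
namespace Pool.Agent.H44.IC

/-- the induced class function of a linear character of a subgroup -/
def indChar {G : Type*} [Group G] [Fintype G] (C : Subgroup G) (l : C →* ℂˣ) (g : G) : ℂ :=
  open Classical in
  (Nat.card C : ℂ)⁻¹ * ∑ x : G, if h : x⁻¹ * g * x ∈ C then ((l ⟨x⁻¹ * g * x, h⟩ : ℂˣ) : ℂ) else 0

/-- the character of an irreducible finite-dimensional complex representation -/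
def IsIrrChar (G : Type u) [Group G] (χ : G → ℂ) : Prop :=
  ∃ (V : Type u) (_ : AddCommGroup V) (_ : Module ℂ V) (_ : FiniteDimensional ℂ V)
    (ρ : Representation ℂ G V), ρ.IsIrreducible ∧ ρ.character = χ

/-- property (IC) -/
def PropIC (G : Type u) [Group G] [Fintype G] : Prop :=
  ∀ χ : G → ℂ, IsIrrChar G χ → χ ∈ AddSubgroup.closure
    ({1} ∪ {f : G → ℂ | ∃ (C : Subgroup G) (_ : IsCyclic C) (l : C →* ℂˣ), f = indChar C l})

end Pool.Agent.H44.IC
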