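import Mathlib

/-!
# Finite 2-groups whose commutator subgroup has index 4
-/

set_option autoImplicit false

namespace Pool.Agent.H44.IC

open MulAction
open scoped commutatorElement

/-- A nontrivial normal subgroup of a finite `p`-group contains a central element of order `p`. -/
theorem exists_central_order_p {p : ℕ} [hp : Fact p.Prime] {P : Type*} [Group P] [Finite P]
    (hP : IsPGroup p P) (N : Subgroup P) [hN : N.Normal] (hbot : N ≠ ⊥) :
    ∃ c ∈ N, c ∈ Subgroup.center P ∧ orderOf c = p := by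
  have hPc : IsPGroup p (ConjAct P) := hP.of_equiv ConjAct.toConjAct
  have hNp : IsPGroup p N := hP.to_subgroup N
  have hdvd : p ∣ Nat.card N := by
    obtain ⟨n, hn⟩ := IsPGroup.iff_card.1 hNp
    rcases Nat.eq_zero_or_pos n with h0 | h0
    · exfalso
      apply hbot
      rw [h0, pow_zero] at hn
      exact Subgroup.card_eq_one.1 hn
    · rw [hn]; exact dvd_pow_self p h0.ne'
  have h1 : (1 : N) ∈ fixedPoints (ConjAct P) N := by
    intro g
    apply Subtype.ext
    simp
  obtain ⟨b, hb, hb1⟩ := hPc.exists_fixed_point_of_prime_dvd_card_of_fixed_point N hdvd h1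
  have hbc : (b : P) ∈ Subgroup.center P := by
    rw [Subgroup.mem_center_iff]
    intro g
    have h2 := congrArg Subtype.val (hb (ConjAct.toConjAct g))
    simp only [ConjAct.Subgroup.val_conj_smul, ConjAct.smul_def, ConjAct.ofConjAct_toConjAct] at h2
    exact mul_inv_eq_iff_eq_mul.1 h2
  have hbne : (b : P) ≠ 1 := fun h => hb1 (Subtype.ext h.symm)
  obtain ⟨k, hk⟩ := IsPGroup.iff_orderOf.1 hP (b : P)
  have hk0 : k ≠ 0 := by
    rintro rfl
    rw [pow_zero, orderOf_eq_one_iff] at hk
    exact hbne hk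
  refine ⟨(b : P) ^ (p ^ (k - 1)), N.pow_mem b.2 _, Subgroup.pow_mem _ hbc _, ?_⟩
  have hpos : 0 < p := hp.out.pos
  rw [orderOf_pow_of_dvd (pow_ne_zero _ hp.out.ne_zero) (by rw [hk]; exact pow_dvd_pow p (by omega)),
    hk, Nat.pow_div (by omega) hpos]
  have : k - (k - 1) = 1 := by omega
  rw [this, pow_one]

/-- The subgroup generated by an element of the right order has index `2`. -/
theorem cyclic_index_two {P : Type*} [Group P] [Finite P] (g : P)
    (h : 2 * orderOf g = Nat.card P) : ∃ D : Subgroup P, IsCyclic D ∧ D.index = 2 := by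
  refine ⟨Subgroup.zpowers g, inferInstance, ?_⟩
  have h1 := (Subgroup.zpowers g).card_mul_index
  rw [Nat.card_zpowers] at h1
  have h2 : 0 < orderOf g := orderOf_pos g
  have h3 : orderOf g * (Subgroup.zpowers g).index = orderOf g * 2 := by rw [h1]; omega
  exact Nat.eq_of_mul_eq_mul_left h2 h3

theorem two_group_cyclic_maximal (P : Type*) [Group P] [Finite P] (h2 : IsPGroup 2 P)
    (h4 : (commutator P).index = 4) : ∃ D : Subgroup P, IsCyclic D ∧ D.index = 2 := by
  -- induction on the cardinality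
  obtain ⟨n, hn⟩ : ∃ n, Nat.card P = n := ⟨_, rfl⟩
  induction n using Nat.strong_induction_on generalizing P with
  | _ n ih =>
  have hcardP := (commutator P).card_mul_index
  rw [h4] at hcardP
  by_cases hbot : commutator P = ⊥
  · -- `|P| = 4`
    rw [hbot, Subgroup.card_bot, one_mul] at hcardP
    obtain ⟨x, hx⟩ := exists_prime_orderOf_dvd_card' (G := P) 2 (by rw [← hcardP]; norm_num)
    exact cyclic_index_two x (by rw [hx, ← hcardP])
  -- a central element of order two in the commutator subgroup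
  obtain ⟨c, hcP', hcZ, hc2⟩ := exists_central_order_p h2 (commutator P) hbot
  have hZn : (Subgroup.zpowers c).Normal := by
    constructor
    intro z hz g
    obtain ⟨k, rfl⟩ := Subgroup.mem_zpowers_iff.1 hz
    have h5 : c ^ k ∈ Subgroup.center P := Subgroup.zpow_mem _ hcZ k
    rw [Subgroup.mem_center_iff.1 h5 g, mul_assoc, mul_inv_cancel, mul_one]
    exact hz
  have hZle : Subgroup.zpowers c ≤ commutator P := by
    rw [Subgroup.zpowers_le]; exact hcP'
  have hZcard : Nat.card (Subgroup.zpowers c) = 2 := by rw [Nat.card_zpowers, hc2]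
  -- the quotient
  let Q := P ⧸ Subgroup.zpowers c
  have hQcard : Nat.card P = 2 * Nat.card Q := by
    have := (Subgroup.zpowers c).card_mul_index
    rw [hZcard] at this
    rw [← this]; rfl
  have hQ2 : IsPGroup 2 Q := h2.to_quotient _
  have hsurj : Function.Surjective (QuotientGroup.mk' (Subgroup.zpowers c)) :=
    QuotientGroup.mk'_surjective _
  have hQ4 : (commutator Q).index = 4 := by
    have h5 : commutator Q = (commutator P).map (QuotientGroup.mk' (Subgroup.zpowers c)) := by
      rw [commutator_def, commutator_def, Subgroup.map_commutator,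
        Subgroup.map_top_of_surjective _ hsurj]
    rw [h5, Subgroup.index_map_eq _ hsurj (by rw [QuotientGroup.ker_mk']; exact hZle), h4]
  obtain ⟨D', hD'c, hD'2⟩ := ih (Nat.card Q) (by
    rw [← hn, hQcard]
    have : 0 < Nat.card Q := Nat.card_pos
    omega) Q hQ2 hQ4 rfl
  -- the preimage `M`
  set π := QuotientGroup.mk' (Subgroup.zpowers c) with hπ
  let M : Subgroup P := D'.comap π
  have hM2 : M.index = 2 := by
    rw [← hD'2]
    exact Subgroup.index_comap_of_surjective D' hsurj
  have hMnormal : M.Normal := Subgroup.normal_of_index_eq_two hM2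
  have hcM : c ∈ M := by
    change π c ∈ D'
    have : π c = 1 := by
      rw [hπ, QuotientGroup.mk'_apply, QuotientGroup.eq_one_iff]
      exact Subgroup.mem_zpowers c
    rw [this]
    exact D'.one_mem
  -- `M = ⟨m⟩ Z`
  obtain ⟨m, hmM, hmord, hm⟩ : ∃ m ∈ M, orderOf (π m) = Nat.card D' ∧
      ∀ y ∈ M, ∃ i j : ℤ, y = m ^ i * c ^ j := by
    obtain ⟨⟨d, hd⟩, hgen⟩ := hD'c.exists_generator
    obtain ⟨m, rfl⟩ := hsurj d
    refine ⟨m, hd, ?_, fun y hy => ?_⟩
    · rw [← orderOf_eq_card_of_forall_mem_zpowers hgen, Subgroup.orderOf_mk]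
    obtain ⟨i, hi⟩ := Subgroup.mem_zpowers_iff.1 (hgen ⟨π y, hy⟩)
    have hi' : π (m ^ i) = π y := by
      have := congrArg Subtype.val hi
      simpa using this
    have hz : (m ^ i)⁻¹ * y ∈ Subgroup.zpowers c := by
      rw [← QuotientGroup.eq]
      exact hi'
    obtain ⟨j, hj⟩ := Subgroup.mem_zpowers_iff.1 hz
    exact ⟨i, j, by rw [hj]; group⟩
  have hcc : ∀ (g : P) (j : ℤ), Commute g (c ^ j) := fun g j =>
    Subgroup.mem_center_iff.1 (Subgroup.zpow_mem _ hcZ j) g
  have hMab : ∀ a ∈ M, ∀ b ∈ M, Commute a b := by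
    intro a ha b hb
    obtain ⟨i, j, rfl⟩ := hm a ha
    obtain ⟨k, l, rfl⟩ := hm b hb
    have h5 : Commute (m ^ i) (m ^ k) := (Commute.refl m).zpow_zpow i k
    exact (h5.mul_right (hcc _ _)).mul_left ((hcc _ _).symm.mul_right (hcc _ _))
  -- an element outside `M`
  obtain ⟨x, hx⟩ : ∃ x, x ∉ M := by
    by_contra hcon
    push Not at hcon
    have : M = ⊤ := (Subgroup.eq_top_iff' M).2 hcon
    rw [this, Subgroup.index_top] at hM2
    norm_num at hM2
  have hxM : ∀ a ∈ M, x * a * x⁻¹ ∈ M := fun a ha => hMnormal.conj_mem a ha x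
  -- the homomorphism `a ↦ [a, x]`
  let φ : M →* P :=
    { toFun := fun a => (a : P) * x * (a : P)⁻¹ * x⁻¹
      map_one' := by simp
      map_mul' := by
        intro a b
        have hb : (b : P) * x * (b : P)⁻¹ * x⁻¹ ∈ M := by
          have : (b : P) * x * (b : P)⁻¹ * x⁻¹ = (b : P) * (x * (b : P)⁻¹ * x⁻¹) := by group
          rw [this]
          exact M.mul_mem b.2 (hxM _ (M.inv_mem b.2))
        have ha : x * (a : P)⁻¹ * x⁻¹ ∈ M := hxM _ (M.inv_mem a.2)
        have h5 := hMab _ hb _ ha
        calc ((a * b : M) : P) * x * ((a * b : M) : P)⁻¹ * x⁻¹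
            = (a : P) * (((b : P) * x * (b : P)⁻¹ * x⁻¹) * (x * (a : P)⁻¹ * x⁻¹)) := by
              push_cast; group
          _ = (a : P) * ((x * (a : P)⁻¹ * x⁻¹) * ((b : P) * x * (b : P)⁻¹ * x⁻¹)) := by
              rw [h5.eq]
          _ = _ := by group }
  have hφ : ∀ a : M, φ a = (a : P) * x * (a : P)⁻¹ * x⁻¹ := fun a => rfl
  have hrange : φ.range = commutator P := by
    apply le_antisymm
    · rintro _ ⟨a, rfl⟩
      rw [hφ, ← commutatorElement_def, commutator_def]
      exact Subgroup.commutator_mem_commutator (Subgroup.mem_top _) (Subgroup.mem_top _)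
    · rw [commutator_def, Subgroup.commutator_le]
      have hdec : ∀ g : P, g ∈ M ∨ ∃ a ∈ M, g = a * x := by
        intro g
        by_cases hg : g ∈ M
        · exact Or.inl hg
        · right
          refine ⟨g * x⁻¹, ?_, by group⟩
          rw [Subgroup.mul_mem_iff_of_index_two hM2]
          simp [hg, hx]
      have hin : ∀ a ∈ M, a * x * a⁻¹ * x⁻¹ ∈ φ.range := fun a ha => ⟨⟨a, ha⟩, rfl⟩
      have hinM : ∀ a ∈ M, a * x * a⁻¹ * x⁻¹ ∈ M := by
        intro a ha
        have : a * x * a⁻¹ * x⁻¹ = a * (x * a⁻¹ * x⁻¹) := by group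
        rw [this]
        exact M.mul_mem ha (hxM _ (M.inv_mem ha))
      have case2 : ∀ a ∈ M, ∀ b ∈ M, ⁅a, b * x⁆ = a * x * a⁻¹ * x⁻¹ := by
        intro a ha b hb
        have e1 := (hMab _ ha _ hb).eq
        have e2 := (hMab _ hb _ (hinM a ha)).eq
        calc ⁅a, b * x⁆ = (a * b) * x * a⁻¹ * x⁻¹ * b⁻¹ := by rw [commutatorElement_def]; group
          _ = (b * (a * x * a⁻¹ * x⁻¹)) * b⁻¹ := by rw [e1]; group
          _ = _ := by rw [e2]; group
      intro g _ h _
      rcases hdec g with hg | ⟨a, ha, rfl⟩ <;> rcases hdec h with hh | ⟨b, hb, rfl⟩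
      · have : ⁅g, h⁆ = 1 := by
          rw [commutatorElement_eq_one_iff_mul_comm]
          exact hMab g hg h hh
        rw [this]
        exact one_mem _
      · rw [case2 g hg b hb]
        exact hin g hg
      · rw [← commutatorElement_inv, case2 h hh a ha]
        exact inv_mem (hin h hh)
      · have hab : b * a⁻¹ ∈ M := M.mul_mem hb (M.inv_mem ha)
        have e1 := (hMab _ ha _ (hxM _ hab)).eq
        have : ⁅a * x, b * x⁆ = ((b * a⁻¹) * x * (b * a⁻¹)⁻¹ * x⁻¹)⁻¹ := by
          calc ⁅a * x, b * x⁆ = (a * (x * (b * a⁻¹) * x⁻¹)) * b⁻¹ := by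
                rw [commutatorElement_def]; group
            _ = _ := by rw [e1]; group
        rw [this]
        exact inv_mem (hin _ hab)
  -- cardinalities
  have hMcard : Nat.card P = 2 * Nat.card M := by
    rw [← M.card_mul_index, hM2, mul_comm]
  have hker : Nat.card φ.ker = 2 := by
    have h5 := φ.ker.card_mul_index
    rw [Subgroup.index_ker, hrange] at h5
    have h6 : 0 < Nat.card (commutator P) := Nat.card_pos
    nlinarith
  have hfix : ∀ a ∈ M, a * x = x * a → a = 1 ∨ a = c := by
    intro a ha hax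
    have h5 : (⟨a, ha⟩ : M) ∈ φ.ker := by
      rw [MonoidHom.mem_ker, hφ]
      change a * x * a⁻¹ * x⁻¹ = 1
      rw [hax]; group
    have h6 : (⟨c, hcM⟩ : M) ∈ φ.ker := by
      rw [MonoidHom.mem_ker, hφ]
      change c * x * c⁻¹ * x⁻¹ = 1
      have := (hcc x 1).eq
      rw [zpow_one] at this
      rw [← this]; group
    have hc1 : c ≠ 1 := by
      rintro rfl
      rw [orderOf_one] at hc2
      norm_num at hc2
    obtain ⟨y, -, hy2⟩ := (Nat.card_eq_two_iff' (1 : φ.ker)).1 hker
    by_cases ha1 : a = 1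
    · exact Or.inl ha1
    · right
      have h7 := hy2 ⟨⟨a, ha⟩, h5⟩ (fun h => ha1 (by
        have := congrArg (fun z : φ.ker => ((z : M) : P)) h
        simpa using this))
      have h8 := hy2 ⟨⟨c, hcM⟩, h6⟩ (fun h => hc1 (by
        have := congrArg (fun z : φ.ker => ((z : M) : P)) h
        simpa using this))
      have := congrArg (fun z : φ.ker => ((z : M) : P)) (h7.trans h8.symm)
      simpa using this
  have hc1 : c ≠ 1 := by
    rintro rfl
    rw [orderOf_one] at hc2
    norm_num at hc2
  have hcsq : c ^ 2 = 1 := by rw [← hc2]; exact pow_orderOf_eq_one c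
  have hmpos : 0 < orderOf m := orderOf_pos m
  by_cases hdiv : 4 ∣ orderOf m
  · -- `M` is cyclic
    obtain ⟨t, ht⟩ := hdiv
    have htpos : 0 < t := by omega
    have hw1 : m ^ (2 * t) ≠ 1 := by
      apply pow_ne_one_of_lt_orderOf (by omega)
      omega
    have hw2 : (m ^ (2 * t)) ^ 2 = 1 := by
      rw [← pow_mul, ← pow_orderOf_eq_one m, ht]
      congr 1
      ring
    obtain ⟨i, j, hij⟩ := hm _ (hxM m hmM)
    have hconj : x * m ^ (2 * t) * x⁻¹ = (m ^ (2 * t)) ^ i := by
      have e1 : x * m ^ (2 * t) * x⁻¹ = (x * m * x⁻¹) ^ (2 * t) := (conj_pow).symm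
      have e2 : (c ^ j) ^ (2 * t) = 1 := by
        rw [← zpow_natCast, ← zpow_mul, mul_comm j, zpow_mul, zpow_natCast, pow_mul, hcsq, one_pow,
          one_zpow]
      rw [e1, hij, (hcc _ _).mul_pow, e2, mul_one, ← zpow_natCast, ← zpow_natCast, ← zpow_mul,
        ← zpow_mul, mul_comm]
    have hwx : m ^ (2 * t) * x = x * m ^ (2 * t) := by
      rcases Int.even_or_odd i with ⟨k, hk⟩ | ⟨k, hk⟩
      · exfalso
        apply hw1
        have e1 : (m ^ (2 * t)) ^ i = 1 := by
          rw [hk, ← two_mul, zpow_mul]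
          have : (m ^ (2 * t)) ^ (2 : ℤ) = 1 := by exact_mod_cast hw2
          rw [this, one_zpow]
        rw [e1] at hconj
        have e2 := congrArg (fun y => x⁻¹ * y * x) hconj
        simp only [mul_one, inv_mul_cancel] at e2
        rw [← e2]; group
      · have e1 : (m ^ (2 * t)) ^ i = m ^ (2 * t) := by
          rw [hk, zpow_add, zpow_mul, zpow_one]
          have : (m ^ (2 * t)) ^ (2 : ℤ) = 1 := by exact_mod_cast hw2
          rw [this, one_zpow, one_mul]
        rw [e1] at hconj
        exact (mul_inv_eq_iff_eq_mul.1 hconj).symm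
    have hwc : m ^ (2 * t) = c := (hfix _ (M.pow_mem hmM _) hwx).resolve_left hw1
    have hMz : M = Subgroup.zpowers m := by
      apply le_antisymm
      · intro y hy
        obtain ⟨i, j, rfl⟩ := hm y hy
        rw [← hwc, ← zpow_natCast, ← zpow_mul, ← zpow_add]
        exact Subgroup.zpow_mem_zpowers _ _
      · rw [Subgroup.zpowers_le]; exact hmM
    refine ⟨M, ?_, hM2⟩
    rw [hMz]
    infer_instance
  · -- `|P| = 8`
    have hm2 : orderOf m ∣ 2 := by
      obtain ⟨k, hk⟩ := IsPGroup.iff_orderOf.1 h2 m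
      have : k < 2 := by
        by_contra hcon
        apply hdiv
        rw [hk]
        exact pow_dvd_pow 2 (by omega : 2 ≤ k)
      rw [hk]
      exact pow_dvd_pow 2 (by omega : k ≤ 1)
    have hD'le : Nat.card D' ≤ 2 := by
      rw [← hmord]
      exact Nat.le_of_dvd (by norm_num) ((orderOf_map_dvd π m).trans hm2)
    have hQle : Nat.card Q ≤ 4 := by
      rw [← D'.card_mul_index, hD'2]; omega
    have hP' : 1 < Nat.card (commutator P) := by
      rw [Subgroup.one_lt_card_iff_ne_bot]; exact hbot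
    have hP8 : Nat.card P = 8 := by omega
    obtain ⟨g, hg⟩ : ∃ g : P, ¬ orderOf g ∣ 2 := by
      by_contra hcon
      push Not at hcon
      apply hbot
      rw [commutator_eq_bot_iff_center_eq_top, Subgroup.eq_top_iff']
      intro g
      rw [Subgroup.mem_center_iff]
      intro h
      exact Commute.of_orderOf_dvd_two hcon h g
    obtain ⟨k, hk⟩ := IsPGroup.iff_orderOf.1 h2 g
    have hk2 : 2 ≤ k := by
      by_contra hcon
      apply hg
      rw [hk]
      exact pow_dvd_pow 2 (by omega : k ≤ 1)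
    have hk3 : k ≤ 3 := by
      by_contra hcon
      have h5 : 2 ^ 4 ∣ 8 := by
        have h6 : orderOf g ∣ 8 := by rw [← hP8]; exact orderOf_dvd_natCard g
        rw [hk] at h6
        exact (pow_dvd_pow 2 (by omega : 4 ≤ k)).trans h6
      norm_num at h5
    rcases Nat.lt_or_ge k 3 with h5 | h5
    · have : k = 2 := by omega
      rw [this] at hk
      exact cyclic_index_two g (by rw [hk, hP8]; norm_num)
    · have : k = 3 := by omega
      rw [this] at hk
      refine cyclic_index_two (g ^ 2) ?_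
      rw [orderOf_pow_of_dvd (by norm_num) (by rw [hk]; norm_num), hk, hP8]
      norm_num

end Pool.Agent.H44.IC
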