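import Pool.Agent.H44.IC.OL

/-! Transfer to Sylow subgroups and Frobenius' theorem. -/

open scoped ComplexConjugate
noncomputable section
namespace Pool.Agent.H44.IC

variable {G : Type*} [Group G] [Fintype G]

open Classical in
/-- average of `F` on the subgroup `K` -/
def avgOn (K : Subgroup G) (F : G → ℂ) : ℂ :=
  (Nat.card K : ℂ)⁻¹ * ∑ g, if g ∈ K then F g else 0

variable (G) in
open Classical in
/-- the set of `p`-elements -/
def pEls (p : ℕ) : Finset G := Finset.univ.filter (fun x => PEl p x)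

theorem mem_pEls {p : ℕ} {x : G} : x ∈ pEls G p ↔ PEl p x := by
  classical
  simp [pEls]

/-- normalized sum over `p`-elements -/
def ell (p : ℕ) (F : G → ℂ) : ℂ := (Fintype.card G : ℂ)⁻¹ * ∑ u ∈ pEls G p, F u

/-- `p`-integral averages on all `p`-subgroups -/
def AvgInt (p : ℕ) [Fact p.Prime] (F : G → ℂ) : Prop :=
  ∀ K : Subgroup G, IsPGroup p K → avgOn K F ∈ Op p

/-- number of fixed cosets -/
def fixn (P : Subgroup G) (g : G) : ℕ := Nat.card (MulAction.fixedBy (G ⧸ P) g)

omit [Fintype G] in
theorem PEl.conj {p : ℕ} {u : G} (h : PEl p u) (x : G) : PEl p (x * u * x⁻¹) := by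
  obtain ⟨n, hn⟩ := h
  refine ⟨n, ?_⟩
  rw [conj_pow, hn]; simp

omit [Fintype G] in
theorem fixn_conj (P : Subgroup G) (x g : G) : fixn P (x * g * x⁻¹) = fixn P g := by
  unfold fixn
  apply Nat.card_congr
  refine ⟨fun y => ⟨x⁻¹ • y.1, ?_⟩, fun y => ⟨x • y.1, ?_⟩, fun y => ?_, fun y => ?_⟩
  · have h1 := y.2
    rw [MulAction.mem_fixedBy] at h1 ⊢
    have h2 : g • x⁻¹ • y.1 = x⁻¹ • ((x * g * x⁻¹) • y.1) := by
      rw [smul_smul, smul_smul]; congr 1; group
    rw [h2, h1]
  · have h1 := y.2
    rw [MulAction.mem_fixedBy] at h1 ⊢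
    have h2 : (x * g * x⁻¹) • x • y.1 = x • (g • y.1) := by
      rw [smul_smul, smul_smul]; congr 1; group
    rw [h2, h1]
  · ext; simp
  · ext; simp

open Classical in
theorem sum_conj_mem_eq (P : Subgroup G) (u : G) :
    ((Finset.univ.filter (fun x : G => x⁻¹ * u * x ∈ P)).card) = Nat.card P * fixn P u := by
  have h := QuotientGroup.card_preimage_mk P (MulAction.fixedBy (G ⧸ P) u)
  rw [fixn, ← h, Nat.card_eq_fintype_card, ← Set.toFinset_card]
  congr 1
  ext x
  simp only [Finset.mem_filter, Finset.mem_univ, true_and, Set.mem_toFinset, Set.mem_preimage,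
    MulAction.mem_fixedBy]
  rw [MulAction.Quotient.smul_mk, smul_eq_mul, eq_comm, QuotientGroup.eq]
  simp [mul_assoc]

theorem avg_fixn {p : ℕ} [Fact p.Prime] (P : Subgroup G) (F : G → ℂ) (hF : IsClassFn F)
    (hA : AvgInt p F) : AvgInt p (fun g => (fixn P g : ℂ) * F g) := by
  classical
  intro K hK
  let s : G ⧸ P → ℂ := fun x => avgOn (K ⊓ MulAction.stabilizer G x) F
  have hcard : ∀ x : G ⧸ P, Nat.card (MulAction.stabilizer K x)
      = Nat.card (K ⊓ MulAction.stabilizer G x : Subgroup G) := by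
    intro x
    apply Nat.card_congr
    refine ⟨fun y => ⟨y.1.1, y.1.2, ?_⟩, fun y => ⟨⟨y.1, y.2.1⟩, ?_⟩, fun y => rfl, fun y => rfl⟩
    · have := y.2
      rw [MulAction.mem_stabilizer_iff] at this
      exact this
    · have := y.2.2
      rw [MulAction.mem_stabilizer_iff]
      exact this
  have hX : Fintype (G ⧸ P) := Fintype.ofFinite _
  have h := orbit_average (Γ := K) (X := G ⧸ P) (Op p).toAddSubgroup s ?_ ?_
  · have e : ∑ x, ((Nat.card (MulAction.stabilizer K x) : ℂ) / (Nat.card K : ℂ)) * s x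
        = avgOn K (fun g => (fixn P g : ℂ) * F g) := by
      have e1 : ∀ x : G ⧸ P, ((Nat.card (MulAction.stabilizer K x) : ℂ) / (Nat.card K : ℂ)) * s x
          = (Nat.card K : ℂ)⁻¹ * ∑ g, if g ∈ K ∧ g • x = x then F g else 0 := by
        intro x
        rw [hcard]
        have h0 : (Nat.card (K ⊓ MulAction.stabilizer G x : Subgroup G) : ℂ) ≠ 0 := by
          exact_mod_cast (Nat.card_pos (α := (K ⊓ MulAction.stabilizer G x : Subgroup G))).ne'
        have e2 : (∑ g, if g ∈ K ⊓ MulAction.stabilizer G x then F g else 0)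
            = ∑ g, if g ∈ K ∧ g • x = x then F g else 0 := by
          apply Finset.sum_congr rfl
          intro g _
          simp only [Subgroup.mem_inf, MulAction.mem_stabilizer_iff]
        simp only [s, avgOn]
        rw [e2]
        field_simp
      rw [Finset.sum_congr rfl (fun x _ => e1 x), ← Finset.mul_sum, Finset.sum_comm, avgOn]
      congr 1
      apply Finset.sum_congr rfl
      intro g _
      by_cases hg : g ∈ K
      · simp only [hg, true_and, if_true]
        rw [← Finset.sum_filter, Finset.sum_const, nsmul_eq_mul]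
        congr 2
        rw [fixn, Nat.card_eq_fintype_card, ← Set.toFinset_card]
        congr 1
        ext x; simp
      · simp [hg]
    rw [e] at h
    exact h
  · intro a x
    simp only [s, avgOn]
    have hc : Nat.card (K ⊓ MulAction.stabilizer G (a • x) : Subgroup G)
        = Nat.card (K ⊓ MulAction.stabilizer G x : Subgroup G) := by
      rw [← hcard, ← hcard]
      rw [MulAction.stabilizer_smul_eq_stabilizer_map_conj]
      exact (Nat.card_congr (Subgroup.equivMapOfInjective _ _
        (MulAut.conj a).injective).toEquiv).symm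
    rw [hc]
    congr 1
    rw [← Equiv.sum_comp (MulAut.conj (a : G)).toEquiv]
    apply Finset.sum_congr rfl
    intro g _
    have h1 : (MulAut.conj (a : G)).toEquiv g = (a : G) * g * (a : G)⁻¹ := rfl
    rw [h1, hF]
    have h2 : ((a : G) * g * (a : G)⁻¹ ∈ K ⊓ MulAction.stabilizer G (a • x)) ↔
        (g ∈ K ⊓ MulAction.stabilizer G x) := by
      rw [Subgroup.mem_inf, Subgroup.mem_inf, MulAction.mem_stabilizer_iff,
        MulAction.mem_stabilizer_iff]
      have h3 : (a : G) * g * (a : G)⁻¹ ∈ K ↔ g ∈ K := by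
        constructor
        · intro h
          have := K.mul_mem (K.mul_mem (K.inv_mem a.2) h) a.2
          simpa [mul_assoc] using this
        · intro h
          exact K.mul_mem (K.mul_mem a.2 h) (K.inv_mem a.2)
      have h4 : ((a : G) * g * (a : G)⁻¹) • (a • x) = a • x ↔ g • x = x := by
        have : (a • x : G ⧸ P) = (a : G) • x := rfl
        rw [this, smul_smul, inv_mul_cancel_right, mul_smul, smul_left_cancel_iff]
      rw [h3, h4]
    simp only [h2]
  · intro x
    exact hA _ (hK.to_le inf_le_left)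

theorem avg_fixn_pow {p : ℕ} [Fact p.Prime] (P : Subgroup G) (F : G → ℂ) (hF : IsClassFn F)
    (hA : AvgInt p F) (N : ℕ) : AvgInt p (fun g => F g * (fixn P g : ℂ) ^ N) := by
  induction N with
  | zero => simpa using hA
  | succ N ih =>
    have := avg_fixn P (fun g => F g * (fixn P g : ℂ) ^ N) (fun x g => by
      simp only [fixn_conj]; rw [hF]) ih
    have e : (fun g => (fixn P g : ℂ) * (F g * (fixn P g : ℂ) ^ N))
        = (fun g => F g * (fixn P g : ℂ) ^ (N + 1)) := by
      ext g; ring
    rw [e] at this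
    exact this

omit [Fintype G] in
theorem fixn_one (P : Subgroup G) : fixn P 1 = P.index := by
  unfold fixn
  rw [Subgroup.index]
  apply Nat.card_congr
  refine ⟨fun y => y.1, fun y => ⟨y, by simp⟩, fun y => rfl, fun y => rfl⟩

/-- Fixed point counts of `p`-elements on cosets of a Sylow `p`-subgroup are prime to `p`. -/
theorem not_dvd_fixn {p : ℕ} [hp : Fact p.Prime] (P : Sylow p G) {u : G} (hu : PEl p u) :
    ¬ p ∣ fixn (P : Subgroup G) u := by
  classical
  have hK : IsPGroup p (Subgroup.zpowers u) := by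
    rintro ⟨y, k, rfl⟩
    obtain ⟨n, hn⟩ := hu
    refine ⟨n, ?_⟩
    ext
    have h1 : ((u ^ k) ^ p ^ n : G) = 1 := by
      rw [← zpow_natCast, ← zpow_mul, mul_comm, zpow_mul, zpow_natCast, hn, one_zpow]
    exact h1
  have h := hK.card_modEq_card_fixedPoints (G ⧸ (P : Subgroup G))
  have h2 : Nat.card (MulAction.fixedPoints (Subgroup.zpowers u) (G ⧸ (P : Subgroup G)))
      = fixn (P : Subgroup G) u := by
    unfold fixn
    apply Nat.card_congr
    refine ⟨fun y => ⟨y.1, ?_⟩, fun y => ⟨y.1, ?_⟩, fun y => rfl, fun y => rfl⟩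
    · exact y.2 ⟨u, Subgroup.mem_zpowers u⟩
    · rintro ⟨_, k, rfl⟩
      have hy := y.2
      rw [MulAction.mem_fixedBy] at hy
      have h4 : u ∈ MulAction.stabilizer G (y.1 : G ⧸ (P : Subgroup G)) := hy
      exact (MulAction.stabilizer G (y.1 : G ⧸ (P : Subgroup G))).zpow_mem h4 k
  intro hd
  rw [← h2] at hd
  have h3 : p ∣ Nat.card (G ⧸ (P : Subgroup G)) := (h.dvd_iff (dvd_refl p)).2 hd
  have := P.not_dvd_index
  rw [Subgroup.index] at this
  exact this h3

/-- sum over `p`-elements against fixed point counts -/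
theorem sum_fixn {p : ℕ} [hp : Fact p.Prime] (P : Sylow p G) (H : G → ℂ) (hH : IsClassFn H) :
    ell p (fun u => H u * (fixn (P : Subgroup G) u : ℂ)) = avgOn (P : Subgroup G) H := by
  classical
  have hP0 : (Nat.card P : ℂ) ≠ 0 := by exact_mod_cast (Nat.card_pos (α := P)).ne'
  have hG0 : (Fintype.card G : ℂ) ≠ 0 := by exact_mod_cast (Fintype.card_pos (α := G)).ne'
  unfold ell avgOn
  have key : (Nat.card P : ℂ) * ∑ u ∈ pEls G p, H u * (fixn (P : Subgroup G) u : ℂ)
      = (Fintype.card G : ℂ) * ∑ g, if g ∈ (P : Subgroup G) then H g else 0 := by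
    rw [Finset.mul_sum]
    have e1 : ∀ u ∈ pEls G p, (Nat.card P : ℂ) * (H u * (fixn (P : Subgroup G) u : ℂ))
        = ∑ x : G, if x⁻¹ * u * x ∈ (P : Subgroup G) then H u else 0 := by
      intro u _
      rw [← Finset.sum_filter, Finset.sum_const, nsmul_eq_mul, sum_conj_mem_eq]
      push_cast
      have : (Nat.card ↥(P : Subgroup G) : ℂ) = (Nat.card P : ℂ) := rfl
      rw [this]
      ring
    rw [Finset.sum_congr rfl e1, Finset.sum_comm]
    have e2 : ∀ x : G, (∑ u ∈ pEls G p, if x⁻¹ * u * x ∈ (P : Subgroup G) then H u else 0)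
        = ∑ g, if g ∈ (P : Subgroup G) then H g else 0 := by
      intro x
      have e3 : (∑ u ∈ pEls G p, if x⁻¹ * u * x ∈ (P : Subgroup G) then H u else 0)
          = ∑ u, if x⁻¹ * u * x ∈ (P : Subgroup G) then H u else 0 := by
        apply Finset.sum_subset (Finset.subset_univ _)
        intro u _ hu
        rw [if_neg]
        intro h
        apply hu
        rw [mem_pEls]
        obtain ⟨n, hn⟩ := P.2 ⟨_, h⟩
        have h5 : (x⁻¹ * u * x) ^ p ^ n = 1 := by
          have := congrArg Subtype.val hn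
          simpa using this
        have h6 := PEl.conj (p := p) ⟨n, h5⟩ x
        have h7 : x * (x⁻¹ * u * x) * x⁻¹ = u := by group
        rwa [h7] at h6
      rw [e3, ← Equiv.sum_comp (MulAut.conj x).toEquiv]
      apply Finset.sum_congr rfl
      intro g _
      have h1 : (MulAut.conj x).toEquiv g = x * g * x⁻¹ := rfl
      rw [h1, hH]
      have h7 : x⁻¹ * (x * g * x⁻¹) * x = g := by group
      rw [h7]
    rw [Finset.sum_congr rfl (fun x _ => e2 x), Finset.sum_const, nsmul_eq_mul, Finset.card_univ]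
  have hP1 : (Nat.card ↥(P : Subgroup G) : ℂ) = (Nat.card P : ℂ) := rfl
  rw [hP1]
  field_simp
  linear_combination key

/-- transfer modulo `p`-integers: for class functions with `p`-integral values on `p`-elements the
normalized sum over `p`-elements is congruent to the average on a Sylow subgroup of the product
with a power of the fixed point character. -/
theorem transfer_mod {p : ℕ} [hp : Fact p.Prime] (P : Sylow p G) :
    ∃ N : ℕ, ∀ F : G → ℂ, IsClassFn F → (∀ u, PEl p u → F u ∈ Op p) →
      ell p F - avgOn (P : Subgroup G) (fun g => F g * (fixn (P : Subgroup G) g : ℂ) ^ N) ∈ Op p := by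
  classical
  set n := (Fintype.card G).factorization p with hn
  have hφ : 0 < Nat.totient (p ^ n) := Nat.totient_pos.2 (pow_pos hp.out.pos n)
  obtain ⟨N, hN⟩ : ∃ N, Nat.totient (p ^ n) = N + 1 := ⟨_, (Nat.succ_pred_eq_of_pos hφ).symm⟩
  refine ⟨N, fun F hF hval => ?_⟩
  rw [← sum_fixn P (fun g => F g * (fixn (P : Subgroup G) g : ℂ) ^ N) (fun x g => by
      simp only [fixn_conj]; rw [hF])]
  unfold ell
  rw [← mul_sub, ← Finset.sum_sub_distrib, Finset.mul_sum]
  apply Subring.sum_mem
  intro u hu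
  rw [mem_pEls] at hu
  have hb := not_dvd_fixn P hu
  have hcop : Nat.Coprime (fixn (P : Subgroup G) u) (p ^ n) := by
    apply Nat.Coprime.pow_right
    exact ((Nat.Prime.coprime_iff_not_dvd hp.out).2 hb).symm
  have h1 := Nat.ModEq.pow_totient hcop
  rw [hN] at h1
  have h2 : ((p ^ n : ℕ) : ℤ) ∣ (1 : ℤ) - ((fixn (P : Subgroup G) u : ℤ)) ^ (N + 1) := by
    have := (Nat.modEq_iff_dvd).1 h1
    push_cast at this ⊢
    exact this
  have h3 : (Fintype.card G : ℂ)⁻¹ * (F u - F u * (fixn (P : Subgroup G) u : ℂ) ^ N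
        * (fixn (P : Subgroup G) u : ℂ))
      = F u * ((((1 : ℤ) - ((fixn (P : Subgroup G) u : ℤ)) ^ (N + 1) : ℤ) : ℂ)
        / ((Fintype.card G : ℕ) : ℂ)) := by
    push_cast
    ring
  rw [h3]
  refine mul_mem (hval u hu) (Op.div_mem' Fintype.card_ne_zero ?_)
  rw [← hn]
  exact_mod_cast h2

/-- transfer: `p`-integrality of the normalized sum over `p`-elements -/
theorem transfer {p : ℕ} [hp : Fact p.Prime] (F : G → ℂ) (hF : IsClassFn F)
    (hval : ∀ u, PEl p u → F u ∈ Op p) (hA : AvgInt p F) : ell p F ∈ Op p := by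
  obtain ⟨P⟩ : Nonempty (Sylow p G) := inferInstance
  obtain ⟨N, hN⟩ := transfer_mod P
  have h1 := hN F hF hval
  have h2 := avg_fixn_pow (P : Subgroup G) F hF hA N (P : Subgroup G) P.2
  have := add_mem h1 h2
  simpa using this

/-- Frobenius: the number of `p`-elements divided by the order is `p`-integral -/
theorem frobenius_count {p : ℕ} [hp : Fact p.Prime] :
    ell p (fun _ : G => (1 : ℂ)) ∈ Op p := by
  classical
  apply transfer _ (fun x g => rfl) (fun u _ => one_mem _)
  intro K _
  have : avgOn K (fun _ : G => (1 : ℂ)) = 1 := by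
    unfold avgOn
    rw [← Finset.sum_filter, Finset.sum_const, nsmul_eq_mul, mul_one]
    have h1 : ((Finset.univ.filter (fun g => g ∈ K)).card) = Nat.card K := by
      rw [Nat.card_eq_fintype_card, Fintype.card_subtype]
    rw [h1]
    have h0 : (Nat.card K : ℂ) ≠ 0 := by exact_mod_cast (Nat.card_pos (α := K)).ne'
    exact inv_mul_cancel₀ h0
  rw [this]
  exact one_mem _

end Pool.Agent.H44.IC
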